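import Pool.Agent.MP42.Geo
import Pool.Agent.Helper55.UNF.Pat

/-!
# Refinements of refinements; the refinement of an orthogonal polyhedron
-/

set_option autoImplicit false
set_option linter.unusedSectionVars false

namespace Pool.Agent.MP42H

open Pool.Agent.Helper55.UNF Pool.Agent.Helper55.UNF.GridSolid

lemma gridSolid_ext {P Q : GridSolid} (h1 : P.crd = Q.crd) (h2 : P.cells = Q.cells) : P = Q := by
  obtain ⟨c, m, s⟩ := P
  obtain ⟨c', m', s'⟩ := Q
  simp only at h1 h2
  subst h1; subst h2
  rfl

theorem refine_refine (P : GridSolid) {a b : ℕ} (ha : 0 < a) (hb : 0 < b) :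
    (P.refine a ha).refine b hb = P.refine (a * b) (Nat.mul_pos ha hb) := by
  have ha' : (0 : ℤ) < a := by exact_mod_cast ha
  have hb' : (0 : ℤ) < b := by exact_mod_cast hb
  have haR : (0 : ℝ) < a := by exact_mod_cast ha
  have hbR : (0 : ℝ) < b := by exact_mod_cast hb
  have hdiv : ∀ n : ℤ, n / (b : ℤ) / (a : ℤ) = n / ((a * b : ℕ) : ℤ) := by
    intro n
    rw [Int.ediv_ediv_of_nonneg hb'.le]
    push_cast
    rw [mul_comm (b : ℤ) a]
  apply gridSolid_ext
  · funext i n
    have key : ∀ m : ℤ, (P.refine a ha).crd i m = P.crd i (m / (a : ℤ)) +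
        ((m % (a : ℤ) : ℤ) : ℝ) / (a : ℝ) * (P.crd i (m / (a : ℤ) + 1) - P.crd i (m / (a : ℤ))) :=
      fun m => rfl
    show (P.refine a ha).crd i (n / (b : ℤ)) + ((n % (b : ℤ) : ℤ) : ℝ) / (b : ℝ) *
        ((P.refine a ha).crd i (n / (b : ℤ) + 1) - (P.refine a ha).crd i (n / (b : ℤ))) =
      P.crd i (n / ((a * b : ℕ) : ℤ)) + ((n % ((a * b : ℕ) : ℤ) : ℤ) : ℝ) / ((a * b : ℕ) : ℝ) *
        (P.crd i (n / ((a * b : ℕ) : ℤ) + 1) - P.crd i (n / ((a * b : ℕ) : ℤ)))
    have e1 : (P.refine a ha).crd i (n / (b : ℤ) + 1) = P.crd i (n / (b : ℤ) / (a : ℤ)) +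
        (((n / (b : ℤ)) % (a : ℤ) + 1 : ℤ) : ℝ) / (a : ℝ) *
        (P.crd i (n / (b : ℤ) / (a : ℤ) + 1) - P.crd i (n / (b : ℤ) / (a : ℤ))) := by
      rw [key]
      set N := n / (b : ℤ) with hN
      have h1 := Int.mul_ediv_add_emod N a
      have h2 := Int.emod_nonneg N ha'.ne'
      have h3 := Int.emod_lt_of_pos N ha'
      rcases lt_or_ge (N % (a : ℤ) + 1) a with h | h
      · have e2 : (N + 1) / (a : ℤ) = N / (a : ℤ) := by
          conv_lhs => rw [← h1]
          rw [add_assoc, Int.add_comm, Int.add_mul_ediv_left _ _ ha'.ne',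
            Int.ediv_eq_zero_of_lt (by omega) h, zero_add]
        have e3 : (N + 1) % (a : ℤ) = N % (a : ℤ) + 1 := by
          have h4 := Int.mul_ediv_add_emod (N + 1) a
          rw [e2] at h4
          linarith
        rw [e2, e3]
      · have h5 : N % (a : ℤ) + 1 = a := by omega
        have h6 : N + 1 = (a : ℤ) * (N / (a : ℤ) + 1) := by
          rw [mul_add, mul_one]; linarith
        have e2 : (N + 1) / (a : ℤ) = N / (a : ℤ) + 1 := by
          rw [h6, Int.mul_ediv_cancel_left _ ha'.ne']
        have e3 : (N + 1) % (a : ℤ) = 0 := by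
          rw [h6]; exact Int.mul_emod_right _ _
        rw [e2, e3, h5]
        push_cast
        rw [div_self haR.ne']
        ring
    have e4 : n % ((a * b : ℕ) : ℤ) = (b : ℤ) * ((n / (b : ℤ)) % (a : ℤ)) + n % (b : ℤ) := by
      have h1 := Int.mul_ediv_add_emod n b
      have h2 := Int.mul_ediv_add_emod (n / (b : ℤ)) a
      have h3 := Int.mul_ediv_add_emod n ((a * b : ℕ) : ℤ)
      rw [← hdiv] at h3
      have h4 : (b : ℤ) * (n / (b : ℤ)) = (b : ℤ) * ((a : ℤ) * (n / (b : ℤ) / (a : ℤ))) +
          (b : ℤ) * ((n / (b : ℤ)) % (a : ℤ)) := by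
        rw [← mul_add, h2]
      have h5 : (((a * b : ℕ) : ℤ)) * (n / (b : ℤ) / (a : ℤ)) =
          (b : ℤ) * ((a : ℤ) * (n / (b : ℤ) / (a : ℤ))) := by
        push_cast; ring
      linarith
    rw [e1, key, ← hdiv, e4]
    push_cast
    field_simp
    ring
  · ext c
    rw [mem_refine, mem_refine, mem_refine]
    have : (fun i => c i / (b : ℤ) / (a : ℤ)) = fun i => c i / ((a * b : ℕ) : ℤ) := by
      funext i; exact hdiv _
    rw [this]

variable {P : GridSolid} {k : ℕ}

/-! ## Connected surfaces -/

lemma exists_st (f : P.Facet) : ∃ s : P.FSt, s.facet = f := by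
  obtain ⟨⟨c, d⟩, hf⟩ := f
  by_cases h : d.1 = 0
  · exact ⟨⟨⟨c, d, (1, true)⟩, hf, by show d.1 ≠ (1 : Fin 3); rw [h]; decide⟩, rfl⟩
  · exact ⟨⟨⟨c, d, (0, true)⟩, hf, h⟩, rfl⟩

lemma reach_zero (hk : 0 < k) (s : P.FSt) : ∀ (x y : ℕ) (hx : x < k) (hy : y < k),
    (P.refine k hk).surfaceGraph.Reachable (sub hk s 0 0 hk hk).facet (sub hk s x y hx hy).facet := by
  have step : ∀ t : (P.refine k hk).FSt,
      (P.refine k hk).surfaceGraph.Reachable t.facet t.stE.facet := fun t =>
    SimpleGraph.Adj.reachable (FSt.adj_stE t)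
  have hrow : ∀ (s : P.FSt) (y : ℕ) (hy : y < k) (x : ℕ) (hx : x < k),
      (P.refine k hk).surfaceGraph.Reachable (sub hk s 0 y hk hy).facet
        (sub hk s x y hx hy).facet := by
    intro s y hy x
    induction x with
    | zero => intro _; exact SimpleGraph.Reachable.refl _
    | succ x ih =>
      intro hx
      refine (ih (by omega)).trans ?_
      have h1 := step (sub hk s x y (by omega) hy)
      rw [sub_stE_mid s hx hy] at h1
      exact h1
  intro x y hx hy
  refine SimpleGraph.Reachable.trans ?_ (hrow s y hy x hx)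
  -- the column `x = 0` is a row of the turned state
  have e : ∀ (y : ℕ) (hy : y < k), (sub hk s 0 y hk hy).facet =
      (sub hk s.rL y (k - 1 - 0) hy (by omega)).facet := by
    intro y hy
    rw [← FSt.facet_rL (sub hk s 0 y hk hy), sub_rL s hk hy]
  rw [e 0 hk, e y hy]
  exact hrow s.rL (k - 1 - 0) (by omega) y hy

lemma reach_stE (hk : 0 < k) (s : P.FSt) (x y : ℕ) (hx : x < k) (hy : y < k) (x' y' : ℕ)
    (hx' : x' < k) (hy' : y' < k) :
    (P.refine k hk).surfaceGraph.Reachable (sub hk s x y hx hy).facet
      (sub hk s.stE x' y' hx' hy').facet := by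
  have h1 : (P.refine k hk).surfaceGraph.Reachable (sub hk s (k - 1) 0 (by omega) hk).facet
      (sub hk s (k - 1) 0 (by omega) hk).stE.facet := SimpleGraph.Adj.reachable (FSt.adj_stE _)
  rw [sub_stE_end s hk] at h1
  exact ((reach_zero hk s x y hx hy).symm.trans (reach_zero hk s _ _ _ _)).trans
    (h1.trans (reach_zero hk s.stE x' y' hx' hy'))

theorem connected_refine (hP : P.IsOrthogonalPolyhedron) (hk : 0 < k) :
    (P.refine k hk).surfaceGraph.Connected := by
  have hco : ∀ f : (P.refine k hk).Facet, ∀ s : P.FSt, s.facet = co hk f →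
      ∃ (x y : ℕ) (hx : x < k) (hy : y < k), (sub hk s x y hx hy).facet = f := by
    intro f s hs
    exact ⟨_, _, ix_lt hk _ _, ix_lt hk _ _, sub_ix hk s f hs.symm⟩
  have key : ∀ F G : P.Facet, P.surfaceGraph.Reachable F G → ∀ f g : (P.refine k hk).Facet,
      co hk f = F → co hk g = G → (P.refine k hk).surfaceGraph.Reachable f g := by
    intro F G h
    obtain ⟨w⟩ := h
    induction w with
    | nil =>
      intro f g hf hg
      obtain ⟨s, hs⟩ := exists_st (co hk f)
      obtain ⟨x, y, hx, hy, rfl⟩ := hco f s hs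
      obtain ⟨x', y', hx', hy', rfl⟩ := hco g s (by rw [hs, hf, hg])
      exact (reach_zero hk s x y hx hy).symm.trans (reach_zero hk s x' y' hx' hy')
    | @cons u v w hadj _ ih =>
      intro f g hf hg
      obtain ⟨s, hs1, hs2⟩ := Pool.Agent.MP42.Geo.exists_state_of_adj hP.1 hadj
      obtain ⟨x, y, hx, hy, rfl⟩ := hco f s (by rw [hs1, hf])
      refine (reach_stE hk s x y hx hy 0 0 hk hk).trans ?_
      exact ih _ _ (by rw [co_sub hk s.stE hk hk, hs2]) hg
  have hne : Nonempty (P.refine k hk).Facet := by
    obtain ⟨f⟩ := hP.2.nonempty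
    obtain ⟨s, -⟩ := exists_st f
    exact ⟨(sub hk s 0 0 hk hk).facet⟩
  exact ⟨fun f g => key _ _ (hP.2.preconnected _ _) f g rfl rfl⟩

/-! ## Manifolds -/

/-- flip one coordinate -/
def fl (a : Fin 3) (ε : Fin 3 → Bool) : Fin 3 → Bool := Function.update ε a (!ε a)

lemma fl_self (a : Fin 3) (ε : Fin 3 → Bool) : fl a ε a = !ε a := by
  unfold fl; rw [Function.update_self]

lemma fl_ne {a b : Fin 3} (ε : Fin 3 → Bool) (h : b ≠ a) : fl a ε b = ε b := by
  unfold fl; rw [Function.update_of_ne h]

lemma adj_fl (a : Fin 3) (ε : Fin 3 → Bool) : cubeGraph.Adj ε (fl a ε) := by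
  refine ⟨a, ?_, fun b hb => (fl_ne ε hb).symm⟩
  rw [fl_self]
  cases ε a <;> decide

/-- the projection that forgets the coordinates outside `D` -/
def prD (D : Fin 3 → Bool) (ε : Fin 3 → Bool) : Fin 3 → Bool := fun a => if D a then ε a else true

lemma prD_fl_out {D : Fin 3 → Bool} {a : Fin 3} (h : D a = false) (ε : Fin 3 → Bool) :
    prD D (fl a ε) = prD D ε := by
  funext b
  unfold prD
  by_cases hb : b = a
  · subst hb; rw [h]; rfl
  · rw [fl_ne ε hb]

lemma prD_fl_in {D : Fin 3 → Bool} {a : Fin 3} (h : D a = true) (ε : Fin 3 → Bool) :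
    prD D (fl a ε) = fl a (prD D ε) := by
  funext b
  by_cases hb : b = a
  · subst hb; rw [fl_self]; unfold prD; rw [h]; simp only [if_true]; rw [fl_self]
  · rw [fl_ne _ hb]; unfold prD; rw [fl_ne ε hb]

lemma three (a : Fin 3) : ∃ b c : Fin 3, a ≠ b ∧ a ≠ c ∧ b ≠ c ∧ ∀ x, x = a ∨ x = b ∨ x = c := by
  revert a; decide

lemma slice_conn (S : Set (Fin 3 → Bool)) (D : Fin 3 → Bool)
    (h3 : (cubeGraph.induce S).Preconnected)
    (hedge : ∀ (ε : Fin 3 → Bool) (a b : Fin 3), a ≠ b → ε ∈ S → fl a (fl b ε) ∈ S →
      fl a ε ∈ S ∨ fl b ε ∈ S) :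
    (cubeGraph.induce {ε | prD D ε ∈ S}).Preconnected := by
  by_cases hD : ∃ a₀, D a₀ = false
  · obtain ⟨a₀, h0⟩ := hD
    have key : ∀ (n : ℕ) (ε δ : {ε | prD D ε ∈ S}),
        (Finset.univ.filter fun a => ε.1 a ≠ δ.1 a).card = n →
        (cubeGraph.induce {ε | prD D ε ∈ S}).Reachable ε δ := by
      intro n
      induction n using Nat.strong_induction_on with
      | _ n ih =>
        intro ε δ hn
        have hflip : ∀ (a : Fin 3) (h : prD D (fl a ε.1) ∈ S), ε.1 a ≠ δ.1 a →
            (cubeGraph.induce {ε | prD D ε ∈ S}).Reachable ε δ := by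
          intro a h hne
          have h1 : (cubeGraph.induce {ε | prD D ε ∈ S}).Adj ε ⟨fl a ε.1, h⟩ := adj_fl a ε.1
          refine h1.reachable.trans (ih _ ?_ ⟨fl a ε.1, h⟩ δ rfl)
          rw [← hn]
          apply Finset.card_lt_card
          refine ⟨?_, ?_⟩
          · intro b hb
            rw [Finset.mem_filter] at hb ⊢
            refine ⟨Finset.mem_univ _, ?_⟩
            by_cases hba : b = a
            · rw [hba]; exact hne
            · have := hb.2
              simp only at this
              rwa [fl_ne _ hba] at this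
          · intro hsub
            have h2 : a ∈ Finset.univ.filter fun a => ε.1 a ≠ δ.1 a :=
              Finset.mem_filter.2 ⟨Finset.mem_univ _, hne⟩
            have h3 := (Finset.mem_filter.1 (hsub h2)).2
            simp only at h3
            rw [fl_self] at h3
            revert h3 hne
            cases ε.1 a <;> cases δ.1 a <;> decide
        by_cases hout : ∃ a, D a = false ∧ ε.1 a ≠ δ.1 a
        · obtain ⟨a, ha, hne⟩ := hout
          exact hflip a (by rw [prD_fl_out ha]; exact ε.2) hne
        · push Not at hout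
          obtain ⟨b, c, h1, h2, h3', h4⟩ := three a₀
          by_cases hb : ε.1 b = δ.1 b
          · by_cases hc : ε.1 c = δ.1 c
            · have : ε = δ := by
                apply Subtype.ext
                funext x
                rcases h4 x with rfl | rfl | rfl
                · exact hout _ h0
                · exact hb
                · exact hc
              rw [this]
            · have e : δ.1 = fl c ε.1 := by
                funext x
                rcases h4 x with rfl | rfl | rfl
                · rw [fl_ne _ h2]; exact (hout _ h0).symm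
                · rw [fl_ne _ h3']; exact hb.symm
                · rw [fl_self]; revert hc; cases ε.1 x <;> cases δ.1 x <;> decide
              exact hflip c (by rw [← e]; exact δ.2) hc
          · by_cases hc : ε.1 c = δ.1 c
            · have e : δ.1 = fl b ε.1 := by
                funext x
                rcases h4 x with rfl | rfl | rfl
                · rw [fl_ne _ h1]; exact (hout _ h0).symm
                · rw [fl_self]; revert hb; cases ε.1 x <;> cases δ.1 x <;> decide
                · rw [fl_ne _ h3'.symm]; exact hc.symm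
              exact hflip b (by rw [← e]; exact δ.2) hb
            · have hDb : D b = true := by
                by_contra h; exact hb (hout b (by simpa using h))
              have hDc : D c = true := by
                by_contra h; exact hc (hout c (by simpa using h))
              have e : δ.1 = fl b (fl c ε.1) := by
                funext x
                rcases h4 x with rfl | rfl | rfl
                · rw [fl_ne _ h1, fl_ne _ h2]; exact (hout _ h0).symm
                · rw [fl_self, fl_ne _ h3']; revert hb; cases ε.1 x <;> cases δ.1 x <;> decide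
                · rw [fl_ne _ h3'.symm, fl_self]; revert hc; cases ε.1 x <;> cases δ.1 x <;> decide
              have h5 := hedge (prD D ε.1) b c h3' ε.2 (by
                rw [← prD_fl_in hDc, ← prD_fl_in hDb, ← e]; exact δ.2)
              rcases h5 with h5 | h5
              · exact hflip b (by rw [prD_fl_in hDb]; exact h5) hb
              · exact hflip c (by rw [prD_fl_in hDc]; exact h5) hc
    exact fun ε δ => key _ ε δ rfl
  · push Not at hD
    have e : {ε | prD D ε ∈ S} = S := by
      ext ε
      have : prD D ε = ε := by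
        funext a
        unfold prD
        rw [if_pos (by simpa using hD a)]
      rw [Set.mem_ofPred_eq, this]
    rw [e]
    exact h3

lemma fl_fl (a : Fin 3) (ε : Fin 3 → Bool) : fl a (fl a ε) = ε := by
  funext b
  by_cases h : b = a
  · subst h; rw [fl_self, fl_self, Bool.not_not]
  · rw [fl_ne _ h, fl_ne _ h]

lemma fl_comm {a b : Fin 3} (h : a ≠ b) (ε : Fin 3 → Bool) : fl a (fl b ε) = fl b (fl a ε) := by
  funext x
  by_cases h1 : x = a
  · subst h1; rw [fl_self, fl_ne _ h, fl_ne _ h, fl_self]
  · by_cases h2 : x = b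
    · subst h2; rw [fl_ne _ h1, fl_self, fl_self, fl_ne _ h1]
    · rw [fl_ne _ h1, fl_ne _ h2, fl_ne _ h2, fl_ne _ h1]

lemma corner_fl (w : Fin 3 → ℤ) (a : Fin 3) (ε : Fin 3 → Bool) :
    corner w (fl a ε) = shift (corner w ε) (a, !ε a) := by
  funext b
  by_cases h : b = a
  · subst h
    unfold corner shift
    rw [fl_self, Function.update_self]
    by_cases hb : ε b = true
    · simp only [hb, Bool.not_true, Bool.false_eq_true, if_false, if_true]; ring
    · have hb' : ε b = false := by simpa using hb
      simp only [hb', Bool.not_false, Bool.false_eq_true, if_false, if_true]; ring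
  · unfold corner shift
    rw [fl_ne _ h, Function.update_of_ne h]

lemma corner_edge (hM : P.IsManifold) (w : Fin 3 → ℤ) (ε : Fin 3 → Bool) (a b : Fin 3)
    (hab : a ≠ b) (h1 : corner w ε ∈ P.cells) (h2 : corner w (fl a (fl b ε)) ∈ P.cells) :
    corner w (fl a ε) ∈ P.cells ∨ corner w (fl b ε) ∈ P.cells := by
  rw [fl_comm hab, corner_fl, corner_fl, fl_ne _ hab.symm] at h2
  rw [corner_fl, corner_fl]
  exact hM.1 _ a b _ _ hab h1 h2

lemma dv_shift (hk : 0 < k) (c : Fin 3 → ℤ) (w : Dir) :
    (fun a => shift c w a / (k : ℤ)) = (fun a => c a / (k : ℤ)) ∨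
    (shift c w w.1 / (k : ℤ) = c w.1 / (k : ℤ) + (if w.2 then 1 else -1)) := by
  have hk' : (0 : ℤ) < k := by exact_mod_cast hk
  by_cases h : shift c w w.1 / (k : ℤ) = c w.1 / (k : ℤ)
  · left
    funext a
    by_cases ha : a = w.1
    · rw [ha]; exact h
    · rw [shift_ne _ _ ha]
  · right
    rw [shift_same] at h ⊢
    have h1 := Int.mul_ediv_add_emod (c w.1) k
    have h2 := Int.emod_nonneg (c w.1) hk'.ne'
    have h3 := Int.emod_lt_of_pos (c w.1) hk'
    have h4 := Int.mul_ediv_add_emod (c w.1 + (if w.2 then 1 else -1)) k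
    have h5 := Int.emod_nonneg (c w.1 + (if w.2 then 1 else -1)) hk'.ne'
    have h6 := Int.emod_lt_of_pos (c w.1 + (if w.2 then 1 else -1)) hk'
    set q := c w.1 / (k : ℤ) with hq
    set q' := (c w.1 + (if w.2 then 1 else -1)) / (k : ℤ) with hq'
    by_cases hw : w.2 = true
    · simp only [hw, if_true] at h4 h5 h6 h ⊢
      have : (k : ℤ) * (q' - q) = (c w.1 % k) + 1 - (c w.1 + 1) % k := by linarith
      have h7 : q' - q < 2 := by
        by_contra h8
        have : (k : ℤ) * 2 ≤ (k : ℤ) * (q' - q) := by
          apply mul_le_mul_of_nonneg_left (by omega) hk'.le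
        omega
      have h8 : -1 < q' - q := by
        by_contra h9
        have : (k : ℤ) * (q' - q) ≤ (k : ℤ) * (-1) := by
          apply mul_le_mul_of_nonneg_left (by omega) hk'.le
        omega
      omega
    · have hw' : w.2 = false := by simpa using hw
      simp only [hw', Bool.false_eq_true, if_false] at h4 h5 h6 h ⊢
      have : (k : ℤ) * (q' - q) = (c w.1 % k) + (-1) - (c w.1 + (-1)) % k := by linarith
      have h7 : q' - q < 1 := by
        by_contra h8
        have : (k : ℤ) * 1 ≤ (k : ℤ) * (q' - q) := by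
          apply mul_le_mul_of_nonneg_left (by omega) hk'.le
        omega
      have h8 : -2 < q' - q := by
        by_contra h9
        have : (k : ℤ) * (q' - q) ≤ (k : ℤ) * (-2) := by
          apply mul_le_mul_of_nonneg_left (by omega) hk'.le
        omega
      omega

lemma dv_corner (hk : 0 < k) (v : Fin 3 → ℤ) (ε : Fin 3 → Bool) :
    (fun a => corner v ε a / (k : ℤ)) =
      corner (fun a => v a / (k : ℤ)) (prD (fun a => decide ((k : ℤ) ∣ v a)) ε) := by
  have hk' : (0 : ℤ) < k := by exact_mod_cast hk
  funext a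
  unfold corner prD
  by_cases hd : (k : ℤ) ∣ v a
  · by_cases he : ε a = true
    · simp [he]
    · have he' : ε a = false := by simpa using he
      have h1 : (v a - 1) / (k : ℤ) = v a / (k : ℤ) - 1 := by
        obtain ⟨q, hq⟩ := hd
        rw [hq, Int.mul_ediv_cancel_left q hk'.ne',
          show (k : ℤ) * q - 1 = (k - 1) + k * (q - 1) by ring,
          Int.add_mul_ediv_left _ _ hk'.ne', Int.ediv_eq_zero_of_lt (by omega) (by omega)]
        ring
      simp [he', h1, hd]
  · have h0 : v a % (k : ℤ) ≠ 0 := fun h => hd (Int.dvd_of_emod_eq_zero h)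
    have h1 := Int.mul_ediv_add_emod (v a) k
    have h2 := Int.emod_nonneg (v a) hk'.ne'
    have h3 := Int.emod_lt_of_pos (v a) hk'
    have h4 : (v a - 1) / (k : ℤ) = v a / (k : ℤ) := by
      conv_lhs => rw [← h1]
      rw [show (k : ℤ) * (v a / (k : ℤ)) + v a % (k : ℤ) - 1 =
        (v a % (k : ℤ) - 1) + k * (v a / (k : ℤ)) by ring,
        Int.add_mul_ediv_left _ _ hk'.ne', Int.ediv_eq_zero_of_lt (by omega) (by omega)]
      ring
    by_cases he : ε a = true
    · simp [he, hd]
    · simp [he, hd, h4]

theorem isManifold_refine (hM : P.IsManifold) (hk : 0 < k) : (P.refine k hk).IsManifold := by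
  refine ⟨?_, ?_⟩
  · intro c a b s t hab h1 h2
    rw [mem_refine] at h1 h2 ⊢
    rcases dv_shift hk c (a, s) with h | h
    · left; rw [h]; exact h1
    · rcases dv_shift hk c (b, t) with h' | h'
      · right; rw [mem_refine, h']; exact h1
      · have e : (fun x => shift (shift c (a, s)) (b, t) x / (k : ℤ)) =
            shift (shift (fun x => c x / (k : ℤ)) (a, s)) (b, t) := by
          funext x
          by_cases hx : x = b
          · subst hx
            have e1 : shift (shift c (a, s)) (x, t) x = shift c (x, t) x := by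
              have := shift_same (shift c (a, s)) (x, t)
              have h2 := shift_same c (x, t)
              simp only at this h2
              rw [this, h2, shift_ne _ _ (show x ≠ (a, s).1 from hab.symm)]
            have e2 : shift (shift (fun x => c x / (k : ℤ)) (a, s)) (x, t) x =
                c x / (k : ℤ) + (if t then 1 else -1) := by
              have := shift_same (shift (fun x => c x / (k : ℤ)) (a, s)) (x, t)
              simp only at this
              rw [this, shift_ne _ _ (show x ≠ (a, s).1 from hab.symm)]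
            rw [e1, e2]
            exact h'
          · rw [shift_ne _ _ (show x ≠ (b, t).1 from hx), shift_ne _ _ (show x ≠ (b, t).1 from hx)]
            by_cases hxa : x = a
            · subst hxa
              have := shift_same (fun x => c x / (k : ℤ)) (x, s)
              simp only at this
              rw [this]
              exact h
            · rw [shift_ne _ _ (show x ≠ (a, s).1 from hxa),
                shift_ne _ _ (show x ≠ (a, s).1 from hxa)]
        rw [e] at h2
        have e1 : (fun x => shift c (a, s) x / (k : ℤ)) = shift (fun x => c x / (k : ℤ)) (a, s) := by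
          funext x
          by_cases hxa : x = a
          · subst hxa
            have := shift_same (fun x => c x / (k : ℤ)) (x, s)
            simp only at this
            rw [this]
            exact h
          · rw [shift_ne _ _ (show x ≠ (a, s).1 from hxa),
              shift_ne _ _ (show x ≠ (a, s).1 from hxa)]
        have e2 : (fun x => shift c (b, t) x / (k : ℤ)) = shift (fun x => c x / (k : ℤ)) (b, t) := by
          funext x
          by_cases hxa : x = b
          · subst hxa
            have := shift_same (fun x => c x / (k : ℤ)) (x, t)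
            simp only at this
            rw [this]
            exact h'
          · rw [shift_ne _ _ (show x ≠ (b, t).1 from hxa),
              shift_ne _ _ (show x ≠ (b, t).1 from hxa)]
        rw [mem_refine, e1, e2]
        exact hM.1 _ a b s t hab h1 h2
  · intro v
    set w : Fin 3 → ℤ := fun a => v a / (k : ℤ) with hw
    set D : Fin 3 → Bool := fun a => decide ((k : ℤ) ∣ v a) with hD
    have hmem : ∀ ε, corner v ε ∈ (P.refine k hk).cells ↔ corner w (prD D ε) ∈ P.cells := by
      intro ε
      rw [mem_refine, dv_corner hk]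
    have e1 : {ε | corner v ε ∈ (P.refine k hk).cells} =
        {ε | prD D ε ∈ {ε | corner w ε ∈ P.cells}} := by
      ext ε; exact hmem ε
    have e2 : {ε | corner v ε ∉ (P.refine k hk).cells} =
        {ε | prD D ε ∈ {ε | corner w ε ∉ P.cells}} := by
      ext ε; exact not_congr (hmem ε)
    rw [e1, e2]
    refine ⟨slice_conn _ D (hM.2 w).1 ?_, slice_conn _ D (hM.2 w).2 ?_⟩
    · intro ε a b hab h1 h2
      exact corner_edge hM w ε a b hab h1 h2
    · intro ε a b hab h1 h2
      by_contra hcon
      push Not at hcon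
      obtain ⟨h3, h4⟩ := hcon
      simp only [Set.mem_ofPred_eq, not_not] at h3 h4
      have h5 := corner_edge hM w (fl a ε) a b hab h3 (by
        rw [fl_comm hab, fl_fl]; exact h4)
      rw [fl_fl] at h5
      rcases h5 with h5 | h5
      · exact h1 h5
      · rw [← fl_comm hab] at h5
        exact h2 h5

theorem isOrthogonal_refine (hP : P.IsOrthogonalPolyhedron) (hk : 0 < k) :
    (P.refine k hk).IsOrthogonalPolyhedron :=
  ⟨isManifold_refine hP.1 hk, connected_refine hP hk⟩

end Pool.Agent.MP42H
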