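import Pool.Agent.MP42.H.Basic
import Pool.Agent.Helper55.UNF.Sub

/-!
# GRT0: the core rows of a refinement (owner helper83)

The rows `j, .., j + 4` of every unit wall strip of the refinement `P0.refine r` are core rows.
-/

set_option autoImplicit false
set_option linter.unusedSectionVars false

namespace Pool.Agent.MP42H

open Pool.Agent.Helper55.UNF Pool.Agent.Helper55.UNF.GridSolid Pool.Agent.MP42G

/-- rows `j, .., j + 4` of every unit wall strip of the refinement -/
def rowNo (r j : ℕ) (t : (Fin 3 → ℤ) × Dir) : ℕ :=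
  if t.2.1 = 2 then 0 else
    if (j : ℤ) ≤ t.1 2 % r ∧ t.1 2 % r < j + 5 then (t.1 2 % r - j + 1).toNat else 0

lemma rowNo_le5 (r j : ℕ) (t : (Fin 3 → ℤ) × Dir) : rowNo r j t ≤ 5 := by
  unfold rowNo
  split_ifs <;> omega

lemma rowNo_ne {r j : ℕ} {t : (Fin 3 → ℤ) × Dir} (h : rowNo r j t ≠ 0) :
    t.2.1 ≠ 2 ∧ (j : ℤ) ≤ t.1 2 % r ∧ t.1 2 % r < j + 5 := by
  unfold rowNo at h
  split_ifs at h with h1 h2
  · exact absurd rfl h
  · exact ⟨h1, h2⟩
  · exact absurd rfl h

lemma rowNo_cast {r j : ℕ} {t : (Fin 3 → ℤ) × Dir} (h : rowNo r j t ≠ 0) :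
    (rowNo r j t : ℤ) = t.1 2 % r - j + 1 := by
  obtain ⟨h1, h2, h3⟩ := rowNo_ne h
  unfold rowNo
  rw [if_neg h1, if_pos ⟨h2, h3⟩]
  omega

lemma rowNo_eq_iff {r j : ℕ} {t : (Fin 3 → ℤ) × Dir} (h : t.2.1 ≠ 2) {i : ℕ} (hi : 1 ≤ i)
    (hi5 : i ≤ 5) : rowNo r j t = i ↔ t.1 2 % r = j + i - 1 := by
  unfold rowNo
  rw [if_neg h]
  constructor
  · intro h1
    split_ifs at h1 with h2 <;> omega
  · intro h1
    rw [if_pos (by omega)]
    omega

section

variable {P0 : GridSolid} {r : ℕ} {hr : 0 < r}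

/-- the level above inside a unit strip -/
lemma emod_up (hr : 0 < r) {z : ℤ} (h : z % r + 1 < r) :
    (z + 1) / r = z / r ∧ (z + 1) % r = z % r + 1 := by
  have hr' : (0 : ℤ) < r := by exact_mod_cast hr
  have h1 := Int.mul_ediv_add_emod z r
  have h2 := Int.emod_nonneg z hr'.ne'
  have h3 : z + 1 = (z % r + 1) + r * (z / r) := by omega
  have h4 : (z + 1) / r = z / r := by
    rw [h3, Int.add_mul_ediv_left _ _ hr'.ne', Int.ediv_eq_zero_of_lt (by omega) h, zero_add]
  have h5 := Int.mul_ediv_add_emod (z + 1) r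
  rw [h4] at h5
  exact ⟨h4, by omega⟩

lemma shift_up_apply (c : Fin 3 → ℤ) : shift c (2, true) 2 = c 2 + 1 := by
  have := shift_same c (2, true)
  simpa using this

lemma mem_up (hr : 0 < r) {c : Fin 3 → ℤ} (h : c 2 % r + 1 < r) :
    shift c (2, true) ∈ (P0.refine r hr).cells ↔ c ∈ (P0.refine r hr).cells := by
  rw [mem_refine, mem_refine]
  have : (fun a => shift c (2, true) a / (r : ℤ)) = fun a => c a / (r : ℤ) := by
    funext a
    by_cases ha : a = 2
    · subst ha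
      rw [shift_up_apply]
      exact (emod_up hr h).1
    · rw [shift_ne c (2, true) ha]
  rw [this]

/-! ## Steps of states with vertical north -/

lemma V_axes {P : GridSolid} {s : P.FSt} (h : IsV s) : s.1.d.1 ≠ 2 ∧ s.1.e.1 ≠ 2 := by
  have h1 := s.2.2
  unfold IsV at h
  have h' : (cross s.1.d s.1.e).1 = 2 := h
  generalize s.1.d = d at *
  generalize s.1.e = e at *
  clear h
  revert d e
  decide

/-- the step to the east keeps the level -/
lemma V_stE_z {P : GridSolid} {s : P.FSt} (h : IsV s) : s.stE.1.c 2 = s.1.c 2 := by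
  obtain ⟨h1, h2⟩ := V_axes h
  exact P.stepE_third s.1 h1.symm h2.symm

/-- the step to the east does not leave the walls -/
lemma V_stE_wall {P : GridSolid} {s : P.FSt} (h : IsV s) : s.stE.1.d.1 ≠ 2 :=
  (V_axes ((IsV_stE s).2 h)).1

lemma cross_n_e {d e : Dir} (h : d.1 ≠ e.1) {w : Dir} (hn : cross d e = w) :
    opp (cross d w) = e := by
  rw [← hn]; exact cross_cross' d e h

/-- the state above -/
def upSt (t : St) : St := ⟨shift t.c (2, true), t.d, t.e⟩

/-- the step to the north of a state with north up, inside a unit strip -/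
lemma stN_up {s : (P0.refine r hr).FSt} (h : IsU s) (hz : s.1.c 2 % r + 1 < r) :
    s.stN.1 = upSt s.1 := by
  have hV := IsV_of_U h
  obtain ⟨hd, he⟩ := V_axes hV
  have hn : cross s.1.d s.1.e = (2, true) := h
  have h1 : shift s.1.c (2, true) ∈ (P0.refine r hr).cells := (mem_up hr hz).2 s.2.1.1
  have h2 : shift (shift s.1.c (2, true)) s.1.d ∉ (P0.refine r hr).cells := by
    rw [shift_comm _ (show ((2, true) : Dir).1 ≠ s.1.d.1 from hd.symm), mem_up hr]
    · exact s.2.1.2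
    · rw [shift_ne _ _ hd.symm]; exact hz
  show (St.stepE (P0.refine r hr) s.1.rotL).rotR = _
  have h3 : s.1.rotL = ⟨s.1.c, s.1.d, (2, true)⟩ := by
    show (⟨s.1.c, s.1.d, cross s.1.d s.1.e⟩ : St) = _
    rw [hn]
  rw [h3]
  unfold St.stepE
  simp only
  rw [if_neg h2, if_pos h1]
  unfold St.rotR upSt
  simp only
  rw [cross_n_e s.2.2 hn]

/-- a state with north up that stays on the walls -/
lemma U_stN_of_wall {P : GridSolid} {s : P.FSt} (h : IsU s) (hw : s.stN.1.d.1 ≠ 2) :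
    IsU s.stN := by
  have hn : cross s.1.d s.1.e = (2, true) := h
  have h3 : s.1.rotL = ⟨s.1.c, s.1.d, (2, true)⟩ := by
    show (⟨s.1.c, s.1.d, cross s.1.d s.1.e⟩ : St) = _
    rw [hn]
  have h4 : s.stN.1 = (St.stepE P ⟨s.1.c, s.1.d, (2, true)⟩).rotR := by
    rw [← h3]; rfl
  rw [h4] at hw
  show cross s.stN.1.d s.stN.1.e = (2, true)
  rw [h4]
  unfold St.stepE at hw ⊢
  split_ifs at hw ⊢ with a b
  · exact absurd rfl hw
  · show cross s.1.d (opp (cross s.1.d (2, true))) = (2, true)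
    rw [cross_n_e s.2.2 hn, hn]
  · exact absurd rfl hw

lemma stE_up {s : (P0.refine r hr).FSt} (h : IsU s) (hz : s.1.c 2 % r + 1 < r) :
    s.stN.stE.1 = upSt s.stE.1 := by
  obtain ⟨hd, he⟩ := V_axes (IsV_of_U h)
  have h0 := stN_up h hz
  show St.stepE (P0.refine r hr) s.stN.1 = upSt (St.stepE (P0.refine r hr) s.1)
  rw [h0]
  have hmE : shift (shift s.1.c (2, true)) s.1.e ∈ (P0.refine r hr).cells ↔
      shift s.1.c s.1.e ∈ (P0.refine r hr).cells := by
    rw [shift_comm _ (show ((2, true) : Dir).1 ≠ s.1.e.1 from he.symm), mem_up hr]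
    rw [shift_ne _ _ he.symm]; exact hz
  have hmD : shift (shift (shift s.1.c (2, true)) s.1.e) s.1.d ∈ (P0.refine r hr).cells ↔
      shift (shift s.1.c s.1.e) s.1.d ∈ (P0.refine r hr).cells := by
    rw [shift_comm s.1.c (show ((2, true) : Dir).1 ≠ s.1.e.1 from he.symm),
      shift_comm _ (show ((2, true) : Dir).1 ≠ s.1.d.1 from hd.symm), mem_up hr]
    rw [shift_ne _ _ hd.symm, shift_ne _ _ he.symm]; exact hz
  unfold St.stepE upSt
  simp only [hmE, hmD]
  split_ifs
  · simp only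
    rw [shift_comm s.1.c (show ((2, true) : Dir).1 ≠ s.1.e.1 from he.symm),
      shift_comm _ (show ((2, true) : Dir).1 ≠ s.1.d.1 from hd.symm)]
  · simp only
    rw [shift_comm s.1.c (show ((2, true) : Dir).1 ≠ s.1.e.1 from he.symm)]
  · rfl

lemma comm_up {s : (P0.refine r hr).FSt} (h : IsU s) (hz : s.1.c 2 % r + 1 < r) :
    s.stE.stN = s.stN.stE := by
  apply FSt.ext'
  rw [stE_up h hz]
  refine stN_up ((IsU_stE s).2 h) ?_
  rw [V_stE_z (IsV_of_U h)]
  exact hz

/-- the state below a state with north up, inside a unit strip -/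
lemma of_stN_up {s : (P0.refine r hr).FSt} (h : IsU s.stN) (hz : 1 ≤ s.stN.1.c 2 % r) :
    IsU s ∧ s.stN.1 = upSt s.1 ∧ s.1.c 2 % r + 1 = s.stN.1.c 2 % r := by
  have hr' : (0 : ℤ) < r := by exact_mod_cast hr
  obtain ⟨hd, he⟩ := V_axes (IsV_of_U h)
  -- the state below
  set t := s.stN with ht
  have hzz : (t.1.c 2 - 1) % r + 1 = t.1.c 2 % r ∧ (t.1.c 2 - 1) % r + 1 < r := by
    have h1 := Int.emod_lt_of_pos (t.1.c 2) hr'
    have h2 := Int.mul_ediv_add_emod (t.1.c 2) r
    have h3 : t.1.c 2 - 1 = (t.1.c 2 % r - 1) + r * (t.1.c 2 / r) := by omega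
    have h4 : (t.1.c 2 - 1) % r = t.1.c 2 % r - 1 := by
      rw [h3, Int.add_mul_emod_self_left, Int.emod_eq_of_lt (by omega) (by omega)]
    rw [h4]
    constructor <;> omega
  let c' : Fin 3 → ℤ := shift t.1.c (2, false)
  have hc2 : c' 2 = t.1.c 2 - 1 := by
    have h1 : shift t.1.c (2, false) 2 = t.1.c 2 + -1 := shift_same t.1.c (2, false)
    show shift t.1.c (2, false) 2 = _
    omega
  have hz' : c' 2 % r + 1 < r := by rw [hc2]; exact hzz.2
  have hup : shift c' (2, true) = t.1.c := shift_opp t.1.c (2, false)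
  have hc1 : c' ∈ (P0.refine r hr).cells := by
    rw [← mem_up hr hz', hup]; exact t.2.1.1
  have hcd : shift c' t.1.d ∉ (P0.refine r hr).cells := by
    rw [← mem_up hr (by rw [shift_ne _ _ hd.symm]; exact hz'),
      shift_comm _ (show t.1.d.1 ≠ ((2, true) : Dir).1 from hd), hup]
    exact t.2.1.2
  let u : (P0.refine r hr).FSt := ⟨⟨c', t.1.d, t.1.e⟩, ⟨hc1, hcd⟩, t.2.2⟩
  have hu : IsU u := h
  have h5 : u.stN.1 = upSt u.1 := stN_up hu hz'
  have h6 : u.stN = t := by
    apply FSt.ext'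
    rw [h5]
    show (⟨shift c' (2, true), t.1.d, t.1.e⟩ : St) = t.1
    rw [hup]
  have h7 : u = s := pN.injective (show u.stN = s.stN from h6)
  rw [← h7]
  refine ⟨hu, ?_, ?_⟩
  · rw [← h6]; exact h5
  · show c' 2 % r + 1 = _
    rw [hc2]; exact hzz.1

end

/-- The core rows of the refinement. -/
def rowsR (P0 : GridSolid) (r j : ℕ) (hr : 0 < r) (hj : 1 ≤ j) (hj2 : j + 6 ≤ r) :
    Rows (P0.refine r hr) where
  rw f := rowNo r j f.1
  le5 f := rowNo_le5 r j f.1
  V s hs := by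
    obtain ⟨h1, -⟩ := rowNo_ne hs
    have h2 := s.2.2
    have h1' : s.1.d.1 ≠ 2 := h1
    show (cross s.1.d s.1.e).1 = 2 ∨ (cross s.1.d (cross s.1.d s.1.e)).1 = 2
    generalize s.1.d = d at *
    generalize s.1.e = e at *
    clear h1
    revert d e
    decide
  E s hs := by
    have h1 : s.facet.1.2.1 ≠ 2 := (V_axes hs).1
    have h2 : s.stE.facet.1.2.1 ≠ 2 := V_stE_wall hs
    have h3 : s.stE.facet.1.1 2 = s.facet.1.1 2 := V_stE_z hs
    unfold rowNo
    rw [if_neg h1, if_neg h2, h3]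
  N s hs h0 := by
    obtain ⟨h1, h2, h3⟩ := rowNo_ne h0
    have hz2 : (j : ℤ) ≤ s.1.c 2 % r := h2
    have hz3 : s.1.c 2 % r < j + 5 := h3
    have hz : s.1.c 2 % r + 1 < r := by
      have : (j : ℤ) + 6 ≤ r := by exact_mod_cast hj2
      omega
    have h4 := stN_up hs hz
    have h5 := (emod_up hr hz).2
    have hd : s.stN.facet.1.2.1 ≠ 2 := by
      show s.stN.1.d.1 ≠ 2
      rw [h4]; exact h1
    have hc : s.stN.facet.1.1 2 = s.facet.1.1 2 + 1 := by
      show s.stN.1.c 2 = s.1.c 2 + 1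
      rw [h4]; exact shift_up_apply _
    refine ⟨?_, ?_⟩
    · show cross s.stN.1.d s.stN.1.e = (2, true)
      rw [h4]; exact hs
    · have h6 := rowNo_cast h0
      have hzs : s.facet.1.1 2 = s.1.c 2 := rfl
      rw [hzs] at h6 hc
      by_cases h5' : rowNo r j s.facet.1 = 5
      · rw [if_pos h5']
        unfold rowNo
        rw [if_neg hd, if_neg]
        rw [hc, h5]
        omega
      · rw [if_neg h5']
        have h7 := rowNo_le5 r j s.facet.1
        rw [rowNo_eq_iff hd (by omega) (by omega), hc, h5]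
        push_cast
        omega
  S s hs h0 := by
    obtain ⟨h1, h2, h3⟩ := rowNo_ne h0
    have hz2 : (j : ℤ) ≤ s.stN.1.c 2 % r := h2
    have hz3 : s.stN.1.c 2 % r < j + 5 := h3
    obtain ⟨h4, h5, h6⟩ := of_stN_up hs (by omega)
    refine ⟨h4, ?_⟩
    have hd : s.facet.1.2.1 ≠ 2 := (V_axes (IsV_of_U h4)).1
    have h7 := rowNo_cast h0
    have hzs : s.stN.facet.1.1 2 = s.stN.1.c 2 := rfl
    have hzt : s.facet.1.1 2 = s.1.c 2 := rfl
    rw [hzs] at h7
    by_cases h8 : rowNo r j s.facet.1 = 0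
    · rw [h8]
      unfold rowNo at h8
      rw [if_neg hd, hzt] at h8
      split_ifs at h8 with h9 <;> omega
    · have h9 := rowNo_cast h8
      rw [hzt] at h9
      omega
  comm s hs h0 := by
    have hj2' : (j : ℤ) + 6 ≤ r := by exact_mod_cast hj2
    refine comm_up hs ?_
    by_cases h1 : rowNo r j s.facet.1 = 0
    · have h2 : rowNo r j s.stN.facet.1 ≠ 0 := by
        rcases h0 with h0 | h0
        · exact absurd h1 h0
        · exact h0
      obtain ⟨h3, h4, h5⟩ := rowNo_ne h2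
      have hz2 : (j : ℤ) ≤ s.stN.1.c 2 % r := h4
      have hz3 : s.stN.1.c 2 % r < j + 5 := h5
      have h6 := of_stN_up (U_stN_of_wall hs h3) (by omega)
      omega
    · obtain ⟨-, h4, h5⟩ := rowNo_ne h1
      have hz3 : s.1.c 2 % r < j + 5 := h5
      omega

lemma rowsR_rw {P0 : GridSolid} {r j : ℕ} (hr : 0 < r) (hj : 1 ≤ j) (hj2 : j + 6 ≤ r)
    (f : (P0.refine r hr).Facet) : (rowsR P0 r j hr hj hj2).rw f = rowNo r j f.1 := rfl

/-- a wall facet is in the core row `i` iff its level is `j + i - 1` modulo `r` -/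
lemma rowsR_rw_iff {P0 : GridSolid} {r j : ℕ} (hr : 0 < r) (hj : 1 ≤ j) (hj2 : j + 6 ≤ r)
    {f : (P0.refine r hr).Facet} (hf : f.1.2.1 ≠ 2) {i : ℕ} (hi : 1 ≤ i) (hi5 : i ≤ 5) :
    (rowsR P0 r j hr hj hj2).rw f = i ↔ f.1.1 2 % r = j + i - 1 :=
  rowNo_eq_iff hf hi hi5

/-- the facets that are not core: the plates and the walls of the other levels -/
lemma rowsR_rw_zero {P0 : GridSolid} {r j : ℕ} (hr : 0 < r) (hj : 1 ≤ j) (hj2 : j + 6 ≤ r)
    {f : (P0.refine r hr).Facet} : (rowsR P0 r j hr hj hj2).rw f = 0 ↔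
      (f.1.2.1 = 2 ∨ f.1.1 2 % r < j ∨ (j : ℤ) + 5 ≤ f.1.1 2 % r) := by
  rw [rowsR_rw]
  unfold rowNo
  split_ifs with h1 h2
  · simp [h1]
  · have h3 : (f.1.1 2 % r - j + 1).toNat ≠ 0 := by omega
    constructor
    · intro h; exact absurd h h3
    · rintro (h | h | h)
      · exact absurd h h1
      · omega
      · omega
  · refine ⟨fun _ => Or.inr ?_, fun _ => rfl⟩
    omega

/-- the level of a wall facet on the line of a state with vertical north, in the direction east -/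
lemma V_stE_mod {P : GridSolid} (r : ℕ) {s : P.FSt} (h : IsV s) :
    s.stE.facet.1.1 2 % r = s.facet.1.1 2 % r := by
  have h1 : s.stE.facet.1.1 2 = s.facet.1.1 2 := V_stE_z h
  rw [h1]

end Pool.Agent.MP42H
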