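import Pool.Agent.MP42.H.Ring

/-!
# The rows of a band
-/

set_option autoImplicit false
set_option linter.unusedSectionVars false

namespace Pool.Agent.MP42H

open Pool.Agent.Helper55.UNF Pool.Agent.Helper55.UNF.GridSolid Pool.Agent.MP42G

variable {P : GridSolid}

lemma pN_r2 (s : P.FSt) : pN s.r2 = (pN.symm s).r2 := by
  rw [pN_symm_apply, FSt.r2_r2]; rfl

lemma pE_r2 (s : P.FSt) : pE s.r2 = (pE.symm s).r2 := by
  rw [pE_symm_apply, FSt.r2_r2]; rfl

lemma pE_symm_r2 (s : P.FSt) : pE.symm s.r2 = s.stE.r2 := by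
  rw [pE_symm_apply, FSt.r2_r2]

lemma pN_symm_r2 (s : P.FSt) : pN.symm s.r2 = s.stN.r2 := by
  rw [pN_symm_apply, FSt.r2_r2]

lemma r2_stE (s : P.FSt) : s.r2.stE = (pE.symm s).r2 := pE_r2 s

lemma r2_stN (s : P.FSt) : s.r2.stN = (pN.symm s).r2 := pN_r2 s

lemma pow_pN_r2 (n : ℕ) (s : P.FSt) : (pN ^ n) s.r2 = ((pN.symm ^ n) s).r2 := by
  induction n with
  | zero => rfl
  | succ n ih =>
    rw [pow_succ', Equiv.Perm.mul_apply, ih, pN_r2, pow_succ', Equiv.Perm.mul_apply]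

lemma pow_pE_r2 (n : ℕ) (s : P.FSt) : (pE ^ n) s.r2 = ((pE.symm ^ n) s).r2 := by
  induction n with
  | zero => rfl
  | succ n ih =>
    rw [pow_succ', Equiv.Perm.mul_apply, ih, pE_r2, pow_succ', Equiv.Perm.mul_apply]

@[simp] lemma pN_s (s : P.FSt) : pN.symm s.stN = s := pN.symm_apply_apply s
@[simp] lemma stN_pN_symm (s : P.FSt) : (pN.symm s).stN = s := pN.apply_symm_apply s
@[simp] lemma pE_s (s : P.FSt) : pE.symm s.stE = s := pE.symm_apply_apply s
@[simp] lemma stE_pE_symm (s : P.FSt) : (pE.symm s).stE = s := pE.apply_symm_apply s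

lemma rL_stE' (s : P.FSt) : s.rL.stE = s.stN.rL := by
  show s.rL.stE = s.rL.stE.rR.rL
  rw [FSt.rR_rL]

lemma rL_stN (s : P.FSt) : s.rL.stN = (pE.symm s).rL := by
  show s.rL.rL.stE.rR = (pE.symm s).rL
  rw [FSt.rL_rL, r2_stE, FSt.r2_rR]

lemma rR_stE (s : P.FSt) : s.rR.stE = (pN.symm s).rR := by
  have h : s.rR = s.rL.r2 := (FSt.rL_r2 s).symm
  rw [h, r2_stE]
  have h2 : pE.symm s.rL = (pN.symm s).rL := by
    rw [Equiv.symm_apply_eq]
    show s.rL = (pN.symm s).rL.stE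
    rw [rL_stE', stN_pN_symm]
  rw [h2, FSt.rL_r2]

/-- core states with north up -/
def CU (R : Rows P) (r : P.FSt) : Prop := IsU r ∧ R.rw r.facet ≠ 0

variable {R : Rows P} {r : P.FSt}

lemma CU.stE (h : CU R r) : CU R r.stE ∧ R.rw r.stE.facet = R.rw r.facet := by
  have h1 := R.E r h.1.isV
  exact ⟨⟨(IsU_stE r).2 h.1, by rw [h1]; exact h.2⟩, h1⟩

lemma CU.stN (h : CU R r) (h5 : R.rw r.facet ≠ 5) :
    CU R r.stN ∧ R.rw r.stN.facet = R.rw r.facet + 1 := by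
  obtain ⟨h1, h2⟩ := R.N r h.1 h.2
  rw [if_neg h5] at h2
  exact ⟨⟨h1, by omega⟩, h2⟩

lemma CU.S (h : CU R r) (h1 : R.rw r.facet ≠ 1) :
    CU R (pN.symm r) ∧ R.rw (pN.symm r).facet + 1 = R.rw r.facet := by
  have h2 := R.S (pN.symm r) (by rw [stN_pN_symm]; exact h.1) (by rw [stN_pN_symm]; exact h.2)
  rw [stN_pN_symm] at h2
  have := h.2
  exact ⟨⟨h2.1, by omega⟩, h2.2⟩

lemma CU.comm (h : CU R r) : r.stE.stN = r.stN.stE := R.comm r h.1 (Or.inl h.2)

lemma CU.S_E (h : CU R r) : (pN.symm r).stE = pN.symm r.stE := by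
  have h2 := R.S (pN.symm r) (by rw [stN_pN_symm]; exact h.1) (by rw [stN_pN_symm]; exact h.2)
  have h3 := R.comm (pN.symm r) h2.1 (Or.inr (by rw [stN_pN_symm]; exact h.2))
  rw [stN_pN_symm] at h3
  rw [← h3, pN_s]

lemma CU.W (h : CU R r) : CU R (pE.symm r) ∧ R.rw (pE.symm r).facet = R.rw r.facet := by
  have h1 : IsU (pE.symm r) := by
    have := (IsU_stE (pE.symm r))
    rw [stE_pE_symm] at this
    exact this.1 h.1
  have h2 := R.E (pE.symm r) h1.isV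
  rw [stE_pE_symm] at h2
  exact ⟨⟨h1, by rw [← h2]; exact h.2⟩, h2.symm⟩

/-- going down `n` rows -/
lemma CU.down : ∀ (n : ℕ) {r : P.FSt}, CU R r → n < R.rw r.facet →
    CU R ((pN.symm ^ n) r) ∧ R.rw ((pN.symm ^ n) r).facet + n = R.rw r.facet ∧
      (pN.symm ^ n) r.stE = ((pN.symm ^ n) r).stE := by
  intro n
  induction n with
  | zero => intro r h _; exact ⟨h, rfl, rfl⟩
  | succ n ih =>
    intro r h hn
    obtain ⟨h1, h2, h3⟩ := ih h (by omega)
    rw [pow_succ', Equiv.Perm.mul_apply, Equiv.Perm.mul_apply, h3]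
    obtain ⟨h4, h5⟩ := h1.S (by omega)
    exact ⟨h4, by omega, h1.S_E.symm⟩

/-- going up `n` rows -/
lemma CU.upw : ∀ (n : ℕ) {r : P.FSt}, CU R r → R.rw r.facet + n ≤ 5 →
    CU R ((pN ^ n) r) ∧ R.rw ((pN ^ n) r).facet = R.rw r.facet + n ∧
      (pN ^ n) r.stE = ((pN ^ n) r).stE := by
  intro n
  induction n with
  | zero => intro r h _; exact ⟨h, rfl, rfl⟩
  | succ n ih =>
    intro r h hn
    obtain ⟨h1, h2, h3⟩ := ih h (by omega)
    rw [pow_succ', Equiv.Perm.mul_apply, Equiv.Perm.mul_apply, h3]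
    obtain ⟨h4, h5⟩ := h1.stN (by omega)
    exact ⟨h4, by rw [pN_apply]; omega, h1.comm⟩

/-- the projection to the lowest row -/
noncomputable def rho (R : Rows P) (r : P.FSt) : P.FSt := (pN.symm ^ (R.rw r.facet - 1)) r

/-- lowest row -/
def Lo (R : Rows P) (r : P.FSt) : Prop := IsU r ∧ R.rw r.facet = 1

lemma Lo.CU (h : Lo R r) : CU R r := ⟨h.1, by rw [h.2]; norm_num⟩

lemma Lo.rim (h : Lo R r) : R.Rim r := Or.inl h

lemma CU.lo_rho (h : CU R r) : Lo R (rho R r) := by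
  have h0 := h.2
  obtain ⟨h1, h2, -⟩ := h.down (R.rw r.facet - 1) (by omega)
  exact ⟨h1.1, by unfold rho; omega⟩

lemma CU.rho_E (h : CU R r) : rho R r.stE = (rho R r).stE := by
  have h0 := h.2
  unfold rho
  rw [h.stE.2]
  exact (h.down (R.rw r.facet - 1) (by omega)).2.2

lemma CU.rho_N (h : CU R r) (h5 : R.rw r.facet ≠ 5) : rho R r.stN = rho R r := by
  have h0 := h.2
  unfold rho
  rw [(h.stN h5).2, show R.rw r.facet + 1 - 1 = (R.rw r.facet - 1) + 1 by omega, pow_succ,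
    Equiv.Perm.mul_apply, pN_s]

lemma pow_cancel {X : Type*} (π : Equiv.Perm X) (n : ℕ) (r : X) :
    (π ^ n) ((π.symm ^ n) r) = r := by
  have : π.symm = π⁻¹ := rfl
  rw [this, inv_pow, ← Equiv.Perm.mul_apply, mul_inv_cancel]
  rfl

lemma pow_cancel' {X : Type*} (π : Equiv.Perm X) (n : ℕ) (r : X) :
    (π.symm ^ n) ((π ^ n) r) = r := by
  have : π.symm = π⁻¹ := rfl
  rw [this, inv_pow, ← Equiv.Perm.mul_apply, inv_mul_cancel]
  rfl

lemma pow_symm_cancel (n : ℕ) (r : P.FSt) : (pN ^ n) ((pN.symm ^ n) r) = r := pow_cancel _ n r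

lemma pow_symm_cancel' (n : ℕ) (r : P.FSt) : (pN.symm ^ n) ((pN ^ n) r) = r := pow_cancel' _ n r

lemma CU.rho_up (_h : CU R r) : (pN ^ (R.rw r.facet - 1)) (rho R r) = r := pow_symm_cancel _ _

lemma Lo.rho (h : Lo R r) : rho R r = r := by
  unfold Pool.Agent.MP42H.rho
  rw [h.2]; rfl

/-- the upper rim state -/
lemma Lo.far_rim (h : Lo R r) : R.Rim (Rows.far r) := by
  right
  obtain ⟨h1, h2, -⟩ := h.CU.upw 4 (by rw [h.2])
  unfold Rows.far
  rw [FSt.r2_r2, FSt.facet_r2, h2, h.2]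
  exact ⟨h1.1, rfl⟩

lemma Lo.far_far (_h : Lo R r) : Rows.far (Rows.far r) = r := by
  unfold Rows.far
  rw [pow_pN_r2, FSt.r2_r2, pow_symm_cancel']

lemma Lo.far_E (h : Lo R r) : Rows.far r.stE = pE.symm (Rows.far r) := by
  unfold Rows.far
  rw [(h.CU.upw 4 (by rw [h.2])).2.2, pE_symm_r2]

lemma Lo.stE (h : Lo R r) : Lo R r.stE := ⟨h.CU.stE.1.1, by rw [h.CU.stE.2, h.2]⟩

lemma Lo.pow (h : Lo R r) (n : ℕ) : Lo R ((pE ^ n) r) := by
  induction n with
  | zero => exact h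
  | succ n ih => rw [pow_succ', Equiv.Perm.mul_apply]; exact ih.stE

lemma Lo.same (h : Lo R r) {s : P.FSt} (hs : pE.SameCycle r s) : Lo R s := by
  obtain ⟨n, rfl⟩ := hs.exists_nat_pow_eq
  exact h.pow n

lemma Lo.far_pow (h : Lo R r) (n : ℕ) : Rows.far ((pE ^ n) r) = (pE.symm ^ n) (Rows.far r) := by
  induction n with
  | zero => rfl
  | succ n ih =>
    rw [pow_succ', Equiv.Perm.mul_apply, pE_apply, (h.pow n).far_E, ih, pow_succ',
      Equiv.Perm.mul_apply]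

lemma same_symm_pow (s : P.FSt) (n : ℕ) : pE.SameCycle s ((pE.symm ^ n) s) := by
  exact (same_of_eq (pow_cancel pE n s)).symm

lemma Lo.far_same (h : Lo R r) {s : P.FSt} (hs : pE.SameCycle r s) :
    pE.SameCycle (Rows.far r) (Rows.far s) := by
  obtain ⟨n, rfl⟩ := hs.exists_nat_pow_eq
  rw [h.far_pow]
  exact same_symm_pow _ _

/-- rim states of the upper side -/
lemma rim_cases (h : R.Rim r) : Lo R r ∨ ∃ s, Lo R s ∧ r = Rows.far s ∧ Rows.far r = s := by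
  rcases h with h | h
  · exact Or.inl h
  · right
    have hc : CU R r.r2 := ⟨h.1, by rw [FSt.facet_r2, h.2]; norm_num⟩
    obtain ⟨h1, h2, -⟩ := hc.down 4 (by rw [FSt.facet_r2, h.2]; norm_num)
    have hl : Lo R ((pN.symm ^ 4) r.r2) := ⟨h1.1, by rw [FSt.facet_r2, h.2] at h2; omega⟩
    have e : r = Rows.far ((pN.symm ^ 4) r.r2) := by
      unfold Rows.far
      rw [pow_symm_cancel, FSt.r2_r2]
    exact ⟨_, hl, e, by rw [e, hl.far_far]; unfold Rows.far; rw [pow_symm_cancel]; simp⟩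

lemma Rim.stE (h : R.Rim r) : R.Rim r.stE := by
  rcases h with h | h
  · exact Or.inl (Lo.stE h)
  · right
    have hc : CU R r.r2 := ⟨h.1, by rw [FSt.facet_r2, h.2]; norm_num⟩
    have h1 := hc.W
    have e : pE.symm r.r2 = r.stE.r2 := pE_symm_r2 r
    rw [e] at h1
    exact ⟨h1.1.1, by rw [← FSt.facet_r2 r.stE, h1.2, FSt.facet_r2, h.2]⟩

lemma Rim.pow (h : R.Rim r) (n : ℕ) : R.Rim ((pE ^ n) r) := by
  induction n with
  | zero => exact h
  | succ n ih => rw [pow_succ', Equiv.Perm.mul_apply]; exact Rim.stE ih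

lemma Rim.same (h : R.Rim r) {s : P.FSt} (hs : pE.SameCycle r s) : R.Rim s := by
  obtain ⟨n, rfl⟩ := hs.exists_nat_pow_eq
  exact Rim.pow h n

lemma Rim.far (h : R.Rim r) : R.Rim (Rows.far r) := by
  rcases rim_cases h with h | ⟨s, h1, h2, h3⟩
  · exact h.far_rim
  · rw [h3]; exact h1.rim

lemma Rim.far_far (h : R.Rim r) : Rows.far (Rows.far r) = r := by
  rcases rim_cases h with h | ⟨s, h1, h2, h3⟩
  · exact h.far_far
  · rw [h3, h2]

end Pool.Agent.MP42H
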