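import Pool.Agent.MP42.H.Basic
import Pool.Agent.MP42.H.Rows
import Pool.Agent.MP42.Geo

/-!
# GRT0: a spanning tree of the junctions exists (owner helper89)
-/

set_option autoImplicit false
set_option linter.unusedSectionVars false

namespace Pool.Agent.MP42H

open Pool.Agent.Helper55.UNF Pool.Agent.Helper55.UNF.GridSolid Pool.Agent.MP42G

variable {P : GridSolid}

/-- the state with north up on a facet is unique -/
lemma IsU_unique {s t : P.FSt} (h : s.facet = t.facet) (hs : IsU s) (ht : IsU t) : s = t := by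
  have h0 := congrArg (fun f : P.Facet => f.1) h
  have hc : s.1.c = t.1.c := congrArg Prod.fst h0
  have hd : s.1.d = t.1.d := congrArg Prod.snd h0
  have he : s.1.e = t.1.e := by
    have h1 := s.2.2
    have h2 := t.2.2
    unfold IsU at hs ht
    have hs' : cross s.1.d s.1.e = (2, true) := hs
    have ht' : cross t.1.d t.1.e = (2, true) := ht
    rw [← hd] at ht' h2
    have e1 := cross_cross' s.1.d s.1.e h1
    have e2 := cross_cross' s.1.d t.1.e h2
    rw [hs'] at e1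
    rw [ht'] at e2
    rw [← e1, ← e2]
  apply FSt.ext'
  obtain ⟨⟨c1, d1, e1⟩, p1⟩ := s
  obtain ⟨⟨c2, d2, e2⟩, p2⟩ := t
  simp only at hc hd he
  simp only [hc, hd, he]

namespace Rows

variable (R : Rows P)

/-- every facet of the core carries a state with north up -/
lemma exists_CU {f : P.Facet} {s : P.FSt} (hs : s.facet = f) (hf : R.rw f ≠ 0) :
    ∃ t : P.FSt, t.facet = f ∧ CU R t := by
  have h1 : R.rw s.facet ≠ 0 := by rw [hs]; exact hf
  rcases R.V s h1 with h | h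
  · rcases U_or h with h | h
    · exact ⟨s, hs, h, h1⟩
    · exact ⟨s.r2, hs, h, h1⟩
  · rcases U_or h with h | h
    · exact ⟨s.rL, hs, h, h1⟩
    · exact ⟨s.rL.r2, hs, h, h1⟩

/-- a predicate on the junctions extended over the bands by the value below -/
def Ext (Q : P.Facet → Prop) (f : P.Facet) : Prop :=
  (R.rw f = 0 ∧ Q f) ∨ ∃ s : P.FSt, s.facet = f ∧ CU R s ∧ Q (jf (rho R s))

lemma Ext.zero {Q : P.Facet → Prop} {f : P.Facet} (hf : R.rw f = 0) : R.Ext Q f ↔ Q f := by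
  constructor
  · rintro (h | ⟨s, h1, h2, -⟩)
    · exact h.2
    · exact absurd (by rw [h1]; exact hf) h2.2
  · intro h
    exact Or.inl ⟨hf, h⟩

lemma Ext.cu {Q : P.Facet → Prop} {s : P.FSt} (hs : CU R s) :
    R.Ext Q s.facet ↔ Q (Rows.jf (rho R s)) := by
  constructor
  · rintro (h | ⟨t, h1, h2, h3⟩)
    · exact absurd h.1 hs.2
    · have := IsU_unique h1 h2.1 hs.1
      rwa [this] at h3
  · intro h
    exact Or.inr ⟨s, rfl, hs, h⟩

lemma Ext.E {Q : P.Facet → Prop} (hQ : R.QJ Q) {s : P.FSt} (hs : CU R s) :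
    R.Ext Q s.facet ↔ R.Ext Q s.stE.facet := by
  rw [Ext.cu R hs, Ext.cu R hs.stE.1, hs.rho_E]
  exact (QJ.jf_E R hQ hs.lo_rho.rim).symm

lemma Ext.N {Q : P.Facet → Prop}
    (hb : ∀ r, R.Rim r → (Q (Rows.jf r) ↔ Q (Rows.jf (Rows.far r)))) {s : P.FSt}
    (hs : CU R s) : R.Ext Q s.facet ↔ R.Ext Q s.stN.facet := by
  by_cases h5 : R.rw s.facet = 5
  · have h1 := (R.N s hs.1 hs.2).2
    rw [if_pos h5] at h1
    rw [Ext.cu R hs, Ext.zero R h1, hb _ hs.lo_rho.rim]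
    have h2 : Rows.far (rho R s) = s.r2 := by
      unfold Rows.far rho
      rw [h5]
      show ((pN ^ 4) ((pN.symm ^ 4) s)).r2 = s.r2
      rw [pow_symm_cancel]
    rw [h2]
    unfold Rows.jf
    rw [pN_symm_r2, FSt.facet_r2]
  · rw [Ext.cu R hs, Ext.cu R (hs.stN h5).1, hs.rho_N h5]

lemma Ext.S {Q : P.Facet → Prop} {s : P.FSt}
    (hs : CU R s) : R.Ext Q s.facet ↔ R.Ext Q (pN.symm s).facet := by
  by_cases h1 : R.rw s.facet = 1
  · have h2 := R.rw_symm (r := s) (Or.inl ⟨hs.1, h1⟩)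
    have h3 : rho R s = s := by unfold rho; rw [h1]; rfl
    rw [Ext.cu R hs, Ext.zero R h2, h3]
    rfl
  · obtain ⟨h2, h3⟩ := hs.S h1
    have h4 := h2.rho_N (by have := R.le5 s.facet; omega)
    rw [stN_pN_symm] at h4
    rw [Ext.cu R hs, Ext.cu R h2, h4]

lemma Ext.core {Q : P.Facet → Prop} (hQ : R.QJ Q)
    (hb : ∀ r, R.Rim r → (Q (Rows.jf r) ↔ Q (Rows.jf (Rows.far r)))) (s : P.FSt)
    (h0 : R.rw s.facet ≠ 0) : R.Ext Q s.facet ↔ R.Ext Q s.stE.facet := by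
  rcases R.V s h0 with h | h
  · rcases U_or h with h | h
    · exact Ext.E R hQ ⟨h, h0⟩
    · have hc : CU R s.r2 := ⟨h, h0⟩
      have h1 := Ext.E R hQ hc.W.1
      rw [stE_pE_symm, pE_symm_r2, FSt.facet_r2, FSt.facet_r2] at h1
      exact h1.symm
  · have e : s.rR.stN = s.stE.rR := by
      show s.rR.rL.stE.rR = _
      rw [FSt.rR_rL]
    rcases U_or h with h | h
    · -- `s.rL` is up, `s.rR` is down
      have hc : CU R s.rL := ⟨h, h0⟩
      have h1 := Ext.S (Q := Q) R hc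
      have h2 : pN.symm s.rL = s.stE.rR.r2 := by
        rw [← e, ← pN_symm_r2, FSt.rR_r2]
      rw [h2] at h1
      exact h1
    · have hc : CU R s.rR := ⟨by rw [← FSt.rL_r2]; exact h, h0⟩
      have h1 := Ext.N R hb hc
      rw [e] at h1
      exact h1

lemma Ext.step {Q : P.Facet → Prop} (hQ : R.QJ Q)
    (hb : ∀ r, R.Rim r → (Q (Rows.jf r) ↔ Q (Rows.jf (Rows.far r)))) (s : P.FSt) :
    R.Ext Q s.facet ↔ R.Ext Q s.stE.facet := by
  by_cases h0 : R.rw s.facet = 0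
  · by_cases h1 : R.rw s.stE.facet = 0
    · rw [Ext.zero R h0, Ext.zero R h1]
      exact hQ s h0 h1
    · have h2 := Ext.core R hQ hb s.stE.r2 h1
      rw [FSt.stE_inv, FSt.facet_r2, FSt.facet_r2] at h2
      exact h2.symm
  · exact Ext.core R hQ hb s h0

/-- all bands connect the junctions -/
lemma conn_all (hP : P.IsOrthogonalPolyhedron) {Q : P.Facet → Prop} (hQ : R.QJ Q)
    (hb : ∀ r, R.Rim r → (Q (Rows.jf r) ↔ Q (Rows.jf (Rows.far r)))) (f g : P.Facet)
    (hf : R.rw f = 0) (hg : R.rw g = 0) : Q f ↔ Q g := by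
  rw [← Ext.zero (Q := Q) R hf, ← Ext.zero (Q := Q) R hg]
  obtain ⟨w⟩ := hP.2.preconnected f g
  clear hf hg
  induction w with
  | nil => exact Iff.rfl
  | @cons u v w hadj _ ih =>
    obtain ⟨s, hs1, hs2⟩ := Pool.Agent.MP42.Geo.exists_state_of_adj hP.1 hadj
    rw [← ih, ← hs1, ← hs2]
    exact Ext.step R hQ hb s

/-- the sets of bands that connect the junctions -/
structure Good (T : Set P.FSt) : Prop where
  e : ∀ r, R.Rim r → (r.stE ∈ T ↔ r ∈ T)
  f : ∀ r, R.Rim r → (Rows.far r ∈ T ↔ r ∈ T)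
  conn : ∀ Q : P.Facet → Prop, R.QJ Q →
    (∀ r, R.Rim r → r ∈ T → (Q (Rows.jf r) ↔ Q (Rows.jf (Rows.far r)))) →
    ∀ f g, R.rw f = 0 → R.rw g = 0 → (Q f ↔ Q g)

/-- H6a: a spanning tree of the junctions -/
theorem exists_tree {P : GridSolid} (R : Rows P) (hP : P.IsOrthogonalPolyhedron) :
    ∃ tr : P.FSt → Prop, (∀ r, R.Rim r → (tr r.stE ↔ tr r)) ∧
      (∀ r, R.Rim r → (tr (Rows.far r) ↔ tr r)) ∧ R.Tree tr := by
  have hne : {T : Set P.FSt | R.Good T}.Nonempty := by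
    refine ⟨Set.univ, ⟨fun _ _ => Iff.rfl, fun _ _ => Iff.rfl, ?_⟩⟩
    intro Q hQ hb f g hf hg
    exact R.conn_all hP hQ (fun r hr => hb r hr (Set.mem_univ _)) f g hf hg
  obtain ⟨T, hT⟩ := (Set.toFinite {T : Set P.FSt | R.Good T}).exists_minimal hne
  have hG : R.Good T := hT.prop
  refine ⟨fun r => r ∈ T, hG.e, hG.f, ⟨hG.conn, ?_⟩⟩
  intro r₀ h₀ ht₀
  by_contra hcon
  push Not at hcon
  set T' : Set P.FSt := {r | r ∈ T ∧ ¬ pE.SameCycle r₀ r ∧ ¬ pE.SameCycle (Rows.far r₀) r}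
    with hT'
  have hGood : R.Good T' := by
    refine ⟨?_, ?_, ?_⟩
    · intro r hr
      have e1 : pE.SameCycle r₀ r.stE ↔ pE.SameCycle r₀ r := by
        rw [← pE_apply]; exact Equiv.Perm.sameCycle_apply_right
      have e2 : pE.SameCycle (Rows.far r₀) r.stE ↔ pE.SameCycle (Rows.far r₀) r := by
        rw [← pE_apply]; exact Equiv.Perm.sameCycle_apply_right
      show (r.stE ∈ T ∧ ¬ _ ∧ ¬ _) ↔ (r ∈ T ∧ ¬ _ ∧ ¬ _)
      rw [hG.e r hr, e1, e2]
    · intro r hr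
      have e1 : pE.SameCycle r₀ (Rows.far r) ↔ pE.SameCycle (Rows.far r₀) r := by
        have := R.far_cyc_iff (s := r) (Rim.far R h₀)
        rw [MP42H.far_far] at this
        exact this
      have e2 : pE.SameCycle (Rows.far r₀) (Rows.far r) ↔ pE.SameCycle r₀ r :=
        R.far_cyc_iff h₀
      show (Rows.far r ∈ T ∧ ¬ _ ∧ ¬ _) ↔ (r ∈ T ∧ ¬ _ ∧ ¬ _)
      rw [hG.f r hr, e1, e2]
      tauto
    · intro Q hQ hb f g hf hg
      have h1 : Q (Rows.jf r₀) ↔ Q (Rows.jf (Rows.far r₀)) := by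
        apply hcon Q hQ
        intro r hr ht n1 n2
        exact hb r hr ⟨ht, n1, n2⟩
      refine hG.conn Q hQ ?_ f g hf hg
      intro r hr ht
      by_cases c1 : pE.SameCycle r₀ r
      · have c2 := R.far_cyc h₀ c1
        rw [QJ.jf R hQ h₀ c1, QJ.jf R hQ (Rim.far R h₀) c2, h1]
      · by_cases c2 : pE.SameCycle (Rows.far r₀) r
        · have c3 := R.far_cyc (Rim.far R h₀) c2
          rw [MP42H.far_far] at c3
          rw [QJ.jf R hQ (Rim.far R h₀) c2, QJ.jf R hQ h₀ c3, h1]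
        · exact hb r hr ⟨ht, c1, c2⟩
  have hle : T' ≤ T := fun r hr => hr.1
  have h2 : r₀ ∈ T' := hT.le_of_le hGood hle ht₀
  exact h2.2.1 (Equiv.Perm.SameCycle.refl _ _)

end Rows

end Pool.Agent.MP42H
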