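import Pool.Agent.MP42.H.STab

/-!
# Tables that do not depend on half turns of the frames

The orientation of the frames can be chosen consistently along the lines, because a line never
returns to a facet turned by a half turn.
-/

set_option autoImplicit false
set_option linter.unusedSectionVars false

namespace Pool.Agent.MP42H

open Pool.Agent.Helper55.UNF Pool.Agent.Helper55.UNF.GridSolid

variable {P : GridSolid}

/-- relations on the states -/
structure ARel (k : ℕ) (can : P.Facet → P.FSt) (pr : P.FSt → ℕ → ℕ → Bool)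
    (la : P.FSt → ℕ → ℕ → Ln) (ψ χ : P.FSt → ℕ → ℕ → Prop) : Prop where
  cell : ∀ s, Act can s → CellRel k (pr s) (la s) (ψ s) (χ s)
  rotV : ∀ s, Act can s → ∀ x y, x ≤ k → y < k → (ψ s.r2 x y ↔ ψ s (k - x) (k - 1 - y))
  rotH : ∀ s, Act can s → ∀ x y, x < k → y ≤ k → (χ s.r2 x y ↔ χ s (k - 1 - x) (k - y))
  gE : ∀ s, Act can s → Act can s.stE → ∀ y < k, pr s k y = true → (ψ s k y ↔ ψ s.stE 0 y)
  gN : ∀ s, Act can s → Act can s.stN → ∀ x < k, la s x k ≠ Ln.z → (χ s x k ↔ χ s.stN x 0)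

/-- a table on states -/
structure ATab (P : GridSolid) (k : ℕ) where
  hk : 0 < k
  can : P.Facet → P.FSt
  can_facet : ∀ f, (can f).facet = f
  pr : P.FSt → ℕ → ℕ → Bool
  la : P.FSt → ℕ → ℕ → Ln
  ok : ∀ s, Act can s → CellOk k (pr s) (la s)
  pr_rot : ∀ s, Act can s → ∀ x y, x ≤ k → y < k → pr s.r2 x y = pr s (k - x) (k - 1 - y)
  la_rot : ∀ s, Act can s → ∀ x y, x < k → y ≤ k → la s.r2 x y = la s (k - 1 - x) (k - y)
  gE : ∀ s, Act can s → Act can s.stE → ∀ y < k, pr s k y = pr s.stE 0 y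
  gE' : ∀ s, Act can s → ¬ Act can s.stE → ∀ y < k, pr s k y = false
  gN : ∀ s, Act can s → Act can s.stN → ∀ x < k, la s x k = la s.stN x 0
  gN' : ∀ s, Act can s → ¬ Act can s.stN → ∀ x < k, la s x k = Ln.z

/-! ## A line does not return reversed -/

lemma zpow_pN_r2 (z : ℤ) (s : P.FSt) : (pN ^ z) s.r2 = ((pN ^ (-z)) s).r2 := by
  have key : ∀ (n : ℕ) (s : P.FSt), (pN ^ (n : ℤ)) s.r2 = ((pN ^ (-(n : ℤ))) s).r2 := by
    intro n
    induction n with
    | zero => intro s; simp
    | succ n ih =>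
      intro s
      have e1 : (pN ^ ((n + 1 : ℕ) : ℤ)) s.r2 = (pN ^ (n : ℤ)) (pN s.r2) := by
        push_cast
        rw [zpow_add, zpow_one, Equiv.Perm.mul_apply]
      have e2 : (pN ^ (-((n + 1 : ℕ) : ℤ))) s = (pN ^ (-(n : ℤ))) (pN.symm s) := by
        have : -((n + 1 : ℕ) : ℤ) = -(n : ℤ) + -1 := by push_cast; ring
        rw [this, zpow_add, zpow_neg_one, Equiv.Perm.mul_apply]
        rfl
      have e3 : pN s.r2 = (pN.symm s).r2 := by
        rw [pN_symm_apply, FSt.r2_r2]; rfl
      rw [e1, e2, e3, ih]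
  obtain ⟨n, rfl | rfl⟩ := z.eq_nat_or_neg
  · exact key n s
  · have h := key n ((pN ^ (n : ℤ)) s)
    have e : (pN ^ (-(n : ℤ))) ((pN ^ (n : ℤ)) s) = s := by
      rw [← Equiv.Perm.mul_apply, ← zpow_add]; simp
    rw [e] at h
    rw [← h, neg_neg, ← Equiv.Perm.mul_apply, ← zpow_add]
    have h2 := key n ((pN ^ (n : ℤ)) s)
    rw [e] at h2
    simp

lemma r2_ne_self (s : P.FSt) : s.r2 ≠ s := STab.r2_ne' s

lemma no_rev (s : P.FSt) (z : ℤ) : (pN ^ z) s ≠ s.r2 := by
  intro h
  rcases Int.even_or_odd z with ⟨j, hj⟩ | ⟨j, hj⟩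
  · -- the middle state would be its own half turn
    have h1 : (pN ^ (-j)) ((pN ^ z) s) = (pN ^ (-j)) s.r2 := by rw [h]
    rw [← Equiv.Perm.mul_apply, ← zpow_add, zpow_pN_r2, neg_neg, show -j + z = j by omega] at h1
    exact r2_ne_self _ h1.symm
  · have h1 : (pN ^ (-j)) ((pN ^ z) s) = (pN ^ (-j)) s.r2 := by rw [h]
    rw [← Equiv.Perm.mul_apply, ← zpow_add, zpow_pN_r2, neg_neg,
      show -j + z = 1 + j by omega, zpow_add, zpow_one, Equiv.Perm.mul_apply] at h1
    have h2 : ((pN ^ j) s).stN.facet = ((pN ^ j) s).facet := by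
      have : ((pN ^ j) s).stN = ((pN ^ j) s).r2 := h1
      rw [this, FSt.facet_r2]
    exact FSt.stN_facet_ne _ h2

/-! ## Chains of active states -/

section Chain

variable (can : P.Facet → P.FSt)

lemma act_r2' {s : P.FSt} (h : Act can s) : Act can s.r2 := by
  rcases h with h | h
  · right; rw [FSt.r2_r2]; exact h
  · left; exact h

lemma act_r2_iff' (s : P.FSt) : Act can s.r2 ↔ Act can s :=
  ⟨fun h => by have := act_r2' can h; rwa [FSt.r2_r2] at this, act_r2' can⟩

/-- the states on the chain of `s` -/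
def Ch (s t : P.FSt) : Prop :=
  ∃ z : ℤ, (∀ y ∈ Set.uIcc 0 z, Act can ((pN ^ y) s)) ∧ (pN ^ z) s = t

variable {can}

lemma Ch.refl {s : P.FSt} (h : Act can s) : Ch can s s :=
  ⟨0, fun y hy => by
    rw [Set.uIcc_self, Set.mem_singleton_iff] at hy; rw [hy]; exact h, rfl⟩

lemma Ch.cat {s t u : P.FSt} (h1 : Ch can s t) (h2 : Ch can t u) : Ch can s u := by
  obtain ⟨z, hz, rfl⟩ := h1
  obtain ⟨w, hw, rfl⟩ := h2
  refine ⟨w + z, ?_, by rw [zpow_add, Equiv.Perm.mul_apply]⟩
  intro y hy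
  by_cases h : y ∈ Set.uIcc 0 z
  · exact hz y h
  · have h3 : y - z ∈ Set.uIcc 0 w := by
      rw [Set.mem_uIcc] at *
      omega
    have := hw _ h3
    rwa [← Equiv.Perm.mul_apply, ← zpow_add, show y - z + z = y by omega] at this

lemma Ch.symm {s t : P.FSt} (h1 : Ch can s t) : Ch can t s := by
  obtain ⟨z, hz, rfl⟩ := h1
  refine ⟨-z, ?_, by rw [← Equiv.Perm.mul_apply, ← zpow_add]; simp⟩
  intro y hy
  have h3 : y + z ∈ Set.uIcc 0 z := by
    rw [Set.mem_uIcc] at *
    omega
  have := hz _ h3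
  rwa [zpow_add, Equiv.Perm.mul_apply] at this

lemma Ch.N {s : P.FSt} (h : Act can s) (h' : Act can s.stN) : Ch can s s.stN := by
  refine ⟨1, ?_, rfl⟩
  intro y hy
  rw [Set.mem_uIcc] at hy
  obtain rfl | rfl : y = 0 ∨ y = 1 := by omega
  · exact h
  · exact h'

/-- the chain as a set -/
def chs (can : P.Facet → P.FSt) (s : P.FSt) : Set P.FSt := {t | Ch can s t}

lemma chs_eq {s t : P.FSt} (h : Ch can s t) : chs can s = chs can t := by
  ext u
  exact ⟨fun hu => h.symm.cat hu, fun hu => h.cat hu⟩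

lemma chs_disj {s u : P.FSt} (h1 : Ch can s u) (h2 : Ch can s.r2 u) : False := by
  obtain ⟨z, -, hz⟩ := h1
  obtain ⟨w, -, hw⟩ := h2
  apply no_rev s (-w + z)
  rw [zpow_add, Equiv.Perm.mul_apply, hz, ← hw, ← Equiv.Perm.mul_apply, ← zpow_add]
  simp

/-- there is a consistent choice of orientations -/
lemma exists_orient (can : P.Facet → P.FSt) : ∃ T : P.FSt → Prop,
    (∀ s, Act can s → (T s.r2 ↔ ¬ T s)) ∧
    (∀ s, Act can s → Act can s.stN → (T s.stN ↔ T s)) := by
  obtain ⟨e, he⟩ := Countable.exists_injective_nat P.FSt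
  let μ : P.FSt → ℕ := fun s => sInf (e '' chs can s)
  have hμ : ∀ s, Act can s → ∃ t, Ch can s t ∧ e t = μ s := by
    intro s hs
    have hne : (e '' chs can s).Nonempty := ⟨_, _, Ch.refl hs, rfl⟩
    obtain ⟨t, ht, h⟩ := Nat.sInf_mem hne
    exact ⟨t, ht, h⟩
  have hne : ∀ s, Act can s → μ s ≠ μ s.r2 := by
    intro s hs h
    obtain ⟨t, ht, h1⟩ := hμ s hs
    obtain ⟨u, hu, h2⟩ := hμ s.r2 (act_r2' can hs)
    have : t = u := he (by rw [h1, h2, h])
    subst this
    exact chs_disj ht hu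
  refine ⟨fun s => μ s < μ s.r2, ?_, ?_⟩
  · intro s hs
    show μ s.r2 < μ s.r2.r2 ↔ ¬ μ s < μ s.r2
    rw [FSt.r2_r2]
    have := hne s hs
    omega
  · intro s hs hs'
    have e1 : μ s.stN = μ s := by
      show sInf (e '' chs can s.stN) = sInf (e '' chs can s)
      rw [chs_eq (Ch.N hs hs')]
    have e2 : μ s.stN.r2 = μ s.r2 := by
      show sInf (e '' chs can s.stN.r2) = sInf (e '' chs can s.r2)
      have h : s.stN.r2.stN = s.r2 := FSt.stN_inv s
      have := Ch.N (can := can) (act_r2' can hs') (by rw [h]; exact act_r2' can hs)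
      rw [h] at this
      rw [chs_eq this]
    show μ s.stN < μ s.stN.r2 ↔ μ s < μ s.r2
    rw [e1, e2]

end Chain

namespace ATab

variable {k : ℕ} (A : ATab P k)

/-- every line reaches a west port (`w = true`) and an east port (`w = false`) -/
def Rch (s : P.FSt) (x : ℕ) (w : Bool) : Prop := ∃ t, Ch A.can s t ∧
  ∃ y < k, A.pr t (if w then x else x + 1) y = true

/-- coverage -/
def Cov : Prop := ∀ s, Act A.can s → ∀ x < k, ∀ w : Bool, A.Rch s x w

/-- connectivity -/
def Con : Prop := ∀ ψ χ : P.FSt → ℕ → ℕ → Prop, ARel k A.can A.pr A.la ψ χ →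
  ∃ c : Prop, (∀ s, Act A.can s → ∀ x y, x ≤ k → y < k → A.pr s x y = true → (ψ s x y ↔ c)) ∧
    (∀ s, Act A.can s → ∀ x y, x < k → y ≤ k → A.la s x y ≠ Ln.z → (χ s x y ↔ c))

theorem hasEdgeUnfolding (hne : Nonempty P.Facet) (hcov : A.Cov) (hcon : A.Con) (h5 : 0 < 5 * k) :
    (P.refine (5 * k) h5).HasEdgeUnfolding := by
  classical
  obtain ⟨T, hT1, hT2⟩ := exists_orient A.can
  let can' : P.Facet → P.FSt := fun f => if T (A.can f) then A.can f else (A.can f).r2
  have hfac : ∀ f, (can' f).facet = f := by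
    intro f
    show (if T (A.can f) then A.can f else (A.can f).r2).facet = f
    split_ifs
    · exact A.can_facet f
    · rw [FSt.facet_r2, A.can_facet]
  have hAc : ∀ f, Act A.can (A.can f) := fun f => Or.inl (by rw [A.can_facet])
  -- canonical states
  have hcn : ∀ s, Cn can' s ↔ Act A.can s ∧ T s := by
    intro s
    show (if T (A.can s.facet) then A.can s.facet else (A.can s.facet).r2) = s ↔ _
    constructor
    · intro h
      split_ifs at h with h1
      · exact ⟨Or.inl h, by rw [← h]; exact h1⟩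
      · refine ⟨Or.inr (by rw [← h]; simp [A.can_facet]), ?_⟩
        rw [← h, hT1 _ (hAc _)]
        exact h1
    · rintro ⟨h1 | h1, h2⟩
      · rw [h1, if_pos h2]
      · rw [h1, if_neg, FSt.r2_r2]
        intro h3
        rw [hT1 s (Or.inr h1)] at h3
        exact h3 h2
  have hact : ∀ s, Act can' s ↔ Act A.can s := by
    intro s
    have e : Act can' s ↔ Cn can' s ∨ Cn can' s.r2 := by
      unfold Act Cn
      rw [FSt.facet_r2]
    rw [e, hcn, hcn, act_r2_iff' A.can]
    constructor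
    · rintro (h | h) <;> exact h.1
    · intro h
      by_cases h1 : T s
      · exact Or.inl ⟨h, h1⟩
      · exact Or.inr ⟨h, (hT1 s h).2 h1⟩
  have hcN : ∀ s, Cn can' s → Act A.can s.stN → Cn can' s.stN := by
    intro s h1 h2
    rw [hcn] at h1 ⊢
    exact ⟨h2, (hT2 s h1.1 h2).2 h1.2⟩
  have hcS : ∀ s, Cn can' s.stN → Act A.can s → Cn can' s := by
    intro s h1 h2
    rw [hcn] at h1 ⊢
    exact ⟨h2, (hT2 s h2 h1.1).1 h1.2⟩
  let B : STab P k :=
    { hk := A.hk
      can := can'
      can_facet := hfac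
      pr := A.pr
      la := A.la
      ok := fun s hs => A.ok s ((hact s).1 hs)
      pr_rot := fun s hs => A.pr_rot s ((hact s).1 hs)
      la_rot := fun s hs => A.la_rot s ((hact s).1 hs)
      gE := fun s hs hs' => A.gE s ((hact s).1 hs) ((hact _).1 hs')
      gE' := fun s hs hs' => A.gE' s ((hact s).1 hs) (fun h => hs' ((hact _).2 h))
      gN := fun s hs hs' => A.gN s ((hcn s).1 hs).1 ((hcn _).1 hs').1
      gN' := fun s hs hs' => A.gN' s ((hcn s).1 hs).1 (fun h => hs' (hcN s hs h))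
      gS' := fun s hs hs' x hx => by
        have h1 := ((hcn _).1 hs).1
        have h2 : ¬ Act A.can s := fun h => hs' (hcS s hs h)
        have e : s.stN.r2.stN = s.r2 := FSt.stN_inv s
        have h3 := A.gN' s.stN.r2 (act_r2' A.can h1)
          (by rw [e, act_r2_iff' A.can]; exact h2) (k - 1 - x) (by omega)
        rw [A.la_rot _ h1 _ _ (by omega) le_rfl, Nat.sub_self,
          show k - 1 - (k - 1 - x) = x by omega] at h3
        exact h3 }
  have hBcov : B.Cov := by
    intro s hs x hx w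
    obtain ⟨h1, h2⟩ := (hcn s).1 hs
    obtain ⟨t, ⟨z, hz, rfl⟩, h3⟩ := hcov s h1 x hx w
    refine ⟨z, ?_, h3⟩
    -- along the chain the orientation does not change
    have key : ∀ (n : ℕ) (s : P.FSt), T s → (∀ y ∈ Set.uIcc 0 (n : ℤ), Act A.can ((pN ^ y) s)) →
        T ((pN ^ (n : ℤ)) s) := by
      intro n
      induction n with
      | zero => intro s h _; exact h
      | succ n ih =>
        intro s h h'
        have h4 := ih s h (fun y hy => h' y (by rw [Set.mem_uIcc] at *; push_cast; omega))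
        have e : (pN ^ ((n + 1 : ℕ) : ℤ)) s = ((pN ^ (n : ℤ)) s).stN := by
          push_cast
          rw [add_comm, zpow_add, zpow_one, Equiv.Perm.mul_apply]
          rfl
        rw [e, hT2 _ (h' n (by rw [Set.mem_uIcc]; push_cast; omega))]
        · exact h4
        · rw [← e]
          exact h' _ (by rw [Set.mem_uIcc]; push_cast; omega)
    have key2 : ∀ (n : ℕ) (s : P.FSt), T s → (∀ y ∈ Set.uIcc 0 (-(n : ℤ)), Act A.can ((pN ^ y) s)) →
        T ((pN ^ (-(n : ℤ))) s) := by
      intro n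
      induction n with
      | zero => intro s h _; simpa using h
      | succ n ih =>
        intro s h h'
        have h4 := ih s h (fun y hy => h' y (by rw [Set.mem_uIcc] at *; push_cast; omega))
        have e : ((pN ^ (-((n + 1 : ℕ) : ℤ))) s).stN = (pN ^ (-(n : ℤ))) s := by
          have : -(n : ℤ) = 1 + -((n + 1 : ℕ) : ℤ) := by push_cast; ring
          rw [this, zpow_add, zpow_one, Equiv.Perm.mul_apply]
          rfl
        have h5 := hT2 ((pN ^ (-((n + 1 : ℕ) : ℤ))) s)
          (h' _ (by rw [Set.mem_uIcc]; push_cast; omega))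
          (by rw [e]; exact h' _ (by rw [Set.mem_uIcc]; push_cast; omega))
        rw [e] at h5
        exact h5.1 h4
    intro y hy
    show Cn can' _
    rw [hcn]
    refine ⟨hz y hy, ?_⟩
    obtain ⟨n, rfl | rfl⟩ := y.eq_nat_or_neg
    · exact key n s h2 (fun y' hy' => hz y' (by rw [Set.mem_uIcc] at *; omega))
    · exact key2 n s h2 (fun y' hy' => hz y' (by rw [Set.mem_uIcc] at *; omega))
  have hBcon : B.Con := by
    intro ψ χ hR
    have hA : ARel k A.can A.pr A.la ψ χ := by
      refine ⟨fun s hs => hR.cell s ((hact s).2 hs), fun s hs => hR.rotV s ((hact s).2 hs),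
        fun s hs => hR.rotH s ((hact s).2 hs),
        fun s hs hs' => hR.gE s ((hact s).2 hs) ((hact _).2 hs'), ?_⟩
      intro s hs hs' x hx hl
      by_cases h1 : T s
      · have h2 : Cn can' s := (hcn s).2 ⟨hs, h1⟩
        exact hR.gN s h2 (hcN s h2 hs') x hx hl
      · have e : s.stN.r2.stN = s.r2 := FSt.stN_inv s
        have h2 : Cn can' s.r2 := (hcn _).2 ⟨act_r2' A.can hs, (hT1 s hs).2 h1⟩
        have h3 : Cn can' s.stN.r2 := hcS _ (by rw [e]; exact h2) (act_r2' A.can hs')
        have hla : A.la s.stN.r2 (k - 1 - x) k = A.la s x k := by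
          rw [A.la_rot _ hs' _ _ (by omega) le_rfl, Nat.sub_self,
            show k - 1 - (k - 1 - x) = x by omega, A.gN s hs hs' x hx]
        have h4 := hR.gN s.stN.r2 h3 (by rw [e]; exact h2) (k - 1 - x) (by omega)
          (by show A.la s.stN.r2 (k - 1 - x) k ≠ Ln.z; rw [hla]; exact hl)
        rw [e, hR.rotH _ ((hact _).2 hs') _ _ (by omega) le_rfl, Nat.sub_self,
          show k - 1 - (k - 1 - x) = x by omega,
          hR.rotH _ ((hact _).2 hs) _ _ (by omega) (Nat.zero_le _), Nat.sub_zero,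
          show k - 1 - (k - 1 - x) = x by omega] at h4
        exact h4.symm
    obtain ⟨c, hc1, hc2⟩ := hcon ψ χ hA
    exact ⟨c, fun s hs => hc1 s ((hcn s).1 hs).1, fun s hs => hc2 s ((hcn s).1 hs).1⟩
  exact B.hasEdgeUnfolding hne hBcov hBcon h5

end ATab

end Pool.Agent.MP42H
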