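import Pool.Agent.MP42.H.Defs

/-!
# GRT0: basic facts on the rims (owner helper48)
-/

set_option autoImplicit false
set_option linter.unusedSectionVars false

namespace Pool.Agent.MP42H

open Pool.Agent.Helper55.UNF Pool.Agent.Helper55.UNF.GridSolid Pool.Agent.MP42G

variable {P : GridSolid}

/-! ## The vertical directions -/

lemma r2_n (s : P.FSt) : s.r2.1.n = opp s.1.n := by
  show cross s.1.d (opp s.1.e) = opp (cross s.1.d s.1.e)
  generalize s.1.d = d
  generalize s.1.e = e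
  revert d e
  decide

lemma IsU_r2 (s : P.FSt) : IsU s.r2 ↔ s.1.n = (2, false) := by
  unfold IsU
  rw [r2_n]
  generalize s.1.n = d
  revert d
  decide

lemma IsUr_stE (s : P.FSt) : IsU s.stE.r2 ↔ IsU s.r2 := by
  rw [IsU_r2, IsU_r2, Pool.Agent.MP42.stE_n]

lemma IsV_of_U {s : P.FSt} (h : IsU s) : IsV s := by
  unfold IsV; rw [h]

lemma IsV_of_Ur {s : P.FSt} (h : IsU s.r2) : IsV s := (IsV_r2 s).1 (IsV_of_U h)

lemma U_or {s : P.FSt} (h : IsV s) : IsU s ∨ IsU s.r2 := by
  rw [IsU_r2]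
  unfold IsV at h
  unfold IsU
  generalize s.1.n = d at *
  revert d
  decide

lemma not_U_Ur {s : P.FSt} (h : IsU s) : ¬ IsU s.r2 := by
  rw [IsU_r2]
  unfold IsU at h
  rw [h]
  decide

lemma not_V_rL' {s : P.FSt} (h : IsV s) : ¬ IsV s.rL := by
  have h1 := s.2.2
  unfold IsV at h ⊢
  have h' : (cross s.1.d s.1.e).1 = 2 := h
  intro h2
  have h2' : (cross s.1.d (cross s.1.d s.1.e)).1 = 2 := h2
  generalize s.1.d = d at *
  generalize s.1.e = e at *
  clear h h2
  revert d e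
  decide

/-! ## Steps -/

lemma pN_symm_stN (r : P.FSt) : (pN.symm r).stN = r := pN.apply_symm_apply r

lemma pE_symm_stE (r : P.FSt) : (pE.symm r).stE = r := pE.apply_symm_apply r

lemma pN_symm_of {t r : P.FSt} (h : t.stN = r) : pN.symm r = t := by
  rw [← h]; exact pN.symm_apply_apply t

lemma pE_symm_of {t r : P.FSt} (h : t.stE = r) : pE.symm r = t := by
  rw [← h]; exact pE.symm_apply_apply t

lemma stE_r2 (r : P.FSt) : r.stE.r2 = pE.symm r.r2 := by
  rw [pE_symm_apply, FSt.r2_r2]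

lemma pNpow_r2 (n : ℕ) (s : P.FSt) : (pN ^ n) ((pN ^ n) s).r2 = s.r2 := by
  induction n generalizing s with
  | zero => rfl
  | succ n ih =>
    have e1 : (pN ^ (n + 1)) s = pN ((pN ^ n) s) := by rw [pow_succ', Equiv.Perm.mul_apply]
    have e2 : ∀ x : P.FSt, (pN ^ (n + 1)) x = (pN ^ n) (pN x) := fun x => by
      rw [pow_succ, Equiv.Perm.mul_apply]
    have h1 : pN (pN ((pN ^ n) s)).r2 = ((pN ^ n) s).r2 := FSt.stN_inv _
    rw [e1, e2, h1, ih]

lemma far_far (s : P.FSt) : Rows.far (Rows.far s) = s := by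
  unfold Rows.far
  rw [pNpow_r2, FSt.r2_r2]

lemma far_inj {s t : P.FSt} (h : Rows.far s = Rows.far t) : s = t := by
  rw [← far_far s, h, far_far]

namespace Rows

variable (R : Rows P)

lemma Rim.V {r : P.FSt} (h : R.Rim r) : IsV r := by
  rcases h with h | h
  · exact IsV_of_U h.1
  · exact IsV_of_Ur h.1

lemma Rim.ne0 {r : P.FSt} (h : R.Rim r) : R.rw r.facet ≠ 0 := by
  rcases h with h | h <;> omega

lemma Rim.E {r : P.FSt} (h : R.Rim r) : R.Rim r.stE := by
  rcases h with ⟨h, h'⟩ | ⟨h, h'⟩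
  · exact Or.inl ⟨(IsU_stE r).2 h, by rw [R.E r (IsV_of_U h), h']⟩
  · exact Or.inr ⟨(IsUr_stE r).2 h, by rw [R.E r (IsV_of_Ur h), h']⟩

lemma Rim.W {r : P.FSt} (h : R.Rim r) : R.Rim (pE.symm r) := by
  have e := pE_symm_stE r
  have hV : IsV (pE.symm r) := by rw [← IsV_stE, e]; exact h.V
  have hw : R.rw (pE.symm r).facet = R.rw r.facet := by rw [← R.E _ hV, e]
  rcases h with ⟨h, h'⟩ | ⟨h, h'⟩
  · refine Or.inl ⟨?_, by rw [hw, h']⟩
    rw [← IsU_stE, e]; exact h
  · refine Or.inr ⟨?_, by rw [hw, h']⟩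
    rw [← IsUr_stE, e]; exact h

lemma Rim.pow {r : P.FSt} (h : R.Rim r) (n : ℕ) : R.Rim ((pE ^ n) r) := by
  induction n with
  | zero => exact h
  | succ n ih =>
    rw [pow_succ', Equiv.Perm.mul_apply]
    exact Rim.E R ih

lemma Rim.cyc {r s : P.FSt} (h : R.Rim r) (hs : pE.SameCycle r s) : R.Rim s := by
  obtain ⟨n, hn⟩ := hs.exists_nat_pow_eq
  rw [← hn]
  exact Rim.pow R h n

/-- the state of the junction below a rim state -/
lemma rw_symm {r : P.FSt} (h : R.Rim r) : R.rw (pN.symm r).facet = 0 := by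
  rcases h with ⟨h, h'⟩ | ⟨h, h'⟩
  · have e := pN_symm_stN r
    have := R.S (pN.symm r) (by rw [e]; exact h) (by rw [e]; omega)
    rw [e] at this
    omega
  · have := (R.N r.r2 h (by rw [FSt.facet_r2]; omega)).2
    rw [FSt.facet_r2, if_pos h'] at this
    rw [pN_symm_apply, FSt.facet_r2]
    exact this

lemma V_symm {r : P.FSt} (h : R.Rim r) : IsV (pN.symm r) := by
  rcases h with ⟨h, h'⟩ | ⟨h, h'⟩
  · have e := pN_symm_stN r
    have := R.S (pN.symm r) (by rw [e]; exact h) (by rw [e]; omega)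
    exact IsV_of_U this.1
  · have := (R.N r.r2 h (by rw [FSt.facet_r2]; omega)).1
    rw [pN_symm_apply, IsV_r2]
    exact IsV_of_U this

/-- the squares commute for both vertical directions -/
lemma commD {s : P.FSt} (h : IsU s.r2) (h0 : R.rw s.facet ≠ 0) : s.stE.stN = s.stN.stE := by
  obtain ⟨w, hw⟩ : ∃ w : P.FSt, w.stE = s.r2 := ⟨pE.symm s.r2, pE_symm_stE _⟩
  have hU : IsU w := by rw [← IsU_stE, hw]; exact h
  have hr : R.rw w.facet ≠ 0 := by
    rw [← R.E w (IsV_of_U hU), hw, FSt.facet_r2]; exact h0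
  obtain ⟨u, hu⟩ : ∃ u : P.FSt, u.stN = w := ⟨pN.symm w, pN_symm_stN _⟩
  have hUu : IsU u := (R.S u (by rw [hu]; exact hU) (by rw [hu]; exact hr)).1
  have hc := R.comm u hUu (Or.inr (by rw [hu]; exact hr))
  rw [hu, hw] at hc
  -- `u.stE` is the state south of `s.r2`
  have h1 : s.stN.r2 = u.stE := by
    have h2 : s.stN.r2.stN = s.r2 := FSt.stN_inv s
    have h3 : pN s.stN.r2 = pN u.stE := by
      show s.stN.r2.stN = u.stE.stN
      rw [h2, hc]
    exact pN.injective h3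
  have h4 : s.stN = u.stE.r2 := by rw [← h1, FSt.r2_r2]
  have h5 : s = w.stE.r2 := by rw [hw, FSt.r2_r2]
  have h6 : s.stE = w.r2 := by rw [h5, FSt.stE_inv]
  rw [h4, FSt.stE_inv, h6, ← hu, FSt.stN_inv]

lemma comm' {s : P.FSt} (h : IsV s) (h0 : R.rw s.facet ≠ 0) : s.stE.stN = s.stN.stE := by
  rcases U_or h with h1 | h1
  · exact R.comm s h1 (Or.inl h0)
  · exact R.commD h1 h0

lemma symm_E {r : P.FSt} (h : R.Rim r) : (pN.symm r).stE = pN.symm r.stE := by
  symm
  apply pN_symm_of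
  rcases h with ⟨h, h'⟩ | ⟨h, h'⟩
  · have e := pN_symm_stN r
    have := R.S (pN.symm r) (by rw [e]; exact h) (by rw [e]; omega)
    have hc := R.comm _ this.1 (Or.inr (by rw [e]; omega))
    rw [e] at hc
    exact hc
  · -- `s = r.r2`, `u.stE = s`
    obtain ⟨u, hu⟩ : ∃ u : P.FSt, u.stE = r.r2 := ⟨pE.symm r.r2, pE_symm_stE _⟩
    have hU : IsU u := by rw [← IsU_stE, hu]; exact h
    have hr : R.rw u.facet ≠ 0 := by
      rw [← R.E u (IsV_of_U hU), hu, FSt.facet_r2]; omega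
    have hc := R.comm u hU (Or.inl hr)
    rw [hu] at hc
    rw [pN_symm_apply, hc, FSt.stE_inv, FSt.stN_inv]
    have h5 : r = u.stE.r2 := by rw [hu, FSt.r2_r2]
    rw [h5, FSt.stE_inv]

/-- the rows above a state with north up -/
lemma up {s : P.FSt} (h : IsU s) (h0 : R.rw s.facet ≠ 0) (j : ℕ) (hj : R.rw s.facet + j ≤ 5) :
    IsU ((pN ^ j) s) ∧ R.rw ((pN ^ j) s).facet = R.rw s.facet + j := by
  induction j with
  | zero => exact ⟨h, rfl⟩
  | succ j ih =>
    obtain ⟨h1, h2⟩ := ih (by omega)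
    rw [pow_succ', Equiv.Perm.mul_apply]
    have h3 := R.N _ h1 (by omega)
    refine ⟨h3.1, ?_⟩
    show R.rw ((pN ^ j) s).stN.facet = _
    rw [h3.2, if_neg (by omega)]
    omega

/-- the rows below a state with north down -/
lemma down {s : P.FSt} (h : IsU s.r2) (j : ℕ) (hj : j < R.rw s.facet) :
    IsU ((pN ^ j) s).r2 ∧ R.rw ((pN ^ j) s).facet + j = R.rw s.facet := by
  induction j with
  | zero => exact ⟨h, rfl⟩
  | succ j ih =>
    obtain ⟨h1, h2⟩ := ih (by omega)
    rw [pow_succ', Equiv.Perm.mul_apply]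
    set t := (pN ^ j) s with ht
    have e : t.stN.r2.stN = t.r2 := FSt.stN_inv t
    have h3 := R.S t.stN.r2 (by rw [e]; exact h1) (by rw [e, FSt.facet_r2]; omega)
    rw [e] at h3
    refine ⟨h3.1, ?_⟩
    have h4 := h3.2
    rw [FSt.facet_r2, FSt.facet_r2] at h4
    show R.rw t.stN.facet + (j + 1) = _
    omega

lemma Rim.far {r : P.FSt} (h : R.Rim r) : R.Rim (Rows.far r) := by
  rcases h with ⟨h, h'⟩ | ⟨h, h'⟩
  · have := R.up h (by omega) 4 (by omega)
    refine Or.inr ⟨?_, ?_⟩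
    · unfold Rows.far
      rw [FSt.r2_r2]
      exact this.1
    · unfold Rows.far
      rw [FSt.facet_r2, this.2]
      omega
  · have := R.down h 4 (by omega)
    refine Or.inl ⟨this.1, ?_⟩
    unfold Rows.far
    rw [FSt.facet_r2]
    omega

/-- `pN ^ j` commutes with `pE` inside the band -/
lemma pow_E {r : P.FSt} (h : R.Rim r) (j : ℕ) (hj : j ≤ 4) :
    (pN ^ j) r.stE = ((pN ^ j) r).stE := by
  induction j with
  | zero => rfl
  | succ j ih =>
    rw [pow_succ', Equiv.Perm.mul_apply, Equiv.Perm.mul_apply, ih (by omega)]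
    show ((pN ^ j) r).stE.stN = ((pN ^ j) r).stN.stE
    rcases h with ⟨h, h'⟩ | ⟨h, h'⟩
    · have := R.up h (by omega) j (by omega)
      exact R.comm' (IsV_of_U this.1) (by omega)
    · have := R.down h j (by omega)
      exact R.comm' (IsV_of_Ur this.1) (by omega)

lemma far_E {r : P.FSt} (h : R.Rim r) : Rows.far r.stE = pE.symm (Rows.far r) := by
  unfold Rows.far
  rw [R.pow_E h 4 le_rfl, stE_r2]

lemma far_W {r : P.FSt} (h : R.Rim r) : (Rows.far r).stE = Rows.far (pE.symm r) := by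
  have h1 := R.far_E (Rim.W R h)
  rw [pE_symm_stE] at h1
  rw [h1, pE_symm_stE]

lemma far_cyc {r s : P.FSt} (h : R.Rim r) (hs : pE.SameCycle r s) :
    pE.SameCycle (Rows.far r) (Rows.far s) := by
  obtain ⟨n, hn⟩ := hs.exists_nat_pow_eq
  rw [← hn]
  clear hn hs
  induction n with
  | zero => exact Equiv.Perm.SameCycle.refl _ _
  | succ n ih =>
    rw [pow_succ', Equiv.Perm.mul_apply]
    refine ih.trans ?_
    have h1 := R.far_E (Rim.pow R h n)
    have h2 : pE ((pE ^ n) r) = ((pE ^ n) r).stE := rfl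
    rw [h2, h1]
    exact ⟨-1, by simp⟩

lemma far_cyc_iff {r s : P.FSt} (h : R.Rim r) :
    pE.SameCycle (Rows.far r) (Rows.far s) ↔ pE.SameCycle r s := by
  constructor
  · intro hs
    have := R.far_cyc (Rim.far R h) hs
    rwa [far_far, far_far] at this
  · exact R.far_cyc h

/-- a predicate that is constant on the junctions is constant along a rim -/
lemma QJ.jf_E {Q : P.Facet → Prop} (hQ : R.QJ Q) {r : P.FSt} (h : R.Rim r) :
    Q (jf r.stE) ↔ Q (jf r) := by
  have h1 := hQ (pN.symm r) (R.rw_symm h) (by rw [R.symm_E h]; exact R.rw_symm (Rim.E R h))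
  rw [R.symm_E h] at h1
  exact h1.symm

lemma QJ.jf {Q : P.Facet → Prop} (hQ : R.QJ Q) {r s : P.FSt} (h : R.Rim r)
    (hs : pE.SameCycle r s) : Q (jf s) ↔ Q (jf r) := by
  obtain ⟨n, hn⟩ := hs.exists_nat_pow_eq
  rw [← hn]
  clear hn hs
  induction n with
  | zero => exact Iff.rfl
  | succ n ih =>
    rw [pow_succ', Equiv.Perm.mul_apply]
    exact (QJ.jf_E R hQ (Rim.pow R h n)).trans ih

/-- a side of a facet outside the core on a core facet is a foot of a rim -/
lemma Rim.of_side {s : P.FSt} (h0 : R.rw s.facet = 0) (h1 : R.rw s.stE.facet ≠ 0) :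
    R.Rim s.stE.rR ∧ (pN.symm s.stE.rR).rL = s ∧ pN.symm s.stE.rR = s.rR := by
  have e : s.rR.stN = s.stE.rR := by
    show s.rR.rL.stE.rR = _
    rw [FSt.rR_rL]
  have e2 : pN.symm s.stE.rR = s.rR := pN_symm_of e
  refine ⟨?_, by rw [e2, FSt.rR_rL], e2⟩
  set r := s.stE.rR with hr
  have hf : r.facet = s.stE.facet := rfl
  rcases R.V r (by rw [hf]; exact h1) with h | h
  · rcases U_or h with h | h
    · have := R.S s.rR (by rw [e]; exact h) (by rw [e, hf]; exact h1)
      rw [e, FSt.facet_rR, h0] at this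
      exact Or.inl ⟨h, this.2.symm⟩
    · have := R.N r.r2 h (by rw [FSt.facet_r2, hf]; exact h1)
      refine Or.inr ⟨h, ?_⟩
      by_contra h5
      rw [FSt.facet_r2, if_neg h5] at this
      have h6 : r.r2.stN.facet = s.facet := by
        have : s.rR.stN.r2.stN = s.rR.r2 := FSt.stN_inv s.rR
        rw [e] at this
        rw [this]
        rfl
      rw [h6, h0] at this
      omega
  · exfalso
    have e3 : r.rL = s.stE := by rw [hr, FSt.rR_rL]
    rw [e3, IsV_stE] at h
    exact h1 (by rw [R.E s h, h0])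

end Rows

end Pool.Agent.MP42H
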