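import Pool.Agent.Helper55.UNF.Win

/-!
# The tables of the facets of the core
-/

set_option autoImplicit false
set_option linter.unusedSectionVars false

namespace Pool.Agent.MP42H

open Pool.Agent.Helper55.UNF

/-- strand `+`, offset `n`, end of the run `t`, entry column `ci`, exit column `co` -/
def YP (m ci co n t x y : ℕ) : Bool :=
  decide (y = m) && (decide (n ≠ 0) || decide (ci < x)) && (decide (n ≠ t) || decide (x ≤ co))

def YL (m ci co n t x y : ℕ) : Ln :=
  if (n = 0 ∧ x = ci ∧ y ≤ m) ∨ (n = t ∧ x = co ∧ m < y) then Ln.n else Ln.z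

/-- strand `0`, offset `n`, run from `u` to `v` (frame with east up) -/
def XP (m n u v x y : ℕ) : Bool :=
  decide (y = m) && ((decide (n = u) && decide (x ≤ m)) || (decide (n = v) && decide (m < x)))

def XL (m n u v x y : ℕ) : Ln :=
  if x = m ∧ u ≤ n ∧ n ≤ v ∧ (n = u → y ≤ m) ∧ (n = v → m < y) then Ln.s else Ln.z

/-- cut band, offset `n`, length `L` -/
def CP (m k n L x y : ℕ) : Bool :=
  decide (y = m) && (decide (n ≠ 0) || decide (0 < x)) && (decide (n + 1 ≠ L) || decide (x < k))

def CL (m k n L x y : ℕ) : Ln :=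
  if n = 0 ∧ x = 0 ∧ y ≤ m then Ln.n else if n + 1 = L ∧ x + 1 = k ∧ y ≤ m then Ln.s else Ln.z

lemma okc_tt : okc true true Ln.z Ln.z = true := rfl

lemma YP_true {m ci co n t x y : ℕ} : YP m ci co n t x y = true ↔
    y = m ∧ (n = 0 → ci < x) ∧ (n = t → x ≤ co) := by
  unfold YP
  simp only [Bool.and_eq_true, Bool.or_eq_true, decide_eq_true_eq, and_assoc]
  constructor
  · rintro ⟨h1, h2, h3⟩
    exact ⟨h1, fun h => h2.resolve_left (by omega), fun h => h3.resolve_left (by omega)⟩
  · rintro ⟨h1, h2, h3⟩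
    exact ⟨h1, by by_cases h : n = 0 <;> simp_all, by by_cases h : n = t <;> simp_all⟩

lemma XP_true {m n u v x y : ℕ} : XP m n u v x y = true ↔
    y = m ∧ ((n = u ∧ x ≤ m) ∨ (n = v ∧ m < x)) := by
  unfold XP
  simp only [Bool.and_eq_true, Bool.or_eq_true, decide_eq_true_eq]

lemma CP_true {m k n L x y : ℕ} : CP m k n L x y = true ↔
    y = m ∧ (n = 0 → 0 < x) ∧ (n + 1 = L → x < k) := by
  unfold CP
  simp only [Bool.and_eq_true, Bool.or_eq_true, decide_eq_true_eq, and_assoc]
  constructor
  · rintro ⟨h1, h2, h3⟩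
    exact ⟨h1, fun h => h2.resolve_left (by omega), fun h => h3.resolve_left (by omega)⟩
  · rintro ⟨h1, h2, h3⟩
    exact ⟨h1, by by_cases h : n = 0 <;> simp_all, by by_cases h : n + 1 = L <;> simp_all⟩

lemma YL_ne {m ci co n t x y : ℕ} : YL m ci co n t x y ≠ Ln.z ↔
    (n = 0 ∧ x = ci ∧ y ≤ m) ∨ (n = t ∧ x = co ∧ m < y) := by
  unfold YL; split_ifs with h <;> simp [h]

lemma XL_ne {m n u v x y : ℕ} : XL m n u v x y ≠ Ln.z ↔
    x = m ∧ u ≤ n ∧ n ≤ v ∧ (n = u → y ≤ m) ∧ (n = v → m < y) := by
  unfold XL; split_ifs with h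
  · simp only [ne_eq, reduceCtorEq, not_false_eq_true, true_iff]; exact h
  · simp only [ne_eq, not_true_eq_false, false_iff]; exact h

lemma CL_ne {m k n L x y : ℕ} : CL m k n L x y ≠ Ln.z ↔
    (n = 0 ∧ x = 0 ∧ y ≤ m) ∨ (n + 1 = L ∧ x + 1 = k ∧ y ≤ m) := by
  unfold CL; split_ifs with h h' <;> simp [h]
  · exact h'
  · intro h1 h2; by_contra h3; exact h' ⟨h1, h2, by omega⟩

lemma YP_false {m ci co n t x y : ℕ} : YP m ci co n t x y = false ↔
    ¬ (y = m ∧ (n = 0 → ci < x) ∧ (n = t → x ≤ co)) := by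
  rw [← YP_true, Bool.not_eq_true]

lemma XP_false {m n u v x y : ℕ} : XP m n u v x y = false ↔
    ¬ (y = m ∧ ((n = u ∧ x ≤ m) ∨ (n = v ∧ m < x))) := by
  rw [← XP_true, Bool.not_eq_true]

lemma CP_false {m k n L x y : ℕ} : CP m k n L x y = false ↔
    ¬ (y = m ∧ (n = 0 → 0 < x) ∧ (n + 1 = L → x < k)) := by
  rw [← CP_true, Bool.not_eq_true]

lemma Y_ok {k m ci co n t : ℕ} (hc : n = 0 → n = t → ci = co) :
    CellOk k (YP m ci co n t) (YL m ci co n t) := by
  intro x y hx hy
  by_cases a : YP m ci co n t x y = true <;> by_cases b : YP m ci co n t (x + 1) y = true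
  · rw [a, b]
    rw [YP_true] at a b
    have e1 : YL m ci co n t x (y + 1) = Ln.z := by
      unfold YL; rw [if_neg]; omega
    have e2 : YL m ci co n t x y = Ln.z := by
      unfold YL; rw [if_neg]; omega
    rw [e1, e2]; rfl
  · rw [a, Bool.not_eq_true _ |>.mp b]
    rw [YP_true] at a b
    have e1 : YL m ci co n t x (y + 1) = Ln.n := by
      unfold YL; rw [if_pos]; omega
    have e2 : YL m ci co n t x y = Ln.z := by
      unfold YL; rw [if_neg]; omega
    rw [e1, e2]; rfl
  · rw [b, Bool.not_eq_true _ |>.mp a]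
    rw [YP_true] at a b
    have e1 : YL m ci co n t x (y + 1) = Ln.z := by
      unfold YL; rw [if_neg]; omega
    have e2 : YL m ci co n t x y = Ln.n := by
      unfold YL; rw [if_pos]; omega
    rw [e1, e2]; rfl
  · rw [Bool.not_eq_true _ |>.mp b, Bool.not_eq_true _ |>.mp a]
    rw [YP_true] at a b
    by_cases h : YL m ci co n t x y = Ln.z
    · have e1 : YL m ci co n t x (y + 1) = Ln.z := by
        unfold YL at h ⊢
        rw [if_neg]
        split_ifs at h
        omega
      rw [e1, h]; rfl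
    · have e2 : YL m ci co n t x y = Ln.n := by
        unfold YL at h ⊢
        split_ifs at h ⊢
        · rfl
        · exact absurd rfl h
      have e1 : YL m ci co n t x (y + 1) = Ln.n := by
        unfold YL at h ⊢
        rw [if_pos]
        split_ifs at h
        · omega
        · exact absurd rfl h
      rw [e1, e2]; rfl

lemma X_ok {k m n u v : ℕ} (huv : u ≤ v) : CellOk k (XP m n u v) (XL m n u v) := by
  intro x y hx hy
  by_cases a : XP m n u v x y = true <;> by_cases b : XP m n u v (x + 1) y = true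
  · rw [a, b]
    rw [XP_true] at a b
    have e1 : XL m n u v x (y + 1) = Ln.z := by
      unfold XL; rw [if_neg]; omega
    have e2 : XL m n u v x y = Ln.z := by
      unfold XL; rw [if_neg]; omega
    rw [e1, e2]; rfl
  · rw [a, Bool.not_eq_true _ |>.mp b]
    rw [XP_true] at a b
    have e1 : XL m n u v x (y + 1) = Ln.z := by
      unfold XL; rw [if_neg]; omega
    have e2 : XL m n u v x y = Ln.s := by
      unfold XL; rw [if_pos]; omega
    rw [e1, e2]; rfl
  · rw [b, Bool.not_eq_true _ |>.mp a]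
    rw [XP_true] at a b
    have e1 : XL m n u v x (y + 1) = Ln.s := by
      unfold XL; rw [if_pos]; omega
    have e2 : XL m n u v x y = Ln.z := by
      unfold XL; rw [if_neg]; omega
    rw [e1, e2]; rfl
  · rw [Bool.not_eq_true _ |>.mp b, Bool.not_eq_true _ |>.mp a]
    rw [XP_true] at a b
    by_cases h : x = m ∧ u ≤ n ∧ n ≤ v ∧ (n = u → y ≤ m) ∧ (n = v → m < y)
    · have e1 : XL m n u v x (y + 1) = Ln.s := by
        unfold XL; rw [if_pos]; omega
      have e2 : XL m n u v x y = Ln.s := by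
        unfold XL; rw [if_pos h]
      rw [e1, e2]; rfl
    · have e1 : XL m n u v x (y + 1) = Ln.z := by
        unfold XL; rw [if_neg]; omega
      have e2 : XL m n u v x y = Ln.z := by
        unfold XL; rw [if_neg h]
      rw [e1, e2]; rfl

lemma C_ok {k m n L : ℕ} (hk : 2 ≤ k) : CellOk k (CP m k n L) (CL m k n L) := by
  intro x y hx hy
  by_cases a : CP m k n L x y = true <;> by_cases b : CP m k n L (x + 1) y = true
  · rw [a, b]
    rw [CP_true] at a b
    have e1 : CL m k n L x (y + 1) = Ln.z := by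
      unfold CL; rw [if_neg (by omega), if_neg (by omega)]
    have e2 : CL m k n L x y = Ln.z := by
      unfold CL; rw [if_neg (by omega), if_neg (by omega)]
    rw [e1, e2]; rfl
  · rw [a, Bool.not_eq_true _ |>.mp b]
    rw [CP_true] at a b
    have e1 : CL m k n L x (y + 1) = Ln.z := by
      unfold CL; rw [if_neg (by omega), if_neg (by omega)]
    have e2 : CL m k n L x y = Ln.s := by
      unfold CL; rw [if_neg (by omega), if_pos (by omega)]
    rw [e1, e2]; rfl
  · rw [b, Bool.not_eq_true _ |>.mp a]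
    rw [CP_true] at a b
    have e1 : CL m k n L x (y + 1) = Ln.z := by
      unfold CL; rw [if_neg (by omega), if_neg (by omega)]
    have e2 : CL m k n L x y = Ln.n := by
      unfold CL; rw [if_pos (by omega)]
    rw [e1, e2]; rfl
  · rw [Bool.not_eq_true _ |>.mp b, Bool.not_eq_true _ |>.mp a]
    rw [CP_true] at a b
    have e : CL m k n L x (y + 1) = CL m k n L x y := by
      unfold CL
      by_cases h1 : n = 0 ∧ x = 0 ∧ y ≤ m
      · rw [if_pos h1, if_pos (by omega)]
      · rw [if_neg h1, if_neg (by omega)]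
        by_cases h2 : n + 1 = L ∧ x + 1 = k ∧ y ≤ m
        · rw [if_pos h2, if_pos (by omega)]
        · rw [if_neg h2, if_neg (by omega)]
    rw [e]
    generalize CL m k n L x y = l
    cases l <;> rfl

end Pool.Agent.MP42H
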