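import Pool.Agent.MP42.H.Cov

/-!
# Chains with blocked edges

The line of `s` from `s` to `s.stN` is blocked if `B s`.
-/

set_option autoImplicit false
set_option linter.unusedSectionVars false

namespace Pool.Agent.MP42H

open Pool.Agent.Helper55.UNF Pool.Agent.Helper55.UNF.GridSolid Pool.Agent.MP42G

variable {P : GridSolid}

/-- the states on the chain of `s`; the edges with `B` are blocked -/
def ChB (can : P.Facet → P.FSt) (B : P.FSt → Prop) (s t : P.FSt) : Prop :=
  ∃ z : ℤ, (∀ y ∈ Set.uIcc 0 z, Act can ((pN ^ y) s)) ∧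
    (∀ y : ℤ, min 0 z ≤ y → y < max 0 z → ¬ B ((pN ^ y) s)) ∧ (pN ^ z) s = t

variable {can : P.Facet → P.FSt} {B : P.FSt → Prop} {s t u : P.FSt}

lemma ChB.refl (h : Act can s) : ChB can B s s :=
  ⟨0, fun y hy => by
    rw [Set.uIcc_self, Set.mem_singleton_iff] at hy; rw [hy]; exact h,
    fun y h1 h2 => by
      rw [min_self] at h1; rw [max_self] at h2; omega, rfl⟩

lemma ChB.ch (h : ChB can B s t) : Ch can s t := by
  obtain ⟨z, h1, -, h2⟩ := h
  exact ⟨z, h1, h2⟩

lemma ChB.act (h : ChB can B s t) : Act can t := h.ch.act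

lemma ChB.cat (h1 : ChB can B s t) (h2 : ChB can B t u) : ChB can B s u := by
  obtain ⟨z, hz, hz', rfl⟩ := h1
  obtain ⟨w, hw, hw', rfl⟩ := h2
  refine ⟨w + z, ?_, ?_, by rw [zpow_add, Equiv.Perm.mul_apply]⟩
  · intro y hy
    by_cases h : y ∈ Set.uIcc 0 z
    · exact hz y h
    · have h3 : y - z ∈ Set.uIcc 0 w := by
        rw [Set.mem_uIcc] at *
        omega
      have := hw _ h3
      rwa [← Equiv.Perm.mul_apply, ← zpow_add, show y - z + z = y by omega] at this
  · intro y h3 h4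
    by_cases h : min 0 z ≤ y ∧ y < max 0 z
    · exact hz' y h.1 h.2
    · have := hw' (y - z) (by omega) (by omega)
      rwa [← Equiv.Perm.mul_apply, ← zpow_add, show y - z + z = y by omega] at this

lemma ChB.symm (h1 : ChB can B s t) : ChB can B t s := by
  obtain ⟨z, hz, hz', rfl⟩ := h1
  refine ⟨-z, ?_, ?_, by rw [← Equiv.Perm.mul_apply, ← zpow_add]; simp⟩
  · intro y hy
    have h3 : y + z ∈ Set.uIcc 0 z := by
      rw [Set.mem_uIcc] at *
      omega
    have := hz _ h3
    rwa [zpow_add, Equiv.Perm.mul_apply] at this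
  · intro y h3 h4
    have := hz' (y + z) (by omega) (by omega)
    rwa [zpow_add, Equiv.Perm.mul_apply] at this

lemma ChB.N (h : Act can s) (h' : Act can s.stN) (hb : ¬ B s) : ChB can B s s.stN := by
  refine ⟨1, ?_, ?_, rfl⟩
  · intro y hy
    rw [Set.mem_uIcc] at hy
    obtain rfl | rfl : y = 0 ∨ y = 1 := by omega
    · exact h
    · exact h'
  · intro y h1 h2
    have : y = 0 := by omega
    rw [this]
    exact hb

/-- the step before the state -/
lemma pN_pred_r2 (s : P.FSt) : (pN.symm s).stN.r2 = s.r2 := by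
  rw [stN_pN_symm]

lemma ChB.rot (hB : ∀ s, B s.stN.r2 ↔ B s) (h : ChB can B s t) : ChB can B s.r2 t.r2 := by
  obtain ⟨z, hz, hz', rfl⟩ := h
  refine ⟨-z, ?_, ?_, by rw [zpow_pN_r2, neg_neg]⟩
  · intro y hy
    rw [zpow_pN_r2, act_r2_iff']
    apply hz
    rw [Set.mem_uIcc] at *
    omega
  · intro y h1 h2
    have h3 := hz' (-y - 1) (by omega) (by omega)
    rw [zpow_pN_r2, ← pN_pred_r2, hB]
    have e : pN.symm ((pN ^ (-y)) s) = (pN ^ (-y - 1)) s := by
      rw [sub_eq_add_neg, add_comm, zpow_add, Equiv.Perm.mul_apply, zpow_neg_one]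
      rfl
    rw [e]
    exact h3

/-- every line reaches a west port (`w = true`) and an east port (`w = false`) -/
def ATab.RchB {k : ℕ} (A : ATab P k) (B : P.FSt → Prop) (s : P.FSt) (x : ℕ) (w : Bool) : Prop :=
  ∃ t, ChB A.can B s t ∧ ∃ y < k, A.pr t (if w then x else x + 1) y = true

lemma ATab.RchB.rch {k : ℕ} {A : ATab P k} {x : ℕ} {w : Bool} (h : A.RchB B s x w) :
    A.Rch s x w := by
  obtain ⟨t, h1, h2⟩ := h
  exact ⟨t, h1.ch, h2⟩

end Pool.Agent.MP42H
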