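import Pool.Agent.MP42.H.TabC

/-!
# Connectivity of the state table of a certificate: the last step
-/

set_option autoImplicit false
set_option linter.unusedSectionVars false

namespace Pool.Agent.MP42H

open Pool.Agent.Helper55.UNF Pool.Agent.Helper55.UNF.GridSolid Pool.Agent.MP42G

variable {P : GridSolid}

namespace JC

variable {k : ℕ} {C : JC P k}

/-- the predicates on the junctions given by predicates on the states -/
def ψJ (C : JC P k) (ψ : P.FSt → ℕ → ℕ → Prop) (f : P.Facet) (x y : ℕ) : Prop := ψ (C.can f) x y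

lemma act_can {f : P.Facet} (h : C.rw f = 0) : Act C.canF (C.can f) := by
  left
  rw [C.can_facet, canF_J h]

lemma act_can2 {f : P.Facet} (h : C.rw f = 0) : Act C.canF (C.can f).r2 := by
  right
  rw [FSt.facet_r2, FSt.r2_r2, C.can_facet, canF_J h]

lemma PR_can {f : P.Facet} (h : C.rw f = 0) (x y : ℕ) : C.PR (C.can f) x y = C.pr f x y := by
  rw [PR_J (by rw [C.can_facet]; exact h) (by rw [C.can_facet]), C.can_facet]

lemma LA_can {f : P.Facet} (h : C.rw f = 0) (x y : ℕ) : C.LA (C.can f) x y = C.la f x y := by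
  rw [LA_J (by rw [C.can_facet]; exact h) (by rw [C.can_facet]), C.can_facet]

lemma PR_can2 {f : P.Facet} (h : C.rw f = 0) (x y : ℕ) :
    C.PR (C.can f).r2 x y = C.pr f (k - x) (k - 1 - y) := by
  rw [PR_J2 (by rw [FSt.facet_r2, C.can_facet]; exact h)
    (by rw [FSt.facet_r2, C.can_facet, FSt.r2_r2]), FSt.facet_r2, C.can_facet]

/-- the relations in the junctions -/
theorem inv_of {ψ χ : P.FSt → ℕ → ℕ → Prop} (hR : ARel k C.canF C.PR C.LA ψ χ) :
    C.Inv (C.ψJ ψ) (C.ψJ χ) where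
  cell := fun f h0 => by
    have h1 := hR.cell (C.can f) (act_can h0)
    have e1 : C.PR (C.can f) = C.pr f := by funext x y; exact PR_can h0 x y
    have e2 : C.LA (C.can f) = C.la f := by funext x y; exact LA_can h0 x y
    rw [e1, e2] at h1
    exact h1
  gN := fun f g hf hg e x hx hl => by
    have h1 := hR.gN (C.can f) (act_can hf) (by rw [e]; exact act_can hg) x hx
      (by rw [LA_can hf]; exact hl)
    rw [e] at h1
    exact h1
  gE := fun f g hf hg e y hy hl => by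
    have h1 := hR.gE (C.can f) (act_can hf) (by rw [e]; exact act_can hg) y hy
      (by rw [PR_can hf]; exact hl)
    rw [e] at h1
    exact h1
  gEr := fun f g hf hg e y hy hl => by
    have h1 := hR.gE (C.can f) (act_can hf) (by rw [e]; exact act_can2 hg) y hy
      (by rw [PR_can hf]; exact hl)
    rw [e, hR.rotV _ (act_can hg) 0 y (Nat.zero_le _) hy, Nat.sub_zero] at h1
    exact h1
  gWr := fun f g hf hg e y hy hl => by
    have h1 := hR.gE (C.can f).r2 (act_can2 hf) (by rw [e]; exact act_can hg) (k - 1 - y)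
      (by omega) (by
        rw [PR_can2 hf, Nat.sub_self, show k - 1 - (k - 1 - y) = y by omega]; exact hl)
    rw [e, hR.rotV _ (act_can hf) k _ le_rfl (by omega), Nat.sub_self,
      show k - 1 - (k - 1 - y) = y by omega] at h1
    exact h1

/-! ## Values of the feet -/

lemma ConstJ.foot_n {ψ χ : P.Facet → ℕ → ℕ → Prop} {Q : P.Facet → Prop} (h : C.ConstJ ψ χ Q)
    {r : P.FSt} (hr : C.Rim r) (hf : C.fa r) : C.vn χ (pN.symm r) 0 ↔ Q (Rows.jf r) := by
  have hk := C.hk
  have h0 : C.rw (pN.symm r).facet = 0 := rw_J hr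
  have h1 := C.rn r hr 0 (by omega)
  rw [if_pos ⟨hf, rfl⟩] at h1
  unfold wn at h1
  unfold vn
  by_cases h2 : C.can (pN.symm r).facet = pN.symm r
  · rw [if_pos h2] at h1 ⊢
    exact h.hor _ 0 k h0 (by omega) le_rfl (by rw [h1]; decide)
  · rw [if_neg h2] at h1 ⊢
    by_cases h3 : C.can (pN.symm r).facet = (pN.symm r).r2
    · rw [if_pos h3] at h1
      exact h.hor _ (k - 1 - 0) 0 h0 (by omega) (Nat.zero_le _) (by rw [h1]; decide)
    · rw [if_neg h3] at h1
      exact absurd h1 (by decide)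

lemma ConstJ.foot_o {ψ χ : P.Facet → ℕ → ℕ → Prop} {Q : P.Facet → Prop} (h : C.ConstJ ψ χ Q)
    {r : P.FSt} (hr : C.Rim r) (ht : C.tr r) (hf : C.fb r) :
    C.vo ψ (pN.symm r) ↔ Q (Rows.jf r) := by
  have hk := C.hk
  have h0 : C.rw (pN.symm r).facet = 0 := rw_J hr
  have h1 := C.ro r hr C.m (by omega)
  have h1' : wo k C.can C.pr (pN.symm r) C.m = true := by
    rw [h1]; simp [ht, hf]
  clear h1
  unfold wo at h1'
  unfold vo
  by_cases h2 : C.can (pN.symm r).facet = (pN.symm r).rL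
  · rw [if_pos h2] at h1' ⊢
    exact h.ver _ k C.m h0 le_rfl (by omega) h1'
  · rw [if_neg h2] at h1' ⊢
    by_cases h3 : C.can (pN.symm r).facet = (pN.symm r).rR
    · rw [if_pos h3, show k - 1 - C.m = C.m by omega] at h1'
      exact h.ver _ 0 C.m h0 (Nat.zero_le _) (by omega) h1'
    · rw [if_neg h3] at h1'
      exact absurd h1' (by decide)

/-! ## State form -/

lemma vn_iff {ψ χ : P.FSt → ℕ → ℕ → Prop} (hR : ARel k C.canF C.PR C.LA ψ χ) {t : P.FSt}
    (h0 : C.rw t.facet = 0) {x : ℕ} (hx : x < k) (hw : wn k C.can C.la t x ≠ Ln.z) :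
    C.vn (C.ψJ χ) t x ↔ χ t x k := by
  unfold wn at hw
  unfold vn ψJ
  by_cases h2 : C.can t.facet = t
  · rw [if_pos h2, h2]
  · rw [if_neg h2] at hw ⊢
    by_cases h3 : C.can t.facet = t.r2
    · rw [h3, hR.rotH t (Or.inr (by rw [canF_J h0]; exact h3)) _ _ (by omega) (Nat.zero_le _),
        Nat.sub_zero, show k - 1 - (k - 1 - x) = x by omega]
    · rw [if_neg h3] at hw
      exact absurd rfl hw

lemma vo_iff {ψ χ : P.FSt → ℕ → ℕ → Prop} (hR : ARel k C.canF C.PR C.LA ψ χ) {t : P.FSt}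
    (h0 : C.rw t.facet = 0) (hw : wo k C.can C.pr t C.m = true) :
    C.vo (C.ψJ ψ) t ↔ ψ t.rL k C.m := by
  have hk := C.hk
  unfold wo at hw
  unfold vo ψJ
  by_cases h2 : C.can t.facet = t.rL
  · rw [if_pos h2, h2]
  · rw [if_neg h2] at hw ⊢
    by_cases h3 : C.can t.facet = t.rR
    · have h4 : t.rL.r2 = t.rR := FSt.rL_r2 t
      rw [h3, ← h4, hR.rotV t.rL (Or.inr (by
        rw [FSt.facet_rL, canF_J h0, h4]; exact h3)) 0 C.m (Nat.zero_le _) (by omega),
        Nat.sub_zero, show k - 1 - C.m = C.m by omega]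
    · rw [if_neg h3] at hw
      exact absurd hw (by decide)

lemma wn_fa {r : P.FSt} (hr : C.Rim r) (hf : C.fa r) :
    wn k C.can C.la (pN.symm r) 0 ≠ Ln.z := by
  have hk := C.hk
  rw [C.rn r hr 0 (by omega), if_pos ⟨hf, rfl⟩]
  decide

lemma wn_s {r : P.FSt} (hr : C.Rim r) (ht : ¬ C.tr r) (hf : C.fa r.stE) :
    wn k C.can C.la (pN.symm r) (k - 1) ≠ Ln.z := by
  have hk := C.hk
  have hm := C.hm
  rw [C.rn r hr (k - 1) (by omega), if_neg (by omega), if_pos ⟨ht, hf, by omega⟩]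
  decide

lemma wo_fb {r : P.FSt} (hr : C.Rim r) (ht : C.tr r) (hf : C.fb r) :
    wo k C.can C.pr (pN.symm r) C.m = true := by
  have hk := C.hk
  rw [C.ro r hr C.m (by omega)]
  simp [ht, hf]

lemma vn_fa {ψ χ : P.FSt → ℕ → ℕ → Prop} (hR : ARel k C.canF C.PR C.LA ψ χ) {r : P.FSt}
    (hr : C.Rim r) (hf : C.fa r) : C.vn (C.ψJ χ) (pN.symm r) 0 ↔ χ (pN.symm r) 0 k :=
  vn_iff hR (rw_J hr) C.kpos (wn_fa hr hf)

lemma vn_s {ψ χ : P.FSt → ℕ → ℕ → Prop} (hR : ARel k C.canF C.PR C.LA ψ χ) {r : P.FSt}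
    (hr : C.Rim r) (ht : ¬ C.tr r) (hf : C.fa r.stE) :
    C.vn (C.ψJ χ) (pN.symm r) (k - 1) ↔ χ (pN.symm r) (k - 1) k :=
  vn_iff hR (rw_J hr) (by have := C.kpos; omega) (wn_s hr ht hf)

lemma vo_fb {ψ χ : P.FSt → ℕ → ℕ → Prop} (hR : ARel k C.canF C.PR C.LA ψ χ) {r : P.FSt}
    (hr : C.Rim r) (ht : C.tr r) (hf : C.fb r) :
    C.vo (C.ψJ ψ) (pN.symm r) ↔ ψ (pN.symm r).rL k C.m :=
  vo_iff hR (rw_J hr) (wo_fb hr ht hf)

/-- values of the edges of the core -/
def CoreVal (C : JC P k) (ψ χ : P.FSt → ℕ → ℕ → Prop) : Prop :=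
  ∀ c : Prop, (∀ r, C.Rim r → C.fa r → (C.vn (C.ψJ χ) (pN.symm r) 0 ↔ c)) →
    (∀ r, C.Rim r → C.tr r → C.fb r → (C.vo (C.ψJ ψ) (pN.symm r) ↔ c)) →
    ∀ s, Act C.canF s → C.rw s.facet ≠ 0 →
      (∀ x y, x ≤ k → y < k → C.PR s x y = true → (ψ s x y ↔ c)) ∧
      (∀ x y, x < k → y ≤ k → C.LA s x y ≠ Ln.z → (χ s x y ↔ c))

/-- the last step -/
theorem con_of (C : JC P k) (hT : C.Tree C.tr) (hC : C.Conn)
    (hV : ∀ ψ χ : P.FSt → ℕ → ℕ → Prop, ARel k C.canF C.PR C.LA ψ χ →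
      C.Val (C.ψJ ψ) (C.ψJ χ) ∧ C.CoreVal ψ χ) : C.atab.Con := by
  intro ψ χ hR
  have hR : ARel k C.canF C.PR C.LA ψ χ := hR
  obtain ⟨V, hcore⟩ := hV ψ χ hR
  have I := inv_of hR
  obtain ⟨Q, hQ⟩ := hC _ _ I (C.closed I V hT)
  have hband : ∀ r, C.Rim r → C.tr r → (Q (Rows.jf r) ↔ Q (Rows.jf (Rows.far r))) := by
    intro r hr ht
    have ha := aa_spec (C := C) hr (act_of hr ht)
    have hra := Rim.same hr ha.1
    have hta := (tr_same hr ha.1).2 ht
    have hrf := Rim.far hra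
    have htf := (C.tr_far _ hra).2 hta
    have hb := aa_spec (C := C) hrf (act_of hrf htf)
    have h1 : Q (Rows.jf r) ↔ Q (Rows.jf (C.aa r)) :=
      (Rows.QJ.jf C.toRows hQ.adj hr ha.1).symm
    have h2 : Q (Rows.jf (Rows.far (C.aa r))) ↔ Q (Rows.jf (C.aa (Rows.far (C.aa r)))) :=
      (Rows.QJ.jf C.toRows hQ.adj hrf hb.1).symm
    have h3 : Q (Rows.jf (Rows.far r)) ↔ Q (Rows.jf (Rows.far (C.aa r))) :=
      (Rows.QJ.jf C.toRows hQ.adj (Rim.far hr) (Rim.far_same hr ha.1)).symm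
    have h4 := V.n (C.aa r) hra hta ha.2 _ hb.1 hb.2
    rw [hQ.foot_n hra ha.2, hQ.foot_n (Rim.same hrf hb.1) hb.2] at h4
    rw [h1, h3, h2, h4]
  have hcon := hT.conn Q hQ.adj hband
  by_cases hex : ∃ f₀, C.rw f₀ = 0
  · obtain ⟨f₀, hf₀⟩ := hex
    have hc := hcore (Q f₀)
      (fun r hr hf => by rw [hQ.foot_n hr hf]; exact hcon _ _ (rw_J hr) hf₀)
      (fun r hr ht hf => by rw [hQ.foot_o hr ht hf]; exact hcon _ _ (rw_J hr) hf₀)
    refine ⟨Q f₀, fun s hs x y hx hy hp => ?_, fun s hs x y hx hy hp => ?_⟩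
    · have hs : Act C.canF s := hs
      have hp : C.PR s x y = true := hp
      by_cases h0 : C.rw s.facet = 0
      · rcases (act_J h0).1 hs with h1 | h1
        · have h2 := hQ.ver s.facet x y h0 hx hy (by rw [← PR_J h0 h1]; exact hp)
          unfold ψJ at h2
          rw [h1] at h2
          rw [h2]
          exact hcon _ _ h0 hf₀
        · have h2 := hQ.ver s.facet (k - x) (k - 1 - y) h0 (by omega) (by omega)
            (by rw [← PR_J2 h0 h1]; exact hp)
          unfold ψJ at h2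
          rw [h1, hR.rotV s hs _ _ (by omega) (by omega), show k - (k - x) = x by omega,
            show k - 1 - (k - 1 - y) = y by omega] at h2
          rw [h2]
          exact hcon _ _ h0 hf₀
      · exact (hc s hs h0).1 x y hx hy hp
    · have hs : Act C.canF s := hs
      have hp : C.LA s x y ≠ Ln.z := hp
      by_cases h0 : C.rw s.facet = 0
      · rcases (act_J h0).1 hs with h1 | h1
        · have h2 := hQ.hor s.facet x y h0 hx hy (by rw [← LA_J h0 h1]; exact hp)
          unfold ψJ at h2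
          rw [h1] at h2
          rw [h2]
          exact hcon _ _ h0 hf₀
        · have h2 := hQ.hor s.facet (k - 1 - x) (k - y) h0 (by omega) (by omega)
            (by rw [← LA_J2 h0 h1]; exact hp)
          unfold ψJ at h2
          rw [h1, hR.rotH s hs _ _ (by omega) (by omega), show k - (k - y) = y by omega,
            show k - 1 - (k - 1 - x) = x by omega] at h2
          rw [h2]
          exact hcon _ _ h0 hf₀
      · exact (hc s hs h0).2 x y hx hy hp
  · -- all facets belong to the core: there is no facet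
    have hno : ∀ s : P.FSt, False := by
      intro s
      by_cases h0 : C.rw s.facet = 0
      · exact hex ⟨_, h0⟩
      · obtain ⟨r, hr, -, -⟩ := ex_up (C := C) h0
        exact hex ⟨_, rw_J hr.lo_rho.rim⟩
    exact ⟨True, fun s => (hno s).elim, fun s => (hno s).elim⟩

end JC

end Pool.Agent.MP42H
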