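import Pool.Agent.MP42.H.TabC

/-!
# Coverage
-/

set_option autoImplicit false
set_option linter.unusedSectionVars false

namespace Pool.Agent.MP42H

open Pool.Agent.Helper55.UNF Pool.Agent.Helper55.UNF.GridSolid Pool.Agent.MP42G

variable {P : GridSolid}

lemma Ch.act {can : P.Facet → P.FSt} {s t : P.FSt} (h : Ch can s t) : Act can t := by
  obtain ⟨z, hz, rfl⟩ := h
  exact hz z Set.right_mem_uIcc

lemma Ch.rot {can : P.Facet → P.FSt} {s t : P.FSt} (h : Ch can s t) : Ch can s.r2 t.r2 := by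
  obtain ⟨z, hz, rfl⟩ := h
  refine ⟨-z, ?_, by rw [zpow_pN_r2, neg_neg]⟩
  intro y hy
  rw [zpow_pN_r2, act_r2_iff']
  apply hz
  rw [Set.mem_uIcc] at *
  omega

namespace JC

variable {k : ℕ} {C : JC P k} {r s t : P.FSt} {x : ℕ} {w : Bool}

lemma Rch_port (hs : Act C.canF s) {y : ℕ} (hy : y < k)
    (h : C.PR s (if w then x else x + 1) y = true) : C.atab.Rch s x w :=
  ⟨s, Ch.refl hs, y, hy, h⟩

lemma Rch_cat (h : Ch C.canF s t) (h2 : C.atab.Rch t x w) : C.atab.Rch s x w := by
  obtain ⟨u, hu, h3⟩ := h2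
  exact ⟨u, h.cat hu, h3⟩

lemma Rch_N (hs : Act C.canF s) (hs' : Act C.canF s.stN) (h : C.atab.Rch s.stN x w) :
    C.atab.Rch s x w := Rch_cat (Ch.N hs hs') h

lemma Ch_S (hs : Act C.canF s) (hs' : Act C.canF (pN.symm s)) :
    Ch C.canF s (pN.symm s) := by
  have h := Ch.N (can := C.canF) (s := pN.symm s) hs' (by rw [stN_pN_symm]; exact hs)
  rw [stN_pN_symm] at h
  exact h.symm

lemma Rch_S (hs : Act C.canF s) (hs' : Act C.canF (pN.symm s))
    (h : C.atab.Rch (pN.symm s) x w) : C.atab.Rch s x w := Rch_cat (Ch_S hs hs') h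

lemma Rch_rot (hx : x < k) (h : C.atab.Rch s x w) : C.atab.Rch s.r2 (k - 1 - x) (!w) := by
  obtain ⟨t, ht, y, hy, h1⟩ := h
  refine ⟨t.r2, ht.rot, k - 1 - y, by omega, ?_⟩
  have h2 : Act C.canF t := ht.act
  show C.PR t.r2 _ _ = true
  have h1' : C.PR t (if w then x else x + 1) y = true := h1
  cases w
  · simp only [Bool.not_false, if_true, Bool.false_eq_true, if_false] at h1' ⊢
    rw [PR_rot h2 (by omega) (by omega), show k - (k - 1 - x) = x + 1 by omega,
      show k - 1 - (k - 1 - y) = y by omega]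
    exact h1'
  · simp only [Bool.not_true, if_true, Bool.false_eq_true, if_false] at h1' ⊢
    rw [PR_rot h2 (by omega) (by omega), show k - (k - 1 - x + 1) = x by omega,
      show k - 1 - (k - 1 - y) = y by omega]
    exact h1'

lemma Rch_rot' (hx : x < k) (h : C.atab.Rch s.r2 (k - 1 - x) (!w)) : C.atab.Rch s x w := by
  have h2 := Rch_rot (by omega) h
  rwa [FSt.r2_r2, Bool.not_not, show k - 1 - (k - 1 - x) = x by omega] at h2

lemma Rch_all_rot (h : ∀ x < k, ∀ w, C.atab.Rch s.r2 x w) : ∀ x < k, ∀ w, C.atab.Rch s x w :=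
  fun _ hx _ => Rch_rot' hx (h _ (by omega) _)

/-! ## A foot lane ends at a port of the junction -/

lemma okc_n : ∀ a b v, okc a b Ln.n v = true → a = true ∨ v = Ln.n := by decide

lemma okc_s : ∀ a b v, okc a b Ln.s v = true → b = true ∨ v = Ln.s := by decide

lemma lane_n (hs : Act C.canF s) (hx : x < k) : ∀ y ≤ k, C.LA s x y = Ln.n →
    (∃ y' < k, C.PR s x y' = true) ∨ C.LA s x 0 = Ln.n := by
  intro y
  induction y with
  | zero => intro _ h; exact Or.inr h
  | succ y ih =>
    intro hy h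
    have h1 := allOk hs x y hx (by omega)
    rw [h] at h1
    rcases okc_n _ _ _ h1 with h2 | h2
    · exact Or.inl ⟨y, by omega, h2⟩
    · exact ih (by omega) h2

lemma lane_s (hs : Act C.canF s) (hx : x < k) : ∀ y ≤ k, C.LA s x y = Ln.s →
    (∃ y' < k, C.PR s (x + 1) y' = true) ∨ C.LA s x 0 = Ln.s := by
  intro y
  induction y with
  | zero => intro _ h; exact Or.inr h
  | succ y ih =>
    intro hy h
    have h1 := allOk hs x y hx (by omega)
    rw [h] at h1
    rcases okc_s _ _ _ h1 with h2 | h2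
    · exact Or.inl ⟨y, by omega, h2⟩
    · exact ih (by omega) h2

lemma NV_act (h : C.NV s x ≠ Ln.z) : Act C.canF s ∧ C.NV s x = C.LA s x k := by
  unfold NV at h ⊢
  by_cases h1 : Act C.canF s
  · rw [if_pos h1]; exact ⟨h1, rfl⟩
  · rw [if_neg h1] at h; exact absurd rfl h

lemma rim_of (h : C.rw s.facet = 0) (h' : C.rw s.stN.facet ≠ 0) : C.Rim s.stN := by
  have e : s.rL.stE.rR = s.stN := rfl
  obtain ⟨h1, h2, h3⟩ := Rows.Rim.of_side C.toRows (s := s.rL) (by rw [FSt.facet_rL]; exact h)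
    (by
      have : s.rL.stE.facet = s.stN.facet := by rw [rL_stE', FSt.facet_rL]
      rw [this]; exact h')
  rwa [e] at h1

/-- the lane of the foot `n` starts at a west port -/
lemma foot_n {ρ : P.FSt} (h : C.Rim ρ) (hf : C.fa ρ) : C.atab.Rch (pN.symm ρ) 0 true := by
  have hk := C.hk
  have hm := C.hm
  by_contra hcon
  have key : ∀ j : ℕ, C.rw ((pN.symm ^ j) (pN.symm ρ)).facet = 0 ∧
      C.NV ((pN.symm ^ j) (pN.symm ρ)) 0 = Ln.n ∧
      Ch C.canF (pN.symm ρ) ((pN.symm ^ j) (pN.symm ρ)) := by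
    intro j
    induction j with
    | zero =>
      have h0 := rw_J h
      have h1 : C.NV (pN.symm ρ) 0 = Ln.n := by
        rw [NV_J h0, C.rn ρ h 0 (by omega), if_pos ⟨hf, rfl⟩]
      refine ⟨h0, h1, Ch.refl (NV_act (by rw [h1]; decide)).1⟩
    | succ j ih =>
      obtain ⟨h0, h1, h2⟩ := ih
      rw [pow_succ', Equiv.Perm.mul_apply]
      set t := (pN.symm ^ j) (pN.symm ρ) with ht
      obtain ⟨h3, h4⟩ := NV_act (by rw [h1]; decide : C.NV t 0 ≠ Ln.z)
      rw [h1] at h4
      rcases lane_n h3 (by omega) k le_rfl h4.symm with ⟨y, hy, h5⟩ | h5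
      · exfalso
        exact hcon (Rch_cat h2 (Rch_port h3 hy (by simpa using h5)))
      · -- the neighbour to the south
        have h6 : C.NV (pN.symm t) 0 = Ln.n := by
          rw [C.sideN _ (by omega), stN_pN_symm, if_pos h3, h5]
        have h7 : C.rw (pN.symm t).facet = 0 := by
          by_contra h8
          have h9 := rim_of (C := C) (s := t.r2) (by rw [FSt.facet_r2]; exact h0)
            (by rw [r2_stN, FSt.facet_r2]; exact h8)
          have h10 := C.rn _ h9 (k - 1) (by omega)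
          rw [pN_s, ← NV_J (by rw [FSt.facet_r2]; exact h0)] at h10
          have h11 := NV_r2 (C := C) (s := t) (x := 0) (by omega)
          rw [if_pos h3, h5, Nat.sub_zero] at h11
          rw [h11, if_neg (by omega)] at h10
          split_ifs at h10
        refine ⟨h7, h6, h2.cat (Ch_S h3 (NV_act (by rw [h6]; decide)).1)⟩
  -- the chain returns to the core
  have hn : 0 < len pN (pN.symm ρ) := len_pos _
  obtain ⟨h0, -, -⟩ := key (len pN (pN.symm ρ) - 1)
  apply Rows.Rim.ne0 C.toRows h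
  have e : (pN.symm ^ (len pN (pN.symm ρ) - 1)) (pN.symm ρ) = ρ := by
    have h1 : (pN ^ len pN (pN.symm ρ)) (pN.symm ρ) = pN.symm ρ := pow_len _
    have h2 := pow_cancel' pN (len pN (pN.symm ρ)) (pN.symm ρ)
    rw [h1] at h2
    have h3 : pN ((pN.symm ^ len pN (pN.symm ρ)) (pN.symm ρ)) = ρ := by
      rw [h2, Equiv.apply_symm_apply]
    obtain ⟨n, hn'⟩ : ∃ n, len pN (pN.symm ρ) = n + 1 := ⟨len pN (pN.symm ρ) - 1, by omega⟩
    rw [hn', pow_succ', Equiv.Perm.mul_apply, Equiv.apply_symm_apply] at h3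
    rw [hn', Nat.add_sub_cancel]
    exact h3
  rw [e] at h0
  exact h0

/-- the lane of the foot `s` ends at an east port -/
lemma foot_s {ρ : P.FSt} (h : C.Rim ρ) (ht : ¬ C.tr ρ) (hf : C.fa ρ.stE) :
    C.atab.Rch (pN.symm ρ) (k - 1) false := by
  have hk := C.hk
  have hm := C.hm
  by_contra hcon
  have key : ∀ j : ℕ, C.rw ((pN.symm ^ j) (pN.symm ρ)).facet = 0 ∧
      C.NV ((pN.symm ^ j) (pN.symm ρ)) (k - 1) = Ln.s ∧
      Ch C.canF (pN.symm ρ) ((pN.symm ^ j) (pN.symm ρ)) := by
    intro j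
    induction j with
    | zero =>
      have h0 := rw_J h
      have h1 : C.NV (pN.symm ρ) (k - 1) = Ln.s := by
        rw [NV_J h0, C.rn ρ h _ (by omega), if_neg (by omega), if_pos ⟨ht, hf, by omega⟩]
      refine ⟨h0, h1, Ch.refl (NV_act (by rw [h1]; decide)).1⟩
    | succ j ih =>
      obtain ⟨h0, h1, h2⟩ := ih
      rw [pow_succ', Equiv.Perm.mul_apply]
      set t := (pN.symm ^ j) (pN.symm ρ) with ht
      obtain ⟨h3, h4⟩ := NV_act (by rw [h1]; decide : C.NV t (k - 1) ≠ Ln.z)
      rw [h1] at h4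
      rcases lane_s h3 (by omega) k le_rfl h4.symm with ⟨y, hy, h5⟩ | h5
      · exfalso
        exact hcon (Rch_cat h2 (Rch_port h3 hy (by simpa using h5)))
      · -- the neighbour to the south
        have h6 : C.NV (pN.symm t) (k - 1) = Ln.s := by
          rw [C.sideN _ (by omega), stN_pN_symm, if_pos h3, h5]
        have h7 : C.rw (pN.symm t).facet = 0 := by
          by_contra h8
          have h9 := rim_of (C := C) (s := t.r2) (by rw [FSt.facet_r2]; exact h0)
            (by rw [r2_stN, FSt.facet_r2]; exact h8)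
          have h10 := C.rn _ h9 0 (by omega)
          rw [pN_s, ← NV_J (by rw [FSt.facet_r2]; exact h0)] at h10
          have h11 := NV_r2 (C := C) (s := t) (x := k - 1) (by omega)
          rw [if_pos h3, h5, Nat.sub_self] at h11
          rw [h11] at h10
          split_ifs at h10
          omega
        refine ⟨h7, h6, h2.cat (Ch_S h3 (NV_act (by rw [h6]; decide)).1)⟩
  -- the chain returns to the core
  have hn : 0 < len pN (pN.symm ρ) := len_pos _
  obtain ⟨h0, -, -⟩ := key (len pN (pN.symm ρ) - 1)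
  apply Rows.Rim.ne0 C.toRows h
  have e : (pN.symm ^ (len pN (pN.symm ρ) - 1)) (pN.symm ρ) = ρ := by
    have h1 : (pN ^ len pN (pN.symm ρ)) (pN.symm ρ) = pN.symm ρ := pow_len _
    have h2 := pow_cancel' pN (len pN (pN.symm ρ)) (pN.symm ρ)
    rw [h1] at h2
    have h3 : pN ((pN.symm ^ len pN (pN.symm ρ)) (pN.symm ρ)) = ρ := by
      rw [h2, Equiv.apply_symm_apply]
    obtain ⟨n, hn'⟩ : ∃ n, len pN (pN.symm ρ) = n + 1 := ⟨len pN (pN.symm ρ) - 1, by omega⟩
    rw [hn', pow_succ', Equiv.Perm.mul_apply, Equiv.apply_symm_apply] at h3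
    rw [hn', Nat.add_sub_cancel]
    exact h3
  rw [e] at h0
  exact h0

/-! ## Tree bands -/

lemma PR_Y (h : CU C.toRows r) (ht : C.tr (rho C.toRows r)) (x y : ℕ) : C.PR r x y = true ↔
    y = C.m ∧ (C.nn r = 0 → C.ci r < x) ∧ (C.nn r = C.tt r → x ≤ C.co r) := by
  rw [PR_r h]
  unfold TY
  rw [if_pos ht, YP_true]

lemma PR_X (h : CU C.toRows r) (x y : ℕ) : C.PR r.rL x y = true ↔
    y = C.m ∧ ((C.nn r = C.uu r ∧ x ≤ C.m) ∨ (C.nn r = C.vv r ∧ C.m < x)) := by
  rw [PR_rL h]
  unfold TX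
  rw [XP_true]

lemma act_Y (h : CU C.toRows r) (h1 : C.nn r ≤ C.tt r) : Act C.canF r :=
  (act_r h).2 (fun _ => h1)

lemma act_X (h : CU C.toRows r) (ht : C.tr (rho C.toRows r)) (h1 : C.tt r < C.nn r) :
    Act C.canF r.rL := (act_rL h).2 (fun h2 => by have := h2 ht; omega)

lemma m_lt (C : JC P k) : C.m < k := by have := C.hk; omega

/-- going down at the end of a run -/
lemma covD : ∀ (n : ℕ) (r : P.FSt), CU C.toRows r → C.tr (rho C.toRows r) →
    C.rw r.facet = n → n ≤ 4 → C.nn r = C.tt r → ∀ (x : ℕ) (w : Bool),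
    (if w then x else x + 1) ≤ C.m → C.atab.Rch r x w := by
  intro n
  induction n with
  | zero => intro r h _ h0; exact absurd h0 h.2
  | succ n ih =>
    intro r h ht hw h4 hn x w hp
    by_cases h1 : 0 < C.tt r
    · apply Rch_port (act_Y h hn.le) (m_lt C)
      rw [PR_Y h ht]
      unfold ci co
      rw [if_neg (show ¬ C.rw r.facet = 5 by omega)]
      exact ⟨rfl, fun h2 => by omega, fun _ => hp⟩
    · have h2 : C.rw r.facet ≠ 1 := fun h2 => h1 (tt_pos h ht (Or.inl h2))
      obtain ⟨h3, h5⟩ := h.S h2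
      have e : rho C.toRows (pN.symm r) = rho C.toRows r := by
        have := h3.rho_N (by omega)
        rw [stN_pN_symm] at this
        exact this.symm
      have h6 := (row_N h3 (by rw [e]; exact ht) (by omega)).1
      rw [stN_pN_symm] at h6
      have h7 := h6.2 (by omega)
      exact Rch_S (act_Y h hn.le) (act_Y h3 h7.le)
        (ih _ h3 (by rw [e]; exact ht) (by omega) (by omega) h7 x w hp)

/-- going up at the beginning of a run -/
lemma covU : ∀ (n : ℕ) (r : P.FSt), CU C.toRows r → C.tr (rho C.toRows r) →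
    C.rw r.facet + n = 5 → 2 ≤ C.rw r.facet → C.nn r = 0 → ∀ (x : ℕ) (w : Bool), x < k →
    C.m < (if w then x else x + 1) → C.atab.Rch r x w := by
  intro n
  induction n with
  | zero =>
    intro r h ht hw h2 hn x w hx hp
    have h1 := tt_pos h ht (Or.inr hw)
    apply Rch_port (act_Y h (by omega)) (m_lt C)
    rw [PR_Y h ht]
    unfold ci co
    rw [if_neg (show ¬ C.rw r.facet = 1 by omega)]
    exact ⟨rfl, fun _ => hp, fun h2 => by omega⟩
  | succ n ih =>
    intro r h ht hw h2 hn x w hx hp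
    by_cases h1 : 0 < C.tt r
    · apply Rch_port (act_Y h (by omega)) (m_lt C)
      rw [PR_Y h ht]
      unfold ci co
      rw [if_neg (show ¬ C.rw r.facet = 1 by omega)]
      exact ⟨rfl, fun _ => hp, fun h2 => by omega⟩
    · obtain ⟨h3, h5⟩ := h.stN (by omega)
      have e := h.rho_N (by omega)
      have h6 := (row_N h ht (by omega)).1.1 (by omega)
      exact Rch_N (act_Y h (by omega)) (act_Y h3 (by omega))
        (ih _ h3 (by rw [e]; exact ht) (by omega) (by omega) h6 x w hx hp)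

/-- lines of the `Y` facets -/
lemma covY (h : CU C.toRows r) (ht : C.tr (rho C.toRows r)) (hY : C.nn r ≤ C.tt r) :
    ∀ x < k, ∀ w, C.atab.Rch r x w := by
  intro x hx w
  have hk := C.hk
  have hm := C.hm
  have h5 := C.le5 r.facet
  have h0 := h.2
  have hA := act_Y h hY
  by_cases hp : (if w then x else x + 1) ≤ C.m
  · -- low half
    by_cases h1 : C.nn r = C.tt r ∧ C.rw r.facet ≤ 4
    · exact covD _ r h ht rfl h1.2 h1.1 x w hp
    · by_cases h2 : C.nn r = 0 ∧ C.rw r.facet ≠ 1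
      · obtain ⟨h3, h4⟩ := h.S h2.2
        have e : rho C.toRows (pN.symm r) = rho C.toRows r := by
          have := h3.rho_N (by omega)
          rw [stN_pN_symm] at this
          exact this.symm
        have h6 := (row_N h3 (by rw [e]; exact ht) (by omega)).1
        rw [stN_pN_symm] at h6
        have h7 := h6.2 h2.1
        exact Rch_S hA (act_Y h3 h7.le)
          (covD _ _ h3 (by rw [e]; exact ht) rfl (by omega) h7 x w hp)
      · by_cases h3 : C.nn r = 0 ∧ (if w then x else x + 1) = 0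
        · -- the foot
          have h4 : C.rw r.facet = 1 := by
            by_contra h6; exact h2 ⟨h3.1, h6⟩
          have hl : Lo C.toRows r := ⟨h.1, h4⟩
          have hf : C.fa r := (fa_row1 hl (by rw [hl.rho] at ht; exact ht)).2 h3.1
          cases w
          · simp at h3
          · simp only [if_true] at h3
            rw [h3.2]
            have h8 := foot_n hl.rim hf
            obtain ⟨t, ht1, -⟩ := id h8
            exact Rch_S hA ((NV_act (by
              rw [NV_J (rw_J hl.rim), C.rn r hl.rim 0 (by omega), if_pos ⟨hf, rfl⟩]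
              decide)).1) h8
        · apply Rch_port hA (m_lt C)
          rw [PR_Y h ht]
          unfold ci co
          refine ⟨rfl, fun h4 => ?_, fun h4 => ?_⟩
          · have h6 : C.rw r.facet = 1 := by
              by_contra h6; exact h2 ⟨h4, h6⟩
            rw [if_pos h6]
            omega
          · split_ifs at * <;> omega
  · -- high half
    by_cases h1 : C.nn r = 0 ∧ 2 ≤ C.rw r.facet
    · exact covU (5 - C.rw r.facet) r h ht (by omega) h1.2 h1.1 x w hx (by omega)
    · by_cases h2 : C.nn r = C.tt r ∧ C.rw r.facet ≠ 5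
      · obtain ⟨h3, h4⟩ := h.stN h2.2
        have e := h.rho_N h2.2
        have h6 := (row_N h ht h2.2).1.1 h2.1
        exact Rch_N hA (act_Y h3 (by omega))
          (covU (4 - C.rw r.facet) _ h3 (by rw [e]; exact ht) (by omega) (by omega) h6 x w hx
            (by omega))
      · by_cases h3 : C.nn r = C.tt r ∧ k ≤ (if w then x else x + 1)
        · -- the upper foot
          have h4 : C.rw r.facet = 5 := by
            by_contra h6; exact h2 ⟨h3.1, h6⟩
          have hf : C.fa r.r2 := (fa_row5 h h4 ht).2 h3.1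
          have hr := rim5 h h4
          cases w
          · simp only [Bool.false_eq_true, if_false] at h3
            have hx' : x = k - 1 := by omega
            have h8 := foot_n hr hf
            have h9 := Rch_rot (by omega) h8
            rw [pN_symm_r2, FSt.r2_r2, Nat.sub_zero] at h9
            rw [hx']
            refine Rch_N hA ?_ h9
            have h10 := (NV_act (s := pN.symm r.r2) (x := 0) (by
              rw [NV_J (rw_J hr), C.rn _ hr 0 (by omega), if_pos ⟨hf, rfl⟩]
              decide)).1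
            rw [pN_symm_r2] at h10
            exact (act_r2_iff' _ _).1 h10
          · simp only [if_true] at h3
            omega
        · apply Rch_port hA (m_lt C)
          rw [PR_Y h ht]
          unfold ci co
          refine ⟨rfl, fun h4 => ?_, fun h4 => ?_⟩
          · split_ifs at * <;> omega
          · have h6 : C.rw r.facet = 5 := by
              by_contra h6; exact h2 ⟨h4, h6⟩
            rw [if_pos h6]
            omega

/-- moving east in the `X` facets -/
lemma stepX (h : CU C.toRows r) (ht : C.tr (rho C.toRows r)) (h1 : C.tt r < C.nn r)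
    (h2 : C.nn r + 1 < C.LL r) : CU C.toRows r.stE ∧ C.tr (rho C.toRows r.stE) ∧
    C.nn r.stE = C.nn r + 1 ∧ C.tt r.stE = C.tt r ∧ C.uu r.stE = C.uu r ∧
    C.vv r.stE = C.vv r ∧ C.LL r.stE = C.LL r ∧ Ch C.canF r.rL r.stE.rL := by
  obtain ⟨e1, e2, e3, e4, e5⟩ := row_E h ht
  rw [if_neg (by omega)] at e1
  have h' := h.stE.1
  have ht' := (tr_rho_E h).2 ht
  refine ⟨h', ht', e1, e2, e3, e4, e5, ?_⟩
  have a1 := act_X h ht h1
  have a2 := act_X h' ht' (by omega)
  have e : r.stE.rL.stN = r.rL := by rw [rL_stN, pE_s]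
  have := Ch.N (can := C.canF) a2 (by rw [e]; exact a1)
  rw [e] at this
  exact this.symm

lemma goE : ∀ (n : ℕ) (r : P.FSt), CU C.toRows r → C.tr (rho C.toRows r) → C.tt r < C.nn r →
    C.nn r + n < C.LL r → ∃ r', CU C.toRows r' ∧ C.tr (rho C.toRows r') ∧
    C.nn r' = C.nn r + n ∧ C.tt r' = C.tt r ∧ C.uu r' = C.uu r ∧
    C.vv r' = C.vv r ∧ C.LL r' = C.LL r ∧ Ch C.canF r.rL r'.rL := by
  intro n
  induction n with
  | zero => intro r h ht h1 _; exact ⟨r, h, ht, rfl, rfl, rfl, rfl, rfl, Ch.refl (act_X h ht h1)⟩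
  | succ n ih =>
    intro r h ht h1 h2
    obtain ⟨h', ht', e1, e2, e3, e4, e5, e6⟩ := stepX h ht h1 (by omega)
    obtain ⟨r', g1, g2, g3, g4, g5, g6, g7, g8⟩ := ih r.stE h' ht' (by omega) (by omega)
    exact ⟨r', g1, g2, by omega, by omega, by omega, by omega, by omega, e6.cat g8⟩

lemma goW : ∀ (n : ℕ) (r : P.FSt), CU C.toRows r → C.tr (rho C.toRows r) → C.tt r + n < C.nn r →
    ∃ r', CU C.toRows r' ∧ C.tr (rho C.toRows r') ∧
    C.nn r' + n = C.nn r ∧ C.tt r' = C.tt r ∧ C.uu r' = C.uu r ∧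
    C.vv r' = C.vv r ∧ C.LL r' = C.LL r ∧ Ch C.canF r.rL r'.rL := by
  intro n
  induction n with
  | zero => intro r h ht h1; exact ⟨r, h, ht, rfl, rfl, rfl, rfl, rfl, Ch.refl (act_X h ht h1)⟩
  | succ n ih =>
    intro r h ht h1
    obtain ⟨t, rfl⟩ : ∃ t : P.FSt, t.stE = r := ⟨pE.symm r, by simp⟩
    have h' : CU C.toRows t := by
      have := h.W; rw [pE_s] at this; exact this.1
    have ht' := (tr_rho_E h').1 ht
    obtain ⟨e1, e2, e3, e4, e5⟩ := row_E h' ht'
    have e7 : C.nn t.stE = C.nn t + 1 := by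
      rw [e1]
      split_ifs at e1 ⊢ with h9
      · omega
      · rfl
    have o := order h' ht'
    obtain ⟨-, -, -, -, -, -, -, e6⟩ := stepX h' ht' (by omega) (by
      have := (order h ht).1
      omega)
    obtain ⟨r', g1, g2, g3, g4, g5, g6, g7, g8⟩ := ih t h' ht' (by omega)
    exact ⟨r', g1, g2, by omega, by omega, by omega, by omega, by omega, e6.symm.cat g8⟩

lemma goTo (h : CU C.toRows r) (ht : C.tr (rho C.toRows r)) (h1 : C.tt r < C.nn r) {n : ℕ}
    (hn : C.tt r < n) (hn' : n < C.LL r) : ∃ r', CU C.toRows r' ∧ C.tr (rho C.toRows r') ∧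
    C.nn r' = n ∧ C.uu r' = C.uu r ∧ C.vv r' = C.vv r ∧ Ch C.canF r.rL r'.rL := by
  rcases Nat.le_total n (C.nn r) with h2 | h2
  · obtain ⟨r', g1, g2, g3, g4, g5, g6, g7, g8⟩ := goW (C.nn r - n) r h ht (by omega)
    exact ⟨r', g1, g2, by omega, g5, g6, g8⟩
  · obtain ⟨r', g1, g2, g3, g4, g5, g6, g7, g8⟩ := goE (n - C.nn r) r h ht h1 (by omega)
    exact ⟨r', g1, g2, by omega, g5, g6, g8⟩

/-- lines of the `X` facets -/
lemma covX (h : CU C.toRows r) (ht : C.tr (rho C.toRows r)) (hX : C.tt r < C.nn r) :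
    ∀ x < k, ∀ w, C.atab.Rch r.rL x w := by
  intro x hx w
  obtain ⟨o1, o2, o3, o4⟩ := order h ht
  by_cases hp : (if w then x else x + 1) ≤ C.m
  · obtain ⟨r', g1, g2, g3, g4, g5, g6⟩ := goTo h ht hX (n := C.uu r) (by omega) (by omega)
    refine Rch_cat g6 (Rch_port g6.act (m_lt C) ?_)
    rw [PR_X g1]
    exact ⟨rfl, Or.inl ⟨by omega, hp⟩⟩
  · obtain ⟨r', g1, g2, g3, g4, g5, g6⟩ := goTo h ht hX (n := C.vv r) (by omega) (by omega)
    refine Rch_cat g6 (Rch_port g6.act (m_lt C) ?_)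
    rw [PR_X g1]
    exact ⟨rfl, Or.inr ⟨by omega, by omega⟩⟩

/-! ## Cut bands -/

lemma act_C (h : CU C.toRows r) (ht : ¬ C.tr (rho C.toRows r)) : Act C.canF r :=
  (act_r h).2 (YY_cut h ht)

/-- the lowest row, if the curve meets the lower rim -/
lemma covC1 (h : Lo C.toRows r) (ht : ¬ C.tr r) (hc : C.ac r) :
    ∀ x < k, ∀ w, C.atab.Rch r x w := by
  intro x hx w
  have hk := C.hk
  have hm := C.hm
  have e := h.rho
  have ht' : ¬ C.tr (rho C.toRows r) := by rw [e]; exact ht
  have hA := act_C h.CU ht'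
  have hP : ∀ x y, C.PR r x y = true ↔
      y = C.m ∧ (C.na r = 0 → 0 < x) ∧ (C.na r + 1 = C.LL r → x < k) := by
    intro x y
    rw [PR_r h.CU]
    unfold TY
    rw [if_neg ht', if_pos ⟨h.2, by rw [e]; exact hc⟩, CP_true]
  obtain ⟨f1, f2⟩ := fa_cut1 h hc
  cases w
  · by_cases h1 : C.na r + 1 = C.LL r ∧ x = k - 1
    · rw [h1.2]
      have hf := f2.2 h1.1
      refine Rch_S hA (NV_act (x := k - 1) ?_).1 (foot_s h.rim ht hf)
      rw [NV_J (rw_J h.rim), C.rn r h.rim _ (by omega), if_neg (by omega),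
        if_pos ⟨ht, hf, by omega⟩]
      decide
    · apply Rch_port hA (m_lt C)
      rw [hP]
      simp only [Bool.false_eq_true, if_false]
      exact ⟨trivial, fun _ => by omega, fun _ => by omega⟩
  · by_cases h1 : C.na r = 0 ∧ x = 0
    · rw [h1.2]
      have hf := f1.2 h1.1
      refine Rch_S hA (NV_act (x := 0) ?_).1 (foot_n h.rim hf)
      rw [NV_J (rw_J h.rim), C.rn r h.rim _ (by omega), if_pos ⟨hf, rfl⟩]
      decide
    · apply Rch_port hA (m_lt C)
      rw [hP]
      simp only [if_true]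
      exact ⟨trivial, fun _ => by omega, fun _ => by omega⟩

/-- the highest row, if the curve meets the upper rim -/
lemma covC5 (h : CU C.toRows r) (h5 : C.rw r.facet = 5) (ht : ¬ C.tr (rho C.toRows r))
    (hc : C.ac r.r2) : ∀ x < k, ∀ w, C.atab.Rch r.r2 x w := by
  intro x hx w
  have hk := C.hk
  have hm := C.hm
  have hr := rim5 h h5
  have htr : ¬ C.tr r.r2 := fun h1 => ht ((tr5 h h5).1 h1)
  have hA : Act C.canF r.r2 := (act_r2_iff' _ _).2 (act_C h ht)
  have hP : ∀ x y, x ≤ k → y < k → (C.PR r.r2 x y = true ↔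
      y = C.m ∧ (C.na' r = 0 → 0 < x) ∧ (C.na' r + 1 = C.LL r → x < k)) := by
    intro x y hx hy
    rw [PR_r2 h]
    unfold TY
    rw [if_neg ht, if_neg (by omega), if_pos ⟨h5, by rw [far_rho5 h h5]; exact hc⟩, CP_true,
      show k - (k - x) = x by omega, show k - 1 - (k - 1 - y) = y by omega]
  obtain ⟨f1, f2⟩ := fa_cut5 h h5 hc
  cases w
  · by_cases h1 : C.na' r + 1 = C.LL r ∧ x = k - 1
    · rw [h1.2]
      have hf := f2.2 h1.1
      refine Rch_S hA (NV_act (x := k - 1) ?_).1 (foot_s hr htr hf)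
      rw [NV_J (rw_J hr), C.rn _ hr _ (by omega), if_neg (by omega),
        if_pos ⟨htr, hf, by omega⟩]
      decide
    · apply Rch_port hA (m_lt C)
      rw [hP _ _ (by simp; omega) (m_lt C)]
      simp only [Bool.false_eq_true, if_false]
      exact ⟨trivial, fun _ => by omega, fun _ => by omega⟩
  · by_cases h1 : C.na' r = 0 ∧ x = 0
    · rw [h1.2]
      have hf := f1.2 h1.1
      refine Rch_S hA (NV_act (x := 0) ?_).1 (foot_n hr hf)
      rw [NV_J (rw_J hr), C.rn _ hr _ (by omega), if_pos ⟨hf, rfl⟩]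
      decide
    · apply Rch_port hA (m_lt C)
      rw [hP _ _ (by simp; omega) (m_lt C)]
      simp only [if_true]
      exact ⟨trivial, fun _ => by omega, fun _ => by omega⟩

/-- going up in a cut band -/
lemma chC : ∀ (n : ℕ) (r : P.FSt), CU C.toRows r → ¬ C.tr (rho C.toRows r) →
    C.rw r.facet + n ≤ 5 → Ch C.canF r ((pN ^ n) r) ∧
    rho C.toRows ((pN ^ n) r) = rho C.toRows r := by
  intro n
  induction n with
  | zero => intro r h ht _; exact ⟨Ch.refl (act_C h ht), rfl⟩
  | succ n ih =>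
    intro r h ht hn
    obtain ⟨h1, h2⟩ := h.stN (by omega)
    have e := h.rho_N (by omega)
    have h3 := ih r.stN h1 (by rw [e]; exact ht) (by omega)
    rw [pow_succ, Equiv.Perm.mul_apply]
    exact ⟨(Ch.N (act_C h ht) (act_C h1 (by rw [e]; exact ht))).cat h3.1, h3.2.trans e⟩

/-- lines of a cut band -/
lemma covC (h : CU C.toRows r) (ht : ¬ C.tr (rho C.toRows r)) :
    ∀ x < k, ∀ w, C.atab.Rch r x w := by
  intro x hx w
  have hl := h.lo_rho
  have h0 := h.2
  have h5 := C.le5 r.facet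
  have c1 : Ch C.canF (rho C.toRows r) r := by
    have := (chC (C.rw r.facet - 1) (rho C.toRows r) hl.CU (by rw [hl.rho]; exact ht)
      (by rw [hl.2]; omega)).1
    rwa [h.rho_up] at this
  rcases C.ac_far _ hl.rim with hc | hc
  · exact Rch_cat c1.symm (covC1 hl ht hc x hx w)
  · obtain ⟨c2, c3⟩ := chC (5 - C.rw r.facet) r h ht (by omega)
    obtain ⟨g1, g2, -⟩ := h.upw (5 - C.rw r.facet) (by omega)
    have g3 : C.rw ((pN ^ (5 - C.rw r.facet)) r).facet = 5 := by rw [g2]; omega
    have ht' : ¬ C.tr (rho C.toRows ((pN ^ (5 - C.rw r.facet)) r)) := by rw [c3]; exact ht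
    have e := far_rho5 g1 g3
    rw [c3] at e
    rw [e] at hc
    exact Rch_cat c2 (Rch_all_rot (covC5 g1 g3 ht' hc) x hx w)

/-! ## Lit facets of the rims -/

lemma dst_far {R : Rows P} {r s : P.FSt} (h : Lo R r) (hs : pE.SameCycle r s) :
    dst pE (Rows.far s) (Rows.far r) = dst pE r s := by
  have hs' := h.same hs
  apply dst_eq
  · rw [hs'.len_far, ← len_same hs]
    exact dst_lt hs
  · rw [hs'.pow_far]
    congr 1
    have := pow_cancel' pE (dst pE r s) r
    rwa [dst_spec hs] at this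

lemma lit_row1 (h : Lo C.toRows r) (ht : C.tr r) (hl : Lit C.tr C.fa C.fb r) :
    C.nn r < C.tt r := by
  obtain ⟨h1, h2⟩ := hl ht
  obtain ⟨b1, b2, b3, b4, b5, b6, b7⟩ := bounds h ht
  have hb := bb_spec (C := C) h.rim ht
  have hac := act_of h.rim ht
  have ha := aa_spec (C := C) h.rim hac
  have hL : len pE (C.bb r) = len pE r := (len_same hb.1).symm
  have e1 : srch pE.symm C.fa r = dst pE (C.aa r) r :=
    srch_bwd ha.1 ha.2 (fun z hz hf => aa_uniq h.rim hac hz hf)
  have e2 : srch pE.symm C.fb r = dst pE (C.bb r) r :=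
    srch_bwd hb.1 hb.2 (fun z hz hf => bb_uniq h.rim ht hz hf)
  have e3 : srch pE C.fb r = dst pE r (C.bb r) :=
    srch_fwd hb.1 hb.2 (fun z hz hf => bb_uniq h.rim ht hz hf)
  have e4 := dst_cd hb.1.symm (hb.1.symm.trans ha.1)
  have e5 := dst_cd (Equiv.Perm.SameCycle.refl pE (C.bb r)) hb.1.symm
  rw [dst_self, hL] at e5
  rw [hL] at e4
  rw [e1, e2, e4] at h1
  rw [e3, e5] at h2
  have e6 : dst pE (C.bb r) r = C.pp r := rfl
  have e7 : dst pE (C.bb r) (C.aa r) = C.al r := rfl
  rw [e6, e7] at h1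
  rw [e6] at h2
  have e8 : C.nn r = cd (len pE r) (C.pp r) (C.al r) := by
    unfold nn; rw [h.rho, if_pos h.2]
  have e9 : C.tt r = C.ep r - C.al r := by
    unfold tt; rw [h.rho, if_pos h.2]
  have e10 := ep_eq h ht
  rw [e8, e9]
  unfold cd at *
  split_ifs at * <;> omega

lemma lit5 {R : P.FSt} (hlo : Lo C.toRows R) (ht : C.tr R)
    (hl : Lit C.tr C.fa C.fb (Rows.far R)) :
    cd (len pE R) (C.pp R) (C.ta R) ≤ cd (len pE R) (C.al' R) (C.ta R) := by
  have hr := hlo.far_rim
  have htr := far_tr hlo ht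
  obtain ⟨h1, h2⟩ := hl htr
  obtain ⟨b1, b2, b3, b4, b5, b6, b7⟩ := bounds hlo ht
  have hac := act_of hr htr
  have hb := bb_spec (C := C) hr htr
  have ha := aa_spec (C := C) hr hac
  have e1 : srch pE.symm C.fa (Rows.far R) = dst pE (C.aa (Rows.far R)) (Rows.far R) :=
    srch_bwd ha.1 ha.2 (fun z hz hf => aa_uniq hr hac hz hf)
  have e2 : srch pE.symm C.fb (Rows.far R) = dst pE (C.bb (Rows.far R)) (Rows.far R) :=
    srch_bwd hb.1 hb.2 (fun z hz hf => bb_uniq hr htr hz hf)
  have e3 : srch pE C.fb (Rows.far R) = dst pE (Rows.far R) (C.bb (Rows.far R)) :=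
    srch_fwd hb.1 hb.2 (fun z hz hf => bb_uniq hr htr hz hf)
  have hX : Rows.far (Rows.far (C.aa (Rows.far R))) = C.aa (Rows.far R) :=
    Rim.far_far (Rim.same hr ha.1)
  have hY : Rows.far (Rows.far (C.bb (Rows.far R))) = C.bb (Rows.far R) :=
    Rim.far_far (Rim.same hr hb.1)
  have sX : pE.SameCycle R (Rows.far (C.aa (Rows.far R))) := by
    have := Rim.far_same hr ha.1
    rwa [hlo.far_far] at this
  have sY : pE.SameCycle R (Rows.far (C.bb (Rows.far R))) := by
    have := Rim.far_same hr hb.1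
    rwa [hlo.far_far] at this
  have d1 : dst pE (C.aa (Rows.far R)) (Rows.far R) = dst pE R (Rows.far (C.aa (Rows.far R))) := by
    have := dst_far hlo sX
    rwa [hX] at this
  have d2 : dst pE (C.bb (Rows.far R)) (Rows.far R) = dst pE R (Rows.far (C.bb (Rows.far R))) := by
    have := dst_far hlo sY
    rwa [hY] at this
  have d3 : dst pE (Rows.far R) (C.bb (Rows.far R)) = dst pE (Rows.far (C.bb (Rows.far R))) R := by
    have := dst_far (hlo.same sY) sY.symm
    rwa [hY] at this
  have hbR := bb_spec (C := C) hlo.rim ht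
  have hL : len pE (C.bb R) = len pE R := (len_same hbR.1).symm
  have c1 := dst_cd (hbR.1.symm.trans sX) hbR.1.symm
  have c2 := dst_cd (hbR.1.symm.trans sY) hbR.1.symm
  have c3 := dst_cd hbR.1.symm (hbR.1.symm.trans sY)
  have hy : dst pE (C.bb R) (Rows.far (C.bb (Rows.far R))) < len pE R := by
    rw [← hL]; exact dst_lt (hbR.1.symm.trans sY)
  have e8 : C.ta R = if dst pE (C.bb R) (Rows.far (C.bb (Rows.far R))) + 1 = len pE R then 0
      else dst pE (C.bb R) (Rows.far (C.bb (Rows.far R))) + 1 := by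
    unfold ta
    rw [← pE_apply, dst_step (hbR.1.symm.trans sY), hL]
  have e6 : dst pE (C.bb R) R = C.pp R := rfl
  have e7 : dst pE (C.bb R) (Rows.far (C.aa (Rows.far R))) = C.al' R := rfl
  rw [hL, e6, e7] at c1
  rw [hL, e6] at c2 c3
  rw [e1, e2, d1, d2, c1, c2] at h1
  rw [e3, d3, c3] at h2
  clear c1 c2 c3 d1 d2 d3 e1 e2 e3
  generalize dst pE (C.bb R) (Rows.far (C.bb (Rows.far R))) = y at *
  generalize C.ta R = t at *
  generalize C.al' R = a' at *
  generalize C.pp R = p at *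
  generalize len pE R = L at *
  clear hX hY sX sY hbR hL ha hb hac htr hr hl e6 e7
  unfold cd at *
  split_ifs at * <;> omega

lemma lit_row5 (h : CU C.toRows r) (h5 : C.rw r.facet = 5) (ht : C.tr (rho C.toRows r))
    (hl : Lit C.tr C.fa C.fb r.r2) : C.nn r ≤ C.tt r := by
  have h1 := lit5 h.lo_rho ht (by rw [far_rho5 h h5]; exact hl)
  unfold nn tt
  rw [if_neg (by omega), if_neg (by omega), if_neg (by omega), if_neg (by omega), if_pos h5]
  exact h1

/-- lit facets of the rims -/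
lemma covLit {ρ : P.FSt} (h : C.Rim ρ) (hl : Lit C.tr C.fa C.fb ρ) :
    Act C.canF ρ ∧ ∀ x < k, ∀ w, C.atab.Rch ρ x w := by
  rcases rim_core h with h1 | ⟨r, hr, h5, rfl⟩
  · have e := h1.rho
    by_cases ht : C.tr ρ
    · have h2 := lit_row1 h1 ht hl
      exact ⟨act_Y h1.CU h2.le, covY h1.CU (by rw [e]; exact ht) h2.le⟩
    · exact ⟨act_C h1.CU (by rw [e]; exact ht), covC h1.CU (by rw [e]; exact ht)⟩
  · rw [act_r2_iff']
    by_cases ht : C.tr (rho C.toRows r)
    · have h2 := lit_row5 hr h5 ht hl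
      refine ⟨act_Y hr h2, Rch_all_rot ?_⟩
      rw [FSt.r2_r2]
      exact covY hr ht h2
    · refine ⟨act_C hr ht, Rch_all_rot ?_⟩
      rw [FSt.r2_r2]
      exact covC hr ht

/-! ## All lines -/

lemma covJ {f : P.Facet} (h : C.rw f = 0) {x : ℕ} (hx : x < k) (w : Bool) :
    C.atab.Rch (C.can f) x w := by
  have hJ : ∀ g, C.rw g = 0 → Act C.canF (C.can g) := by
    intro g hg
    exact Or.inl (by rw [C.can_facet, canF_J hg])
  obtain ⟨z, h1, h2⟩ := C.cov f h x hx w
  have key : Act C.canF ((pN ^ z) (C.can f)) → Ch C.canF (C.can f) ((pN ^ z) (C.can f)) := by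
    intro h3
    refine ⟨z, fun y hy => ?_, rfl⟩
    by_cases hyz : y = z
    · rw [hyz]; exact h3
    · obtain ⟨g, hg, h4⟩ := h1 y hy hyz
      rw [h4]
      exact hJ g hg
  rcases h2 with ⟨g, hg, h3, y, hy, h4⟩ | ⟨-, h3, h4⟩ | ⟨-, h3, h4⟩
  · have h5 := key (by rw [h3]; exact hJ g hg)
    rw [h3] at h5
    refine Rch_cat h5 (Rch_port (hJ g hg) hy ?_)
    rw [PR_J (by rw [C.can_facet]; exact hg) (by rw [C.can_facet]), C.can_facet]
    exact h4
  · obtain ⟨h5, h6⟩ := covLit h3 h4
    exact Rch_cat (key h5) (h6 x hx w)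
  · obtain ⟨h5, h6⟩ := covLit h3 h4
    exact Rch_cat (key ((act_r2_iff' _ _).1 h5)) (Rch_all_rot h6 x hx w)

/-- **Coverage.** -/
theorem cov' (C : JC P k) : C.atab.Cov := by
  intro s hs x hx w
  have hs' : Act C.canF s := hs
  by_cases h0 : C.rw s.facet = 0
  · rcases (act_J h0).1 hs' with h1 | h1
    · have := covJ h0 hx w
      rwa [h1] at this
    · have := covJ h0 (x := k - 1 - x) (by omega) (!w)
      rw [h1] at this
      exact Rch_rot' hx this
  · obtain ⟨r, hr, -, h2⟩ := ex_up (C := C) h0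
    have hY : C.YY r → ∀ x < k, ∀ w, C.atab.Rch r x w := by
      intro h3
      by_cases ht : C.tr (rho C.toRows r)
      · exact covY hr ht (h3 ht)
      · exact covC hr ht
    have hX : ¬ C.YY r → ∀ x < k, ∀ w, C.atab.Rch r.rL x w := by
      intro h3
      by_cases ht : C.tr (rho C.toRows r)
      · exact covX hr ht (by
          by_contra h4
          exact h3 (fun _ => by omega))
      · exact absurd (fun h5 => absurd h5 ht) h3
    rcases h2 with h2 | h2 | h2 | h2
    · subst h2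
      exact hY ((act_r hr).1 hs') x hx w
    · subst h2
      exact Rch_all_rot (by rw [FSt.r2_r2]; exact hY ((act_r2 hr).1 hs')) x hx w
    · subst h2
      exact hX ((act_rL hr).1 hs') x hx w
    · subst h2
      exact Rch_all_rot (by rw [FSt.rR_r2]; exact hX ((act_rR hr).1 hs')) x hx w

end JC

end Pool.Agent.MP42H
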