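import Pool.Agent.MP42.H.Val

/-!
# The values of the feet and of the core
-/

set_option autoImplicit false
set_option linter.unusedSectionVars false

namespace Pool.Agent.MP42H

open Pool.Agent.Helper55.UNF Pool.Agent.Helper55.UNF.GridSolid Pool.Agent.MP42G

variable {P : GridSolid}

namespace JC

variable {k : ℕ} {C : JC P k} {r s a ρ : P.FSt} {ψ χ : P.FSt → ℕ → ℕ → Prop} {c c' : Prop}

/-- the state of row 5 over an upper rim state -/
lemma up_of (h : Lo C.toRows ρ) (hs : pE.SameCycle (Rows.far ρ) a) :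
    ∃ r, CU C.toRows r ∧ C.rw r.facet = 5 ∧ a = r.r2 ∧ pE.SameCycle ρ (rho C.toRows r) := by
  have ha := Rim.same h.far_rim hs
  rcases rim_core ha with h1 | ⟨r, hr, h5, rfl⟩
  · exfalso
    have h2 := h1.same hs.symm
    have h3 := h.far_rim
    rcases h3 with h3 | h3
    · have h4 := (h.CU.upw 4 (by rw [h.2])).2.1
      have : C.rw (Rows.far ρ).facet = C.rw ((pN ^ 4) ρ).facet := by
        unfold Rows.far; rw [FSt.facet_r2]
      rw [h2.2, h4, h.2] at this
      omega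
    · rw [h2.2] at h3
      omega
  · refine ⟨r, hr, h5, rfl, ?_⟩
    have h3 := Rim.far_same h.far_rim hs
    rw [h.far_far] at h3
    have h4 : Rows.far r.r2 = rho C.toRows r := by
      rw [← far_rho5 hr h5, hr.lo_rho.far_far]
    rwa [h4] at h3

section Rel

variable (hR : ARel k C.canF C.PR C.LA ψ χ)

include hR

lemma cn_low (h : Lo C.toRows ρ) (ht : C.tr ρ) (hf : C.fa ρ)
    (hs : pE.SameCycle (Rows.far ρ) a) (ha : C.fa a) :
    χ (pN.symm ρ) 0 k ↔ χ (pN.symm a) 0 k := by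
  have hk := C.hk
  obtain ⟨r, hr, h5, rfl, h3⟩ := up_of h hs
  have htr : C.tr (rho C.toRows r) := (tr_same h.rim h3).2 ht
  have ea : C.aa (rho C.toRows r) = ρ := by
    rw [aa_same h.rim (act_of h.rim ht) h3]
    exact ((fa_iff h.rim (act_of h.rim ht)).1 hf).symm
  have hn := (fa_row5 hr h5 htr).1 ha
  have h1 := val_Y hR _ _ r hr htr rfl rfl hn.le
  rw [ea] at h1
  have hu : C.NV r (k - 1) ≠ Ln.z := by
    rw [NV_r_tree hr htr, if_pos]
    · decide
    · refine ⟨hn, ?_⟩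
      unfold co
      rw [if_pos h5]
  obtain ⟨-, h4, h6, -, h7⟩ := linkN hR (by omega) hu
  have h8 := h1.2 (k - 1) k (by omega) le_rfl h6
  have h9 := hR.rotH r.stN h4 0 k (by omega) le_rfl
  rw [Nat.sub_zero, Nat.sub_self] at h9
  rw [pN_symm_r2]
  exact h8.symm.trans (h7.trans h9.symm)

lemma co_low (h : Lo C.toRows ρ) (ht : C.tr ρ) (hf : C.fb ρ)
    (hs : pE.SameCycle (Rows.far ρ) a) (ha : C.fb a) :
    ψ (pN.symm ρ).rL k C.m ↔ ψ (pN.symm a).rL k C.m := by
  have hk := C.hk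
  obtain ⟨r, hr, h5, rfl, h3⟩ := up_of h hs
  have htr : C.tr (rho C.toRows r) := (tr_same h.rim h3).2 ht
  have eb : C.bb (rho C.toRows r) = ρ := by
    rw [bb_same h.rim ht h3]
    exact ((fb_iff h.rim ht).1 hf).symm
  have hn := (fb_row5 hr h5 htr).1 ha
  obtain ⟨o1, o2, o3, o4⟩ := order hr htr
  have h1 := val_X hR _ (C.nn r - C.uu r) r hr htr rfl (by omega) (by omega)
  rw [eb] at h1
  have hu : C.EV r.rL C.m = true := by
    rw [EV_rL_tree hr htr]; exact ⟨rfl, hn⟩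
  obtain ⟨-, h4, h6, -, h7⟩ := linkE hR (by omega) hu
  rw [rL_stE'] at h4 h7
  have h8 := h1.1 k C.m le_rfl (by omega) h6
  have h9 := hR.rotV r.stN.rL h4 k C.m le_rfl (by omega)
  rw [Nat.sub_self, show k - 1 - C.m = C.m by omega] at h9
  rw [pN_symm_r2, FSt.r2_rL]
  rw [FSt.rL_r2] at h9
  exact h8.symm.trans (h7.trans h9.symm)

/-- the two feet `n` of a tree band -/
theorem core_n (h : C.Rim ρ) (ht : C.tr ρ) (hf : C.fa ρ)
    (hs : pE.SameCycle (Rows.far ρ) a) (ha : C.fa a) :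
    χ (pN.symm ρ) 0 k ↔ χ (pN.symm a) 0 k := by
  rcases rim_cases h with h1 | ⟨t, h1, h2, h3⟩
  · exact cn_low hR h1 ht hf hs ha
  · rw [h3] at hs
    have hal := h1.same hs
    have hta : C.tr a := (tr_same h1.rim hs).2 (by
      rw [← C.tr_far t h1.rim, ← h2]; exact ht)
    have hs' : pE.SameCycle (Rows.far a) ρ := by
      rw [h2]; exact (h1.far_same hs).symm
    exact (cn_low hR hal hta ha hs' hf).symm

/-- the two turned feet of a tree band -/
theorem core_o (h : C.Rim ρ) (ht : C.tr ρ) (hf : C.fb ρ)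
    (hs : pE.SameCycle (Rows.far ρ) a) (ha : C.fb a) :
    ψ (pN.symm ρ).rL k C.m ↔ ψ (pN.symm a).rL k C.m := by
  rcases rim_cases h with h1 | ⟨t, h1, h2, h3⟩
  · exact co_low hR h1 ht hf hs ha
  · rw [h3] at hs
    have hal := h1.same hs
    have hta : C.tr a := (tr_same h1.rim hs).2 (by
      rw [← C.tr_far t h1.rim, ← h2]; exact ht)
    have hs' : pE.SameCycle (Rows.far a) ρ := by
      rw [h2]; exact (h1.far_same hs).symm
    exact (co_low hR hal hta ha hs' hf).symm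

/-- the two feet of a rim that is cut -/
theorem core_c (h : C.Rim ρ) (ht : ¬ C.tr ρ) (hf : C.fa ρ.stE) :
    χ (pN.symm ρ.stE) 0 k ↔ χ (pN.symm ρ) (k - 1) k := by
  have hk := C.hk
  have hm := C.hm
  have hc : C.ac ρ := (C.ac_E _ h).1 (C.fa_ac _ (Rim.stE h) hf)
  have hu : C.NV (pN.symm ρ) (k - 1) ≠ Ln.z := by
    rw [NV_J (rw_J h), C.rn ρ h _ (by omega), if_neg (by omega), if_pos ⟨ht, hf, by omega⟩]
    decide
  obtain ⟨-, -, h6, h7, h8⟩ := linkN hR (by omega) hu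
  rw [stN_pN_symm] at h7 h8
  have ea : C.aa ρ = ρ.stE := by
    rw [← aa_same h hc (same_E ρ)]
    exact ((fa_iff (Rim.stE h) ((C.ac_E _ h).2 hc)).1 hf).symm
  have key : C.OneS ψ χ ρ (χ (pN.symm ρ.stE) 0 k) := by
    rcases rim_core h with h1 | ⟨r, hr, h5, rfl⟩
    · have := val_C1 hR _ ρ h1 ht hc rfl
      rwa [ea] at this
    · have := val_C5 hR _ r hr h5 (fun h2 => ht ((tr5 hr h5).2 h2)) hc rfl
      rwa [ea] at this
  exact (key.2 (k - 1) 0 (by omega) (Nat.zero_le _) h7).symm.trans h8.symm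

/-- unused facets of a cut band -/
lemma one_none (h : CU C.toRows r) (ht : ¬ C.tr (rho C.toRows r))
    (h1 : ¬ (C.rw r.facet = 1 ∧ C.ac (rho C.toRows r)))
    (h5 : ¬ (C.rw r.facet = 5 ∧ C.ac (Rows.far (rho C.toRows r)))) (c : Prop) :
    C.OneS ψ χ r c := by
  constructor
  · intro x y _ _ hp
    rw [PR_r h] at hp
    unfold TY at hp
    rw [if_neg ht, if_neg h1, if_neg h5] at hp
    exact absurd hp (by simp)
  · intro x y _ _ hp
    rw [LA_r h] at hp
    unfold LY at hp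
    rw [if_neg ht, if_neg h1, if_neg h5] at hp
    exact absurd rfl hp

/-- every strand of the core has the value of a foot -/
theorem core_all (h : C.rw s.facet ≠ 0) (hs : Act C.canF s) : ∃ ρ, C.Rim ρ ∧
    ((C.fa ρ ∧ C.OneS ψ χ s (χ (pN.symm ρ) 0 k)) ∨
     (C.tr ρ ∧ C.fb ρ ∧ C.OneS ψ χ s (ψ (pN.symm ρ).rL k C.m))) := by
  -- the facets with north up
  have hY : ∀ r, CU C.toRows r → C.YY r → ∃ ρ, C.Rim ρ ∧ C.fa ρ ∧
      C.OneS ψ χ r (χ (pN.symm ρ) 0 k) := by
    intro r hr h1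
    have hl := hr.lo_rho
    by_cases ht : C.tr (rho C.toRows r)
    · have ha := aa_spec (C := C) hl.rim (act_of hl.rim ht)
      exact ⟨_, Rim.same hl.rim ha.1, ha.2, val_Y hR _ _ r hr ht rfl rfl (h1 ht)⟩
    · by_cases c1 : C.rw r.facet = 1 ∧ C.ac (rho C.toRows r)
      · have hlo : Lo C.toRows r := ⟨hr.1, c1.1⟩
        have e := hlo.rho
        have c2 := c1.2
        rw [e] at ht c2
        have ha := aa_spec (C := C) hlo.rim c2
        exact ⟨_, Rim.same hlo.rim ha.1, ha.2, val_C1 hR _ r hlo ht c2 rfl⟩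
      · by_cases c5 : C.rw r.facet = 5 ∧ C.ac (Rows.far (rho C.toRows r))
        · have hrim := rim5 hr c5.1
          have hc : C.ac r.r2 := by rw [← far_rho5 hr c5.1]; exact c5.2
          have ha := aa_spec (C := C) hrim hc
          have h2 := val_C5 hR _ r hr c5.1 ht hc rfl
          have h3 := h2.rot hR ((act_r2 hr).2 h1)
          rw [FSt.r2_r2] at h3
          exact ⟨_, Rim.same hrim ha.1, ha.2, h3⟩
        · rcases C.ac_far _ hl.rim with hc | hc
          · have ha := aa_spec (C := C) hl.rim hc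
            exact ⟨_, Rim.same hl.rim ha.1, ha.2, one_none hR hr ht c1 c5 _⟩
          · have ha := aa_spec (C := C) hl.far_rim hc
            exact ⟨_, Rim.same hl.far_rim ha.1, ha.2, one_none hR hr ht c1 c5 _⟩
  have hX : ∀ r, CU C.toRows r → ¬ C.YY r → ∃ ρ, C.Rim ρ ∧ C.tr ρ ∧ C.fb ρ ∧
      C.OneS ψ χ r.rL (ψ (pN.symm ρ).rL k C.m) := by
    intro r hr h1
    have hl := hr.lo_rho
    have ht : C.tr (rho C.toRows r) := by
      by_contra h2
      exact h1 (fun h3 => absurd h3 h2)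
    have h2 : C.tt r < C.nn r := by
      by_contra h3
      exact h1 (fun _ => by omega)
    have hb := bb_spec (C := C) hl.rim ht
    refine ⟨_, Rim.same hl.rim hb.1, (tr_same hl.rim hb.1).2 ht, hb.2, ?_⟩
    by_cases h3 : C.uu r ≤ C.nn r ∧ C.nn r ≤ C.vv r
    · exact val_X hR _ (C.nn r - C.uu r) r hr ht rfl (by omega) h3.2
    · obtain ⟨o1, o2, o3, o4⟩ := order hr ht
      constructor
      · intro x y _ _ hp
        rw [PR_rL hr] at hp
        unfold TX at hp
        rw [XP_true] at hp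
        omega
      · intro x y _ _ hp
        rw [LA_rL hr] at hp
        unfold LX at hp
        rw [XL_ne] at hp
        omega
  obtain ⟨r, hr, -, h2⟩ := ex_up (C := C) h
  rcases h2 with h2 | h2 | h2 | h2
  · subst h2
    obtain ⟨ρ, h3, h4, h5⟩ := hY _ hr ((act_r hr).1 hs)
    exact ⟨ρ, h3, Or.inl ⟨h4, h5⟩⟩
  · subst h2
    have h6 := (act_r2 hr).1 hs
    obtain ⟨ρ, h3, h4, h5⟩ := hY _ hr h6
    exact ⟨ρ, h3, Or.inl ⟨h4, h5.rot hR ((act_r hr).2 h6)⟩⟩
  · subst h2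
    obtain ⟨ρ, h3, h4, h5, h7⟩ := hX _ hr ((act_rL hr).1 hs)
    exact ⟨ρ, h3, Or.inr ⟨h4, h5, h7⟩⟩
  · subst h2
    have h6 := (act_rR hr).1 hs
    obtain ⟨ρ, h3, h4, h5, h7⟩ := hX _ hr h6
    have h8 := h7.rot hR ((act_rL hr).2 h6)
    rw [FSt.rL_r2] at h8
    exact ⟨ρ, h3, Or.inr ⟨h4, h5, h8⟩⟩

end Rel

end JC

end Pool.Agent.MP42H
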