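import Pool.Agent.MP42.H.ConJ
import Pool.Agent.MP42.H.Val2
import Pool.Agent.MP42.H.Cov

/-!
# Connectivity of the state table of a certificate
-/

set_option autoImplicit false
set_option linter.unusedSectionVars false

namespace Pool.Agent.MP42H

open Pool.Agent.Helper55.UNF Pool.Agent.Helper55.UNF.GridSolid Pool.Agent.MP42G

variable {P : GridSolid}

namespace JC

variable {k : ℕ} {C : JC P k} {ψ χ : P.FSt → ℕ → ℕ → Prop}

theorem val_of (hR : ARel k C.canF C.PR C.LA ψ χ) : C.Val (C.ψJ ψ) (C.ψJ χ) where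
  n := fun r hr ht hf a hs ha => by
    rw [vn_fa hR hr hf, vn_fa hR (Rim.same (Rim.far hr) hs) ha]
    exact core_n hR hr ht hf hs ha
  o := fun r hr ht hf a hs ha => by
    have hr' := Rim.far hr
    have ht' := (C.tr_far r hr).2 ht
    rw [vo_fb hR hr ht hf, vo_fb hR (Rim.same hr' hs) ((tr_same hr' hs).2 ht') ha]
    exact core_o hR hr ht hf hs ha
  c := fun r hr ht hf => by
    rw [vn_fa hR (Rim.stE hr) hf, vn_s hR hr ht hf]
    exact core_c hR hr ht hf

theorem coreVal_of (hR : ARel k C.canF C.PR C.LA ψ χ) : C.CoreVal ψ χ := by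
  intro c ha hb s hs h0
  obtain ⟨ρ, hρ, ⟨h1, h2⟩ | ⟨h1, h2, h3⟩⟩ := core_all hR h0 hs
  · have e : χ (pN.symm ρ) 0 k ↔ c := by rw [← vn_fa hR hρ h1]; exact ha ρ hρ h1
    exact h2.congr e
  · have e : ψ (pN.symm ρ).rL k C.m ↔ c := by rw [← vo_fb hR hρ h1 h2]; exact hb ρ hρ h1 h2
    exact h3.congr e

/-- **The curve of a certificate is connected.** -/
theorem con (C : JC P k) (hT : C.Tree C.tr) (hC : C.Conn) : C.atab.Con :=
  C.con_of hT hC fun _ _ hR => ⟨val_of hR, coreVal_of hR⟩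

/-- **The reduction theorem with labels `(+, 0)` and cut bands.** -/
theorem hasEdgeUnfolding (C : JC P k) (hne : Nonempty P.Facet) (hT : C.Tree C.tr) (hC : C.Conn)
    (h5 : 0 < 5 * k) : (P.refine (5 * k) h5).HasEdgeUnfolding :=
  C.atab.hasEdgeUnfolding hne C.cov' (C.con hT hC) h5

end JC

end Pool.Agent.MP42H
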