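import Pool.Agent.MP42.H.Shake

/-!
# GRT0: the handshake, second part (owner helper48)
-/

set_option autoImplicit false
set_option linter.unusedSectionVars false

namespace Pool.Agent.MP42H

open Pool.Agent.Helper55.UNF Pool.Agent.Helper55.UNF.GridSolid Pool.Agent.MP42G
open Pool.Agent.MP42G.JCert (acS acS_int acS_end acS_acS acS_ne rL_stE)

variable {P : GridSolid}

/-- parity: two involutions, the second one misses two elements -/
lemma two_involutions {α : Type*} [DecidableEq α] (F : Finset α) (v : α → Prop) (m p : α → α)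
    {a b : α} (ha : a ∈ F) (hb : b ∈ F) (hab : a ≠ b)
    (m1 : ∀ q ∈ F, m q ∈ F) (m2 : ∀ q ∈ F, m (m q) = q) (m3 : ∀ q ∈ F, m q ≠ q)
    (m4 : ∀ q ∈ F, (v q ↔ v (m q)))
    (p1 : ∀ q ∈ F, q ≠ a → q ≠ b → p q ∈ F ∧ p q ≠ a ∧ p q ≠ b)
    (p2 : ∀ q ∈ F, q ≠ a → q ≠ b → p (p q) = q) (p3 : ∀ q ∈ F, q ≠ a → q ≠ b → p q ≠ q)
    (p4 : ∀ q ∈ F, q ≠ a → q ≠ b → (v q ↔ v (p q))) : v a ↔ v b := by
  classical
  let w : α → ZMod 2 := fun q => if v q then 1 else 0
  have hw : ∀ q q', (v q ↔ v q') → w q + w q' = 0 := by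
    intro q q' h
    show (if v q then (1 : ZMod 2) else 0) + (if v q' then 1 else 0) = 0
    by_cases h1 : v q
    · rw [if_pos h1, if_pos (h.1 h1)]; decide
    · rw [if_neg h1, if_neg (fun h2 => h1 (h.2 h2))]; decide
  have s1 : ∑ q ∈ F, w q = 0 :=
    Finset.sum_involution (fun q _ => m q) (fun q hq => hw q (m q) (m4 q hq))
      (fun q hq _ => m3 q hq) (fun q hq => m1 q hq) (fun q hq => m2 q hq)
  have hmem : ∀ q, q ∈ (F.erase a).erase b ↔ q ∈ F ∧ q ≠ a ∧ q ≠ b := by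
    intro q
    rw [Finset.mem_erase, Finset.mem_erase]
    tauto
  have s2 : ∑ q ∈ (F.erase a).erase b, w q = 0 := by
    refine Finset.sum_involution (fun q _ => p q) (fun q hq => ?_) (fun q hq _ => ?_)
      (fun q hq => ?_) (fun q hq => ?_)
    · obtain ⟨h1, h2, h3⟩ := (hmem q).1 hq
      exact hw q (p q) (p4 q h1 h2 h3)
    · obtain ⟨h1, h2, h3⟩ := (hmem q).1 hq
      exact p3 q h1 h2 h3
    · obtain ⟨h1, h2, h3⟩ := (hmem q).1 hq
      exact (hmem _).2 (p1 q h1 h2 h3)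
    · obtain ⟨h1, h2, h3⟩ := (hmem q).1 hq
      exact p2 q h1 h2 h3
  have hb' : b ∈ F.erase a := Finset.mem_erase.2 ⟨fun h => hab h.symm, hb⟩
  rw [← Finset.add_sum_erase F w ha, ← Finset.add_sum_erase (F.erase a) w hb', s2] at s1
  have s3 : w a + w b = 0 := by simpa using s1
  by_cases h1 : v a <;> by_cases h2 : v b
  · exact ⟨fun _ => h2, fun _ => h1⟩
  · exfalso
    have : (if v a then (1 : ZMod 2) else 0) + (if v b then 1 else 0) = 0 := s3
    rw [if_pos h1, if_neg h2] at this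
    exact absurd this (by decide)
  · exfalso
    have : (if v a then (1 : ZMod 2) else 0) + (if v b then 1 else 0) = 0 := s3
    rw [if_neg h1, if_pos h2] at this
    exact absurd this (by decide)
  · exact ⟨fun h => absurd h h1, fun h => absurd h h2⟩

namespace JC

variable {k : ℕ} (C : JC P k)

lemma tr_cyc {r s : P.FSt} (h : C.Rim r) (hs : pE.SameCycle r s) : C.tr s ↔ C.tr r := by
  obtain ⟨n, hn⟩ := hs.exists_nat_pow_eq
  rw [← hn]
  clear hn hs
  induction n with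
  | zero => exact Iff.rfl
  | succ n ih =>
    rw [pow_succ', Equiv.Perm.mul_apply]
    exact (C.tr_E _ (Rows.Rim.pow C.toRows h n)).trans ih

open Classical in
/-- the facet of the foot `n` on the rim of `r` -/
noncomputable def fA (r : P.FSt) : P.FSt :=
  if h : C.Rim r ∧ C.tr r then (C.fa_ex r h.1 (C.ac_tr r h.1 h.2)).choose else r

open Classical in
/-- the facet of the turned foot on the rim of `r` -/
noncomputable def fB (r : P.FSt) : P.FSt :=
  if h : C.Rim r ∧ C.tr r then (C.fb_ex r h.1 h.2).choose else r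

lemma fA_spec {r : P.FSt} (h : C.Rim r) (ht : C.tr r) : pE.SameCycle r (C.fA r) ∧
    C.fa (C.fA r) ∧ ∀ a, pE.SameCycle r a → C.fa a → a = C.fA r := by
  unfold fA
  rw [dif_pos ⟨h, ht⟩]
  have h1 := (C.fa_ex r h (C.ac_tr r h ht)).choose_spec
  exact ⟨h1.1.1, h1.1.2, fun a ha hf => h1.2 a ⟨ha, hf⟩⟩

lemma fB_spec {r : P.FSt} (h : C.Rim r) (ht : C.tr r) : pE.SameCycle r (C.fB r) ∧
    C.fb (C.fB r) ∧ ∀ a, pE.SameCycle r a → C.fb a → a = C.fB r := by
  unfold fB
  rw [dif_pos ⟨h, ht⟩]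
  have h1 := (C.fb_ex r h ht).choose_spec
  exact ⟨h1.1.1, h1.1.2, fun a ha hf => h1.2 a ⟨ha, hf⟩⟩

open Classical in
/-- the partner of a flag -/
noncomputable def pt (q : P.FSt × ℕ × ℕ) : P.FSt × ℕ × ℕ :=
  if q.2.1 + 1 < k ∨ C.rw q.1.stE.facet = 0 then acS k q.1 q.2.1 q.2.2
  else if q.2.2 + 1 = k then
    (if C.tr q.1.stE.rR then ((pN.symm (C.fA (Rows.far q.1.stE.rR))).rL, k - 1, k - 1)
     else ((pN.symm (pE.symm q.1.stE.rR)).rL, k - 1, 0))
  else if q.2.2 = 0 then ((pN.symm q.1.stE.rR.stE).rL, k - 1, k - 1)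
  else ((pN.symm (C.fB (Rows.far q.1.stE.rR))).rL, k - 1, C.m)

/-- valid flags -/
def Fl (q : P.FSt × ℕ × ℕ) : Prop :=
  q.2.1 < k ∧ q.2.2 < k ∧ C.rw q.1.facet = 0 ∧ C.usS q.1 q.2.1 q.2.2 = true

/-- the flag of a foot -/
lemma rim_rR {r : P.FSt} : (pN.symm r).rL.stE.rR = r := by
  have h : (pN.symm r).stN = r := pN_symm_stN r
  show (pN.symm r).stN = r
  exact h

lemma rim_facet {r : P.FSt} : (pN.symm r).rL.stE.facet = r.facet := by
  have h : (pN.symm r).rL.stE.rR.facet = r.facet := by rw [rim_rR]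
  exact h

lemma pt_n {r : P.FSt} (h : C.Rim r) (ht : C.tr r) :
    C.pt ((pN.symm r).rL, k - 1, k - 1) =
      ((pN.symm (C.fA (Rows.far r))).rL, k - 1, k - 1) := by
  have hk := C.hk
  unfold pt
  simp only
  rw [rim_facet, rim_rR, if_neg, if_pos (by omega), if_pos ht]
  rintro (h1 | h1)
  · omega
  · exact Rows.Rim.ne0 C.toRows h h1

lemma pt_nc {r : P.FSt} (h : C.Rim r) (ht : ¬ C.tr r) :
    C.pt ((pN.symm r).rL, k - 1, k - 1) = ((pN.symm (pE.symm r)).rL, k - 1, 0) := by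
  have hk := C.hk
  unfold pt
  simp only
  rw [rim_facet, rim_rR, if_neg, if_pos (by omega), if_neg ht]
  rintro (h1 | h1)
  · omega
  · exact Rows.Rim.ne0 C.toRows h h1

lemma pt_s {r : P.FSt} (h : C.Rim r) :
    C.pt ((pN.symm r).rL, k - 1, 0) = ((pN.symm r.stE).rL, k - 1, k - 1) := by
  have hk := C.hk
  have hm := C.hm
  unfold pt
  simp only
  rw [rim_facet, rim_rR, if_neg, if_neg (by omega), if_pos trivial]
  rintro (h1 | h1)
  · omega
  · exact Rows.Rim.ne0 C.toRows h h1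

lemma pt_o {r : P.FSt} (h : C.Rim r) :
    C.pt ((pN.symm r).rL, k - 1, C.m) = ((pN.symm (C.fB (Rows.far r))).rL, k - 1, C.m) := by
  have hk := C.hk
  have hm := C.hm
  unfold pt
  simp only
  rw [rim_facet, rim_rR, if_neg, if_neg (by omega), if_neg (by omega)]
  rintro (h1 | h1)
  · omega
  · exact Rows.Rim.ne0 C.toRows h h1

/-- the flags over which there is a foot -/
lemma Fl.foot {q : P.FSt × ℕ × ℕ} (hq : C.Fl q) (h : ¬ (q.2.1 + 1 < k ∨ C.rw q.1.stE.facet = 0)) :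
    ∃ r, C.Rim r ∧ ((q = ((pN.symm r).rL, k - 1, k - 1) ∧ C.fa r) ∨
      (q = ((pN.symm r).rL, k - 1, 0) ∧ ¬ C.tr r ∧ C.fa r.stE) ∨
      (q = ((pN.symm r).rL, k - 1, C.m) ∧ C.tr r ∧ C.fb r)) := by
  obtain ⟨s, x, y⟩ := q
  obtain ⟨hx, hy, h0, hu⟩ := hq
  simp only at hx hy h0 hu h
  push Not at h
  obtain ⟨h1, h2⟩ := h
  have hx' : x = k - 1 := by omega
  subst hx'
  obtain ⟨h3, h4, -⟩ := Rows.Rim.of_side C.toRows h0 h2
  refine ⟨s.stE.rR, h3, ?_⟩
  rw [h4]
  rw [← h4] at hu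
  have h5 := (C.foot_iff h3 hy).1 hu
  rcases h5 with ⟨h5, h6⟩ | ⟨h5, h6, h7⟩ | ⟨h5, h6, h7⟩
  · exact Or.inl ⟨by rw [show y = k - 1 by omega], h5⟩
  · exact Or.inr (Or.inl ⟨by rw [h7], h5, h6⟩)
  · exact Or.inr (Or.inr ⟨by rw [h7], h5, h6⟩)

lemma Fl.n {r : P.FSt} (h : C.Rim r) (h1 : C.fa r) : C.Fl ((pN.symm r).rL, k - 1, k - 1) := by
  have hk := C.hk
  refine ⟨by show k - 1 < k; omega, by show k - 1 < k; omega, ?_, ?_⟩
  · exact C.toRows.rw_symm h
  · exact (C.foot_iff h (y := k - 1) (by omega)).2 (Or.inl ⟨h1, by omega⟩)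

lemma Fl.s {r : P.FSt} (h : C.Rim r) (h1 : ¬ C.tr r) (h2 : C.fa r.stE) :
    C.Fl ((pN.symm r).rL, k - 1, 0) := by
  have hk := C.hk
  refine ⟨by show k - 1 < k; omega, by show 0 < k; omega, ?_, ?_⟩
  · exact C.toRows.rw_symm h
  · exact (C.foot_iff h (y := 0) (by omega)).2 (Or.inr (Or.inl ⟨h1, h2, rfl⟩))

lemma Fl.o {r : P.FSt} (h : C.Rim r) (h1 : C.tr r) (h2 : C.fb r) :
    C.Fl ((pN.symm r).rL, k - 1, C.m) := by
  have hk := C.hk
  refine ⟨by show k - 1 < k; omega, by show C.m < k; omega, ?_, ?_⟩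
  · exact C.toRows.rw_symm h
  · exact (C.foot_iff h (y := C.m) (by omega)).2 (Or.inr (Or.inr ⟨h1, h2, rfl⟩))

/-- the value at a flag -/
def vq (ψ χ : P.Facet → ℕ → ℕ → Prop) (q : P.FSt × ℕ × ℕ) : Prop := C.vlS ψ χ q.1 q.2.1 q.2.2

variable {ψ χ : P.Facet → ℕ → ℕ → Prop}

lemma vq_n {r : P.FSt} (h : C.Rim r) (h1 : C.fa r) :
    C.vq ψ χ ((pN.symm r).rL, k - 1, k - 1) ↔ C.vn χ (pN.symm r) 0 := by
  have hk := C.hk
  have h2 := C.rn r h 0 (by omega)
  rw [if_pos ⟨h1, rfl⟩] at h2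
  have e : k - 1 - (k - 1) = 0 := by omega
  have := C.foot_vn (ψ := ψ) (χ := χ) (pN.symm r) (y := k - 1) (by omega)
    (by rw [e, h2]; decide)
  rw [e] at this
  exact this

lemma vq_s {r : P.FSt} (h : C.Rim r) (h1 : ¬ C.tr r) (h3 : C.fa r.stE) :
    C.vq ψ χ ((pN.symm r).rL, k - 1, 0) ↔ C.vn χ (pN.symm r) (k - 1) := by
  have hk := C.hk
  have hm := C.hm
  have h2 := C.rn r h (k - 1) (by omega)
  rw [if_neg (by intro h; omega), if_pos ⟨h1, h3, by omega⟩] at h2
  have := C.foot_vn (ψ := ψ) (χ := χ) (pN.symm r) (y := 0) (by omega)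
    (by rw [Nat.sub_zero, h2]; decide)
  rw [Nat.sub_zero] at this
  exact this

lemma vq_o {r : P.FSt} (h : C.Rim r) (h1 : C.tr r) (h2 : C.fb r) :
    C.vq ψ χ ((pN.symm r).rL, k - 1, C.m) ↔ C.vo ψ (pN.symm r) := by
  have hk := C.hk
  apply C.foot_vo
  rw [C.ro r h _ (by omega)]
  simp [h1, h2]

/-- the values are known on the feet -/
structure Val (ψ χ : P.Facet → ℕ → ℕ → Prop) : Prop where
  n : ∀ r, C.Rim r → C.tr r → C.fa r → ∀ a, pE.SameCycle (Rows.far r) a → C.fa a →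
    (C.vn χ (pN.symm r) 0 ↔ C.vn χ (pN.symm a) 0)
  o : ∀ r, C.Rim r → C.tr r → C.fb r → ∀ a, pE.SameCycle (Rows.far r) a → C.fb a →
    (C.vo ψ (pN.symm r) ↔ C.vo ψ (pN.symm a))
  c : ∀ r, C.Rim r → ¬ C.tr r → C.fa r.stE →
    (C.vn χ (pN.symm r.stE) 0 ↔ C.vn χ (pN.symm r) (k - 1))

/-- the two rims of a band have different rows -/
lemma far_ne {r s : P.FSt} (h : C.Rim r) (hs : pE.SameCycle (Rows.far r) s) :
    ¬ pE.SameCycle r s := by
  intro h1
  have hrow : ∀ {a b : P.FSt}, C.Rim a → pE.SameCycle a b → C.rw b.facet = C.rw a.facet := by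
    intro a b ha hab
    obtain ⟨n, hn⟩ := hab.exists_nat_pow_eq
    rw [← hn]
    clear hn hab
    induction n with
    | zero => rfl
    | succ n ih =>
      rw [pow_succ', Equiv.Perm.mul_apply]
      exact (C.E _ (Rows.Rim.V C.toRows (Rows.Rim.pow C.toRows ha n))).trans ih
  have e1 := hrow h h1
  have e2 := hrow (Rows.Rim.far C.toRows h) hs
  have e3 : C.rw (Rows.far r).facet ≠ C.rw r.facet := by
    rcases h with ⟨h, h'⟩ | ⟨h, h'⟩
    · have := C.up h (by omega) 4 (by omega)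
      unfold Rows.far
      rw [FSt.facet_r2, this.2]
      omega
    · have := C.down h 4 (by omega)
      unfold Rows.far
      rw [FSt.facet_r2]
      omega
  omega

/-- basic facts on the partner -/
lemma pt_spec {q : P.FSt × ℕ × ℕ} (hq : C.Fl q) :
    C.Fl (C.pt q) ∧ C.pt (C.pt q) = q ∧ C.pt q ≠ q ∧
    (C.Inv ψ χ → C.Val ψ χ → (C.vq ψ χ q ↔ C.vq ψ χ (C.pt q))) := by
  have hk := C.hk
  have hm := C.hm
  by_cases h : q.2.1 + 1 < k ∨ C.rw q.1.stE.facet = 0
  · have e : C.pt q = acS k q.1 q.2.1 q.2.2 := by unfold pt; rw [if_pos h]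
    obtain ⟨s, x, y⟩ := q
    obtain ⟨hx, hy, h0, hu⟩ := hq
    simp only at hx hy h0 hu h e
    have h1 : x + 1 = k → C.rw s.stE.facet = 0 := by
      intro h2
      rcases h with h | h
      · omega
      · exact h
    have h2 := C.acS_spec (ψ := ψ) (χ := χ) hx hy h0 h1 hu
    obtain ⟨g1, g2, g3, -, g5, g6⟩ := h2
    rw [e]
    refine ⟨⟨g1, g2, g3, g5⟩, ?_, acS_ne, fun I _ => g6 I⟩
    have h3 := acS_acS (s := s) hx hy
    have hcond : (acS k s x y).2.1 + 1 < k ∨ C.rw (acS k s x y).1.stE.facet = 0 := by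
      by_cases hxk : x + 1 < k
      · rw [acS_int hxk]; left; show k - 2 - x + 1 < k; omega
      · rw [acS_end hxk]
        right
        show C.rw s.stE.r2.stE.facet = 0
        rw [FSt.stE_inv]
        exact h0
    unfold pt
    rw [if_pos hcond, h3]
  · obtain ⟨r, hr, h⟩ := hq.foot C h
    have hf := Rows.Rim.far C.toRows hr
    rcases h with ⟨rfl, ha⟩ | ⟨rfl, ht, ha⟩ | ⟨rfl, ht, hb⟩
    · by_cases ht : C.tr r
      · -- a foot `n` of a tree rim
        obtain ⟨a1, a2, a3⟩ := C.fA_spec hf ((C.tr_far r hr).2 ht)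
        have hra : C.Rim (C.fA (Rows.far r)) := Rows.Rim.cyc C.toRows hf a1
        have hta : C.tr (C.fA (Rows.far r)) :=
          (C.tr_cyc hf a1).2 ((C.tr_far r hr).2 ht)
        rw [C.pt_n hr ht, C.pt_n hra hta]
        have hfa2 : C.fA (Rows.far (C.fA (Rows.far r))) = r := by
          have h1 := C.far_cyc hf a1
          rw [far_far] at h1
          have h2 : C.Rim (Rows.far (C.fA (Rows.far r))) := Rows.Rim.far C.toRows hra
          exact ((C.fA_spec h2 ((C.tr_far _ hra).2 hta)).2.2 r h1.symm ha).symm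
        refine ⟨Fl.n C hra a2, by rw [hfa2], ?_, fun I V => ?_⟩
        · intro h1
          have h2 : pN.symm (C.fA (Rows.far r)) = pN.symm r := by
            have := congrArg FSt.rR (congrArg Prod.fst h1)
            rwa [FSt.rL_rR, FSt.rL_rR] at this
          have h3 := pN.symm.injective h2
          rw [h3] at a1
          exact C.far_ne hr a1 (Equiv.Perm.SameCycle.refl _ _)
        · rw [C.vq_n hr ha, C.vq_n hra a2]
          exact V.n r hr ht ha _ a1 a2
      · -- a foot `n` of a cut rim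
        have hw := Rows.Rim.W C.toRows hr
        have he := pE_symm_stE r
        have htw : ¬ C.tr (pE.symm r) := by
          intro h1
          apply ht
          have := (C.tr_E _ hw).2 h1
          rwa [he] at this
        rw [C.pt_nc hr ht, C.pt_s hw, he]
        refine ⟨Fl.s C hw htw (by rw [he]; exact ha), rfl, ?_, fun I V => ?_⟩
        · intro h1
          have := congrArg (fun q : P.FSt × ℕ × ℕ => q.2.2) h1
          simp only at this
          omega
        · have := V.c _ hw htw (by rw [he]; exact ha)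
          rw [he] at this
          rw [C.vq_n hr ha, C.vq_s hw htw (by rw [he]; exact ha)]
          exact this
    · -- a foot `s`
      have hre := Rows.Rim.E C.toRows hr
      have hte : ¬ C.tr r.stE := fun h1 => ht ((C.tr_E _ hr).1 h1)
      have he : pE.symm r.stE = r := pE.symm_apply_apply r
      rw [C.pt_s hr, C.pt_nc hre hte, he]
      refine ⟨Fl.n C hre ha, rfl, ?_, fun I V => ?_⟩
      · intro h1
        have := congrArg (fun q : P.FSt × ℕ × ℕ => q.2.2) h1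
        simp only at this
        omega
      · rw [C.vq_s hr ht ha, C.vq_n hre ha]
        exact (V.c r hr ht ha).symm
    · -- a turned foot
      have htf := (C.tr_far r hr).2 ht
      obtain ⟨b1, b2, b3⟩ := C.fB_spec hf htf
      have hrb : C.Rim (C.fB (Rows.far r)) := Rows.Rim.cyc C.toRows hf b1
      have htb : C.tr (C.fB (Rows.far r)) := (C.tr_cyc hf b1).2 htf
      rw [C.pt_o hr, C.pt_o hrb]
      have hfb2 : C.fB (Rows.far (C.fB (Rows.far r))) = r := by
        have h1 := C.far_cyc hf b1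
        rw [far_far] at h1
        have h2 : C.Rim (Rows.far (C.fB (Rows.far r))) := Rows.Rim.far C.toRows hrb
        exact ((C.fB_spec h2 ((C.tr_far _ hrb).2 htb)).2.2 r h1.symm hb).symm
      refine ⟨Fl.o C hrb htb b2, by rw [hfb2], ?_, fun I V => ?_⟩
      · intro h1
        have h2 : pN.symm (C.fB (Rows.far r)) = pN.symm r := by
          have := congrArg FSt.rR (congrArg Prod.fst h1)
          rwa [FSt.rL_rR, FSt.rL_rR] at this
        have h3 := pN.symm.injective h2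
        rw [h3] at b1
        exact C.far_ne hr b1 (Equiv.Perm.SameCycle.refl _ _)
      · rw [C.vq_o hr ht hb, C.vq_o hrb htb b2]
        exact V.o r hr ht hb _ b1 b2

/-- **Handshake.**  The two feet of a tree rim have the same value. -/
lemma shake {ψ χ : P.Facet → ℕ → ℕ → Prop} (I : C.Inv ψ χ) (V : C.Val ψ χ) (hT : C.Tree C.tr)
    {a b : P.FSt} (hra : C.Rim a) (hta : C.tr a) (hab : pE.SameCycle a b) (ha : C.fa a)
    (hb : C.fb b) : C.vn χ (pN.symm a) 0 ↔ C.vo ψ (pN.symm b) := by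
  classical
  have hk := C.hk
  have hm := C.hm
  have hrb := Rows.Rim.cyc C.toRows hra hab
  have htb := (C.tr_cyc hra hab).2 hta
  obtain ⟨S, hS, hS2, hS3⟩ : ∃ S : P.Facet → Prop, C.QJ S ∧
      (∀ r, C.Rim r → C.tr r → ¬ pE.SameCycle a r → ¬ pE.SameCycle (Rows.far a) r →
      (S (Rows.jf r) ↔ S (Rows.jf (Rows.far r)))) ∧ (S (Rows.jf a) ∧ ¬ S (Rows.jf (Rows.far a))) := by
    obtain ⟨S, h1, h2, h3⟩ := hT.sep a hra hta
    by_cases h4 : S (Rows.jf a)
    · exact ⟨S, h1, h2, h4, fun h5 => h3 ⟨fun _ => h5, fun _ => h4⟩⟩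
    · refine ⟨fun f => ¬ S f, fun s g1 g2 => not_congr (h1 s g1 g2),
        fun r g1 g2 g3 g4 => not_congr (h2 r g1 g2 g3 g4), h4, ?_⟩
      intro h5
      exact h3 ⟨fun h => absurd h h4, fun h => absurd h h5⟩
  have hfa := Rows.Rim.far C.toRows hra
  have hSb : S (Rows.jf b) := (Rows.QJ.jf C.toRows hS hra hab).2 hS3.1
  let F : Finset (P.FSt × ℕ × ℕ) := ((Finset.univ : Finset P.FSt) ×ˢ
    (Finset.range k ×ˢ Finset.range k)).filter (fun q => C.Fl q ∧ S q.1.facet)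
  have hF : ∀ q, q ∈ F ↔ C.Fl q ∧ S q.1.facet := by
    intro q
    simp only [F, Finset.mem_filter, Finset.mem_product, Finset.mem_univ, Finset.mem_range,
      true_and]
    constructor
    · exact fun h => h.2
    · exact fun h => ⟨⟨h.1.1, h.1.2.1⟩, h⟩
  have hqa := Fl.n C hra ha
  have hqb := Fl.o C hrb htb hb
  have hne : ((pN.symm a).rL, k - 1, k - 1) ≠ (((pN.symm b).rL, k - 1, C.m) : P.FSt × ℕ × ℕ) := by
    intro h
    have := congrArg (fun q : P.FSt × ℕ × ℕ => q.2.2) h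
    simp only at this
    omega
  -- the partner of a flag of `F` that is not one of the two feet is in `F`
  have hpS : ∀ q ∈ F, q ≠ ((pN.symm a).rL, k - 1, k - 1) → q ≠ ((pN.symm b).rL, k - 1, C.m) →
      C.pt q ∈ F := by
    intro q hq n1 n2
    obtain ⟨hq1, hq2⟩ := (hF q).1 hq
    refine (hF _).2 ⟨(C.pt_spec (ψ := ψ) (χ := χ) hq1).1, ?_⟩
    by_cases h : q.2.1 + 1 < k ∨ C.rw q.1.stE.facet = 0
    · have e : C.pt q = acS k q.1 q.2.1 q.2.2 := by unfold pt; rw [if_pos h]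
      rw [e]
      have h1 : q.2.1 + 1 = k → C.rw q.1.stE.facet = 0 := by
        intro h2
        rcases h with h | h
        · omega
        · exact h
      exact ((C.acS_spec (ψ := ψ) (χ := χ) hq1.1 hq1.2.1 hq1.2.2.1 h1 hq1.2.2.2).2.2.2.1 S hS).2
        hq2
    · obtain ⟨r, hr, h⟩ := hq1.foot C h
      have hf := Rows.Rim.far C.toRows hr
      have hqr : S (Rows.jf r) := by
        rcases h with ⟨rfl, _⟩ | ⟨rfl, _⟩ | ⟨rfl, _⟩ <;> exact hq2
      have h5 : ¬ pE.SameCycle (Rows.far a) r := by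
        intro h6
        exact hS3.2 ((Rows.QJ.jf C.toRows hS hfa h6).1 hqr)
      rcases h with ⟨rfl, h1⟩ | ⟨rfl, ht, h1⟩ | ⟨rfl, ht, h1⟩
      · by_cases ht : C.tr r
        · rw [C.pt_n hr ht]
          have h4 : ¬ pE.SameCycle a r := by
            intro h6
            apply n1
            rw [(C.fA_spec hra hta).2.2 r h6 h1,
              ← (C.fA_spec hra hta).2.2 a (Equiv.Perm.SameCycle.refl _ _) ha]
          have h7 := (hS2 r hr ht h4 h5).1 hqr
          exact (Rows.QJ.jf C.toRows hS hf (C.fA_spec hf ((C.tr_far r hr).2 ht)).1).2 h7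
        · rw [C.pt_nc hr ht]
          have hw := Rows.Rim.W C.toRows hr
          have := Rows.QJ.jf_E C.toRows hS hw
          rw [pE_symm_stE] at this
          exact this.1 hqr
      · rw [C.pt_s hr]
        exact (Rows.QJ.jf_E C.toRows hS hr).2 hqr
      · rw [C.pt_o hr]
        have h4 : ¬ pE.SameCycle a r := by
          intro h6
          apply n2
          have h8 := C.fB_spec hra hta
          rw [h8.2.2 r h6 h1, ← h8.2.2 b hab hb]
        have h7 := (hS2 r hr ht h4 h5).1 hqr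
        exact (Rows.QJ.jf C.toRows hS hf (C.fB_spec hf ((C.tr_far r hr).2 ht)).1).2 h7
  -- the partners of the two feet are not in `F`
  have hpa : C.pt ((pN.symm a).rL, k - 1, k - 1) ∉ F := by
    intro h
    rw [C.pt_n hra hta] at h
    have h1 : S (Rows.jf (C.fA (Rows.far a))) := ((hF _).1 h).2
    exact hS3.2 ((Rows.QJ.jf C.toRows hS hfa (C.fA_spec hfa ((C.tr_far a hra).2 hta)).1).1 h1)
  have hpb : C.pt ((pN.symm b).rL, k - 1, C.m) ∉ F := by
    intro h
    rw [C.pt_o hrb] at h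
    have hfb := Rows.Rim.far C.toRows hrb
    have htfb := (C.tr_far b hrb).2 htb
    have h1 : S (Rows.jf (C.fB (Rows.far b))) := ((hF _).1 h).2
    have h2 : pE.SameCycle (Rows.far a) (C.fB (Rows.far b)) :=
      (C.far_cyc hra hab).trans (C.fB_spec hfb htfb).1
    exact hS3.2 ((Rows.QJ.jf C.toRows hS hfa h2).1 h1)
  have key := two_involutions F (C.vq ψ χ) (fun q => C.mtS q.1 q.2.1 q.2.2) C.pt
    ((hF _).2 ⟨hqa, hS3.1⟩) ((hF _).2 ⟨hqb, hSb⟩) hne
    (fun q hq => by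
      obtain ⟨hq1, hq2⟩ := (hF q).1 hq
      have := C.mtS_spec (ψ := ψ) (χ := χ) hq1.1 hq1.2.1 hq1.2.2.1 hq1.2.2.2
      refine (hF _).2 ⟨⟨this.1, this.2.1, ?_, this.2.2.2.1⟩, ?_⟩
      · rw [this.2.2.1]; exact hq1.2.2.1
      · rw [this.2.2.1]; exact hq2)
    (fun q hq => by
      obtain ⟨hq1, hq2⟩ := (hF q).1 hq
      exact (C.mtS_spec (ψ := ψ) (χ := χ) hq1.1 hq1.2.1 hq1.2.2.1 hq1.2.2.2).2.2.2.2.1)
    (fun q hq => by
      obtain ⟨hq1, hq2⟩ := (hF q).1 hq
      exact (C.mtS_spec (ψ := ψ) (χ := χ) hq1.1 hq1.2.1 hq1.2.2.1 hq1.2.2.2).2.2.2.2.2.1)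
    (fun q hq => by
      obtain ⟨hq1, hq2⟩ := (hF q).1 hq
      exact (C.mtS_spec (ψ := ψ) (χ := χ) hq1.1 hq1.2.1 hq1.2.2.1 hq1.2.2.2).2.2.2.2.2.2 I)
    (fun q hq n1 n2 => by
      have h1 := hpS q hq n1 n2
      obtain ⟨hq1, hq2⟩ := (hF q).1 hq
      have h2 := (C.pt_spec (ψ := ψ) (χ := χ) hq1).2.1
      refine ⟨h1, ?_, ?_⟩
      · intro h3
        rw [h3] at h2
        rw [← h2] at hq
        exact hpa hq
      · intro h3
        rw [h3] at h2
        rw [← h2] at hq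
        exact hpb hq)
    (fun q hq _ _ => (C.pt_spec (ψ := ψ) (χ := χ) ((hF q).1 hq).1).2.1)
    (fun q hq _ _ => (C.pt_spec (ψ := ψ) (χ := χ) ((hF q).1 hq).1).2.2.1)
    (fun q hq _ _ => (C.pt_spec (ψ := ψ) (χ := χ) ((hF q).1 hq).1).2.2.2 I V)
  rw [C.vq_n hra ha, C.vq_o hrb htb hb] at key
  exact key

/-- **H5a**: the rims are closed up. -/
theorem closed {ψ χ : P.Facet → ℕ → ℕ → Prop} (I : C.Inv ψ χ) (V : C.Val ψ χ)
    (hT : C.Tree C.tr) : C.Closed ψ χ where
  tree := fun _ _ h1 h2 h3 h4 h5 => C.shake I V hT h1 h2 h3 h4 h5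
  cut := V.c

end JC

end Pool.Agent.MP42H
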