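import Pool.Agent.MP42.H.Num
import Pool.Agent.MP42.H.Cells
import Pool.Agent.MP42.H.ATab
import Pool.Agent.MP42.H.Shake2

/-!
# The state table of a certificate: definitions
-/

set_option autoImplicit false
set_option linter.unusedSectionVars false

namespace Pool.Agent.MP42H

open Pool.Agent.Helper55.UNF Pool.Agent.Helper55.UNF.GridSolid Pool.Agent.MP42G

variable {P : GridSolid}

/-! ## States over the same facet -/

lemma U_unique {r s : P.FSt} (hr : IsU r) (hs : IsU s) (h : r.facet = s.facet) : r = s := by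
  have hd : r.1.d = s.1.d := congrArg (fun f : P.Facet => f.1.2) h
  have hc : r.1.c = s.1.c := congrArg (fun f : P.Facet => f.1.1) h
  have e : ∀ t : P.FSt, IsU t → t.1.e = cross t.1.d (opp (2, true)) := by
    intro t ht
    have h1 := cross_opp_cross t.1.d t.1.e t.2.2
    have h2 : cross t.1.d t.1.e = (2, true) := ht
    rw [h2] at h1
    exact h1.symm
  apply FSt.ext'
  apply St.ext hc hd
  rw [e r hr, e s hs, hd]

lemma rot4' {s t : P.FSt} (h : s.facet = t.facet) : s = t ∨ s = t.r2 ∨ s = t.rL ∨ s = t.rR := by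
  have hd : s.1.d = t.1.d := congrArg (fun f : P.Facet => f.1.2) h
  have hc : s.1.c = t.1.c := congrArg (fun f : P.Facet => f.1.1) h
  have key : s.1.e = t.1.e ∨ s.1.e = opp t.1.e ∨ s.1.e = cross t.1.d t.1.e ∨
      s.1.e = opp (cross t.1.d t.1.e) := by
    have h1 := s.2.2
    have h2 := t.2.2
    rw [hd] at h1
    generalize s.1.e = a at *
    generalize t.1.e = b at *
    generalize t.1.d = d at *
    clear hc hd h
    revert a b d
    decide
  rcases key with h1 | h1 | h1 | h1
  · exact Or.inl (FSt.ext' (St.ext hc hd h1))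
  · exact Or.inr (Or.inl (FSt.ext' (St.ext hc hd h1)))
  · exact Or.inr (Or.inr (Or.inl (FSt.ext' (St.ext hc hd h1))))
  · exact Or.inr (Or.inr (Or.inr (FSt.ext' (St.ext hc hd h1))))

lemma rL_ne' (s : P.FSt) : s.rL ≠ s := by
  intro h
  have h1 : cross s.1.d s.1.e = s.1.e := congrArg (fun s : P.FSt => s.1.e) h
  have h2 : (cross s.1.d s.1.e).1 = s.1.e.1 := by
    have := congrArg Prod.fst h1
    simpa only [opp_fst] using this
  exact cross_axis_right _ _ s.2.2 h2

lemma rR_ne' (s : P.FSt) : s.rR ≠ s := by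
  intro h
  have h1 : opp (cross s.1.d s.1.e) = s.1.e := congrArg (fun s : P.FSt => s.1.e) h
  have h2 : (cross s.1.d s.1.e).1 = s.1.e.1 := by
    have := congrArg Prod.fst h1
    simpa only [opp_fst] using this
  exact cross_axis_right _ _ s.2.2 h2

lemma rL_ne_r2' (s : P.FSt) : s.rL ≠ s.r2 := by
  intro h
  have h1 : cross s.1.d s.1.e = opp s.1.e := congrArg (fun s : P.FSt => s.1.e) h
  have h2 : (cross s.1.d s.1.e).1 = s.1.e.1 := by
    have := congrArg Prod.fst h1
    simpa only [opp_fst] using this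
  exact cross_axis_right _ _ s.2.2 h2

lemma rR_ne_r2' (s : P.FSt) : s.rR ≠ s.r2 := by
  intro h
  have h1 : opp (cross s.1.d s.1.e) = opp s.1.e := congrArg (fun s : P.FSt => s.1.e) h
  have h2 : (cross s.1.d s.1.e).1 = s.1.e.1 := by
    have := congrArg Prod.fst h1
    simpa only [opp_fst] using this
  exact cross_axis_right _ _ s.2.2 h2

lemma rR_ne_rL' (s : P.FSt) : s.rR ≠ s.rL := by
  intro h
  have : s.rL.r2 = s.rL := by rw [FSt.rL_r2]; exact h
  exact STab.r2_ne' _ this

namespace JC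

variable {k : ℕ} (C : JC P k)

open Classical in
/-- the state with north up -/
noncomputable def up (f : P.Facet) : P.FSt :=
  if h : ∃ r : P.FSt, r.facet = f ∧ IsU r then h.choose else C.can f

variable {C} {r : P.FSt}

lemma up_eq (hr : IsU r) : C.up r.facet = r := by
  have h : ∃ s : P.FSt, s.facet = r.facet ∧ IsU s := ⟨r, rfl, hr⟩
  unfold up
  rw [dif_pos h]
  exact U_unique h.choose_spec.2 hr h.choose_spec.1

lemma ex_up {s : P.FSt} (h : C.rw s.facet ≠ 0) : ∃ r : P.FSt, CU C.toRows r ∧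
    r.facet = s.facet ∧ (s = r ∨ s = r.r2 ∨ s = r.rL ∨ s = r.rR) := by
  have key : ∃ r : P.FSt, IsU r ∧ r.facet = s.facet := by
    have hv : ∀ t : P.FSt, IsV t → IsU t ∨ IsU t.r2 := by
      intro t ht
      by_cases h1 : IsU t
      · exact Or.inl h1
      · exact Or.inr ((Pool.Agent.MP42G.IsU_r2 ht).2 h1)
    rcases C.V s h with h1 | h1
    · rcases hv s h1 with h2 | h2
      · exact ⟨s, h2, rfl⟩
      · exact ⟨s.r2, h2, rfl⟩
    · rcases hv s.rL h1 with h2 | h2
      · exact ⟨s.rL, h2, rfl⟩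
      · exact ⟨s.rL.r2, h2, rfl⟩
  obtain ⟨r, h1, h2⟩ := key
  exact ⟨r, ⟨h1, by rw [h2]; exact h⟩, h2, rot4' h2.symm⟩

variable (C)

/-! ## The tables -/

noncomputable def ci (r : P.FSt) : ℕ := if C.rw r.facet = 1 then 0 else C.m
noncomputable def co (r : P.FSt) : ℕ := if C.rw r.facet = 5 then k - 1 else C.m

/-- offset from the foot on a cut rim (lower side) -/
noncomputable def na (r : P.FSt) : ℕ := dst pE (C.aa (rho C.toRows r)) (rho C.toRows r)

/-- offset from the foot on a cut rim (upper side) -/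
noncomputable def na' (r : P.FSt) : ℕ :=
  dst pE (C.aa (Rows.far (rho C.toRows r))) (Rows.far (rho C.toRows r))

open Classical in
/-- strands in the frame with north up -/
noncomputable def TY (r : P.FSt) (x y : ℕ) : Bool :=
  if C.tr (rho C.toRows r) then YP C.m (C.ci r) (C.co r) (C.nn r) (C.tt r) x y
  else if C.rw r.facet = 1 ∧ C.ac (rho C.toRows r) then CP C.m k (C.na r) (C.LL r) x y
  else if C.rw r.facet = 5 ∧ C.ac (Rows.far (rho C.toRows r)) then
    CP C.m k (C.na' r) (C.LL r) (k - x) (k - 1 - y)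
  else false

open Classical in
/-- lanes in the frame with north up -/
noncomputable def LY (r : P.FSt) (x y : ℕ) : Ln :=
  if C.tr (rho C.toRows r) then YL C.m (C.ci r) (C.co r) (C.nn r) (C.tt r) x y
  else if C.rw r.facet = 1 ∧ C.ac (rho C.toRows r) then CL C.m k (C.na r) (C.LL r) x y
  else if C.rw r.facet = 5 ∧ C.ac (Rows.far (rho C.toRows r)) then
    CL C.m k (C.na' r) (C.LL r) (k - 1 - x) (k - y)
  else Ln.z

/-- strands in the frame with east up -/
noncomputable def TX (r : P.FSt) (x y : ℕ) : Bool := XP C.m (C.nn r) (C.uu r) (C.vv r) x y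

/-- lanes in the frame with east up -/
noncomputable def LX (r : P.FSt) (x y : ℕ) : Ln := XL C.m (C.nn r) (C.uu r) (C.vv r) x y

/-- the facet has north up or down -/
def YY (r : P.FSt) : Prop := C.tr (rho C.toRows r) → C.nn r ≤ C.tt r

open Classical in
/-- the canonical states -/
noncomputable def canF (f : P.Facet) : P.FSt :=
  if C.rw f = 0 then C.can f
  else if C.YY (C.up f) then C.up f
  else (C.up f).rL

open Classical in
/-- the strands -/
noncomputable def PR (s : P.FSt) (x y : ℕ) : Bool :=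
  if C.rw s.facet = 0 then
    (if C.can s.facet = s then C.pr s.facet x y else C.pr s.facet (k - x) (k - 1 - y))
  else if s = C.up s.facet then C.TY (C.up s.facet) x y
  else if s = (C.up s.facet).r2 then C.TY (C.up s.facet) (k - x) (k - 1 - y)
  else if s = (C.up s.facet).rL then C.TX (C.up s.facet) x y
  else C.TX (C.up s.facet) (k - x) (k - 1 - y)

open Classical in
/-- the lanes -/
noncomputable def LA (s : P.FSt) (x y : ℕ) : Ln :=
  if C.rw s.facet = 0 then
    (if C.can s.facet = s then C.la s.facet x y else C.la s.facet (k - 1 - x) (k - y))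
  else if s = C.up s.facet then C.LY (C.up s.facet) x y
  else if s = (C.up s.facet).r2 then C.LY (C.up s.facet) (k - 1 - x) (k - y)
  else if s = (C.up s.facet).rL then C.LX (C.up s.facet) x y
  else C.LX (C.up s.facet) (k - 1 - x) (k - y)

variable {C}

/-! ## Evaluation -/

section Eval

variable (h : CU C.toRows r) (x y : ℕ)

include h

lemma PR_r : C.PR r x y = C.TY r x y := by
  unfold PR
  rw [if_neg h.2, up_eq h.1, if_pos rfl]

lemma PR_r2 : C.PR r.r2 x y = C.TY r (k - x) (k - 1 - y) := by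
  unfold PR
  rw [FSt.facet_r2, if_neg h.2, up_eq h.1, if_neg (STab.r2_ne' r), if_pos rfl]

lemma PR_rL : C.PR r.rL x y = C.TX r x y := by
  unfold PR
  rw [FSt.facet_rL, if_neg h.2, up_eq h.1, if_neg (rL_ne' r), if_neg (rL_ne_r2' r), if_pos rfl]

lemma PR_rR : C.PR r.rR x y = C.TX r (k - x) (k - 1 - y) := by
  unfold PR
  rw [FSt.facet_rR, if_neg h.2, up_eq h.1, if_neg (rR_ne' r), if_neg (rR_ne_r2' r),
    if_neg (rR_ne_rL' r)]

lemma LA_r : C.LA r x y = C.LY r x y := by
  unfold LA
  rw [if_neg h.2, up_eq h.1, if_pos rfl]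

lemma LA_r2 : C.LA r.r2 x y = C.LY r (k - 1 - x) (k - y) := by
  unfold LA
  rw [FSt.facet_r2, if_neg h.2, up_eq h.1, if_neg (STab.r2_ne' r), if_pos rfl]

lemma LA_rL : C.LA r.rL x y = C.LX r x y := by
  unfold LA
  rw [FSt.facet_rL, if_neg h.2, up_eq h.1, if_neg (rL_ne' r), if_neg (rL_ne_r2' r), if_pos rfl]

lemma LA_rR : C.LA r.rR x y = C.LX r (k - 1 - x) (k - y) := by
  unfold LA
  rw [FSt.facet_rR, if_neg h.2, up_eq h.1, if_neg (rR_ne' r), if_neg (rR_ne_r2' r),
    if_neg (rR_ne_rL' r)]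

omit x y in
open Classical in
lemma canF_core : C.canF r.facet = if C.YY r then r else r.rL := by
  unfold canF
  rw [if_neg h.2, up_eq h.1]

omit x y in
lemma act_r : Act C.canF r ↔ C.YY r := by
  classical
  unfold Act
  rw [canF_core h]
  by_cases h1 : C.YY r
  · simp [h1]
  · simp [h1, rL_ne', rL_ne_r2']

omit x y in
lemma act_rL : Act C.canF r.rL ↔ ¬ C.YY r := by
  classical
  unfold Act
  rw [FSt.facet_rL, canF_core h, FSt.rL_r2]
  have e1 := (rL_ne' r).symm
  have e2 := (rR_ne' r).symm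
  by_cases h1 : C.YY r
  · simp [h1, e1, e2]
  · simp [h1]

omit x y in
lemma act_rR : Act C.canF r.rR ↔ ¬ C.YY r := by
  rw [← act_rL h, ← act_r2_iff' C.canF r.rL, FSt.rL_r2]

omit x y in
lemma act_r2 : Act C.canF r.r2 ↔ C.YY r := by
  rw [← act_r h, ← act_r2_iff' C.canF r]

end Eval

lemma canF_J {f : P.Facet} (h : C.rw f = 0) : C.canF f = C.can f := by
  unfold canF; rw [if_pos h]

lemma canF_facet (f : P.Facet) : (C.canF f).facet = f := by
  classical
  by_cases h : C.rw f = 0
  · rw [canF_J h, C.can_facet]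
  · obtain ⟨r, h1, h2, -⟩ := ex_up (C := C) (s := C.can f) (by rw [C.can_facet]; exact h)
    rw [C.can_facet] at h2
    rw [← h2, canF_core h1]
    split_ifs <;> simp

/-! facets of the junctions -/

lemma PR_J {s : P.FSt} (h : C.rw s.facet = 0) (hc : C.can s.facet = s) (x y : ℕ) :
    C.PR s x y = C.pr s.facet x y := by
  unfold PR; rw [if_pos h, if_pos hc]

lemma PR_J2 {s : P.FSt} (h : C.rw s.facet = 0) (hc : C.can s.facet = s.r2) (x y : ℕ) :
    C.PR s x y = C.pr s.facet (k - x) (k - 1 - y) := by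
  unfold PR; rw [if_pos h, if_neg (by rw [hc]; exact STab.r2_ne' s)]

lemma LA_J {s : P.FSt} (h : C.rw s.facet = 0) (hc : C.can s.facet = s) (x y : ℕ) :
    C.LA s x y = C.la s.facet x y := by
  unfold LA; rw [if_pos h, if_pos hc]

lemma LA_J2 {s : P.FSt} (h : C.rw s.facet = 0) (hc : C.can s.facet = s.r2) (x y : ℕ) :
    C.LA s x y = C.la s.facet (k - 1 - x) (k - y) := by
  unfold LA; rw [if_pos h, if_neg (by rw [hc]; exact STab.r2_ne' s)]

lemma act_J {s : P.FSt} (h : C.rw s.facet = 0) :
    Act C.canF s ↔ C.can s.facet = s ∨ C.can s.facet = s.r2 := by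
  unfold Act; rw [canF_J h]

end JC

end Pool.Agent.MP42H
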