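import Pool.Agent.MP42.G.WinR

/-!
# Reduction theorem with labels (+,0) and cut bands (GRT0): definitions

A band has five rows of core facets (`rw = 1, .., 5`), the theorem fills them.  A junction
certificate `JC P k` gives the tables on the facets that are not core (plates and collars).

Rim states: `Rim r` = a core state of row 1 or 5 whose north direction points into the band; the
junction is to the south (`pN.symm r`).  On a *tree* rim the curve crosses twice: a lane `n` in
column `0` of the facet `a` (`fa a`) and a strand that runs to the north with an east pointing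
north or south (frame turned by a right angle) over the middle of the facet `b` (`fb b`).  On a
*cut* rim there is a lane `n` in column `0` of `a` and a lane `s` in the last column of the west
neighbour of `a`.

The other bands are cut by the curve on at least one side (`ac`); a rim that is not met by the
curve is *passive* and has no lanes.

Light: on a tree rim the facets `a, .., b - 3` of the core are lit, on the other rims all of them.
-/

set_option autoImplicit false
set_option linter.unusedSectionVars false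

namespace Pool.Agent.MP42H

open Pool.Agent.Helper55.UNF Pool.Agent.Helper55.UNF.GridSolid Pool.Agent.MP42G

variable {P : GridSolid}

/-- Five rows of wall facets in every band; `rw = 0` on the other facets. -/
structure Rows (P : GridSolid) where
  rw : P.Facet → ℕ
  le5 : ∀ f, rw f ≤ 5
  V : ∀ s : P.FSt, rw s.facet ≠ 0 → IsV s ∨ IsV s.rL
  E : ∀ s : P.FSt, IsV s → rw s.stE.facet = rw s.facet
  N : ∀ s : P.FSt, IsU s → rw s.facet ≠ 0 → IsU s.stN ∧
    rw s.stN.facet = if rw s.facet = 5 then 0 else rw s.facet + 1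
  S : ∀ s : P.FSt, IsU s.stN → rw s.stN.facet ≠ 0 → IsU s ∧ rw s.facet + 1 = rw s.stN.facet
  comm : ∀ s : P.FSt, IsU s → (rw s.facet ≠ 0 ∨ rw s.stN.facet ≠ 0) → s.stE.stN = s.stN.stE

namespace Rows

variable (R : Rows P)

/-- rim states: north points into the band -/
def Rim (r : P.FSt) : Prop :=
  (IsU r ∧ R.rw r.facet = 1) ∨ (IsU r.r2 ∧ R.rw r.facet = 5)

/-- the rim state on the other side of the band -/
def far (r : P.FSt) : P.FSt := ((pN ^ 4) r).r2

/-- the facet of the junction at a rim state -/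
def jf (r : P.FSt) : P.Facet := (pN.symm r).facet

/-- constant on the junctions -/
def QJ (Q : P.Facet → Prop) : Prop :=
  ∀ s : P.FSt, R.rw s.facet = 0 → R.rw s.stE.facet = 0 → (Q s.facet ↔ Q s.stE.facet)

/-- The bands with `tr` form a spanning tree of the junctions. -/
structure Tree (tr : P.FSt → Prop) : Prop where
  conn : ∀ Q : P.Facet → Prop, R.QJ Q →
    (∀ r, R.Rim r → tr r → (Q (jf r) ↔ Q (jf (far r)))) →
    ∀ f g, R.rw f = 0 → R.rw g = 0 → (Q f ↔ Q g)
  sep : ∀ r₀, R.Rim r₀ → tr r₀ → ∃ S : P.Facet → Prop, R.QJ S ∧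
    (∀ r, R.Rim r → tr r → ¬ pE.SameCycle r₀ r → ¬ pE.SameCycle (far r₀) r →
      (S (jf r) ↔ S (jf (far r)))) ∧ ¬ (S (jf r₀) ↔ S (jf (far r₀)))

end Rows

open Classical in
/-- lane over the north side of the state `s` -/
noncomputable def wn (k : ℕ) (can : P.Facet → P.FSt) (la : P.Facet → ℕ → ℕ → Ln) (s : P.FSt)
    (x : ℕ) : Ln :=
  if can s.facet = s then la s.facet x k
  else if can s.facet = s.r2 then la s.facet (k - 1 - x) 0 else Ln.z

open Classical in
/-- strand over the north side of the state `s`, if the frame of its facet is turned by a right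
angle (row `y` counted from the east end) -/
noncomputable def wo (k : ℕ) (can : P.Facet → P.FSt) (pr : P.Facet → ℕ → ℕ → Bool) (s : P.FSt)
    (y : ℕ) : Bool :=
  if can s.facet = s.rL then pr s.facet k y
  else if can s.facet = s.rR then pr s.facet 0 (k - 1 - y) else false

/-- lit facets of the rims: on a tree rim `a, .., b - 3`, on the other rims all -/
def Lit (tr fa fb : P.FSt → Prop) (r : P.FSt) : Prop :=
  tr r → srch pE.symm fa r < srch pE.symm fb r ∧ 3 ≤ srch pE fb r

open Classical in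
/-- A junction certificate. -/
structure JC (P : GridSolid) (k : ℕ) extends Rows P where
  m : ℕ
  hm : 1 ≤ m
  hk : k = 2 * m + 1
  can : P.Facet → P.FSt
  can_facet : ∀ f, (can f).facet = f
  /-- strands over vertical unit edges (only the facets that are not core matter) -/
  pr : P.Facet → ℕ → ℕ → Bool
  /-- lanes over horizontal unit edges (only the facets that are not core matter) -/
  la : P.Facet → ℕ → ℕ → Ln
  ok : ∀ f, rw f = 0 → CellOk k (pr f) (la f)
  gN : ∀ f g, rw f = 0 → rw g = 0 → (can f).stN = can g → ∀ x < k, la f x k = la g x 0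
  gN' : ∀ f, rw f = 0 → rw (can f).stN.facet = 0 → (∀ g, (can f).stN ≠ can g) →
    ∀ x < k, la f x k = Ln.z
  gS' : ∀ g, rw g = 0 → rw (can g).r2.stN.facet = 0 → (∀ f, (can f).stN ≠ can g) →
    ∀ x < k, la g x 0 = Ln.z
  gE : ∀ f g, rw f = 0 → rw g = 0 → (can f).stE = can g → ∀ y < k, pr f k y = pr g 0 y
  gEr : ∀ f g, rw f = 0 → rw g = 0 → (can f).stE = (can g).r2 → ∀ y < k,
    pr f k y = pr g k (k - 1 - y)
  gWr : ∀ f g, rw f = 0 → rw g = 0 → (can f).r2.stE = can g → ∀ y < k,
    pr f 0 y = pr g 0 (k - 1 - y)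
  gE' : ∀ f, rw f = 0 → rw (can f).stE.facet = 0 →
    (∀ g, (can f).stE ≠ can g ∧ (can f).stE ≠ (can g).r2) → ∀ y < k, pr f k y = false
  gW' : ∀ f, rw f = 0 → rw (can f).r2.stE.facet = 0 →
    (∀ g, (can f).r2.stE ≠ can g ∧ (can f).r2.stE ≠ (can g).r2) → ∀ y < k, pr f 0 y = false
  /-- the tree bands -/
  tr : P.FSt → Prop
  tr_E : ∀ r, toRows.Rim r → (tr r.stE ↔ tr r)
  tr_far : ∀ r, toRows.Rim r → (tr (Rows.far r) ↔ tr r)
  /-- the rims that are met by the curve -/
  ac : P.FSt → Prop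
  ac_E : ∀ r, toRows.Rim r → (ac r.stE ↔ ac r)
  ac_tr : ∀ r, toRows.Rim r → tr r → ac r
  ac_far : ∀ r, toRows.Rim r → ac r ∨ ac (Rows.far r)
  /-- the facet of the foot `n` -/
  fa : P.FSt → Prop
  /-- the facet of the turned foot -/
  fb : P.FSt → Prop
  fa_ac : ∀ r, toRows.Rim r → fa r → ac r
  fa_ex : ∀ r, toRows.Rim r → ac r → ∃! a, pE.SameCycle r a ∧ fa a
  fb_ex : ∀ r, toRows.Rim r → tr r → ∃! b, pE.SameCycle r b ∧ fb b
  arc : ∀ r, toRows.Rim r → tr r → fa r → ∀ n ≤ 2, ¬ fb ((pE ^ n) r)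
  rn : ∀ r, toRows.Rim r → ∀ x < k, wn k can la (pN.symm r) x =
    if fa r ∧ x = 0 then Ln.n else if ¬ tr r ∧ fa r.stE ∧ x + 1 = k then Ln.s else Ln.z
  ro : ∀ r, toRows.Rim r → ∀ y < k, wo k can pr (pN.symm r) y = decide (tr r ∧ fb r ∧ y = m)
  /-- every line reaches a west port (`w = true`) and an east port (`w = false`) in a facet that
  is not core, or a lit rim facet -/
  cov : ∀ f, rw f = 0 → ∀ x < k, ∀ w : Bool, ∃ z : ℤ,
    (∀ y ∈ Set.uIcc 0 z, y ≠ z → ∃ g, rw g = 0 ∧ (pN ^ y) (can f) = can g) ∧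
    ((∃ g, rw g = 0 ∧ (pN ^ z) (can f) = can g ∧ ∃ y < k, pr g (if w then x else x + 1) y = true) ∨
     (0 < z ∧ toRows.Rim ((pN ^ z) (can f)) ∧ Lit tr fa fb ((pN ^ z) (can f))) ∨
     (z < 0 ∧ toRows.Rim ((pN ^ z) (can f)).r2 ∧ Lit tr fa fb ((pN ^ z) (can f)).r2))

namespace JC

variable {k : ℕ} (C : JC P k)

/-- the predicates are invariant in the junctions -/
structure Inv (ψ χ : P.Facet → ℕ → ℕ → Prop) : Prop where
  cell : ∀ f, C.rw f = 0 → CellRel k (C.pr f) (C.la f) (ψ f) (χ f)
  gN : ∀ f g, C.rw f = 0 → C.rw g = 0 → (C.can f).stN = C.can g → ∀ x < k, C.la f x k ≠ Ln.z →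
    (χ f x k ↔ χ g x 0)
  gE : ∀ f g, C.rw f = 0 → C.rw g = 0 → (C.can f).stE = C.can g → ∀ y < k, C.pr f k y = true →
    (ψ f k y ↔ ψ g 0 y)
  gEr : ∀ f g, C.rw f = 0 → C.rw g = 0 → (C.can f).stE = (C.can g).r2 → ∀ y < k,
    C.pr f k y = true → (ψ f k y ↔ ψ g k (k - 1 - y))
  gWr : ∀ f g, C.rw f = 0 → C.rw g = 0 → (C.can f).r2.stE = C.can g → ∀ y < k,
    C.pr f 0 y = true → (ψ f 0 y ↔ ψ g 0 (k - 1 - y))

open Classical in
/-- value of the lane over the north side of the state `s` in column `x` -/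
noncomputable def vn (χ : P.Facet → ℕ → ℕ → Prop) (s : P.FSt) (x : ℕ) : Prop :=
  if C.can s.facet = s then χ s.facet x k else χ s.facet (k - 1 - x) 0

open Classical in
/-- value of the turned strand over the middle of the north side of the state `s` -/
noncomputable def vo (ψ : P.Facet → ℕ → ℕ → Prop) (s : P.FSt) : Prop :=
  if C.can s.facet = s.rL then ψ s.facet k C.m else ψ s.facet 0 C.m

/-- the rims are closed up -/
structure Closed (ψ χ : P.Facet → ℕ → ℕ → Prop) : Prop where
  tree : ∀ a b, C.Rim a → C.tr a → pE.SameCycle a b → C.fa a → C.fb b →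
    (C.vn χ (pN.symm a) 0 ↔ C.vo ψ (pN.symm b))
  cut : ∀ r, C.Rim r → ¬ C.tr r → C.fa r.stE →
    (C.vn χ (pN.symm r.stE) 0 ↔ C.vn χ (pN.symm r) (k - 1))

/-- constant on the junctions -/
structure ConstJ (ψ χ : P.Facet → ℕ → ℕ → Prop) (Q : P.Facet → Prop) : Prop where
  adj : C.QJ Q
  ver : ∀ f x y, C.rw f = 0 → x ≤ k → y < k → C.pr f x y = true → (ψ f x y ↔ Q f)
  hor : ∀ f x y, C.rw f = 0 → x < k → y ≤ k → C.la f x y ≠ Ln.z → (χ f x y ↔ Q f)

/-- the closed-up junctions are closed curves -/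
def Conn : Prop := ∀ ψ χ, C.Inv ψ χ → C.Closed ψ χ → ∃ Q, C.ConstJ ψ χ Q

end JC

end Pool.Agent.MP42H
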