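import Pool.Agent.MP42.H.Core

/-!
# The state table of a certificate: the facets fit together
-/

set_option autoImplicit false
set_option linter.unusedSectionVars false

namespace Pool.Agent.MP42H

open Pool.Agent.Helper55.UNF Pool.Agent.Helper55.UNF.GridSolid Pool.Agent.MP42G

variable {P : GridSolid}

lemma Lo.len_far {R : Rows P} {r : P.FSt} (h : Lo R r) : len pE (Rows.far r) = len pE r := by
  have key : ∀ n, (pE ^ n) (Rows.far r) = Rows.far r ↔ (pE ^ n) r = r := by
    intro n
    rw [h.pow_far]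
    constructor
    · intro h1
      have h2 := far_inj h1
      have h3 := pow_cancel pE n r
      rw [h2] at h3
      exact h3
    · intro h1
      have h3 := pow_cancel' pE n r
      rw [h1] at h3
      rw [h3]
  unfold len
  apply Nat.dvd_antisymm
  · apply Function.IsPeriodicPt.minimalPeriod_dvd
    show (pE)^[_] _ = _
    rw [← pow_iter, key, pow_iter]
    exact Function.isPeriodicPt_minimalPeriod pE r
  · apply Function.IsPeriodicPt.minimalPeriod_dvd
    show (pE)^[_] _ = _
    rw [← pow_iter, ← key, pow_iter]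
    exact Function.isPeriodicPt_minimalPeriod pE (Rows.far r)

namespace JC

variable {k : ℕ} {C : JC P k} {r s : P.FSt}

lemma kpos (C : JC P k) : 0 < k := by have := C.hk; omega

/-! ## Positions of the feet -/

lemma fa_row1 (h : Lo C.toRows r) (ht : C.tr r) : C.fa r ↔ C.nn r = 0 := by
  obtain ⟨h1, h2, h3, h4, h5, h6, h7⟩ := bounds h ht
  have hb := bb_spec (C := C) h.rim ht
  have ha := aa_spec (C := C) h.rim (act_of h.rim ht)
  have e : C.nn r = cd (len pE r) (C.pp r) (C.al r) := by
    unfold nn; rw [h.rho, if_pos h.2]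
  have e2 : C.fa r ↔ C.pp r = C.al r := by
    rw [fa_iff h.rim (act_of h.rim ht)]
    constructor
    · intro h8
      unfold pp al
      rw [← h8]
    · intro h8
      exact dst_inj hb.1.symm (hb.1.symm.trans ha.1) h8
  rw [e2, e]
  unfold cd
  split_ifs <;> omega

lemma fb_row1 (h : Lo C.toRows r) (ht : C.tr r) : C.fb r ↔ C.nn r = C.uu r := by
  obtain ⟨h1, h2, h3, h4, h5, h6, h7⟩ := bounds h ht
  have hb := bb_spec (C := C) h.rim ht
  have e : C.nn r = cd (len pE r) (C.pp r) (C.al r) := by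
    unfold nn; rw [h.rho, if_pos h.2]
  have e1 : C.uu r = len pE r - C.al r := by
    unfold uu; rw [h.rho, if_pos h.2]
  have e2 : C.fb r ↔ C.pp r = 0 := by
    rw [fb_iff h.rim ht]
    constructor
    · intro h8
      unfold pp
      rw [← h8]
      exact dst_self r
    · intro h8
      have : (pE ^ C.pp r) (C.bb r) = r := dst_spec hb.1.symm
      rw [h8] at this
      exact this.symm
  rw [e2, e, e1]
  unfold cd
  split_ifs <;> omega

/-- the upper rim -/
lemma far_rho5 (h : CU C.toRows r) (h5 : C.rw r.facet = 5) :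
    Rows.far (rho C.toRows r) = r.r2 := by
  unfold Rows.far
  have := h.rho_up
  rw [h5] at this
  rw [this]

lemma rim5 (h : CU C.toRows r) (h5 : C.rw r.facet = 5) : C.Rim r.r2 :=
  Or.inr ⟨by rw [FSt.r2_r2]; exact h.1, by rw [FSt.facet_r2]; exact h5⟩

lemma tr5 (h : CU C.toRows r) (h5 : C.rw r.facet = 5) : C.tr r.r2 ↔ C.tr (rho C.toRows r) := by
  rw [← far_rho5 h h5]
  exact C.tr_far _ h.lo_rho.rim

lemma fa_row5 (h : CU C.toRows r) (h5 : C.rw r.facet = 5) (ht : C.tr (rho C.toRows r)) :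
    C.fa r.r2 ↔ C.nn r = C.tt r := by
  have hl := h.lo_rho
  obtain ⟨h1, h2, h3, h4, h5', h6, h7⟩ := bounds hl ht
  have e : C.nn r = cd (len pE (rho C.toRows r)) (C.pp (rho C.toRows r))
      (C.ta (rho C.toRows r)) := by
    unfold nn; rw [if_neg (by omega), if_neg (by omega)]
  have e1 : C.tt r = cd (len pE (rho C.toRows r)) (C.al' (rho C.toRows r))
      (C.ta (rho C.toRows r)) := by
    unfold tt; rw [if_neg (by omega), if_neg (by omega), if_pos h5]
  have hr' := hl.far_rim
  have ht' := far_tr hl ht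
  have hb := bb_spec (C := C) hl.rim ht
  have ha' := aa_spec (C := C) hr' (act_of hr' ht')
  have sX : pE.SameCycle (rho C.toRows r) (Rows.far (C.aa (Rows.far (rho C.toRows r)))) := by
    have := Rim.far_same hr' ha'.1
    rwa [hl.far_far] at this
  have e2 : C.fa r.r2 ↔ C.pp (rho C.toRows r) = C.al' (rho C.toRows r) := by
    rw [← far_rho5 h h5, fa_iff hr' (act_of hr' ht')]
    constructor
    · intro h8
      unfold pp al'
      rw [← h8, hl.far_far]
    · intro h8
      have := congrArg Rows.far (dst_inj hb.1.symm (hb.1.symm.trans sX) h8)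
      rwa [Rim.far_far (Rim.same hr' ha'.1)] at this
  rw [e2, e, e1]
  unfold cd
  split_ifs <;> omega

lemma fb_row5 (h : CU C.toRows r) (h5 : C.rw r.facet = 5) (ht : C.tr (rho C.toRows r)) :
    C.fb r.r2 ↔ C.nn r = C.vv r := by
  have hl := h.lo_rho
  obtain ⟨h1, h2, h3, h4, h5', h6, h7⟩ := bounds hl ht
  have e : C.nn r = cd (len pE (rho C.toRows r)) (C.pp (rho C.toRows r))
      (C.ta (rho C.toRows r)) := by
    unfold nn; rw [if_neg (by omega), if_neg (by omega)]
  have e1 : C.vv r = len pE (rho C.toRows r) - 1 := by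
    unfold vv; rw [if_neg (by omega)]
  have hr' := hl.far_rim
  have ht' := far_tr hl ht
  have hb := bb_spec (C := C) hl.rim ht
  have hb' := bb_spec (C := C) hr' ht'
  have hL : len pE (C.bb (rho C.toRows r)) = len pE (rho C.toRows r) := (len_same hb.1).symm
  have sY : pE.SameCycle (rho C.toRows r) (Rows.far (C.bb (Rows.far (rho C.toRows r)))) := by
    have := Rim.far_same hr' hb'.1
    rwa [hl.far_far] at this
  have sbY := hb.1.symm.trans sY
  have h9 : dst pE (C.bb (rho C.toRows r)) (Rows.far (C.bb (Rows.far (rho C.toRows r)))) <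
      len pE (rho C.toRows r) := by rw [← hL]; exact dst_lt sbY
  have h10 : C.ta (rho C.toRows r) =
      if dst pE (C.bb (rho C.toRows r)) (Rows.far (C.bb (Rows.far (rho C.toRows r)))) + 1 =
        len pE (rho C.toRows r) then 0
      else dst pE (C.bb (rho C.toRows r)) (Rows.far (C.bb (Rows.far (rho C.toRows r)))) + 1 := by
    unfold ta
    rw [← pE_apply, dst_step sbY, hL]
  have e2 : C.fb r.r2 ↔ C.pp (rho C.toRows r) =
      dst pE (C.bb (rho C.toRows r)) (Rows.far (C.bb (Rows.far (rho C.toRows r)))) := by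
    rw [← far_rho5 h h5, fb_iff hr' ht']
    constructor
    · intro h8
      unfold pp
      rw [← h8, hl.far_far]
    · intro h8
      have := congrArg Rows.far (dst_inj hb.1.symm sbY h8)
      rwa [Rim.far_far (Rim.same hr' hb'.1)] at this
  rw [e2, e, e1]
  unfold cd
  split_ifs at h10 ⊢ <;> omega

/-! cut rims -/

lemma na_lt (h : CU C.toRows r) (hc : C.ac (rho C.toRows r)) : C.na r < C.LL r := by
  have ha := aa_spec (C := C) h.lo_rho.rim hc
  unfold na LL
  rw [len_same ha.1]
  exact dst_lt ha.1.symm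

lemma na_E (h : CU C.toRows r) (hc : C.ac (rho C.toRows r)) :
    C.na r.stE = if C.na r + 1 = C.LL r then 0 else C.na r + 1 := by
  have hl := h.lo_rho
  have ha := aa_spec (C := C) hl.rim hc
  unfold na LL
  rw [h.rho_E, aa_same hl.rim hc (same_E _), ← pE_apply, dst_step ha.1.symm, len_same ha.1]

lemma na'_lt (h : CU C.toRows r) (hc : C.ac (Rows.far (rho C.toRows r))) : C.na' r < C.LL r := by
  have ha := aa_spec (C := C) h.lo_rho.far_rim hc
  unfold na' LL
  rw [← h.lo_rho.len_far, len_same ha.1]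
  exact dst_lt ha.1.symm

lemma LL_E (h : CU C.toRows r) : C.LL r.stE = C.LL r := by
  unfold LL
  rw [h.rho_E, len_E]

lemma ac_rho_E (h : CU C.toRows r) : C.ac (rho C.toRows r.stE) ↔ C.ac (rho C.toRows r) := by
  rw [h.rho_E]
  exact C.ac_E _ h.lo_rho.rim

lemma ac_far_E (h : CU C.toRows r) :
    C.ac (Rows.far (rho C.toRows r.stE)) ↔ C.ac (Rows.far (rho C.toRows r)) := by
  rw [h.rho_E]
  exact ac_same h.lo_rho.far_rim (h.lo_rho.far_same (same_E _))

lemma tr_rho_E (h : CU C.toRows r) : C.tr (rho C.toRows r.stE) ↔ C.tr (rho C.toRows r) := by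
  rw [h.rho_E]
  exact C.tr_E _ h.lo_rho.rim

lemma na'_E (h : CU C.toRows r) (hc : C.ac (Rows.far (rho C.toRows r))) :
    C.na' r = if C.na' r.stE + 1 = C.LL r then 0 else C.na' r.stE + 1 := by
  have hl := h.lo_rho
  have hl' := hl.stE
  have hc' : C.ac (Rows.far (rho C.toRows r).stE) := by
    have := (ac_far_E h).2 hc
    rwa [h.rho_E] at this
  have ha := aa_spec (C := C) hl'.far_rim hc'
  have e : Rows.far (rho C.toRows r) = pE (Rows.far (rho C.toRows r).stE) := by
    rw [hl.far_E, Equiv.apply_symm_apply]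
  unfold na' LL
  rw [h.rho_E]
  have e3 : C.aa (Rows.far (rho C.toRows r)) = C.aa (Rows.far (rho C.toRows r).stE) := by
    rw [e]
    exact aa_same hl'.far_rim hc' (same_E _)
  rw [e3]
  have e4 := dst_step (π := pE) ha.1.symm
  rw [← e] at e4
  rw [e4, ← len_same ha.1, hl'.len_far, len_E]

lemma fa_cut1 (h : Lo C.toRows r) (hc : C.ac r) : (C.fa r ↔ C.na r = 0) ∧
    (C.fa r.stE ↔ C.na r + 1 = C.LL r) := by
  have key : ∀ s, Lo C.toRows s → C.ac s → (C.fa s ↔ C.na s = 0) := by
    intro s hs hc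
    have ha := aa_spec (C := C) hs.rim hc
    rw [fa_iff hs.rim hc]
    unfold na
    rw [hs.rho]
    constructor
    · intro h8
      rw [← h8]
      exact dst_self s
    · intro h8
      have : (pE ^ dst pE (C.aa s) s) (C.aa s) = s := dst_spec ha.1.symm
      rw [h8] at this
      exact this.symm
  refine ⟨key r h hc, ?_⟩
  rw [key _ h.stE ((C.ac_E _ h.rim).2 hc), na_E h.CU (by rw [h.rho]; exact hc)]
  by_cases h8 : C.na r + 1 = C.LL r
  · rw [if_pos h8]; exact ⟨fun _ => h8, fun _ => rfl⟩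
  · rw [if_neg h8]; exact ⟨fun h => absurd h (by omega), fun h => absurd h h8⟩

lemma fa_cut5 (h : CU C.toRows r) (h5 : C.rw r.facet = 5) (hc : C.ac r.r2) :
    (C.fa r.r2 ↔ C.na' r = 0) ∧ (C.fa r.r2.stE ↔ C.na' r + 1 = C.LL r) := by
  have key : ∀ s, CU C.toRows s → C.rw s.facet = 5 → C.ac s.r2 → (C.fa s.r2 ↔ C.na' s = 0) := by
    intro s hs h5 hc
    have ha := aa_spec (C := C) (rim5 hs h5) hc
    rw [fa_iff (rim5 hs h5) hc]
    unfold na'
    rw [far_rho5 hs h5]
    constructor
    · intro h8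
      rw [← h8]
      exact dst_self _
    · intro h8
      have : (pE ^ dst pE (C.aa s.r2) s.r2) (C.aa s.r2) = s.r2 := dst_spec ha.1.symm
      rw [h8] at this
      exact this.symm
  refine ⟨key r h h5 hc, ?_⟩
  obtain ⟨t, rfl⟩ : ∃ t : P.FSt, t.stE = r := ⟨pE.symm r, by simp⟩
  have ht : CU C.toRows t := by
    have := h.W; rw [pE_s] at this; exact this.1
  have ht5 : C.rw t.facet = 5 := by rw [← ht.stE.2]; exact h5
  have hct : C.ac t.r2 := by
    have h1 : C.ac (Rows.far (rho C.toRows t.stE)) := by rw [far_rho5 h h5]; exact hc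
    have h2 := (ac_far_E ht).1 h1
    rwa [far_rho5 ht ht5] at h2
  rw [FSt.stE_inv, key t ht ht5 hct, LL_E ht, na'_E ht (by rw [far_rho5 ht ht5]; exact hct)]
  by_cases h8 : C.na' t.stE + 1 = C.LL t
  · rw [if_pos h8]; exact ⟨fun _ => h8, fun _ => rfl⟩
  · rw [if_neg h8]; exact ⟨fun h => absurd h (by omega), fun h => absurd h h8⟩

/-! ## The sides -/

open Classical in
/-- the strands over the east side of `s` -/
noncomputable def EV (C : JC P k) (s : P.FSt) (y : ℕ) : Bool :=
  if Act C.canF s then C.PR s k y else false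

open Classical in
/-- the lanes over the north side of `s` -/
noncomputable def NV (C : JC P k) (s : P.FSt) (x : ℕ) : Ln :=
  if Act C.canF s then C.LA s x k else Ln.z

lemma PR_rot {s : P.FSt} (h : Act C.canF s) {x y : ℕ} (hx : x ≤ k) (hy : y < k) :
    C.PR s.r2 x y = C.PR s (k - x) (k - 1 - y) := by
  by_cases h0 : C.rw s.facet = 0
  · rcases (act_J h0).1 h with h1 | h1
    · rw [PR_J h0 h1, PR_J2 (by rw [FSt.facet_r2]; exact h0) (by rw [FSt.facet_r2, FSt.r2_r2, h1]),
        FSt.facet_r2]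
    · rw [PR_J2 h0 h1, PR_J (by rw [FSt.facet_r2]; exact h0) (by rw [FSt.facet_r2, h1]),
        FSt.facet_r2]
      congr 1 <;> omega
  · obtain ⟨r, hr, -, rfl | rfl | rfl | rfl⟩ := ex_up (C := C) h0
    · rw [PR_r2 hr, PR_r hr]
    · rw [FSt.r2_r2, PR_r2 hr, PR_r hr]
      congr 1 <;> omega
    · rw [FSt.rL_r2, PR_rR hr, PR_rL hr]
    · rw [FSt.rR_r2, PR_rR hr, PR_rL hr]
      congr 1 <;> omega

lemma LA_rot {s : P.FSt} (h : Act C.canF s) {x y : ℕ} (hx : x < k) (hy : y ≤ k) :
    C.LA s.r2 x y = C.LA s (k - 1 - x) (k - y) := by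
  by_cases h0 : C.rw s.facet = 0
  · rcases (act_J h0).1 h with h1 | h1
    · rw [LA_J h0 h1, LA_J2 (by rw [FSt.facet_r2]; exact h0) (by rw [FSt.facet_r2, FSt.r2_r2, h1]),
        FSt.facet_r2]
    · rw [LA_J2 h0 h1, LA_J (by rw [FSt.facet_r2]; exact h0) (by rw [FSt.facet_r2, h1]),
        FSt.facet_r2]
      congr 1 <;> omega
  · obtain ⟨r, hr, -, rfl | rfl | rfl | rfl⟩ := ex_up (C := C) h0
    · rw [LA_r2 hr, LA_r hr]
    · rw [FSt.r2_r2, LA_r2 hr, LA_r hr]
      congr 1 <;> omega
    · rw [FSt.rL_r2, LA_rR hr, LA_rL hr]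
    · rw [FSt.rR_r2, LA_rR hr, LA_rL hr]
      congr 1 <;> omega

/-- the strands over the west side of `s` -/
lemma EV_r2 {s : P.FSt} {y : ℕ} (hy : y < k) :
    C.EV s.r2 (k - 1 - y) = (by classical exact if Act C.canF s then C.PR s 0 y else false) := by
  classical
  unfold EV
  by_cases h : Act C.canF s
  · rw [if_pos ((act_r2_iff' _ _).2 h), if_pos h, PR_rot h le_rfl (by omega), Nat.sub_self,
      show k - 1 - (k - 1 - y) = y by omega]
  · rw [if_neg (fun h' => h ((act_r2_iff' _ _).1 h')), if_neg h]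

/-- the lanes over the south side of `s` -/
lemma NV_r2 {s : P.FSt} {x : ℕ} (hx : x < k) :
    C.NV s.r2 (k - 1 - x) = (by classical exact if Act C.canF s then C.LA s x 0 else Ln.z) := by
  classical
  unfold NV
  by_cases h : Act C.canF s
  · rw [if_pos ((act_r2_iff' _ _).2 h), if_pos h, LA_rot h (by omega) le_rfl, Nat.sub_self,
      show k - 1 - (k - 1 - x) = x by omega]
  · rw [if_neg (fun h' => h ((act_r2_iff' _ _).1 h')), if_neg h]

end JC

end Pool.Agent.MP42H
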