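import Pool.Agent.MP42.H.Glue

/-!
# The state table of a certificate: the sides of the core facets
-/

set_option autoImplicit false
set_option linter.unusedSectionVars false

namespace Pool.Agent.MP42H

open Pool.Agent.Helper55.UNF Pool.Agent.Helper55.UNF.GridSolid Pool.Agent.MP42G

variable {P : GridSolid}

namespace JC

variable {k : ℕ} {C : JC P k} {r s : P.FSt}

lemma bool_eq_iff {a b : Bool} (h : a = true ↔ b = true) : a = b := by
  cases a <;> cases b <;> simp_all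

/-! ## Tree bands -/

section Tree

variable (h : CU C.toRows r) (ht : C.tr (rho C.toRows r))

include h ht

lemma YY_tree : C.YY r ↔ C.nn r ≤ C.tt r := ⟨fun h1 => h1 ht, fun h1 _ => h1⟩

lemma EV_r_tree {y : ℕ} : C.EV r y = true ↔ y = C.m ∧ C.nn r < C.tt r := by
  have hk := C.hk
  have hm := C.hm
  unfold EV
  by_cases h1 : C.nn r ≤ C.tt r
  · rw [if_pos ((act_r h).2 ((YY_tree h ht).2 h1)), PR_r h]
    unfold TY
    rw [if_pos ht, YP_true]
    unfold ci co
    constructor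
    · rintro ⟨h2, h3, h4⟩
      refine ⟨h2, ?_⟩
      rcases Nat.lt_or_ge (C.nn r) (C.tt r) with h5 | h5
      · exact h5
      · exfalso
        have := h4 (by omega)
        split_ifs at this <;> omega
    · rintro ⟨h2, h3⟩
      refine ⟨h2, ?_, by omega⟩
      intro _
      split_ifs <;> omega
  · rw [if_neg (fun h' => h1 ((YY_tree h ht).1 ((act_r h).1 h')))]
    constructor
    · intro h2; exact absurd h2 (by simp)
    · rintro ⟨_, h3⟩; omega

lemma EV_r2_tree {y : ℕ} (hy : y < k) :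
    C.EV r.r2 y = true ↔ y = C.m ∧ 0 < C.nn r ∧ C.nn r ≤ C.tt r := by
  have hk := C.hk
  have hm := C.hm
  unfold EV
  by_cases h1 : C.nn r ≤ C.tt r
  · rw [if_pos ((act_r2 h).2 ((YY_tree h ht).2 h1)), PR_r2 h]
    unfold TY
    rw [if_pos ht, YP_true]
    unfold ci co
    constructor
    · rintro ⟨h2, h3, h4⟩
      refine ⟨by omega, ?_, h1⟩
      rcases Nat.eq_zero_or_pos (C.nn r) with h5 | h5
      · exfalso
        have := h3 h5
        omega
      · exact h5
    · rintro ⟨h2, h3, h4⟩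
      refine ⟨by omega, by omega, ?_⟩
      intro _
      omega
  · rw [if_neg (fun h' => h1 ((YY_tree h ht).1 ((act_r2 h).1 h')))]
    constructor
    · intro h2; exact absurd h2 (by simp)
    · rintro ⟨_, _, h3⟩; omega

lemma EV_rL_tree {y : ℕ} : C.EV r.rL y = true ↔ y = C.m ∧ C.nn r = C.vv r := by
  have hk := C.hk
  have hm := C.hm
  obtain ⟨o1, o2, o3, o4⟩ := order h ht
  unfold EV
  by_cases h1 : C.nn r ≤ C.tt r
  · rw [if_neg (fun h' => (act_rL h).1 h' ((YY_tree h ht).2 h1))]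
    constructor
    · intro h2; exact absurd h2 (by simp)
    · rintro ⟨_, h3⟩; omega
  · rw [if_pos ((act_rL h).2 (fun h' => h1 ((YY_tree h ht).1 h'))), PR_rL h]
    unfold TX
    rw [XP_true]
    omega

lemma EV_rR_tree {y : ℕ} (hy : y < k) : C.EV r.rR y = true ↔ y = C.m ∧ C.nn r = C.uu r := by
  have hk := C.hk
  have hm := C.hm
  obtain ⟨o1, o2, o3, o4⟩ := order h ht
  unfold EV
  by_cases h1 : C.nn r ≤ C.tt r
  · rw [if_neg (fun h' => (act_rR h).1 h' ((YY_tree h ht).2 h1))]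
    constructor
    · intro h2; exact absurd h2 (by simp)
    · rintro ⟨_, h3⟩; omega
  · rw [if_pos ((act_rR h).2 (fun h' => h1 ((YY_tree h ht).1 h'))), PR_rR h]
    unfold TX
    rw [XP_true]
    omega

open Classical in
lemma NV_r_tree {x : ℕ} : C.NV r x = if C.nn r = C.tt r ∧ x = C.co r then Ln.n else Ln.z := by
  have hk := C.hk
  have hm := C.hm
  unfold NV
  by_cases h1 : C.nn r ≤ C.tt r
  · rw [if_pos ((act_r h).2 ((YY_tree h ht).2 h1)), LA_r h]
    unfold LY YL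
    rw [if_pos ht]
    by_cases h2 : C.nn r = C.tt r ∧ x = C.co r
    · rw [if_pos h2, if_pos (Or.inr ⟨h2.1, h2.2, by omega⟩)]
    · rw [if_neg h2, if_neg]
      rintro (h3 | h3)
      · omega
      · exact h2 ⟨h3.1, h3.2.1⟩
  · rw [if_neg (fun h' => h1 ((YY_tree h ht).1 ((act_r h).1 h'))), if_neg (by omega)]

open Classical in
lemma NV_r2_tree {x : ℕ} (hx : x < k) :
    C.NV r.r2 x = if C.nn r = 0 ∧ k - 1 - x = C.ci r then Ln.n else Ln.z := by
  have hk := C.hk
  have hm := C.hm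
  unfold NV
  by_cases h1 : C.nn r ≤ C.tt r
  · rw [if_pos ((act_r2 h).2 ((YY_tree h ht).2 h1)), LA_r2 h, Nat.sub_self]
    unfold LY YL
    rw [if_pos ht]
    by_cases h2 : C.nn r = 0 ∧ k - 1 - x = C.ci r
    · rw [if_pos h2, if_pos (Or.inl ⟨h2.1, h2.2, Nat.zero_le _⟩)]
    · rw [if_neg h2, if_neg]
      rintro (h3 | h3)
      · exact h2 ⟨h3.1, h3.2.1⟩
      · omega
  · rw [if_neg (fun h' => h1 ((YY_tree h ht).1 ((act_r2 h).1 h'))), if_neg (by omega)]

open Classical in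
lemma NV_rL_tree {x : ℕ} : C.NV r.rL x =
    if x = C.m ∧ C.uu r < C.nn r ∧ C.nn r ≤ C.vv r then Ln.s else Ln.z := by
  have hk := C.hk
  have hm := C.hm
  obtain ⟨o1, o2, o3, o4⟩ := order h ht
  unfold NV
  by_cases h1 : C.nn r ≤ C.tt r
  · rw [if_neg (fun h' => (act_rL h).1 h' ((YY_tree h ht).2 h1)), if_neg (by omega)]
  · rw [if_pos ((act_rL h).2 (fun h' => h1 ((YY_tree h ht).1 h'))), LA_rL h]
    unfold LX XL
    by_cases h2 : x = C.m ∧ C.uu r < C.nn r ∧ C.nn r ≤ C.vv r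
    · rw [if_pos h2, if_pos (by omega)]
    · rw [if_neg h2, if_neg (by omega)]

open Classical in
lemma NV_rR_tree {x : ℕ} (hx : x < k) : C.NV r.rR x =
    if x = C.m ∧ C.uu r ≤ C.nn r ∧ C.nn r < C.vv r then Ln.s else Ln.z := by
  have hk := C.hk
  have hm := C.hm
  obtain ⟨o1, o2, o3, o4⟩ := order h ht
  unfold NV
  by_cases h1 : C.nn r ≤ C.tt r
  · rw [if_neg (fun h' => (act_rR h).1 h' ((YY_tree h ht).2 h1)), if_neg (by omega)]
  · rw [if_pos ((act_rR h).2 (fun h' => h1 ((YY_tree h ht).1 h'))), LA_rR h, Nat.sub_self]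
    unfold LX XL
    by_cases h2 : x = C.m ∧ C.uu r ≤ C.nn r ∧ C.nn r < C.vv r
    · rw [if_pos h2, if_pos (by omega)]
    · rw [if_neg h2, if_neg (by omega)]

end Tree

/-! ## Cut bands -/

section Cut

variable (h : CU C.toRows r) (ht : ¬ C.tr (rho C.toRows r))

include h ht

lemma YY_cut : C.YY r := fun h1 => absurd h1 ht

lemma EV_r_cut {y : ℕ} (hy : y < k) : C.EV r y = true ↔ y = C.m ∧
    ((C.rw r.facet = 1 ∧ C.ac (rho C.toRows r) ∧ C.na r + 1 ≠ C.LL r) ∨
     (C.rw r.facet = 5 ∧ C.ac (Rows.far (rho C.toRows r)) ∧ C.na' r ≠ 0)) := by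
  have hk := C.hk
  have hm := C.hm
  unfold EV
  rw [if_pos ((act_r h).2 (YY_cut h ht)), PR_r h]
  unfold TY
  rw [if_neg ht]
  by_cases h1 : C.rw r.facet = 1 ∧ C.ac (rho C.toRows r)
  · rw [if_pos h1, CP_true]
    constructor
    · rintro ⟨h2, h3, h4⟩
      exact ⟨h2, Or.inl ⟨h1.1, h1.2, by omega⟩⟩
    · rintro ⟨h2, h3 | h3⟩
      · exact ⟨h2, by omega, by omega⟩
      · omega
  · rw [if_neg h1]
    by_cases h5 : C.rw r.facet = 5 ∧ C.ac (Rows.far (rho C.toRows r))
    · rw [if_pos h5, CP_true]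
      constructor
      · rintro ⟨h2, h3, h4⟩
        exact ⟨by omega, Or.inr ⟨h5.1, h5.2, by omega⟩⟩
      · rintro ⟨h2, h3 | h3⟩
        · omega
        · exact ⟨by omega, by omega, by omega⟩
    · rw [if_neg h5]
      constructor
      · intro h2; exact absurd h2 (by simp)
      · rintro ⟨h2, h3 | h3⟩
        · exact absurd ⟨h3.1, h3.2.1⟩ h1
        · exact absurd ⟨h3.1, h3.2.1⟩ h5

lemma EV_r2_cut {y : ℕ} (hy : y < k) : C.EV r.r2 y = true ↔ y = C.m ∧
    ((C.rw r.facet = 1 ∧ C.ac (rho C.toRows r) ∧ C.na r ≠ 0) ∨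
     (C.rw r.facet = 5 ∧ C.ac (Rows.far (rho C.toRows r)) ∧ C.na' r + 1 ≠ C.LL r)) := by
  have hk := C.hk
  have hm := C.hm
  unfold EV
  rw [if_pos ((act_r2 h).2 (YY_cut h ht)), PR_r2 h]
  unfold TY
  rw [if_neg ht]
  by_cases h1 : C.rw r.facet = 1 ∧ C.ac (rho C.toRows r)
  · rw [if_pos h1, CP_true]
    constructor
    · rintro ⟨h2, h3, h4⟩
      exact ⟨by omega, Or.inl ⟨h1.1, h1.2, by omega⟩⟩
    · rintro ⟨h2, h3 | h3⟩
      · exact ⟨by omega, by omega, by omega⟩
      · omega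
  · rw [if_neg h1]
    by_cases h5 : C.rw r.facet = 5 ∧ C.ac (Rows.far (rho C.toRows r))
    · rw [if_pos h5, CP_true]
      constructor
      · rintro ⟨h2, h3, h4⟩
        exact ⟨by omega, Or.inr ⟨h5.1, h5.2, by omega⟩⟩
      · rintro ⟨h2, h3 | h3⟩
        · omega
        · exact ⟨by omega, by omega, by omega⟩
    · rw [if_neg h5]
      constructor
      · intro h2; exact absurd h2 (by simp)
      · rintro ⟨h2, h3 | h3⟩
        · exact absurd ⟨h3.1, h3.2.1⟩ h1
        · exact absurd ⟨h3.1, h3.2.1⟩ h5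

lemma EV_rL_cut {y : ℕ} : C.EV r.rL y = false := by
  unfold EV
  rw [if_neg (fun h' => (act_rL h).1 h' (YY_cut h ht))]

lemma EV_rR_cut {y : ℕ} : C.EV r.rR y = false := by
  unfold EV
  rw [if_neg (fun h' => (act_rR h).1 h' (YY_cut h ht))]

lemma NV_rL_cut {x : ℕ} : C.NV r.rL x = Ln.z := by
  unfold NV
  rw [if_neg (fun h' => (act_rL h).1 h' (YY_cut h ht))]

lemma NV_rR_cut {x : ℕ} : C.NV r.rR x = Ln.z := by
  unfold NV
  rw [if_neg (fun h' => (act_rR h).1 h' (YY_cut h ht))]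

open Classical in
lemma NV_r_cut {x : ℕ} (hx : x < k) : C.NV r x =
    if C.rw r.facet = 5 ∧ C.ac (Rows.far (rho C.toRows r)) then
      CL C.m k (C.na' r) (C.LL r) (k - 1 - x) 0 else Ln.z := by
  have hk := C.hk
  have hm := C.hm
  unfold NV
  rw [if_pos ((act_r h).2 (YY_cut h ht)), LA_r h]
  unfold LY
  rw [if_neg ht]
  by_cases h1 : C.rw r.facet = 1 ∧ C.ac (rho C.toRows r)
  · rw [if_pos h1, if_neg (by omega)]
    unfold CL
    rw [if_neg (by omega), if_neg (by omega)]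
  · rw [if_neg h1, Nat.sub_self]

open Classical in
lemma NV_r2_cut {x : ℕ} (hx : x < k) : C.NV r.r2 x =
    if C.rw r.facet = 1 ∧ C.ac (rho C.toRows r) then
      CL C.m k (C.na r) (C.LL r) (k - 1 - x) 0 else Ln.z := by
  have hk := C.hk
  have hm := C.hm
  unfold NV
  rw [if_pos ((act_r2 h).2 (YY_cut h ht)), LA_r2 h, Nat.sub_self]
  unfold LY
  rw [if_neg ht]
  by_cases h1 : C.rw r.facet = 1 ∧ C.ac (rho C.toRows r)
  · rw [if_pos h1, if_pos h1]
  · rw [if_neg h1, if_neg h1]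
    split_ifs with h5
    · unfold CL
      rw [if_neg (by omega), if_neg (by omega)]
    · rfl

end Cut

/-! ## Facets of the junctions -/

lemma EV_J {q : P.FSt} (h : C.rw q.facet = 0) {y : ℕ} : C.EV q.rL y = wo k C.can C.pr q y := by
  unfold EV wo
  have h0 : C.rw q.rL.facet = 0 := by rw [FSt.facet_rL]; exact h
  by_cases h1 : C.can q.facet = q.rL
  · rw [if_pos ((act_J h0).2 (Or.inl (by rw [FSt.facet_rL]; exact h1))), if_pos h1,
      PR_J h0 (by rw [FSt.facet_rL]; exact h1), FSt.facet_rL]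
  · rw [if_neg h1]
    by_cases h2 : C.can q.facet = q.rR
    · rw [if_pos ((act_J h0).2 (Or.inr (by rw [FSt.facet_rL, FSt.rL_r2]; exact h2))), if_pos h2,
        PR_J2 h0 (by rw [FSt.facet_rL, FSt.rL_r2]; exact h2), FSt.facet_rL, Nat.sub_self]
    · rw [if_neg h2, if_neg]
      rw [act_J h0, FSt.facet_rL, FSt.rL_r2]
      rintro (h3 | h3)
      · exact h1 h3
      · exact h2 h3

lemma NV_J {q : P.FSt} (h : C.rw q.facet = 0) {x : ℕ} : C.NV q x = wn k C.can C.la q x := by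
  unfold NV wn
  by_cases h1 : C.can q.facet = q
  · rw [if_pos ((act_J h).2 (Or.inl h1)), if_pos h1, LA_J h h1]
  · rw [if_neg h1]
    by_cases h2 : C.can q.facet = q.r2
    · rw [if_pos ((act_J h).2 (Or.inr h2)), if_pos h2, LA_J2 h h2, Nat.sub_self]
    · rw [if_neg h2, if_neg]
      rw [act_J h]
      rintro (h3 | h3)
      · exact h1 h3
      · exact h2 h3

end JC

end Pool.Agent.MP42H
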