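import Pool.Agent.MP42.H.ConR
import Pool.Agent.MP42.H.RowsR
import Pool.Agent.MP42.H.TreeEx
import Pool.Agent.MP42.H.Refine

/-!
# Q1 from junction certificates

`JL` is the only open input: after a bounded refinement every orthogonal polyhedron has, for every
spanning tree of its bands, a junction certificate (`JC`) whose closed-up junctions are single
closed curves.  `q1_of_JL` is Q1 of the problem with this hypothesis.
-/

set_option autoImplicit false
set_option linter.unusedSectionVars false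

namespace Pool.Agent.MP42H

open Pool.Agent.Helper55.UNF Pool.Agent.Helper55.UNF.GridSolid Pool.Agent.MP42G

/-- The junction lemma, with the constants: refinement `r`, first core row `j`, table size `k`. -/
def JLC (r j k : ℕ) (hr : 0 < r) (hj : 1 ≤ j) (hj2 : j + 6 ≤ r) (P : GridSolid) : Prop :=
  ∀ tr : (P.refine r hr).FSt → Prop,
    (∀ s, (rowsR P r j hr hj hj2).Rim s → (tr s.stE ↔ tr s)) →
    (∀ s, (rowsR P r j hr hj hj2).Rim s → (tr (Rows.far s) ↔ tr s)) →
    (rowsR P r j hr hj hj2).Tree tr →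
    ∃ C : JC (P.refine r hr) k, C.toRows = rowsR P r j hr hj hj2 ∧ C.tr = tr ∧ C.Conn

/-- The junction lemma. -/
def JL : Prop := ∃ (r j k : ℕ) (hr : 0 < r) (hj : 1 ≤ j) (hj2 : j + 6 ≤ r),
  ∀ P : GridSolid, P.IsOrthogonalPolyhedron → JLC r j k hr hj hj2 P

/-- A junction certificate of `P.refine r` gives an edge unfolding of `P.refine (r * (5 * k))`. -/
theorem unfolding_of_cert {P : GridSolid} (hP : P.IsOrthogonalPolyhedron) {r k : ℕ} (hr : 0 < r)
    (C : JC (P.refine r hr) k) (hT : C.Tree C.tr) (hC : C.Conn)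
    (hK : 0 < r * (5 * k)) : (P.refine (r * (5 * k)) hK).HasEdgeUnfolding := by
  have hk : 0 < 5 * k := by have := C.kpos; omega
  have h1 := C.hasEdgeUnfolding (connected_refine hP hr).nonempty hT hC hk
  rw [refine_refine] at h1
  exact h1

theorem unfolding_of_JLC {P : GridSolid} (hP : P.IsOrthogonalPolyhedron) {r j k : ℕ} (hr : 0 < r)
    (hj : 1 ≤ j) (hj2 : j + 6 ≤ r) (h : JLC r j k hr hj hj2 P) :
    ∃ hK : 0 < r * (5 * k), (P.refine (r * (5 * k)) hK).HasEdgeUnfolding := by
  obtain ⟨tr, h1, h2, h3⟩ :=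
    Rows.exists_tree (rowsR P r j hr hj hj2) (isOrthogonal_refine hP hr)
  obtain ⟨C, hC1, hC2, hC3⟩ := h tr h1 h2 h3
  have hK : 0 < r * (5 * k) := by
    have := C.kpos
    exact Nat.mul_pos hr (by omega)
  refine ⟨hK, unfolding_of_cert hP hr C ?_ hC3 hK⟩
  rw [hC1, hC2]
  exact h3

/-- **Q1 from the junction lemma.** -/
theorem q1_of_JL (h : JL) : ∃ (K : ℕ) (hK : 0 < K), ∀ P : GridSolid, P.IsOrthogonalPolyhedron →
    (P.refine K hK).HasEdgeUnfolding := by
  obtain ⟨r, j, k, hr, hj, hj2, hJ⟩ := h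
  by_cases hk : 0 < r * (5 * k)
  · refine ⟨r * (5 * k), hk, fun P hP => ?_⟩
    obtain ⟨_, h1⟩ := unfolding_of_JLC hP hr hj hj2 (hJ P hP)
    exact h1
  · -- then there is no certificate at all, so there is no orthogonal polyhedron (this does not occur)
    refine ⟨1, one_pos, fun P hP => ?_⟩
    obtain ⟨h1, _⟩ := unfolding_of_JLC hP hr hj hj2 (hJ P hP)
    exact absurd h1 hk

end Pool.Agent.MP42H
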