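import Pool.Agent.MP42.H.Rows

/-!
# Positions of the feet and of the strands in the rows of a band
-/

set_option autoImplicit false
set_option linter.unusedSectionVars false

namespace Pool.Agent.MP42H

open Pool.Agent.Helper55.UNF Pool.Agent.Helper55.UNF.GridSolid Pool.Agent.MP42G

section Perm

variable {X : Type*} [Finite X] {π : Equiv.Perm X}

lemma srch_fwd {q : X → Prop} {r x0 : X} (h : π.SameCycle r x0) (h0 : q x0)
    (hu : ∀ z, π.SameCycle r z → q z → z = x0) : srch π q r = dst π r x0 := by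
  apply le_antisymm
  · exact Nat.sInf_le (s := {j : ℕ | q ((π ^ j) r)}) (by rw [Set.mem_ofPred_eq, dst_spec h]; exact h0)
  · have h1 : q ((π ^ srch π q r) r) := srch_spec ⟨_, by rw [dst_spec h]; exact h0⟩
    exact Nat.sInf_le (s := {j : ℕ | (π ^ j) r = x0})
      (hu _ ⟨_, by rw [zpow_natCast]⟩ h1)

lemma srch_bwd {q : X → Prop} {r x0 : X} (h : π.SameCycle r x0) (h0 : q x0)
    (hu : ∀ z, π.SameCycle r z → q z → z = x0) : srch π.symm q r = dst π x0 r := by
  have key : ∀ j : ℕ, (π.symm ^ j) r = x0 ↔ (π ^ j) x0 = r := by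
    intro j
    constructor
    · rintro rfl; exact pow_cancel π j r
    · rintro rfl; exact pow_cancel' π j x0
  have hs : ∀ j : ℕ, π.SameCycle r ((π.symm ^ j) r) := by
    intro j
    exact (same_of_eq (pow_cancel π j r)).symm
  apply le_antisymm
  · refine Nat.sInf_le (s := {j : ℕ | q ((π.symm ^ j) r)}) ?_
    rw [Set.mem_ofPred_eq, (key _).2 (dst_spec h.symm)]
    exact h0
  · have h1 : q ((π.symm ^ srch π.symm q r) r) := srch_spec ⟨dst π x0 r, by
      rw [(key _).2 (dst_spec h.symm)]; exact h0⟩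
    exact Nat.sInf_le (s := {j : ℕ | (π ^ j) x0 = r}) ((key _).1 (hu _ (hs _) h1))

lemma dst_cd {b x y : X} (hx : π.SameCycle b x) (hy : π.SameCycle b y) :
    dst π y x = cd (len π b) (dst π b x) (dst π b y) := by
  have h1 := dst_lt hx
  have h2 := dst_lt hy
  have hl : len π y = len π b := (len_same hy).symm
  have e : ∀ m : ℕ, (π ^ m) y = (π ^ (m + dst π b y)) b := by
    intro m
    rw [pow_add, Equiv.Perm.mul_apply, dst_spec hy]
  apply dst_eq
  · unfold cd; rw [hl]; split_ifs <;> omega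
  · unfold cd
    split_ifs with h
    · rw [e, Nat.sub_add_cancel h, dst_spec hx]
    · rw [e, show dst π b x + len π b - dst π b y + dst π b y = dst π b x + len π b by omega,
        pow_add, Equiv.Perm.mul_apply, pow_len, dst_spec hx]

end Perm

variable {P : GridSolid}

lemma Rim.far_same {R : Rows P} {r s : P.FSt} (h : R.Rim r) (hs : pE.SameCycle r s) :
    pE.SameCycle (Rows.far r) (Rows.far s) := by
  rcases rim_cases h with h | ⟨t, h1, h2, h3⟩
  · exact h.far_same hs
  · obtain ⟨n, rfl⟩ := hs.exists_nat_pow_eq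
    rw [h3, h2]
    have h4 := h1.same (same_symm_pow t n)
    have h5 := h4.far_pow n
    rw [pow_cancel] at h5
    rw [h5, pow_cancel, h4.far_far]
    exact same_symm_pow t n

lemma Lo.pow_far {R : Rows P} {r : P.FSt} (h : Lo R r) (n : ℕ) :
    (pE ^ n) (Rows.far r) = Rows.far ((pE.symm ^ n) r) := by
  have h4 := h.same (same_symm_pow r n)
  have h5 := h4.far_pow n
  rw [pow_cancel] at h5
  rw [h5, pow_cancel]

namespace JC

variable {k : ℕ} (C : JC P k)

open Classical in
/-- the facet of the foot `n` on the rim -/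
noncomputable def aa (r : P.FSt) : P.FSt :=
  if h : C.Rim r ∧ C.ac r then (C.fa_ex r h.1 h.2).choose else r

open Classical in
/-- the facet of the turned foot on the rim -/
noncomputable def bb (r : P.FSt) : P.FSt :=
  if h : C.Rim r ∧ C.tr r then (C.fb_ex r h.1 h.2).choose else r

variable {C} {r s : P.FSt}

lemma aa_spec (h : C.Rim r) (ha : C.ac r) : pE.SameCycle r (C.aa r) ∧ C.fa (C.aa r) := by
  unfold aa
  rw [dif_pos ⟨h, ha⟩]
  exact (C.fa_ex r h ha).choose_spec.1

lemma aa_uniq (h : C.Rim r) (ha : C.ac r) (h1 : pE.SameCycle r s) (h2 : C.fa s) :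
    s = C.aa r := by
  unfold aa
  rw [dif_pos ⟨h, ha⟩]
  exact (C.fa_ex r h ha).choose_spec.2 s ⟨h1, h2⟩

lemma ac_pow (h : C.Rim r) (n : ℕ) : C.ac ((pE ^ n) r) ↔ C.ac r := by
  induction n with
  | zero => exact Iff.rfl
  | succ n ih =>
    rw [pow_succ', Equiv.Perm.mul_apply, pE_apply, C.ac_E _ (Rim.pow h n), ih]

lemma ac_same (h : C.Rim r) (h1 : pE.SameCycle r s) : C.ac s ↔ C.ac r := by
  obtain ⟨n, rfl⟩ := h1.exists_nat_pow_eq
  exact ac_pow h n

lemma bb_spec (h : C.Rim r) (ht : C.tr r) : pE.SameCycle r (C.bb r) ∧ C.fb (C.bb r) := by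
  unfold bb
  rw [dif_pos ⟨h, ht⟩]
  exact (C.fb_ex r h ht).choose_spec.1

lemma bb_uniq (h : C.Rim r) (ht : C.tr r) (h1 : pE.SameCycle r s) (h2 : C.fb s) :
    s = C.bb r := by
  unfold bb
  rw [dif_pos ⟨h, ht⟩]
  exact (C.fb_ex r h ht).choose_spec.2 s ⟨h1, h2⟩

lemma aa_same (h : C.Rim r) (ha : C.ac r) (h1 : pE.SameCycle r s) : C.aa s = C.aa r := by
  have h2 := aa_spec (C := C) (Rim.same h h1) ((ac_same h h1).2 ha)
  exact aa_uniq h ha (h1.trans h2.1) h2.2

lemma tr_pow (h : C.Rim r) (n : ℕ) : C.tr ((pE ^ n) r) ↔ C.tr r := by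
  induction n with
  | zero => exact Iff.rfl
  | succ n ih =>
    rw [pow_succ', Equiv.Perm.mul_apply, pE_apply, C.tr_E _ (Rim.pow h n), ih]

lemma tr_same (h : C.Rim r) (h1 : pE.SameCycle r s) : C.tr s ↔ C.tr r := by
  obtain ⟨n, rfl⟩ := h1.exists_nat_pow_eq
  exact tr_pow h n

lemma bb_same (h : C.Rim r) (ht : C.tr r) (h1 : pE.SameCycle r s) : C.bb s = C.bb r := by
  have h2 := bb_spec (C := C) (Rim.same h h1) ((tr_same h h1).2 ht)
  exact bb_uniq h ht (h1.trans h2.1) h2.2

lemma fa_iff (h : C.Rim r) (ha : C.ac r) : C.fa r ↔ r = C.aa r :=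
  ⟨fun h1 => aa_uniq h ha (Equiv.Perm.SameCycle.refl _ _) h1, fun h1 => by
    rw [h1]; exact (aa_spec h ha).2⟩

lemma act_of (h : C.Rim r) (ht : C.tr r) : C.ac r := C.ac_tr r h ht

lemma fb_iff (h : C.Rim r) (ht : C.tr r) : C.fb r ↔ r = C.bb r :=
  ⟨fun h1 => bb_uniq h ht (Equiv.Perm.SameCycle.refl _ _) h1, fun h1 => by
    rw [h1]; exact (bb_spec h ht).2⟩

variable (C)

/-- distance from the turned foot -/
noncomputable def pp (r : P.FSt) : ℕ := dst pE (C.bb r) r

/-- position of the foot `n` -/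
noncomputable def al (r : P.FSt) : ℕ := dst pE (C.bb r) (C.aa r)

/-- position of the east neighbour of the upper turned foot -/
noncomputable def ta (r : P.FSt) : ℕ :=
  dst pE (C.bb r) (Rows.far (C.bb (Rows.far r))).stE

/-- position of the upper foot `n` -/
noncomputable def al' (r : P.FSt) : ℕ := dst pE (C.bb r) (Rows.far (C.aa (Rows.far r)))

/-- position where the first run ends -/
noncomputable def ep (r : P.FSt) : ℕ :=
  if C.ta r + 2 = len pE r then len pE r - 2 else len pE r - 1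

variable {C}

lemma bb_lo (h : Lo C.toRows r) (ht : C.tr r) : Lo C.toRows (C.bb r) :=
  h.same (bb_spec h.rim ht).1

lemma pp_E (h : Lo C.toRows r) (ht : C.tr r) :
    C.pp r.stE = if C.pp r + 1 = len pE r then 0 else C.pp r + 1 := by
  have h1 := bb_spec (C := C) h.rim ht
  have h2 : C.bb r.stE = C.bb r := bb_same h.rim ht ⟨1, by rw [zpow_one]; rfl⟩
  unfold pp
  rw [h2, ← pE_apply, dst_step h1.1.symm, len_same h1.1]

lemma same_E (s : P.FSt) : pE.SameCycle s s.stE := ⟨1, by rw [zpow_one]; rfl⟩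

lemma al_E (h : Lo C.toRows r) (ht : C.tr r) : C.al r.stE = C.al r := by
  unfold al
  rw [bb_same h.rim ht (same_E r), aa_same h.rim (act_of h.rim ht) (same_E r)]

lemma far_tr (h : Lo C.toRows r) (ht : C.tr r) : C.tr (Rows.far r) := (C.tr_far r h.rim).2 ht

lemma ta_E (h : Lo C.toRows r) (ht : C.tr r) : C.ta r.stE = C.ta r := by
  unfold ta
  rw [bb_same h.rim ht (same_E r), bb_same h.far_rim (far_tr h ht) (h.far_same (same_E r))]

lemma al'_E (h : Lo C.toRows r) (ht : C.tr r) : C.al' r.stE = C.al' r := by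
  unfold al'
  rw [bb_same h.rim ht (same_E r),
    aa_same h.far_rim (act_of h.far_rim (far_tr h ht)) (h.far_same (same_E r))]

lemma len_E (r : P.FSt) : len pE r.stE = len pE r := (len_same (same_E r)).symm

lemma ep_E (h : Lo C.toRows r) (ht : C.tr r) : C.ep r.stE = C.ep r := by
  unfold ep
  rw [ta_E h ht, len_E]

/-- the bounds of the positions -/
lemma bounds (h : Lo C.toRows r) (ht : C.tr r) :
    C.pp r < len pE r ∧ 1 ≤ C.al r ∧ C.al r + 3 ≤ len pE r ∧ C.ta r < len pE r ∧
    C.al' r < len pE r ∧ 2 ≤ cd (len pE r) (C.al' r) (C.ta r) ∧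
    cd (len pE r) (C.al' r) (C.ta r) + 1 < len pE r := by
  have hb := bb_spec (C := C) h.rim ht
  have ha := aa_spec (C := C) h.rim (act_of h.rim ht)
  have hL : len pE (C.bb r) = len pE r := (len_same hb.1).symm
  have hba : pE.SameCycle (C.bb r) (C.aa r) := hb.1.symm.trans ha.1
  have h1 : C.pp r < len pE r := by rw [← hL]; exact dst_lt hb.1.symm
  have h2 : C.al r < len pE r := by rw [← hL]; exact dst_lt hba
  have hat : C.tr (C.aa r) := (tr_same h.rim ha.1).2 ht
  have hal : (pE ^ C.al r) (C.bb r) = C.aa r := dst_spec hba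
  have h3 : ∀ n ≤ 2, C.al r + n ≠ len pE r := by
    intro n hn he
    apply C.arc (C.aa r) (Rim.same h.rim ha.1) hat ha.2 n hn
    rw [← hal, ← Equiv.Perm.mul_apply, ← pow_add, Nat.add_comm n, he, ← hL, pow_len]
    exact hb.2
  have h4 : C.al r ≠ 0 := by
    intro he
    apply C.arc (C.aa r) (Rim.same h.rim ha.1) hat ha.2 0 (by norm_num)
    rw [he] at hal
    have : C.bb r = C.aa r := hal
    show C.fb (C.aa r)
    rw [← this]; exact hb.2
  -- the upper rim
  have hr' := h.far_rim
  have ht' := far_tr h ht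
  have hb' := bb_spec (C := C) hr' ht'
  have ha' := aa_spec (C := C) hr' (act_of hr' ht')
  have hat' : C.tr (C.aa (Rows.far r)) := (tr_same hr' ha'.1).2 ht'
  set Y := Rows.far (C.bb (Rows.far r)) with hY
  set X := Rows.far (C.aa (Rows.far r)) with hX
  have sY : pE.SameCycle r Y := by
    have := Rim.far_same hr' hb'.1
    rwa [h.far_far] at this
  have sX : pE.SameCycle r X := by
    have := Rim.far_same hr' ha'.1
    rwa [h.far_far] at this
  have lX := h.same sX
  have lY := h.same sY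
  have eX : Rows.far X = C.aa (Rows.far r) := Rim.far_far (Rim.same hr' ha'.1)
  have eY : Rows.far Y = C.bb (Rows.far r) := Rim.far_far (Rim.same hr' hb'.1)
  have sYX : pE.SameCycle Y X := sY.symm.trans sX
  have h5 : 3 ≤ dst pE Y X := by
    by_contra hlt
    apply C.arc (C.aa (Rows.far r)) (Rim.same hr' ha'.1) hat' ha'.2 (dst pE Y X) (by omega)
    rw [← eX, lX.pow_far]
    have e : (pE.symm ^ dst pE Y X) X = Y := by
      have e1 := pow_cancel' pE (dst pE Y X) Y
      rwa [dst_spec sYX] at e1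
    rw [e, eY]
    exact hb'.2
  have sbX := hb.1.symm.trans sX
  have sbY := hb.1.symm.trans sY
  have h6 := dst_cd sbX sbY
  rw [hL] at h6
  have h7 : dst pE Y X < len pE r := by
    have := dst_lt sYX
    rwa [← len_same sY] at this
  have h8 : C.al' r < len pE r := by rw [← hL]; exact dst_lt sbX
  have h9 : dst pE (C.bb r) Y < len pE r := by rw [← hL]; exact dst_lt sbY
  have h10 : C.ta r = if dst pE (C.bb r) Y + 1 = len pE r then 0 else dst pE (C.bb r) Y + 1 := by
    unfold ta
    rw [← hY, ← pE_apply, dst_step sbY, hL]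
  have h11 : dst pE (C.bb r) X = C.al' r := rfl
  rw [h11] at h6
  refine ⟨h1, by omega, ?_, ?_, h8, ?_, ?_⟩
  · have := h3 0 (by norm_num); have := h3 1 (by norm_num); have := h3 2 (by norm_num); omega
  · rw [h10]; split_ifs <;> omega
  · rw [h10]
    unfold cd at h6 ⊢
    split_ifs at h6 ⊢ <;> omega
  · rw [h10]
    unfold cd at h6 ⊢
    split_ifs at h6 ⊢ <;> omega

/-! ## The rows -/

variable (C)

/-- offset of the facet in its row -/
noncomputable def nn (r : P.FSt) : ℕ :=
  cd (len pE (rho C.toRows r)) (C.pp (rho C.toRows r))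
    (if C.rw r.facet = 1 then C.al (rho C.toRows r)
     else if C.rw r.facet ≤ 3 then C.ep (rho C.toRows r) else C.ta (rho C.toRows r))

/-- offset of the end of the run of the strand `+` -/
noncomputable def tt (r : P.FSt) : ℕ :=
  if C.rw r.facet = 1 then C.ep (rho C.toRows r) - C.al (rho C.toRows r)
  else if C.rw r.facet = 3 then
    cd (len pE (rho C.toRows r)) (C.ta (rho C.toRows r)) (C.ep (rho C.toRows r))
  else if C.rw r.facet = 5 then
    cd (len pE (rho C.toRows r)) (C.al' (rho C.toRows r)) (C.ta (rho C.toRows r))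
  else 0

/-- offset of the beginning of the run of the strand `0` -/
noncomputable def uu (r : P.FSt) : ℕ :=
  if C.rw r.facet = 1 then len pE (rho C.toRows r) - C.al (rho C.toRows r)
  else if C.rw r.facet = 2 then len pE (rho C.toRows r) - C.ep (rho C.toRows r)
  else if C.rw r.facet = 4 then
    cd (len pE (rho C.toRows r)) (C.ep (rho C.toRows r) - 1) (C.ta (rho C.toRows r))
  else len pE (rho C.toRows r) - 1

/-- offset of the end of the run of the strand `0` -/
noncomputable def vv (r : P.FSt) : ℕ :=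
  if C.rw r.facet = 1 then len pE (rho C.toRows r) - C.al (rho C.toRows r)
  else len pE (rho C.toRows r) - 1

/-- length of the ring -/
noncomputable def LL (r : P.FSt) : ℕ := len pE (rho C.toRows r)

variable {C}

lemma ep_eq (h : Lo C.toRows r) (ht : C.tr r) :
    (C.ep r + 1 = len pE r ∧ C.ta r ≠ C.ep r - 1) ∨ (C.ep r + 2 = len pE r ∧ C.ta r = C.ep r) := by
  obtain ⟨h1, h2, h3, h4, h5, h6, h7⟩ := bounds h ht
  unfold ep
  split_ifs <;> omega

/-- the order of the offsets -/
lemma order (h : CU C.toRows r) (ht : C.tr (rho C.toRows r)) :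
    C.nn r < C.LL r ∧ C.tt r < C.uu r ∧ C.uu r ≤ C.vv r ∧ C.vv r < C.LL r := by
  obtain ⟨h1, h2, h3, h4, h5, h6, h7⟩ := bounds h.lo_rho ht
  have h8 := ep_eq h.lo_rho ht
  have h9 := C.le5 r.facet
  have h10 := h.2
  unfold nn tt uu vv LL
  generalize len pE (rho C.toRows r) = L at *
  generalize C.pp (rho C.toRows r) = p at *
  generalize C.al (rho C.toRows r) = a at *
  generalize C.al' (rho C.toRows r) = a' at *
  generalize C.ta (rho C.toRows r) = t at *
  generalize C.ep (rho C.toRows r) = e at *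
  have h11 : C.toRows.rw r.facet = 1 ∨ C.toRows.rw r.facet = 2 ∨ C.toRows.rw r.facet = 3 ∨
    C.toRows.rw r.facet = 4 ∨ C.toRows.rw r.facet = 5 := by omega
  unfold cd at *
  rcases h11 with h11 | h11 | h11 | h11 | h11 <;> rw [h11] <;> norm_num <;> split_ifs at * <;> omega

lemma tt_pos (h : CU C.toRows r) (ht : C.tr (rho C.toRows r))
    (h15 : C.rw r.facet = 1 ∨ C.rw r.facet = 5) : 0 < C.tt r := by
  obtain ⟨h1, h2, h3, h4, h5, h6, h7⟩ := bounds h.lo_rho ht
  have h8 := ep_eq h.lo_rho ht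
  unfold tt
  rcases h15 with h11 | h11 <;> rw [h11] <;> norm_num <;> omega

lemma row_E (h : CU C.toRows r) (ht : C.tr (rho C.toRows r)) :
    C.nn r.stE = (if C.nn r + 1 = C.LL r then 0 else C.nn r + 1) ∧ C.tt r.stE = C.tt r ∧
    C.uu r.stE = C.uu r ∧ C.vv r.stE = C.vv r ∧ C.LL r.stE = C.LL r := by
  have e0 := h.rho_E
  have e1 : C.rw r.stE.facet = C.rw r.facet := h.stE.2
  have hl := h.lo_rho
  obtain ⟨h1, h2, h3, h4, h5, h6, h7⟩ := bounds hl ht
  have h8 := ep_eq hl ht
  have h9 := C.le5 r.facet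
  have h10 := h.2
  unfold nn tt uu vv LL
  rw [e0, e1, al_E hl ht, ta_E hl ht, al'_E hl ht, ep_E hl ht, len_E, pp_E hl ht]
  refine ⟨?_, rfl, rfl, rfl, rfl⟩
  generalize len pE (rho C.toRows r) = L at *
  generalize C.pp (rho C.toRows r) = p at *
  generalize C.al (rho C.toRows r) = a at *
  generalize C.al' (rho C.toRows r) = a' at *
  generalize C.ta (rho C.toRows r) = t at *
  generalize C.ep (rho C.toRows r) = e at *
  have h11 : C.toRows.rw r.facet = 1 ∨ C.toRows.rw r.facet = 2 ∨ C.toRows.rw r.facet = 3 ∨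
    C.toRows.rw r.facet = 4 ∨ C.toRows.rw r.facet = 5 := by omega
  unfold cd at *
  rcases h11 with h11 | h11 | h11 | h11 | h11 <;> rw [h11] <;> norm_num <;> split_ifs at * <;> omega

lemma row_N (h : CU C.toRows r) (ht : C.tr (rho C.toRows r)) (hi : C.rw r.facet ≠ 5) :
    (C.nn r = C.tt r ↔ C.nn r.stN = 0) ∧ (C.nn r = C.vv r ↔ C.nn r.stN = C.uu r.stN) ∧
    C.LL r.stN = C.LL r := by
  have e0 := h.rho_N hi
  have e1 : C.rw r.stN.facet = C.rw r.facet + 1 := (h.stN hi).2
  have hl := h.lo_rho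
  obtain ⟨h1, h2, h3, h4, h5, h6, h7⟩ := bounds hl ht
  have h8 := ep_eq hl ht
  have h9 := C.le5 r.facet
  have h10 := h.2
  unfold nn tt uu vv LL
  rw [e0, e1]
  generalize len pE (rho C.toRows r) = L at *
  generalize C.pp (rho C.toRows r) = p at *
  generalize C.al (rho C.toRows r) = a at *
  generalize C.al' (rho C.toRows r) = a' at *
  generalize C.ta (rho C.toRows r) = t at *
  generalize C.ep (rho C.toRows r) = e at *
  have h11 : C.toRows.rw r.facet = 1 ∨ C.toRows.rw r.facet = 2 ∨ C.toRows.rw r.facet = 3 ∨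
    C.toRows.rw r.facet = 4 := by omega
  unfold cd at *
  rcases h11 with h11 | h11 | h11 | h11 <;> rw [h11] <;> norm_num <;> split_ifs at * <;>
    constructor <;> omega

end JC

end Pool.Agent.MP42H
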