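import Pool.Agent.MP42.H.Cells

/-!
# One strand in every facet of the core
-/

set_option autoImplicit false
set_option linter.unusedSectionVars false

namespace Pool.Agent.MP42H

open Pool.Agent.Helper55.UNF

section Steps

variable {k : ℕ} {pr : ℕ → ℕ → Bool} {la : ℕ → ℕ → Ln} {ψ χ : ℕ → ℕ → Prop}
  (hR : CellRel k pr la ψ χ) {x y : ℕ} (hx : x < k) (hy : y < k)

include hR hx hy

lemma st_WE (h1 : pr x y = true) (h2 : pr (x + 1) y = true) (h3 : la x (y + 1) = Ln.z)
    (h4 : la x y = Ln.z) : ψ x y ↔ ψ (x + 1) y := by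
  have := hR x y hx hy Prt.W
  rw [h1, h2, h3, h4] at this
  exact this rfl

lemma st_SN (h1 : pr x y = false) (h2 : pr (x + 1) y = false) (h3 : la x (y + 1) = la x y)
    (h4 : la x y ≠ Ln.z) : χ x y ↔ χ x (y + 1) := by
  have := hR x y hx hy Prt.S
  rw [h1, h2, h3] at this
  generalize la x y = l at *
  cases l
  · exact absurd rfl h4
  · exact this rfl
  · exact this rfl

lemma st_SE (h1 : pr x y = false) (h2 : pr (x + 1) y = true) (h3 : la x (y + 1) = Ln.z)
    (h4 : la x y = Ln.n) : χ x y ↔ ψ (x + 1) y := by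
  have := hR x y hx hy Prt.S
  rw [h1, h2, h3, h4] at this
  exact this rfl

lemma st_WN (h1 : pr x y = true) (h2 : pr (x + 1) y = false) (h3 : la x (y + 1) = Ln.n)
    (h4 : la x y = Ln.z) : ψ x y ↔ χ x (y + 1) := by
  have := hR x y hx hy Prt.W
  rw [h1, h2, h3, h4] at this
  exact this rfl

lemma st_WS (h1 : pr x y = true) (h2 : pr (x + 1) y = false) (h3 : la x (y + 1) = Ln.z)
    (h4 : la x y = Ln.s) : ψ x y ↔ χ x y := by
  have := hR x y hx hy Prt.W
  rw [h1, h2, h3, h4] at this
  exact this rfl

lemma st_NE (h1 : pr x y = false) (h2 : pr (x + 1) y = true) (h3 : la x (y + 1) = Ln.s)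
    (h4 : la x y = Ln.z) : χ x (y + 1) ↔ ψ (x + 1) y := by
  have := hR x y hx hy Prt.N
  rw [h1, h2, h3, h4] at this
  exact this rfl

end Steps

lemma run_up {Q : ℕ → Prop} {a b : ℕ} (h : ∀ x, a ≤ x → x < b → (Q x ↔ Q (x + 1))) :
    ∀ x, a ≤ x → x ≤ b → (Q x ↔ Q a) := by
  intro x hax
  induction x, hax using Nat.le_induction with
  | base => intro _; exact Iff.rfl
  | succ x hx ih => intro hb; rw [← h x hx (by omega)]; exact ih (by omega)

/-- all used edges have the same value -/
def OneV (k : ℕ) (pr : ℕ → ℕ → Bool) (la : ℕ → ℕ → Ln) (ψ χ : ℕ → ℕ → Prop) (c : Prop) : Prop :=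
  (∀ x y, x ≤ k → y < k → pr x y = true → (ψ x y ↔ c)) ∧
  (∀ x y, x < k → y ≤ k → la x y ≠ Ln.z → (χ x y ↔ c))

lemma YL_n {m ci co n t x y : ℕ} (h : (n = 0 ∧ x = ci ∧ y ≤ m) ∨ (n = t ∧ x = co ∧ m < y)) :
    YL m ci co n t x y = Ln.n := by unfold YL; rw [if_pos h]

lemma YL_z {m ci co n t x y : ℕ} (h : ¬ ((n = 0 ∧ x = ci ∧ y ≤ m) ∨ (n = t ∧ x = co ∧ m < y))) :
    YL m ci co n t x y = Ln.z := by unfold YL; rw [if_neg h]

lemma Y_one {k m ci co n t : ℕ} {ψ χ : ℕ → ℕ → Prop}
    (hR : CellRel k (YP m ci co n t) (YL m ci co n t) ψ χ) (hm : m < k) (hci : ci < k)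
    (hco : co < k) (hc : n = 0 → n = t → ci = co) :
    ∃ c, OneV k (YP m ci co n t) (YL m ci co n t) ψ χ c := by
  -- the ports
  have hP : ∀ x, x < k → (n = 0 → ci < x) → (n = t → x < co) → (ψ x m ↔ ψ (x + 1) m) := by
    intro x hx h1 h2
    apply st_WE hR hx hm
    · rw [YP_true]; exact ⟨rfl, h1, fun h => (h2 h).le⟩
    · rw [YP_true]; exact ⟨rfl, fun h => by have := h1 h; omega, fun h => by have := h2 h; omega⟩
    · apply YL_z
      rintro (⟨h3, h4, h5⟩ | ⟨h3, h4, h5⟩)
      · omega
      · have := h2 h3; omega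
    · apply YL_z
      rintro (⟨h3, h4, h5⟩ | ⟨h3, h4, h5⟩)
      · have := h1 h3; omega
      · omega
  -- the lower lane
  have hL : n = 0 → ∀ y < m, (χ ci y ↔ χ ci (y + 1)) := by
    intro h1 y hy
    apply st_SN hR hci (by omega)
    · rw [YP_false]; omega
    · rw [YP_false]; omega
    · rw [YL_n (Or.inl ⟨h1, rfl, by omega⟩), YL_n (Or.inl ⟨h1, rfl, by omega⟩)]
    · rw [YL_n (Or.inl ⟨h1, rfl, by omega⟩)]; decide
  -- the upper lane
  have hU : n = t → ∀ y, m < y → y < k → (χ co y ↔ χ co (y + 1)) := by
    intro h1 y hy hy'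
    apply st_SN hR hco (by omega)
    · rw [YP_false]; omega
    · rw [YP_false]; omega
    · rw [YL_n (Or.inr ⟨h1, rfl, by omega⟩), YL_n (Or.inr ⟨h1, rfl, by omega⟩)]
    · rw [YL_n (Or.inr ⟨h1, rfl, by omega⟩)]; decide
  by_cases h0 : n = 0
  · by_cases ht : n = t
    · -- one lane
      have e := hc h0 ht
      subst e
      have hM : χ ci m ↔ χ ci (m + 1) := by
        apply st_SN hR hci hm
        · rw [YP_false]; rintro ⟨_, h1, h2⟩; have := h1 h0; omega
        · rw [YP_false]; rintro ⟨_, h1, h2⟩; have := h2 ht; omega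
        · rw [YL_n (Or.inr ⟨ht, rfl, by omega⟩), YL_n (Or.inl ⟨h0, rfl, le_rfl⟩)]
        · rw [YL_n (Or.inl ⟨h0, rfl, le_rfl⟩)]; decide
      have hall := run_up (Q := fun y => χ ci y) (a := 0) (b := k) (by
        intro y _ hy
        rcases Nat.lt_trichotomy y m with h | h | h
        · exact hL h0 y h
        · rw [h]; exact hM
        · exact hU ht y h hy)
      refine ⟨χ ci 0, ?_, ?_⟩
      · intro x y hx hy hp
        rw [YP_true] at hp
        have h1 := hp.2.1 h0
        have h2 := hp.2.2 ht
        omega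
      · intro x y hx hy hl
        rw [YL_ne] at hl
        have hxe : x = ci := by omega
        rw [hxe]
        exact hall y (Nat.zero_le _) hy
    · -- the start of a run
      have hS : χ ci m ↔ ψ (ci + 1) m := by
        apply st_SE hR hci hm
        · rw [YP_false]; rintro ⟨_, h1, h2⟩; have := h1 h0; omega
        · rw [YP_true]; exact ⟨rfl, fun _ => by omega, fun h => absurd h ht⟩
        · apply YL_z; omega
        · exact YL_n (Or.inl ⟨h0, rfl, le_rfl⟩)
      have hp' := run_up (Q := fun x => ψ x m) (a := ci + 1) (b := k) (by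
        intro x h1 h2
        exact hP x h2 (fun _ => by omega) (fun h => absurd h ht))
      have hl' := run_up (Q := fun y => χ ci y) (a := 0) (b := m) (by
        intro y _ hy
        exact hL h0 y hy)
      refine ⟨χ ci 0, ?_, ?_⟩
      · intro x y hx hy hp
        rw [YP_true] at hp
        have h1 := hp.2.1 h0
        rw [hp.1]
        exact (hp' x (by omega) hx).trans (hS.symm.trans (hl' m (Nat.zero_le _) le_rfl))
      · intro x y hx hy hl
        rw [YL_ne] at hl
        rcases hl with ⟨_, h1, h2⟩ | ⟨h1, _⟩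
        · rw [h1]; exact hl' y (Nat.zero_le _) h2
        · exact absurd h1 ht
  · have hp' := run_up (Q := fun x => ψ x m) (a := 0) (b := if n = t then co else k) (by
      intro x _ h2
      split_ifs at h2 with h3
      · exact hP x (by omega) (fun h => absurd h h0) (fun _ => h2)
      · exact hP x h2 (fun h => absurd h h0) (fun h => absurd h h3))
    refine ⟨ψ 0 m, ?_, ?_⟩
    · intro x y hx hy hp
      rw [YP_true] at hp
      rw [hp.1]
      apply hp' x (Nat.zero_le _)
      split_ifs with h3
      · exact hp.2.2 h3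
      · exact hx
    · intro x y hx hy hl
      rw [YL_ne] at hl
      rcases hl with ⟨h1, _⟩ | ⟨h1, h2, h3⟩
      · exact absurd h1 h0
      · rw [h2]
        have hW : ψ co m ↔ χ co (m + 1) := by
          apply st_WN hR hco hm
          · rw [YP_true]; exact ⟨rfl, fun h => absurd h h0, fun _ => le_rfl⟩
          · rw [YP_false]; rintro ⟨_, _, h4⟩; have := h4 h1; omega
          · exact YL_n (Or.inr ⟨h1, rfl, by omega⟩)
          · apply YL_z; omega
        have hl' := run_up (Q := fun y => χ co y) (a := m + 1) (b := k) (by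
          intro y h4 h5
          exact hU h1 y (by omega) h5)
        have := hp' co (Nat.zero_le _) (by rw [if_pos h1])
        exact (hl' y (by omega) hy).trans (hW.symm.trans this)

lemma XL_s {m n u v x y : ℕ} (h : x = m ∧ u ≤ n ∧ n ≤ v ∧ (n = u → y ≤ m) ∧ (n = v → m < y)) :
    XL m n u v x y = Ln.s := by unfold XL; rw [if_pos h]

lemma XL_z {m n u v x y : ℕ}
    (h : ¬ (x = m ∧ u ≤ n ∧ n ≤ v ∧ (n = u → y ≤ m) ∧ (n = v → m < y))) :
    XL m n u v x y = Ln.z := by unfold XL; rw [if_neg h]

lemma X_one {k m n u v : ℕ} {ψ χ : ℕ → ℕ → Prop}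
    (hR : CellRel k (XP m n u v) (XL m n u v) ψ χ) (hm : m < k) (huv : u ≤ v) :
    ∃ c, OneV k (XP m n u v) (XL m n u v) ψ χ c := by
  have hP : ∀ x, x < k → x ≠ m → (x < m → n = u) → (m < x → n = v) → (ψ x m ↔ ψ (x + 1) m) := by
    intro x hx h0 h1 h2
    apply st_WE hR hx hm
    · rw [XP_true]; omega
    · rw [XP_true]; omega
    · apply XL_z; omega
    · apply XL_z; omega
  have hV : ∀ y < k, y ≠ m → u ≤ n → n ≤ v → (y < m → n ≠ v) → (m < y → n ≠ u) →
      (χ m y ↔ χ m (y + 1)) := by
    intro y hy h0 h1 h2 h3 h4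
    apply st_SN hR hm hy
    · rw [XP_false]; omega
    · rw [XP_false]; omega
    · rw [XL_s (by omega), XL_s (by omega)]
    · rw [XL_s (by omega)]; decide
  by_cases hu : n = u
  · have hpl := run_up (Q := fun x => ψ x m) (a := 0) (b := m) (by
      intro x _ h2
      exact hP x (by omega) (by omega) (fun _ => hu) (fun _ => by omega))
    by_cases hv : n = v
    · -- straight
      have hM : ψ m m ↔ ψ (m + 1) m := by
        apply st_WE hR hm hm
        · rw [XP_true]; omega
        · rw [XP_true]; omega
        · apply XL_z; omega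
        · apply XL_z; omega
      have hp' := run_up (Q := fun x => ψ x m) (a := 0) (b := k) (by
        intro x _ h2
        by_cases h : x = m
        · rw [h]; exact hM
        · exact hP x h2 h (fun _ => hu) (fun _ => hv))
      refine ⟨ψ 0 m, ?_, ?_⟩
      · intro x y hx hy hp
        rw [XP_true] at hp
        rw [hp.1]
        exact hp' x (Nat.zero_le _) hx
      · intro x y hx hy hl
        rw [XL_ne] at hl
        omega
    · -- turns south
      have hW : ψ m m ↔ χ m m := by
        apply st_WS hR hm hm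
        · rw [XP_true]; omega
        · rw [XP_false]; omega
        · apply XL_z; omega
        · apply XL_s; omega
      have hl' := run_up (Q := fun y => χ m y) (a := 0) (b := m) (by
        intro y _ h2
        exact hV y (by omega) (by omega) (by omega) (by omega) (fun _ => hv) (by omega))
      refine ⟨ψ 0 m, ?_, ?_⟩
      · intro x y hx hy hp
        rw [XP_true] at hp
        rw [hp.1]
        exact hpl x (Nat.zero_le _) (by omega)
      · intro x y hx hy hl
        rw [XL_ne] at hl
        rw [hl.1]
        have h1 := hl' y (Nat.zero_le _) (by omega)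
        have h2 := hl' m (Nat.zero_le _) le_rfl
        have h3 := hpl m (Nat.zero_le _) le_rfl
        exact h1.trans (h2.symm.trans (hW.symm.trans h3))
  · by_cases hv : n = v
    · -- comes from the north
      have hN : χ m (m + 1) ↔ ψ (m + 1) m := by
        apply st_NE hR hm hm
        · rw [XP_false]; omega
        · rw [XP_true]; omega
        · apply XL_s; omega
        · apply XL_z; omega
      have hp' := run_up (Q := fun x => ψ x m) (a := m + 1) (b := k) (by
        intro x h1 h2
        exact hP x h2 (by omega) (by omega) (fun _ => hv))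
      have hl' := run_up (Q := fun y => χ m y) (a := m + 1) (b := k) (by
        intro y h1 h2
        exact hV y h2 (by omega) (by omega) (by omega) (by omega) (fun _ => hu))
      refine ⟨ψ (m + 1) m, ?_, ?_⟩
      · intro x y hx hy hp
        rw [XP_true] at hp
        rw [hp.1]
        exact hp' x (by omega) hx
      · intro x y hx hy hl
        rw [XL_ne] at hl
        rw [hl.1]
        exact (hl' y (by omega) hy).trans hN
    · by_cases h : u ≤ n ∧ n ≤ v
      · have hM : χ m m ↔ χ m (m + 1) := by
          apply st_SN hR hm hm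
          · rw [XP_false]; omega
          · rw [XP_false]; omega
          · rw [XL_s (by omega), XL_s (by omega)]
          · rw [XL_s (by omega)]; decide
        have hl' := run_up (Q := fun y => χ m y) (a := 0) (b := k) (by
          intro y _ h2
          by_cases h3 : y = m
          · rw [h3]; exact hM
          · exact hV y h2 h3 h.1 h.2 (fun _ => hv) (fun _ => hu))
        refine ⟨χ m 0, ?_, ?_⟩
        · intro x y hx hy hp
          rw [XP_true] at hp
          omega
        · intro x y hx hy hl
          rw [XL_ne] at hl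
          rw [hl.1]
          exact hl' y (Nat.zero_le _) hy
      · refine ⟨True, ?_, ?_⟩
        · intro x y hx hy hp
          rw [XP_true] at hp
          omega
        · intro x y hx hy hl
          rw [XL_ne] at hl
          exact absurd ⟨hl.2.1, hl.2.2.1⟩ h

lemma C_one {k m n L : ℕ} {ψ χ : ℕ → ℕ → Prop}
    (hR : CellRel k (CP m k n L) (CL m k n L) ψ χ) (hm : m < k) (hk : 3 ≤ k) :
    ∃ c, OneV k (CP m k n L) (CL m k n L) ψ χ c := by
  have hn : ∀ y, y ≤ m → n = 0 → CL m k n L 0 y = Ln.n := by
    intro y hy h; unfold CL; rw [if_pos ⟨h, rfl, hy⟩]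
  have hs : ∀ y, y ≤ m → n + 1 = L → CL m k n L (k - 1) y = Ln.s := by
    intro y hy h; unfold CL; rw [if_neg (by omega), if_pos (by omega)]
  have hz : ∀ x y, ¬ (n = 0 ∧ x = 0 ∧ y ≤ m) → ¬ (n + 1 = L ∧ x + 1 = k ∧ y ≤ m) →
      CL m k n L x y = Ln.z := by
    intro x y h1 h2; unfold CL; rw [if_neg h1, if_neg h2]
  have hP : ∀ x, x < k → (n = 0 → 0 < x) → (n + 1 = L → x + 1 < k) → (ψ x m ↔ ψ (x + 1) m) := by
    intro x hx h1 h2
    apply st_WE hR hx hm
    · rw [CP_true]; exact ⟨rfl, h1, fun h => by have := h2 h; omega⟩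
    · rw [CP_true]; exact ⟨rfl, fun h => by omega, h2⟩
    · apply hz <;> omega
    · apply hz
      · rintro ⟨h3, h4, _⟩; have := h1 h3; omega
      · rintro ⟨h3, h4, _⟩; have := h2 h3; omega
  have hmid := run_up (Q := fun x => ψ x m) (a := 1) (b := k - 1) (by
    intro x h1 h2
    exact hP x (by omega) (fun _ => by omega) (fun _ => by omega))
  refine ⟨ψ 1 m, ?_, ?_⟩
  · intro x y hx hy hp
    rw [CP_true] at hp
    rw [hp.1]
    by_cases h0 : x = 0
    · subst h0
      exact hP 0 (by omega) hp.2.1 (fun _ => by omega)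
    · by_cases h1 : x = k
      · have h2 := hP (k - 1) (by omega) (fun _ => by omega) (fun h => by
          have := hp.2.2 h; omega)
        rw [show k - 1 + 1 = k by omega] at h2
        rw [h1, ← h2]
        exact hmid (k - 1) (by omega) le_rfl
      · exact hmid x (by omega) (by omega)
  · intro x y hx hy hl
    rw [CL_ne] at hl
    rcases hl with ⟨h1, h2, h3⟩ | ⟨h1, h2, h3⟩
    · subst h2
      have hc : χ 0 m ↔ ψ 1 m := by
        apply st_SE hR (by omega) hm
        · rw [CP_false]; rintro ⟨_, h4, _⟩; have := h4 h1; omega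
        · rw [CP_true]; exact ⟨rfl, fun _ => by omega, fun _ => by omega⟩
        · apply hz <;> omega
        · exact hn m le_rfl h1
      have hl' := run_up (Q := fun y => χ 0 y) (a := 0) (b := m) (by
        intro y _ h2
        apply st_SN hR (by omega) (by omega)
        · rw [CP_false]; omega
        · rw [CP_false]; omega
        · rw [hn _ (by omega) h1, hn _ (by omega) h1]
        · rw [hn _ (by omega) h1]; decide)
      exact (hl' y (Nat.zero_le _) h3).trans ((hl' m (Nat.zero_le _) le_rfl).symm.trans hc)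
    · have hxe : x = k - 1 := by omega
      subst hxe
      have hc : ψ (k - 1) m ↔ χ (k - 1) m := by
        apply st_WS hR (by omega) hm
        · rw [CP_true]; exact ⟨rfl, fun _ => by omega, fun _ => by omega⟩
        · rw [CP_false]; rintro ⟨_, _, h4⟩; have := h4 h1; omega
        · apply hz <;> omega
        · exact hs m le_rfl h1
      have hl' := run_up (Q := fun y => χ (k - 1) y) (a := 0) (b := m) (by
        intro y _ h2
        apply st_SN hR (by omega) (by omega)
        · rw [CP_false]; omega
        · rw [CP_false]; omega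
        · rw [hs _ (by omega) h1, hs _ (by omega) h1]
        · rw [hs _ (by omega) h1]; decide)
      exact (hl' y (Nat.zero_le _) h3).trans ((hl' m (Nat.zero_le _) le_rfl).symm.trans
        (hc.symm.trans (hmid (k - 1) (by omega) le_rfl)))

end Pool.Agent.MP42H
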