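import Pool.Agent.MP42.H.Defs

/-!
# Ring arithmetic
-/

set_option autoImplicit false
set_option linter.unusedSectionVars false

namespace Pool.Agent.MP42H

open Pool.Agent.Helper55.UNF Pool.Agent.Helper55.UNF.GridSolid Pool.Agent.MP42G

section Perm

variable {X : Type*} [Finite X] (π : Equiv.Perm X)

/-- the length of the cycle -/
noncomputable def len (s : X) : ℕ := Function.minimalPeriod π s

/-- the number of steps from `a` to `r` -/
noncomputable def dst (a r : X) : ℕ := srch π (fun z => z = r) a

variable {π}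

lemma len_pos (s : X) : 0 < len π s := Function.minimalPeriod_pos_of_mem_periodicPts
  (Function.injective_iff_periodicPts_eq_univ.1 π.injective ▸ Set.mem_univ s)

lemma pow_iter (n : ℕ) (s : X) : (π ^ n) s = (π)^[n] s := by
  rw [← Equiv.Perm.iterate_eq_pow]

lemma pow_len (s : X) : (π ^ len π s) s = s := by
  rw [pow_iter]
  exact Function.isPeriodicPt_minimalPeriod π s

lemma pow_mod_len (n : ℕ) (s : X) : (π ^ (n % len π s)) s = (π ^ n) s := by
  rw [pow_iter, pow_iter]
  exact Function.iterate_mod_minimalPeriod_eq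

lemma pow_inj {s : X} {m n : ℕ} (hm : m < len π s) (hn : n < len π s)
    (h : (π ^ m) s = (π ^ n) s) : m = n := by
  rw [pow_iter, pow_iter] at h
  exact Function.iterate_injOn_Iio_minimalPeriod hm hn h

lemma len_same {s t : X} (h : π.SameCycle s t) : len π s = len π t := by
  obtain ⟨n, rfl⟩ := h.exists_nat_pow_eq
  rw [pow_iter]
  exact (Function.minimalPeriod_apply_iterate (Function.injective_iff_periodicPts_eq_univ.1
    π.injective ▸ Set.mem_univ s) n).symm

lemma dst_spec {a r : X} (h : π.SameCycle a r) : (π ^ dst π a r) a = r := by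
  obtain ⟨n, hn⟩ := h.exists_nat_pow_eq
  exact srch_spec (π := π) (stop := fun z => z = r) ⟨n, hn⟩

lemma dst_lt {a r : X} (h : π.SameCycle a r) : dst π a r < len π a := by
  obtain ⟨n, hn⟩ := h.exists_nat_pow_eq
  have h1 : (π ^ (n % len π a)) a = r := by rw [pow_mod_len, hn]
  exact lt_of_le_of_lt (Nat.sInf_le (s := {j : ℕ | (π ^ j) a = r}) h1)
    (Nat.mod_lt _ (len_pos a))

lemma dst_eq {a r : X} {n : ℕ} (hn : n < len π a) (h : (π ^ n) a = r) : dst π a r = n := by
  have hs : π.SameCycle a r := ⟨n, by rw [zpow_natCast]; exact h⟩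
  apply pow_inj (dst_lt hs) hn
  rw [dst_spec hs, h]

lemma dst_self (a : X) : dst π a a = 0 := dst_eq (len_pos a) rfl

lemma dst_step {a r : X} (h : π.SameCycle a r) :
    dst π a (π r) = if dst π a r + 1 = len π a then 0 else dst π a r + 1 := by
  have h1 := dst_lt h
  have h2 : (π ^ (dst π a r + 1)) a = π r := by
    rw [pow_succ', Equiv.Perm.mul_apply, dst_spec h]
  split_ifs with h3
  · apply dst_eq (len_pos a)
    rw [pow_zero, ← h2, h3, pow_len]
    rfl
  · exact dst_eq (by omega) h2

lemma dst_inj {a r r' : X} (h : π.SameCycle a r) (h' : π.SameCycle a r')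
    (e : dst π a r = dst π a r') : r = r' := by
  rw [← dst_spec h, ← dst_spec h', e]

lemma same_of_eq {a r : X} {n : ℕ} (h : (π ^ n) a = r) : π.SameCycle a r :=
  ⟨n, by rw [zpow_natCast]; exact h⟩

end Perm

/-- cyclic difference -/
def cd (L x y : ℕ) : ℕ := if y ≤ x then x - y else x + L - y

end Pool.Agent.MP42H
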