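import Pool.Agent.Helper55.UNF.Win
import Pool.Agent.MP42.H.TabW

/-!
# Tables on states

A table given in the frames of the canonical states and of their half turns.
-/

set_option autoImplicit false
set_option linter.unusedSectionVars false

namespace Pool.Agent.MP42H

open Pool.Agent.Helper55.UNF Pool.Agent.Helper55.UNF.GridSolid

variable {P : GridSolid}

/-- the state is canonical -/
def Cn (can : P.Facet → P.FSt) (s : P.FSt) : Prop := can s.facet = s

/-- the state or its half turn is canonical -/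
def Act (can : P.Facet → P.FSt) (s : P.FSt) : Prop := can s.facet = s ∨ can s.facet = s.r2

/-- relations on the states -/
structure SRel (k : ℕ) (can : P.Facet → P.FSt) (pr : P.FSt → ℕ → ℕ → Bool)
    (la : P.FSt → ℕ → ℕ → Ln) (ψ χ : P.FSt → ℕ → ℕ → Prop) : Prop where
  cell : ∀ s, Act can s → CellRel k (pr s) (la s) (ψ s) (χ s)
  rotV : ∀ s, Act can s → ∀ x y, x ≤ k → y < k → (ψ s.r2 x y ↔ ψ s (k - x) (k - 1 - y))
  rotH : ∀ s, Act can s → ∀ x y, x < k → y ≤ k → (χ s.r2 x y ↔ χ s (k - 1 - x) (k - y))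
  gE : ∀ s, Act can s → Act can s.stE → ∀ y < k, pr s k y = true → (ψ s k y ↔ ψ s.stE 0 y)
  gN : ∀ s, Cn can s → Cn can s.stN → ∀ x < k, la s x k ≠ Ln.z → (χ s x k ↔ χ s.stN x 0)

/-- A state table (all fields of `Tab` except coverage and connectivity). -/
structure STab (P : GridSolid) (k : ℕ) where
  hk : 0 < k
  can : P.Facet → P.FSt
  can_facet : ∀ f, (can f).facet = f
  pr : P.FSt → ℕ → ℕ → Bool
  la : P.FSt → ℕ → ℕ → Ln
  ok : ∀ s, Act can s → CellOk k (pr s) (la s)
  pr_rot : ∀ s, Act can s → ∀ x y, x ≤ k → y < k → pr s.r2 x y = pr s (k - x) (k - 1 - y)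
  la_rot : ∀ s, Act can s → ∀ x y, x < k → y ≤ k → la s.r2 x y = la s (k - 1 - x) (k - y)
  gE : ∀ s, Act can s → Act can s.stE → ∀ y < k, pr s k y = pr s.stE 0 y
  gE' : ∀ s, Act can s → ¬ Act can s.stE → ∀ y < k, pr s k y = false
  gN : ∀ s, Cn can s → Cn can s.stN → ∀ x < k, la s x k = la s.stN x 0
  gN' : ∀ s, Cn can s → ¬ Cn can s.stN → ∀ x < k, la s x k = Ln.z
  gS' : ∀ s, Cn can s.stN → ¬ Cn can s → ∀ x < k, la s.stN x 0 = Ln.z

namespace STab

variable {k : ℕ} (A : STab P k)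

lemma cn_can (f : P.Facet) : Cn A.can (A.can f) := by
  unfold Cn; rw [A.can_facet]

lemma act_can (f : P.Facet) : Act A.can (A.can f) := Or.inl (A.cn_can f)

lemma act_r2 {s : P.FSt} (h : Act A.can s) : Act A.can s.r2 := by
  rcases h with h | h
  · right; rw [FSt.r2_r2]; exact h
  · left; exact h

lemma act_iff {s : P.FSt} : Act A.can s ↔ ∃ g, s = A.can g ∨ s = (A.can g).r2 := by
  constructor
  · rintro (h | h)
    · exact ⟨s.facet, Or.inl h.symm⟩
    · exact ⟨s.facet, Or.inr (by rw [h, FSt.r2_r2])⟩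
  · rintro ⟨g, h | h⟩
    · rw [h]; exact A.act_can g
    · rw [h]; exact A.act_r2 (A.act_can g)

/-- facet form of the fields -/
lemma f_ok (f : P.Facet) (x y : ℕ) (hx : x < k) (hy : y < k) :
    okc (A.pr (A.can f) x y) (A.pr (A.can f) (x + 1) y) (A.la (A.can f) x (y + 1))
      (A.la (A.can f) x y) = true := A.ok _ (A.act_can f) x y hx hy

lemma f_gN (f g : P.Facet) (h : (A.can f).stN = A.can g) (x : ℕ) (hx : x < k) :
    A.la (A.can f) x k = A.la (A.can g) x 0 := by
  rw [A.gN _ (A.cn_can f) (by rw [h]; exact A.cn_can g) x hx, h]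

lemma f_gN' (f : P.Facet) (h : ∀ g, (A.can f).stN ≠ A.can g) (x : ℕ) (hx : x < k) :
    A.la (A.can f) x k = Ln.z := by
  apply A.gN' _ (A.cn_can f) _ x hx
  intro h'
  exact h _ (Eq.symm h')

lemma f_gS' (g : P.Facet) (h : ∀ f, (A.can f).stN ≠ A.can g) (x : ℕ) (hx : x < k) :
    A.la (A.can g) x 0 = Ln.z := by
  have e : (pN.symm (A.can g)).stN = A.can g := pN.apply_symm_apply (A.can g)
  have := A.gS' (pN.symm (A.can g)) (by rw [e]; exact A.cn_can g) (by
    intro h'
    apply h (pN.symm (A.can g)).facet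
    have h'' : A.can (pN.symm (A.can g)).facet = pN.symm (A.can g) := h'
    rw [h'', e]) x hx
  rwa [e] at this

lemma f_gE (f g : P.Facet) (h : (A.can f).stE = A.can g) (y : ℕ) (hy : y < k) :
    A.pr (A.can f) k y = A.pr (A.can g) 0 y := by
  rw [A.gE _ (A.act_can f) (by rw [h]; exact A.act_can g) y hy, h]

lemma f_gEr (f g : P.Facet) (h : (A.can f).stE = (A.can g).r2) (y : ℕ) (hy : y < k) :
    A.pr (A.can f) k y = A.pr (A.can g) k (k - 1 - y) := by
  rw [A.gE _ (A.act_can f) (by rw [h]; exact A.act_r2 (A.act_can g)) y hy, h,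
    A.pr_rot _ (A.act_can g) 0 y (Nat.zero_le _) hy, Nat.sub_zero]

lemma f_gWr (f g : P.Facet) (h : (A.can f).r2.stE = A.can g) (y : ℕ) (hy : y < k) :
    A.pr (A.can f) 0 y = A.pr (A.can g) 0 (k - 1 - y) := by
  have h1 := A.gE _ (A.act_r2 (A.act_can f)) (by rw [h]; exact A.act_can g) (k - 1 - y) (by omega)
  rw [h, A.pr_rot _ (A.act_can f) k (k - 1 - y) le_rfl (by omega), Nat.sub_self,
    show k - 1 - (k - 1 - y) = y by omega] at h1
  exact h1

lemma f_gE' (f : P.Facet) (h : ∀ g, (A.can f).stE ≠ A.can g ∧ (A.can f).stE ≠ (A.can g).r2)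
    (y : ℕ) (hy : y < k) : A.pr (A.can f) k y = false := by
  apply A.gE' _ (A.act_can f) _ y hy
  intro h'
  obtain ⟨g, h1 | h1⟩ := A.act_iff.1 h'
  · exact (h g).1 h1
  · exact (h g).2 h1

lemma f_gW' (f : P.Facet)
    (h : ∀ g, (A.can f).r2.stE ≠ A.can g ∧ (A.can f).r2.stE ≠ (A.can g).r2)
    (y : ℕ) (hy : y < k) : A.pr (A.can f) 0 y = false := by
  have h1 := A.gE' _ (A.act_r2 (A.act_can f)) (by
    intro h'
    obtain ⟨g, h1 | h1⟩ := A.act_iff.1 h'
    · exact (h g).1 h1
    · exact (h g).2 h1) (k - 1 - y) (by omega)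
  rw [A.pr_rot _ (A.act_can f) k (k - 1 - y) le_rfl (by omega), Nat.sub_self,
    show k - 1 - (k - 1 - y) = y by omega] at h1
  exact h1

open Classical in
/-- state form of a predicate on vertical unit edges -/
noncomputable def SV (k : ℕ) (can : P.Facet → P.FSt) (ψ : P.Facet → ℕ → ℕ → Prop) (s : P.FSt)
    (x y : ℕ) : Prop := if can s.facet = s then ψ s.facet x y else ψ s.facet (k - x) (k - 1 - y)

open Classical in
/-- state form of a predicate on horizontal unit edges -/
noncomputable def SH (k : ℕ) (can : P.Facet → P.FSt) (χ : P.Facet → ℕ → ℕ → Prop) (s : P.FSt)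
    (x y : ℕ) : Prop := if can s.facet = s then χ s.facet x y else χ s.facet (k - 1 - x) (k - y)

lemma r2_ne' (s : P.FSt) : s.r2 ≠ s := by
  intro h
  have h1 : opp s.1.e = s.1.e := congrArg (fun s : P.FSt => s.1.e) h
  revert h1
  generalize s.1.e = d
  revert d
  decide

lemma SV_can (ψ : P.Facet → ℕ → ℕ → Prop) (f : P.Facet) (x y : ℕ) :
    SV k A.can ψ (A.can f) x y ↔ ψ f x y := by
  unfold SV
  rw [A.can_facet, if_pos rfl]

lemma SH_can (χ : P.Facet → ℕ → ℕ → Prop) (f : P.Facet) (x y : ℕ) :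
    SH k A.can χ (A.can f) x y ↔ χ f x y := by
  unfold SH
  rw [A.can_facet, if_pos rfl]

lemma SV_r2can (ψ : P.Facet → ℕ → ℕ → Prop) (f : P.Facet) (x y : ℕ) :
    SV k A.can ψ (A.can f).r2 x y ↔ ψ f (k - x) (k - 1 - y) := by
  unfold SV
  rw [FSt.facet_r2, A.can_facet, if_neg]
  intro h; exact r2_ne' _ h.symm

lemma SH_r2can (χ : P.Facet → ℕ → ℕ → Prop) (f : P.Facet) (x y : ℕ) :
    SH k A.can χ (A.can f).r2 x y ↔ χ f (k - 1 - x) (k - y) := by
  unfold SH
  rw [FSt.facet_r2, A.can_facet, if_neg]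
  intro h; exact r2_ne' _ h.symm

/-- the relations of a table in state form -/
lemma srel {ψ χ : P.Facet → ℕ → ℕ → Prop}
    (h1 : ∀ f x y, x < k → y < k → ∀ p,
      usd (A.pr (A.can f) x y) (A.pr (A.can f) (x + 1) y) (A.la (A.can f) x (y + 1))
        (A.la (A.can f) x y) p = true →
      (prt (ψ f) (χ f) x y p ↔ prt (ψ f) (χ f) x y
        (mate (A.pr (A.can f) x y) (A.pr (A.can f) (x + 1) y) (A.la (A.can f) x (y + 1))
          (A.la (A.can f) x y) p)))
    (h2 : ∀ f g, (A.can f).stN = A.can g → ∀ x < k, A.la (A.can f) x k ≠ Ln.z →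
      (χ f x k ↔ χ g x 0))
    (h3 : ∀ f g, (A.can f).stE = A.can g → ∀ y < k, A.pr (A.can f) k y = true →
      (ψ f k y ↔ ψ g 0 y))
    (h4 : ∀ f g, (A.can f).stE = (A.can g).r2 → ∀ y < k, A.pr (A.can f) k y = true →
      (ψ f k y ↔ ψ g k (k - 1 - y)))
    (h5 : ∀ f g, (A.can f).r2.stE = A.can g → ∀ y < k, A.pr (A.can f) 0 y = true →
      (ψ f 0 y ↔ ψ g 0 (k - 1 - y))) :
    SRel k A.can A.pr A.la (SV k A.can ψ) (SH k A.can χ) where
  cell := fun s hs => by
    obtain ⟨f, hf | hf⟩ := A.act_iff.1 hs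
    · subst hf
      intro x y hx hy p hp
      have h := h1 f x y hx hy p hp
      have e : ∀ q, prt (SV k A.can ψ (A.can f)) (SH k A.can χ (A.can f)) x y q ↔
          prt (ψ f) (χ f) x y q := by
        intro q
        cases q
        · exact A.SV_can ψ f x y
        · exact A.SV_can ψ f (x + 1) y
        · exact A.SH_can χ f x (y + 1)
        · exact A.SH_can χ f x y
      rw [e, e]
      exact h
    · subst hf
      have hc : CellRel k (rV k (A.pr (A.can f).r2)) (rH k (A.la (A.can f).r2)) (ψ f) (χ f) := by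
        intro x y hx hy p hp
        have e1 : ∀ x y, x ≤ k → y < k → rV k (A.pr (A.can f).r2) x y = A.pr (A.can f) x y := by
          intro x y hx hy
          show A.pr (A.can f).r2 (k - x) (k - 1 - y) = _
          rw [A.pr_rot _ (A.act_can f) _ _ (by omega) (by omega)]
          congr 1 <;> omega
        have e2 : ∀ x y, x < k → y ≤ k → rH k (A.la (A.can f).r2) x y = A.la (A.can f) x y := by
          intro x y hx hy
          show A.la (A.can f).r2 (k - 1 - x) (k - y) = _
          rw [A.la_rot _ (A.act_can f) _ _ (by omega) (by omega)]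
          congr 1 <;> omega
        rw [e1 x y hx.le hy, e1 (x + 1) y hx hy, e2 x (y + 1) hx hy, e2 x y hx hy.le] at hp ⊢
        exact h1 f x y hx hy p hp
      have h := CellRel.unrot (A.ok _ (A.act_r2 (A.act_can f))) hc
      intro x y hx hy p hp
      have h' := h x y hx hy p hp
      have e : ∀ q, prt (SV k A.can ψ (A.can f).r2) (SH k A.can χ (A.can f).r2) x y q ↔
          prt (rV k (ψ f)) (rH k (χ f)) x y q := by
        intro q
        cases q
        · exact A.SV_r2can ψ f x y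
        · exact A.SV_r2can ψ f (x + 1) y
        · exact A.SH_r2can χ f x (y + 1)
        · exact A.SH_r2can χ f x y
      rw [e, e]
      exact h'
  rotV := fun s hs x y hx hy => by
    obtain ⟨f, hf | hf⟩ := A.act_iff.1 hs
    · subst hf
      rw [A.SV_r2can, A.SV_can]
    · subst hf
      rw [FSt.r2_r2, A.SV_can, A.SV_r2can, show k - (k - x) = x by omega,
        show k - 1 - (k - 1 - y) = y by omega]
  rotH := fun s hs x y hx hy => by
    obtain ⟨f, hf | hf⟩ := A.act_iff.1 hs
    · subst hf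
      rw [A.SH_r2can, A.SH_can]
    · subst hf
      rw [FSt.r2_r2, A.SH_can, A.SH_r2can, show k - (k - y) = y by omega,
        show k - 1 - (k - 1 - x) = x by omega]
  gE := fun s hs hs' y hy hp => by
    obtain ⟨f, hf⟩ := A.act_iff.1 hs
    obtain ⟨g, hg⟩ := A.act_iff.1 hs'
    rcases hf with hf | hf <;> rcases hg with hg | hg
    · subst hf
      rw [A.SV_can, hg, A.SV_can]
      exact h3 f g hg y hy hp
    · subst hf
      rw [A.SV_can, hg, A.SV_r2can, Nat.sub_zero]
      exact h4 f g hg y hy hp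
    · subst hf
      rw [A.SV_r2can, hg, A.SV_can, Nat.sub_self]
      have hp' : A.pr (A.can f) 0 (k - 1 - y) = true := by
        rw [A.pr_rot _ (A.act_can f) k y le_rfl hy, Nat.sub_self] at hp
        exact hp
      have := h5 f g hg (k - 1 - y) (by omega) hp'
      rwa [show k - 1 - (k - 1 - y) = y by omega] at this
    · subst hf
      rw [A.SV_r2can, hg, A.SV_r2can, Nat.sub_self, Nat.sub_zero]
      have e : (A.can g).stE = A.can f := by
        have h' := FSt.stE_inv (A.can f).r2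
        rw [hg, FSt.r2_r2, FSt.r2_r2] at h'
        exact h'
      have hp' : A.pr (A.can g) k (k - 1 - y) = true := by
        rw [A.f_gE g f e (k - 1 - y) (by omega)]
        rw [A.pr_rot _ (A.act_can f) k y le_rfl hy, Nat.sub_self] at hp
        exact hp
      exact (h3 g f e (k - 1 - y) (by omega) hp').symm
  gN := fun s hs hs' x hx hl => by
    have e1 : s = A.can s.facet := Eq.symm hs
    have e2 : s.stN = A.can s.stN.facet := Eq.symm hs'
    have h := h2 s.facet s.stN.facet (by rw [← e1, ← e2]) x hx (by rw [← e1]; exact hl)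
    unfold SH
    rw [if_pos (show A.can s.facet = s from hs), if_pos (show A.can s.stN.facet = s.stN from hs')]
    exact h

/-- coverage: every line reaches a west port (`w = true`) and an east port (`w = false`) -/
def Cov (A : STab P k) : Prop := ∀ s, Cn A.can s → ∀ x < k, ∀ w : Bool, ∃ z : ℤ,
  (∀ y ∈ Set.uIcc 0 z, Cn A.can ((pN ^ y) s)) ∧
  ∃ y < k, A.pr ((pN ^ z) s) (if w then x else x + 1) y = true

/-- connectivity -/
def Con (A : STab P k) : Prop := ∀ ψ χ : P.FSt → ℕ → ℕ → Prop, SRel k A.can A.pr A.la ψ χ →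
  ∃ c : Prop, (∀ s, Cn A.can s → ∀ x y, x ≤ k → y < k → A.pr s x y = true → (ψ s x y ↔ c)) ∧
    (∀ s, Cn A.can s → ∀ x y, x < k → y ≤ k → A.la s x y ≠ Ln.z → (χ s x y ↔ c))

/-- the table in facet form -/
noncomputable def tab (hne : Nonempty P.Facet) (hcov : A.Cov) (hcon : A.Con) : P.TabW k where
  hk := A.hk
  can := A.can
  can_facet := A.can_facet
  pr := fun f => A.pr (A.can f)
  la := fun f => A.la (A.can f)
  ok := A.f_ok
  gN := A.f_gN
  gN' := A.f_gN'
  gS' := A.f_gS'
  gE := A.f_gE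
  gEr := A.f_gEr
  gWr := A.f_gWr
  gE' := A.f_gE'
  gW' := A.f_gW'
  cov := fun f x hx w => by
    obtain ⟨z, h1, y, hy, h2⟩ := hcov (A.can f) (A.cn_can f) x hx w
    refine ⟨z, fun y hy => ⟨_, (h1 y hy).symm⟩, _, (h1 z Set.right_mem_uIcc).symm, y, hy, ?_⟩
    rw [h1 z Set.right_mem_uIcc]
    exact h2
  conn := fun ψ χ h1 h2 h3 h4 h5 => by
    obtain ⟨c, hc1, hc2⟩ := hcon _ _ (A.srel h1 h2 h3 h4 h5)
    refine ⟨c, ?_, ?_⟩
    · intro f x y hx hy hp
      rw [← A.SV_can ψ f x y]
      exact hc1 _ (A.cn_can f) x y hx hy hp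
    · intro f x y hx hy hp
      rw [← A.SH_can χ f x y]
      exact hc2 _ (A.cn_can f) x y hx hy hp
  ne := hne

theorem hasEdgeUnfolding (hne : Nonempty P.Facet) (hcov : A.Cov) (hcon : A.Con) (h5 : 0 < 5 * k) :
    (P.refine (5 * k) h5).HasEdgeUnfolding := (A.tab hne hcov hcon).hasEdgeUnfolding

end STab

end Pool.Agent.MP42H
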