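import Pool.Agent.MP42.H.Basic
import Pool.Agent.MP42.G.Flags

/-!
# GRT0: the handshake (owner helper48)

The used sides of the cells outside the core on one side of a tree band are paired in two ways: in
the cells, and over the unit edges.  Only the two feet on the band have no partner of the second
kind, so they have the same value.
-/

set_option autoImplicit false
set_option linter.unusedSectionVars false

namespace Pool.Agent.MP42H

open Pool.Agent.Helper55.UNF Pool.Agent.Helper55.UNF.GridSolid Pool.Agent.MP42G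
open Pool.Agent.MP42G.JCert (acS acS_int acS_end acS_acS acS_ne rL_stE)

variable {P : GridSolid}

namespace JC

variable {k : ℕ} (C : JC P k)

/-! ## Sides of cells -/

/-- the cell and the side (in the canonical frame) of the east side of the cell `(x, y)` in the
frame of `s` -/
def frS (s : P.FSt) (x y : ℕ) : ℕ × ℕ × Prt :=
  if s = C.can s.facet then (x, y, Prt.E)
  else if s = (C.can s.facet).r2 then (k - 1 - x, k - 1 - y, Prt.W)
  else if s = (C.can s.facet).rR then (y, k - 1 - x, Prt.S)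
  else (k - 1 - y, x, Prt.N)

/-- inverse of `frS` -/
def toS (f : P.Facet) (x y : ℕ) : Prt → P.FSt × ℕ × ℕ
  | Prt.E => (C.can f, x, y)
  | Prt.W => ((C.can f).r2, k - 1 - x, k - 1 - y)
  | Prt.S => ((C.can f).rR, k - 1 - y, x)
  | Prt.N => ((C.can f).rL, y, k - 1 - x)

lemma frS_can (f : P.Facet) (x y : ℕ) : C.frS (C.can f) x y = (x, y, Prt.E) := by
  unfold frS
  rw [if_pos (by rw [C.can_facet])]

lemma frS_r2 (f : P.Facet) (x y : ℕ) :
    C.frS (C.can f).r2 x y = (k - 1 - x, k - 1 - y, Prt.W) := by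
  unfold frS
  rw [FSt.facet_r2, C.can_facet, if_neg (r2_ne _), if_pos rfl]

lemma frS_rR (f : P.Facet) (x y : ℕ) : C.frS (C.can f).rR x y = (y, k - 1 - x, Prt.S) := by
  unfold frS
  rw [FSt.facet_rR, C.can_facet, if_neg (rR_ne _), if_neg (rR_ne_r2 _), if_pos rfl]

lemma frS_rL (f : P.Facet) (x y : ℕ) : C.frS (C.can f).rL x y = (k - 1 - y, x, Prt.N) := by
  unfold frS
  rw [FSt.facet_rL, C.can_facet, if_neg (rL_ne _), if_neg (rL_ne_r2 _), if_neg (rL_ne_rR _)]

lemma toS_facet (f : P.Facet) (x y : ℕ) (p : Prt) : (C.toS f x y p).1.facet = f := by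
  cases p
  · show (C.can f).r2.facet = f
    rw [FSt.facet_r2, C.can_facet]
  · exact C.can_facet f
  · show (C.can f).rL.facet = f
    rw [FSt.facet_rL, C.can_facet]
  · show (C.can f).rR.facet = f
    rw [FSt.facet_rR, C.can_facet]

lemma toS_lt {f : P.Facet} {x y : ℕ} (hx : x < k) (hy : y < k) (p : Prt) :
    (C.toS f x y p).2.1 < k ∧ (C.toS f x y p).2.2 < k := by
  cases p <;> simp only [toS] <;> omega

lemma frS_lt (s : P.FSt) {x y : ℕ} (hx : x < k) (hy : y < k) :
    (C.frS s x y).1 < k ∧ (C.frS s x y).2.1 < k := by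
  rcases rot4 (C.can_facet s.facet).symm with h | h | h | h
  · rw [h, C.frS_can]; exact ⟨hx, hy⟩
  · rw [h, C.frS_r2]; constructor <;> simp only <;> omega
  · rw [h, C.frS_rR]; constructor <;> simp only <;> omega
  · rw [h, C.frS_rL]; constructor <;> simp only <;> omega

lemma frS_toS {f : P.Facet} {x y : ℕ} (hx : x < k) (hy : y < k) (p : Prt) :
    C.frS (C.toS f x y p).1 (C.toS f x y p).2.1 (C.toS f x y p).2.2 = (x, y, p) := by
  cases p
  · show C.frS (C.can f).r2 (k - 1 - x) (k - 1 - y) = _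
    rw [C.frS_r2]
    congr 2 <;> omega
  · exact C.frS_can f x y
  · show C.frS (C.can f).rL y (k - 1 - x) = _
    rw [C.frS_rL]
    congr 1
    omega
  · show C.frS (C.can f).rR (k - 1 - y) x = _
    rw [C.frS_rR]
    congr 2
    omega

lemma toS_frS (s : P.FSt) {x y : ℕ} (hx : x < k) (hy : y < k) :
    C.toS s.facet (C.frS s x y).1 (C.frS s x y).2.1 (C.frS s x y).2.2 = (s, x, y) := by
  rcases rot4 (C.can_facet s.facet).symm with h | h | h | h
  · have e : C.frS s x y = (x, y, Prt.E) := by rw [h, C.frS_can]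
    rw [e]
    show (C.can s.facet, x, y) = _
    rw [← h]
  · have e : C.frS s x y = (k - 1 - x, k - 1 - y, Prt.W) := by rw [h, C.frS_r2]
    rw [e]
    show ((C.can s.facet).r2, k - 1 - (k - 1 - x), k - 1 - (k - 1 - y)) = _
    rw [← h]
    congr 2 <;> omega
  · have e : C.frS s x y = (y, k - 1 - x, Prt.S) := by rw [h, C.frS_rR]
    rw [e]
    show ((C.can s.facet).rR, k - 1 - (k - 1 - x), y) = _
    rw [← h]
    congr 2
    omega
  · have e : C.frS s x y = (k - 1 - y, x, Prt.N) := by rw [h, C.frS_rL]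
    rw [e]
    show ((C.can s.facet).rL, x, k - 1 - (k - 1 - y)) = _
    rw [← h]
    congr 2
    omega

/-- the side is used -/
def usS (s : P.FSt) (x y : ℕ) : Bool :=
  usd (C.pr s.facet (C.frS s x y).1 (C.frS s x y).2.1)
    (C.pr s.facet ((C.frS s x y).1 + 1) (C.frS s x y).2.1)
    (C.la s.facet (C.frS s x y).1 ((C.frS s x y).2.1 + 1))
    (C.la s.facet (C.frS s x y).1 (C.frS s x y).2.1) (C.frS s x y).2.2

/-- the value at the side -/
def vlS (ψ χ : P.Facet → ℕ → ℕ → Prop) (s : P.FSt) (x y : ℕ) : Prop :=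
  prt (ψ s.facet) (χ s.facet) (C.frS s x y).1 (C.frS s x y).2.1 (C.frS s x y).2.2

/-- the other used side of the cell -/
def mtS (s : P.FSt) (x y : ℕ) : P.FSt × ℕ × ℕ :=
  C.toS s.facet (C.frS s x y).1 (C.frS s x y).2.1
    (mate (C.pr s.facet (C.frS s x y).1 (C.frS s x y).2.1)
    (C.pr s.facet ((C.frS s x y).1 + 1) (C.frS s x y).2.1)
    (C.la s.facet (C.frS s x y).1 ((C.frS s x y).2.1 + 1))
    (C.la s.facet (C.frS s x y).1 (C.frS s x y).2.1) (C.frS s x y).2.2)

lemma usS_can (f : P.Facet) (x y : ℕ) : C.usS (C.can f) x y = C.pr f (x + 1) y := by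
  unfold usS; rw [C.frS_can, C.can_facet]; rfl

lemma usS_r2 (f : P.Facet) (x y : ℕ) :
    C.usS (C.can f).r2 x y = C.pr f (k - 1 - x) (k - 1 - y) := by
  unfold usS; rw [C.frS_r2, FSt.facet_r2, C.can_facet]; rfl

lemma usS_rR (f : P.Facet) (x y : ℕ) :
    C.usS (C.can f).rR x y = (C.la f y (k - 1 - x) != Ln.z) := by
  unfold usS; rw [C.frS_rR, FSt.facet_rR, C.can_facet]; rfl

lemma usS_rL (f : P.Facet) (x y : ℕ) :
    C.usS (C.can f).rL x y = (C.la f (k - 1 - y) (x + 1) != Ln.z) := by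
  unfold usS; rw [C.frS_rL, FSt.facet_rL, C.can_facet]; rfl

variable {ψ χ : P.Facet → ℕ → ℕ → Prop}

lemma vlS_can (f : P.Facet) (x y : ℕ) : C.vlS ψ χ (C.can f) x y ↔ ψ f (x + 1) y := by
  unfold vlS; rw [C.frS_can, C.can_facet]; exact Iff.rfl

lemma vlS_r2 (f : P.Facet) (x y : ℕ) :
    C.vlS ψ χ (C.can f).r2 x y ↔ ψ f (k - 1 - x) (k - 1 - y) := by
  unfold vlS; rw [C.frS_r2, FSt.facet_r2, C.can_facet]; exact Iff.rfl

lemma vlS_rR (f : P.Facet) (x y : ℕ) :
    C.vlS ψ χ (C.can f).rR x y ↔ χ f y (k - 1 - x) := by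
  unfold vlS; rw [C.frS_rR, FSt.facet_rR, C.can_facet]; exact Iff.rfl

lemma vlS_rL (f : P.Facet) (x y : ℕ) :
    C.vlS ψ χ (C.can f).rL x y ↔ χ f (k - 1 - y) (x + 1) := by
  unfold vlS; rw [C.frS_rL, FSt.facet_rL, C.can_facet]; exact Iff.rfl

/-! ### The mate -/

lemma mtS_spec {s : P.FSt} {x y : ℕ} (hx : x < k) (hy : y < k) (hc : C.rw s.facet = 0)
    (hu : C.usS s x y = true) :
    (C.mtS s x y).2.1 < k ∧ (C.mtS s x y).2.2 < k ∧ (C.mtS s x y).1.facet = s.facet ∧
    C.usS (C.mtS s x y).1 (C.mtS s x y).2.1 (C.mtS s x y).2.2 = true ∧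
    C.mtS (C.mtS s x y).1 (C.mtS s x y).2.1 (C.mtS s x y).2.2 = (s, x, y) ∧
    C.mtS s x y ≠ (s, x, y) ∧
    (C.Inv ψ χ → (C.vlS ψ χ s x y ↔
      C.vlS ψ χ (C.mtS s x y).1 (C.mtS s x y).2.1 (C.mtS s x y).2.2)) := by
  obtain ⟨h1, h2⟩ := C.frS_lt s hx hy
  have h3 := C.toS_frS s hx hy
  have hok := C.ok s.facet hc _ _ h1 h2
  set X := (C.frS s x y).1 with hX
  set Y := (C.frS s x y).2.1 with hY
  set p := (C.frS s x y).2.2 with hp
  have hu' : usd (C.pr s.facet X Y) (C.pr s.facet (X + 1) Y) (C.la s.facet X (Y + 1))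
    (C.la s.facet X Y) p = true := hu
  obtain ⟨m1, m2, m3⟩ := usd_mate _ _ _ _ hok p hu'
  set q := mate (C.pr s.facet X Y) (C.pr s.facet (X + 1) Y) (C.la s.facet X (Y + 1))
    (C.la s.facet X Y) p with hq
  have hm : C.mtS s x y = C.toS s.facet X Y q := rfl
  have hf := C.toS_facet s.facet X Y q
  have hfr := C.frS_toS (f := s.facet) h1 h2 q
  have hlt := C.toS_lt (f := s.facet) h1 h2 q
  rw [hm]
  refine ⟨hlt.1, hlt.2, hf, ?_, ?_, ?_, ?_⟩
  · unfold usS
    rw [hf, hfr]
    exact m1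
  · unfold mtS
    rw [hf, hfr]
    simp only
    rw [m2]
    exact h3
  · intro h
    apply m3
    rw [h] at hfr
    have : C.frS s x y = (X, Y, q) := hfr
    rw [hp, this]
  · intro I
    have := I.cell s.facet hc X Y h1 h2 p hu'
    unfold vlS
    rw [hf, hfr]
    exact this

/-! ### Across a unit edge -/

lemma acS_spec {s : P.FSt} {x y : ℕ} (hx : x < k) (hy : y < k) (hc : C.rw s.facet = 0)
    (hc' : x + 1 = k → C.rw s.stE.facet = 0) (hu : C.usS s x y = true) :
    (acS k s x y).2.1 < k ∧ (acS k s x y).2.2 < k ∧ C.rw (acS k s x y).1.facet = 0 ∧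
    (∀ Q, C.QJ Q → (Q (acS k s x y).1.facet ↔ Q s.facet)) ∧
    C.usS (acS k s x y).1 (acS k s x y).2.1 (acS k s x y).2.2 = true ∧
    (C.Inv ψ χ → (C.vlS ψ χ s x y ↔
      C.vlS ψ χ (acS k s x y).1 (acS k s x y).2.1 (acS k s x y).2.2)) := by
  by_cases hxk : x + 1 < k
  · rw [acS_int hxk]
    simp only
    have key : C.usS s.r2 (k - 2 - x) (k - 1 - y) = C.usS s x y ∧
        (C.vlS ψ χ s x y ↔ C.vlS ψ χ s.r2 (k - 2 - x) (k - 1 - y)) := by
      rcases rot4 (C.can_facet s.facet).symm with h | h | h | h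
      · obtain ⟨f, hf⟩ : ∃ f, f = s.facet := ⟨_, rfl⟩
        rw [← hf] at h
        subst h
        rw [C.usS_can, C.usS_r2, C.vlS_can, C.vlS_r2, show k - 1 - (k - 2 - x) = x + 1 by omega,
          show k - 1 - (k - 1 - y) = y by omega]
        exact ⟨rfl, Iff.rfl⟩
      · obtain ⟨f, hf⟩ : ∃ f, f = s.facet := ⟨_, rfl⟩
        rw [← hf] at h
        subst h
        rw [FSt.r2_r2, C.usS_can, C.usS_r2, C.vlS_can, C.vlS_r2,
          show k - 2 - x + 1 = k - 1 - x by omega]
        exact ⟨rfl, Iff.rfl⟩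
      · obtain ⟨f, hf⟩ : ∃ f, f = s.facet := ⟨_, rfl⟩
        rw [← hf] at h
        subst h
        rw [FSt.rR_r2, C.usS_rR, C.usS_rL, C.vlS_rR, C.vlS_rL,
          show k - 1 - (k - 1 - y) = y by omega, show k - 2 - x + 1 = k - 1 - x by omega]
        exact ⟨rfl, Iff.rfl⟩
      · obtain ⟨f, hf⟩ : ∃ f, f = s.facet := ⟨_, rfl⟩
        rw [← hf] at h
        subst h
        rw [FSt.rL_r2, C.usS_rR, C.usS_rL, C.vlS_rR, C.vlS_rL,
          show k - 1 - (k - 2 - x) = x + 1 by omega]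
        exact ⟨rfl, Iff.rfl⟩
    exact ⟨by omega, by omega, hc, fun _ _ => Iff.rfl, by rw [key.1]; exact hu, fun _ => key.2⟩
  · rw [acS_end hxk]
    simp only
    have hxe : x + 1 = k := by omega
    have hc2 := hc' hxe
    have e0 : k - 1 - (k - 1) = 0 := by omega
    have e1 : k - 1 + 1 = k := by omega
    have e2 : k - 1 - (k - 1 - y) = y := by omega
    have ex : x = k - 1 := by omega
    subst ex
    have hQ : ∀ Q, C.QJ Q → (Q s.stE.r2.facet ↔ Q s.facet) := fun Q hQ => (hQ s hc hc2).symm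
    refine ⟨by omega, by omega, hc2, hQ, ?_⟩
    clear hQ
    rcases rot4 (C.can_facet s.facet).symm with h | h | h | h
    · -- east side
      obtain ⟨f, hf⟩ : ∃ f, f = s.facet := ⟨_, rfl⟩
      rw [← hf] at h hc
      subst h
      rw [C.usS_can, e1] at hu
      have hex : ∃ g, (C.can f).stE = C.can g ∨ (C.can f).stE = (C.can g).r2 := by
        by_contra hcon
        push Not at hcon
        have := C.gE' f hc hc2 hcon y hy
        rw [hu] at this
        exact absurd this (by decide)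
      obtain ⟨g, hg | hg⟩ := hex
      · have hng : C.rw g = 0 := by rw [hg, C.can_facet] at hc2; exact hc2
        rw [hg, C.vlS_can, C.vlS_r2, e1, e0, e2]
        refine ⟨?_, fun I => I.gE f g hc hng hg y hy hu⟩
        rw [C.usS_r2, e0, e2, ← C.gE f g hc hng hg y hy]; exact hu
      · have hng : C.rw g = 0 := by rw [hg, FSt.facet_r2, C.can_facet] at hc2; exact hc2
        rw [hg, FSt.r2_r2, C.vlS_can, C.vlS_can, e1]
        refine ⟨?_, fun I => I.gEr f g hc hng hg y hy hu⟩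
        rw [C.usS_can, e1, ← C.gEr f g hc hng hg y hy]; exact hu
    · -- west side
      obtain ⟨f, hf⟩ : ∃ f, f = s.facet := ⟨_, rfl⟩
      rw [← hf] at h hc
      subst h
      rw [C.usS_r2, e0] at hu
      have hex : ∃ g, (C.can f).r2.stE = C.can g ∨ (C.can f).r2.stE = (C.can g).r2 := by
        by_contra hcon
        push Not at hcon
        have := C.gW' f hc hc2 hcon (k - 1 - y) (by omega)
        rw [hu] at this
        exact absurd this (by decide)
      obtain ⟨g, hg | hg⟩ := hex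
      · have hng : C.rw g = 0 := by rw [hg, C.can_facet] at hc2; exact hc2
        rw [hg, C.vlS_r2, C.vlS_r2, e0, e2]
        refine ⟨?_, fun I => ?_⟩
        · rw [C.usS_r2, e0, e2]
          have := C.gWr f g hc hng hg (k - 1 - y) (by omega)
          rw [e2] at this
          rw [← this]; exact hu
        · have := I.gWr f g hc hng hg (k - 1 - y) (by omega) hu
          rw [e2] at this
          exact this
      · have hng : C.rw g = 0 := by rw [hg, FSt.facet_r2, C.can_facet] at hc2; exact hc2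
        have hg' : (C.can g).stE = C.can f := by
          have := FSt.stE_inv (C.can f).r2
          rw [hg, FSt.r2_r2, FSt.r2_r2] at this
          exact this
        rw [hg, FSt.r2_r2, C.vlS_can, C.vlS_r2, e0, e1]
        have hu2 : C.pr g k (k - 1 - y) = true := by
          rw [C.gE g f hng hc hg' (k - 1 - y) (by omega)]; exact hu
        refine ⟨?_, fun I => ?_⟩
        · rw [C.usS_can, e1]; exact hu2
        · exact (I.gE g f hng hc hg' (k - 1 - y) (by omega) hu2).symm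
    · -- south side
      obtain ⟨f, hf⟩ : ∃ f, f = s.facet := ⟨_, rfl⟩
      rw [← hf] at h hc
      subst h
      rw [C.usS_rR, e0] at hu
      have hu' : C.la f y 0 ≠ Ln.z := by simpa using hu
      have hw : C.rw (C.can f).r2.stN.facet = 0 := by
        have : (C.can f).r2.stN.facet = (C.can f).rR.stE.facet := by
          show (C.can f).r2.rL.stE.rR.facet = _
          rw [FSt.r2_rL]; rfl
        rw [this]; exact hc2
      have hex : ∃ g, (C.can g).stN = C.can f := by
        by_contra hcon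
        push Not at hcon
        exact hu' (C.gS' f hc hw hcon y hy)
      obtain ⟨g, hg⟩ := hex
      have hs : (C.can f).rR.stE = (C.can g).rR := by
        have h1 := FSt.stE_inv (C.can g).rL
        rw [rL_stE, hg, FSt.rL_r2, FSt.rL_r2] at h1
        exact h1
      have hng : C.rw g = 0 := by rw [hs, FSt.facet_rR, C.can_facet] at hc2; exact hc2
      have hu2 : C.la g y k ≠ Ln.z := by rw [C.gN g f hng hc hg y hy]; exact hu'
      rw [hs, FSt.rR_r2, C.vlS_rR, C.vlS_rL, e0, e1, e2]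
      refine ⟨?_, fun I => ?_⟩
      · rw [C.usS_rL, e1, e2]; simpa using hu2
      · exact (I.gN g f hng hc hg y hy hu2).symm
    · -- north side
      obtain ⟨f, hf⟩ : ∃ f, f = s.facet := ⟨_, rfl⟩
      rw [← hf] at h hc
      subst h
      rw [C.usS_rL, e1] at hu
      have hu' : C.la f (k - 1 - y) k ≠ Ln.z := by simpa using hu
      have hw : C.rw (C.can f).stN.facet = 0 := by
        have : (C.can f).stN.facet = (C.can f).rL.stE.facet := rfl
        rw [this]; exact hc2
      have hex : ∃ g, (C.can f).stN = C.can g := by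
        by_contra hcon
        push Not at hcon
        exact hu' (C.gN' f hc hw hcon (k - 1 - y) (by omega))
      obtain ⟨g, hg⟩ := hex
      have hng : C.rw g = 0 := by rw [hg, C.can_facet] at hw; exact hw
      have hu2 : C.la g (k - 1 - y) 0 ≠ Ln.z := by
        rw [← C.gN f g hc hng hg (k - 1 - y) (by omega)]; exact hu'
      rw [rL_stE, hg, FSt.rL_r2, C.vlS_rR, C.vlS_rL, e0, e1]
      refine ⟨?_, fun I => ?_⟩
      · rw [C.usS_rR, e0]; simpa using hu2
      · exact I.gN f g hc hng hg (k - 1 - y) (by omega) hu'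

/-! ### The feet -/

lemma foot_us (t : P.FSt) {y : ℕ} (hy : y < k) :
    (C.usS t.rL (k - 1) y = true ↔ wn k C.can C.la t (k - 1 - y) ≠ Ln.z ∨
      wo k C.can C.pr t y = true) := by
  have e0 : k - 1 - (k - 1) = 0 := by omega
  have e1 : k - 1 + 1 = k := by omega
  have e2 : k - 1 - (k - 1 - y) = y := by omega
  unfold wn wo
  rcases rot4 (s := t) (t := C.can t.facet) (C.can_facet t.facet).symm with h | h | h | h
  · obtain ⟨f, hf⟩ : ∃ f, f = t.facet := ⟨_, rfl⟩
    rw [← hf] at h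
    subst h
    rw [C.usS_rL, e1, C.can_facet, if_pos rfl, if_neg (rL_ne _).symm, if_neg (rR_ne _).symm]
    simp
  · obtain ⟨f, hf⟩ : ∃ f, f = t.facet := ⟨_, rfl⟩
    rw [← hf] at h
    subst h
    rw [FSt.r2_rL, C.usS_rR, e0, FSt.facet_r2, C.can_facet, FSt.r2_r2, FSt.r2_rR,
      if_neg (r2_ne _).symm, if_pos rfl, if_neg (rR_ne _).symm, if_neg (rL_ne _).symm, e2]
    simp
  · obtain ⟨f, hf⟩ : ∃ f, f = t.facet := ⟨_, rfl⟩
    rw [← hf] at h
    subst h
    rw [FSt.rR_rL, C.usS_can, e1, FSt.facet_rR, C.can_facet, FSt.rR_r2, if_neg (rR_ne _).symm,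
      if_neg (rL_ne _).symm, if_pos rfl]
    simp
  · obtain ⟨f, hf⟩ : ∃ f, f = t.facet := ⟨_, rfl⟩
    rw [← hf] at h
    subst h
    rw [FSt.rL_rL, C.usS_r2, e0, FSt.facet_rL, C.can_facet, FSt.rL_r2, FSt.rL_rR,
      if_neg (rL_ne _).symm, if_neg (rR_ne _).symm, if_neg (r2_ne _).symm, if_pos rfl]
    simp

lemma foot_vn (t : P.FSt) {y : ℕ} (hy : y < k) (h0 : wn k C.can C.la t (k - 1 - y) ≠ Ln.z) :
    (C.vlS ψ χ t.rL (k - 1) y ↔ C.vn χ t (k - 1 - y)) := by
  have e0 : k - 1 - (k - 1) = 0 := by omega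
  have e1 : k - 1 + 1 = k := by omega
  have e2 : k - 1 - (k - 1 - y) = y := by omega
  unfold wn at h0
  unfold vn
  rcases rot4 (s := t) (t := C.can t.facet) (C.can_facet t.facet).symm with h | h | h | h
  · obtain ⟨f, hf⟩ : ∃ f, f = t.facet := ⟨_, rfl⟩
    rw [← hf] at h
    subst h
    rw [C.vlS_rL, e1, C.can_facet, if_pos rfl]
  · obtain ⟨f, hf⟩ : ∃ f, f = t.facet := ⟨_, rfl⟩
    rw [← hf] at h
    subst h
    rw [FSt.r2_rL, C.vlS_rR, e0, FSt.facet_r2, C.can_facet, if_neg (r2_ne _).symm, e2]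
  · obtain ⟨f, hf⟩ : ∃ f, f = t.facet := ⟨_, rfl⟩
    rw [← hf] at h
    subst h
    rw [FSt.facet_rR, C.can_facet, FSt.rR_r2, if_neg (rR_ne _).symm, if_neg (rL_ne _).symm] at h0
    exact absurd rfl h0
  · obtain ⟨f, hf⟩ : ∃ f, f = t.facet := ⟨_, rfl⟩
    rw [← hf] at h
    subst h
    rw [FSt.facet_rL, C.can_facet, FSt.rL_r2, if_neg (rL_ne _).symm, if_neg (rR_ne _).symm] at h0
    exact absurd rfl h0

lemma foot_vo (t : P.FSt) (h0 : wo k C.can C.pr t C.m = true) :
    (C.vlS ψ χ t.rL (k - 1) C.m ↔ C.vo ψ t) := by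
  have hk := C.hk
  have e0 : k - 1 - (k - 1) = 0 := by omega
  have e1 : k - 1 + 1 = k := by omega
  have e2 : k - 1 - C.m = C.m := by omega
  unfold wo at h0
  unfold vo
  rcases rot4 (s := t) (t := C.can t.facet) (C.can_facet t.facet).symm with h | h | h | h
  · obtain ⟨f, hf⟩ : ∃ f, f = t.facet := ⟨_, rfl⟩
    rw [← hf] at h
    subst h
    rw [C.can_facet, if_neg (rL_ne _).symm, if_neg (rR_ne _).symm] at h0
    exact absurd h0 (by decide)
  · obtain ⟨f, hf⟩ : ∃ f, f = t.facet := ⟨_, rfl⟩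
    rw [← hf] at h
    subst h
    rw [FSt.facet_r2, C.can_facet, FSt.r2_rL, FSt.r2_rR, if_neg (rR_ne _).symm,
      if_neg (rL_ne _).symm] at h0
    exact absurd h0 (by decide)
  · obtain ⟨f, hf⟩ : ∃ f, f = t.facet := ⟨_, rfl⟩
    rw [← hf] at h
    subst h
    rw [FSt.rR_rL, C.vlS_can, e1, FSt.facet_rR, C.can_facet, if_pos rfl]
  · obtain ⟨f, hf⟩ : ∃ f, f = t.facet := ⟨_, rfl⟩
    rw [← hf] at h
    subst h
    rw [FSt.rL_rL, C.vlS_r2, e0, e2, FSt.facet_rL, C.can_facet, if_neg (r2_ne _).symm]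

/-- the feet of a rim -/
lemma foot_iff {r : P.FSt} (h : C.Rim r) {y : ℕ} (hy : y < k) :
    (C.usS (pN.symm r).rL (k - 1) y = true ↔ (C.fa r ∧ y + 1 = k) ∨
      (¬ C.tr r ∧ C.fa r.stE ∧ y = 0) ∨ (C.tr r ∧ C.fb r ∧ y = C.m)) := by
  rw [C.foot_us _ hy, C.rn r h _ (by omega), C.ro r h y hy]
  have hk := C.hk
  by_cases h1 : C.fa r ∧ k - 1 - y = 0
  · rw [if_pos h1]
    have : y + 1 = k := by omega
    simp [h1.1, this]
  · rw [if_neg h1]
    have h1' : ¬ (C.fa r ∧ y + 1 = k) := fun h => h1 ⟨h.1, by omega⟩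
    by_cases h2 : ¬ C.tr r ∧ C.fa r.stE ∧ k - 1 - y + 1 = k
    · rw [if_pos h2]
      have : y = 0 := by omega
      simp [h2.1, h2.2.1, this]
    · rw [if_neg h2]
      have h2' : ¬ (¬ C.tr r ∧ C.fa r.stE ∧ y = 0) := fun h => h2 ⟨h.1, h.2.1, by omega⟩
      simp only [ne_eq, not_true_eq_false, false_or, decide_eq_true_eq]
      tauto

end JC

end Pool.Agent.MP42H
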