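import Pool.Agent.MP42.H.ATab

/-!
# Supports of leaning facets

A leaning facet carries no strand.  It has a base `g`, crossed straight by a strand, `n` steps to
the south in its own direction (the frames and strands in between do not matter), and it is glued
to its neighbour on the side `E`, which is a regular facet that hangs on the same strand, or again a
leaning facet.

* `Pl n g y0`: the place of the leaning facet `(pN ^ n) g` is `n` steps to the north of the strand
  in the row `y0` of `g`;
* `K E s`: the side column of `s` that is opposite to `E` hangs on its southern neighbour.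
-/

set_option autoImplicit false
set_option linter.unusedSectionVars false

namespace Pool.Agent.MP42H

open Pool.Agent.Helper55.UNF Pool.Agent.Helper55.UNF.GridSolid

variable {P : GridSolid}

/-- the neighbour in the east (`E = true`) or in the west -/
def nbr (E : Bool) (s : P.FSt) : P.FSt := if E then pE s else pE.symm s

/-- the line of the side that is opposite to `E` -/
def sln (k : ℕ) (E : Bool) : ℕ := if E then 0 else k

/-- `Sup .. E n g y0`: the facet `n` steps to the north of `g` is supported by the strand in the row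
`y0` of `g`: it is regular and its column hangs on this strand, or it is leaning and its neighbour
on the side `E` is supported. -/
inductive Sup (k : ℕ) (can : P.Facet → P.FSt) (pr : P.FSt → ℕ → ℕ → Bool)
    (la : P.FSt → ℕ → ℕ → Ln) (L : P.Facet → Prop) (Pl : ℕ → P.FSt → ℕ → Prop)
    (K : Bool → P.FSt → Prop) (E : Bool) (n : ℕ) : P.FSt → ℕ → Prop
  | reg (g : P.FSt) (y0 : ℕ) (hy : y0 < k)
      (h1 : ∀ y : ℕ, y ≤ n → Act can ((pN ^ y) g) ∧ ¬ L ((pN ^ y) g).facet)
      (h2 : pr g (sln k E) y0 = true)
      (h3 : ∀ j, y0 < j → j < k → pr g (sln k E) j = false)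
      (h4 : ∀ y : ℕ, 0 < y → y ≤ n → ∀ j < k, pr ((pN ^ y) g) (sln k E) j = false)
      (h5 : ∀ y : ℕ, 0 < y → y ≤ n → K E ((pN ^ y) g)) :
      Sup k can pr la L Pl K E n g y0
  | lng (g : P.FSt) (y0 : ℕ) (hy : y0 < k) (h1 : Act can g)
      (h2 : Pl n g y0) (h3 : L ((pN ^ n) g).facet) (h4 : ∀ x ≤ k, pr g x y0 = true)
      (h5 : ∀ x < k, la g x y0 = Ln.z ∧ la g x (y0 + 1) = Ln.z)
      (h6 : ∀ y : ℕ, y ≤ n → nbr E ((pN ^ y) g) = (pN ^ y) (nbr E g))
      (h7 : Sup k can pr la L Pl K E n (nbr E g) y0) : Sup k can pr la L Pl K E n g y0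

/-- leaning facets of a table -/
structure ATab.Lng {k : ℕ} (A : ATab P k) (L : P.Facet → Prop) (Pl : ℕ → P.FSt → ℕ → Prop)
    (K : Bool → P.FSt → Prop) : Prop where
  no_pr : ∀ s, Act A.can s → L s.facet → ∀ x y, x ≤ k → y < k → A.pr s x y = false
  no_la : ∀ s, Act A.can s → L s.facet → ∀ x y, x < k → y ≤ k → A.la s x y = Ln.z
  /-- a leaning facet has one place -/
  uniq : ∀ n g y n' g' y', Pl n g y → Pl n' g' y' → L ((pN ^ n) g).facet →
    ((pN ^ n) g).facet = ((pN ^ n') g').facet → n = n' ∧ g = g' ∧ y = y'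
  /-- a side column is not used in both directions -/
  nc : ∀ E s, K E s → ¬ K (!E) s.r2
  sup : ∀ f, L f → ∃ (g : P.FSt) (y0 n : ℕ) (E : Bool), ((pN ^ n) g).facet = f ∧
    Sup k A.can A.pr A.la L Pl K E n g y0

/-- the states on the chain of `s`, without leaning facets -/
def ChL (can : P.Facet → P.FSt) (L : P.Facet → Prop) (s t : P.FSt) : Prop :=
  ∃ z : ℤ, (∀ y ∈ Set.uIcc 0 z, Act can ((pN ^ y) s) ∧ ¬ L ((pN ^ y) s).facet) ∧ (pN ^ z) s = t

/-- coverage of the regular facets -/
def ATab.CovL {k : ℕ} (A : ATab P k) (L : P.Facet → Prop) : Prop :=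
  ∀ s, Act A.can s → ¬ L s.facet → ∀ x < k, ∀ w : Bool, ∃ t, ChL A.can L s t ∧
    ∃ y < k, A.pr t (if w then x else x + 1) y = true

end Pool.Agent.MP42H
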