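import Pool.Agent.MP42.H.TabC
import Pool.Agent.MP42.H.One

/-!
# The values of the strands of the core
-/

set_option autoImplicit false
set_option linter.unusedSectionVars false

namespace Pool.Agent.MP42H

open Pool.Agent.Helper55.UNF Pool.Agent.Helper55.UNF.GridSolid Pool.Agent.MP42G

variable {P : GridSolid}

namespace JC

variable {k : ℕ} {C : JC P k} {r s : P.FSt} {ψ χ : P.FSt → ℕ → ℕ → Prop} {c c' : Prop}

/-- all used edges of the facet of `s` have the value `c` -/
def OneS (C : JC P k) (ψ χ : P.FSt → ℕ → ℕ → Prop) (s : P.FSt) (c : Prop) : Prop :=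
  OneV k (C.PR s) (C.LA s) (ψ s) (χ s) c

lemma OneS.congr (h : C.OneS ψ χ s c) (e : c ↔ c') : C.OneS ψ χ s c' :=
  ⟨fun x y hx hy hp => (h.1 x y hx hy hp).trans e, fun x y hx hy hp => (h.2 x y hx hy hp).trans e⟩

section Rel

variable (hR : ARel k C.canF C.PR C.LA ψ χ)

include hR

lemma OneS.rot (h : C.OneS ψ χ s c) (hs : Act C.canF s) : C.OneS ψ χ s.r2 c := by
  constructor
  · intro x y hx hy hp
    rw [PR_rot hs hx hy] at hp
    rw [hR.rotV s hs x y hx hy]
    exact h.1 _ _ (by omega) (by omega) hp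
  · intro x y hx hy hp
    rw [LA_rot hs hx hy] at hp
    rw [hR.rotH s hs x y hx hy]
    exact h.2 _ _ (by omega) (by omega) hp

/-- the values over a used vertical side -/
lemma linkE {y : ℕ} (hy : y < k) (hu : C.EV s y = true) : Act C.canF s ∧ Act C.canF s.stE ∧
    C.PR s k y = true ∧ C.PR s.stE 0 y = true ∧ (ψ s k y ↔ ψ s.stE 0 y) := by
  have h1 := C.sideE s hy
  rw [hu] at h1
  unfold EV at hu
  by_cases hs : Act C.canF s
  · rw [if_pos hs] at hu
    by_cases hs' : Act C.canF s.stE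
    · rw [if_pos hs'] at h1
      exact ⟨hs, hs', hu, h1.symm, hR.gE s hs hs' y hy hu⟩
    · rw [if_neg hs'] at h1
      exact absurd h1 (by simp)
  · rw [if_neg hs] at hu
    exact absurd hu (by simp)

/-- the values over a used horizontal side -/
lemma linkN {x : ℕ} (hx : x < k) (hu : C.NV s x ≠ Ln.z) : Act C.canF s ∧ Act C.canF s.stN ∧
    C.LA s x k ≠ Ln.z ∧ C.LA s.stN x 0 ≠ Ln.z ∧ (χ s x k ↔ χ s.stN x 0) := by
  have h1 := C.sideN s hx
  have h2 := hu
  rw [h1] at h2
  unfold NV at hu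
  by_cases hs : Act C.canF s
  · rw [if_pos hs] at hu
    by_cases hs' : Act C.canF s.stN
    · rw [if_pos hs'] at h2
      exact ⟨hs, hs', hu, h2, hR.gN s hs hs' x hx hu⟩
    · rw [if_neg hs'] at h2
      exact absurd rfl h2
  · rw [if_neg hs] at hu
    exact absurd rfl hu

lemma linkE' {y : ℕ} (hy : y < k) (hu : C.EV s y = true) (h : C.OneS ψ χ s c)
    (h' : C.OneS ψ χ s.stE c') : c ↔ c' := by
  obtain ⟨-, -, h1, h2, h3⟩ := linkE hR hy hu
  exact (h.1 k y le_rfl hy h1).symm.trans (h3.trans (h'.1 0 y (Nat.zero_le _) hy h2))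

lemma linkN' {x : ℕ} (hx : x < k) (hu : C.NV s x ≠ Ln.z) (h : C.OneS ψ χ s c)
    (h' : C.OneS ψ χ s.stN c') : c ↔ c' := by
  obtain ⟨-, -, h1, h2, h3⟩ := linkN hR hx hu
  exact (h.2 x k hx le_rfl h1).symm.trans (h3.trans (h'.2 x 0 hx (Nat.zero_le _) h2))

/-! ## Every facet of the core has one strand -/

lemma one_Y (h : CU C.toRows r) (ht : C.tr (rho C.toRows r)) (hY : C.nn r ≤ C.tt r) :
    ∃ c, C.OneS ψ χ r c := by
  have hk := C.hk
  have hm := C.hm
  have e1 : C.PR r = YP C.m (C.ci r) (C.co r) (C.nn r) (C.tt r) := by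
    funext x y; rw [PR_r h]; unfold TY; rw [if_pos ht]
  have e2 : C.LA r = YL C.m (C.ci r) (C.co r) (C.nn r) (C.tt r) := by
    funext x y; rw [LA_r h]; unfold LY; rw [if_pos ht]
  have hA : Act C.canF r := (act_r h).2 (fun _ => hY)
  have hc := hR.cell r hA
  unfold OneS
  rw [e1, e2] at hc ⊢
  apply Y_one hc (by omega)
  · unfold ci; split_ifs <;> omega
  · unfold co; split_ifs <;> omega
  · intro h1 h2
    unfold ci co
    rw [if_neg, if_neg]
    · intro h5
      have := tt_pos h ht (Or.inr h5)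
      omega
    · intro h5
      have := tt_pos h ht (Or.inl h5)
      omega

lemma one_X (h : CU C.toRows r) (ht : C.tr (rho C.toRows r)) (hX : C.tt r < C.nn r) :
    ∃ c, C.OneS ψ χ r.rL c := by
  have hk := C.hk
  have e1 : C.PR r.rL = XP C.m (C.nn r) (C.uu r) (C.vv r) := by
    funext x y; rw [PR_rL h]; rfl
  have e2 : C.LA r.rL = XL C.m (C.nn r) (C.uu r) (C.vv r) := by
    funext x y; rw [LA_rL h]; rfl
  have hA : Act C.canF r.rL := (act_rL h).2 (fun h2 => by have := h2 ht; omega)
  have hc := hR.cell r.rL hA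
  unfold OneS
  rw [e1, e2] at hc ⊢
  exact X_one hc (by omega) (order h ht).2.2.1

lemma one_C1 (h : CU C.toRows r) (ht : ¬ C.tr (rho C.toRows r))
    (h1 : C.rw r.facet = 1 ∧ C.ac (rho C.toRows r)) : ∃ c, C.OneS ψ χ r c := by
  have hk := C.hk
  have hm := C.hm
  have e1 : C.PR r = CP C.m k (C.na r) (C.LL r) := by
    funext x y; rw [PR_r h]; unfold TY; rw [if_neg ht, if_pos h1]
  have e2 : C.LA r = CL C.m k (C.na r) (C.LL r) := by
    funext x y; rw [LA_r h]; unfold LY; rw [if_neg ht, if_pos h1]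
  have hc := hR.cell r ((act_r h).2 (YY_cut h ht))
  unfold OneS
  rw [e1, e2] at hc ⊢
  exact C_one hc (by omega) (by omega)

end Rel

lemma OneV_congr {pr pr' : ℕ → ℕ → Bool} {la la' : ℕ → ℕ → Ln} {ψ χ : ℕ → ℕ → Prop}
    (hp : ∀ x y, x ≤ k → y < k → pr' x y = pr x y) (hl : ∀ x y, x < k → y ≤ k → la' x y = la x y)
    (h : OneV k pr la ψ χ c) : OneV k pr' la' ψ χ c :=
  ⟨fun x y hx hy h1 => h.1 x y hx hy (by rw [← hp x y hx hy]; exact h1),
   fun x y hx hy h1 => h.2 x y hx hy (by rw [← hl x y hx hy]; exact h1)⟩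

lemma CellRel_congr {pr pr' : ℕ → ℕ → Bool} {la la' : ℕ → ℕ → Ln} {ψ χ : ℕ → ℕ → Prop}
    (hp : ∀ x y, x ≤ k → y < k → pr' x y = pr x y) (hl : ∀ x y, x < k → y ≤ k → la' x y = la x y)
    (h : CellRel k pr la ψ χ) : CellRel k pr' la' ψ χ := by
  intro x y hx hy p
  rw [hp x y hx.le hy, hp (x + 1) y hx hy, hl x (y + 1) hx hy, hl x y hx hy.le]
  exact h x y hx hy p

section Rel

variable (hR : ARel k C.canF C.PR C.LA ψ χ)

include hR

lemma one_C5 (h : CU C.toRows r) (ht : ¬ C.tr (rho C.toRows r))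
    (h5 : C.rw r.facet = 5 ∧ C.ac (Rows.far (rho C.toRows r))) : ∃ c, C.OneS ψ χ r.r2 c := by
  have hk := C.hk
  have hm := C.hm
  have e1 : ∀ x y, x ≤ k → y < k → C.PR r.r2 x y = CP C.m k (C.na' r) (C.LL r) x y := by
    intro x y hx hy
    rw [PR_r2 h]
    unfold TY
    rw [if_neg ht, if_neg (by omega), if_pos h5, show k - (k - x) = x by omega,
      show k - 1 - (k - 1 - y) = y by omega]
  have e2 : ∀ x y, x < k → y ≤ k → C.LA r.r2 x y = CL C.m k (C.na' r) (C.LL r) x y := by
    intro x y hx hy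
    rw [LA_r2 h]
    unfold LY
    rw [if_neg ht, if_neg (by omega), if_pos h5, show k - 1 - (k - 1 - x) = x by omega,
      show k - (k - y) = y by omega]
  have hc := hR.cell r.r2 ((act_r2 h).2 (YY_cut h ht))
  have hc' := CellRel_congr (pr' := CP C.m k (C.na' r) (C.LL r))
    (la' := CL C.m k (C.na' r) (C.LL r)) (fun x y hx hy => (e1 x y hx hy).symm)
    (fun x y hx hy => (e2 x y hx hy).symm) hc
  obtain ⟨c, hc2⟩ := C_one hc' (by omega) (by omega)
  exact ⟨c, OneV_congr e1 e2 hc2⟩

/-! ## The values of the strands -/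

/-- Value of the strand `+` of a tree band. -/
lemma val_Y : ∀ (i n : ℕ) (r : P.FSt), CU C.toRows r → C.tr (rho C.toRows r) →
    C.rw r.facet = i → C.nn r = n → n ≤ C.tt r →
    C.OneS ψ χ r (χ (pN.symm (C.aa (rho C.toRows r))) 0 k) := by
  have hk := C.hk
  have hm := C.hm
  intro i
  induction i with
  | zero => intro n r h _ h0; exact absurd h0 h.2
  | succ i ihi =>
    intro n
    induction n with
    | zero =>
      intro r h ht hw hn htt
      obtain ⟨c, hc⟩ := one_Y hR h ht (by omega)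
      by_cases h1 : C.rw r.facet = 1
      · -- the foot
        have hl : Lo C.toRows r := ⟨h.1, h1⟩
        have e := hl.rho
        rw [e] at ht ⊢
        have hf := (fa_row1 hl ht).2 hn
        have ea : C.aa r = r := ((fa_iff hl.rim (act_of hl.rim ht)).1 hf).symm
        rw [ea]
        have hu : C.NV (pN.symm r) 0 ≠ Ln.z := by
          rw [NV_J (rw_J hl.rim), C.rn r hl.rim 0 (by omega), if_pos ⟨hf, rfl⟩]; decide
        obtain ⟨-, -, -, h3, h4⟩ := linkN hR (by omega) hu
        rw [stN_pN_symm] at h3 h4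
        exact hc.congr ((hc.2 0 0 (by omega) (Nat.zero_le _) h3).symm.trans h4.symm)
      · obtain ⟨t, rfl⟩ : ∃ t : P.FSt, t.stN = r := ⟨pN.symm r, by simp⟩
        obtain ⟨g1, g2⟩ := h.S h1
        rw [pN_s] at g1 g2
        have h5 := C.le5 t.stN.facet
        have e := g1.rho_N (by omega)
        rw [e] at ht ⊢
        have h6 := (row_N g1 ht (by omega)).1.2 hn
        have h7 := ihi (C.nn t) t g1 ht (by omega) rfl h6.le
        have hu : C.NV t C.m ≠ Ln.z := by
          rw [NV_r_tree g1 ht, if_pos]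
          · decide
          · refine ⟨h6, ?_⟩
            unfold co
            rw [if_neg (show ¬ C.rw t.facet = 5 by omega)]
        exact hc.congr (linkN' hR (by omega) hu h7 hc).symm
    | succ n ihn =>
      intro r h ht hw hn htt
      obtain ⟨c, hc⟩ := one_Y hR h ht (by omega)
      obtain ⟨t, rfl⟩ : ∃ t : P.FSt, t.stE = r := ⟨pE.symm r, by simp⟩
      have h' : CU C.toRows t := by
        have := h.W; rw [pE_s] at this; exact this.1
      have ht' := (tr_rho_E h').1 ht
      obtain ⟨e1, e2, e3, e4, e5⟩ := row_E h' ht'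
      have e7 : C.nn t = n := by
        rw [e1] at hn
        split_ifs at hn
        omega
      have h7 := ihn t h' ht' (by rw [← h'.stE.2]; exact hw) e7 (by omega)
      have ea : C.aa (rho C.toRows t.stE) = C.aa (rho C.toRows t) := by
        rw [h'.rho_E]
        exact aa_same h'.lo_rho.rim (act_of h'.lo_rho.rim ht') (same_E _)
      rw [ea]
      have hu : C.EV t C.m = true := by
        rw [EV_r_tree h' ht']; omega
      exact hc.congr (linkE' hR (by omega) hu h7 hc).symm

/-- Value of the strand `0` of a tree band. -/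
lemma val_X : ∀ (i n : ℕ) (r : P.FSt), CU C.toRows r → C.tr (rho C.toRows r) →
    C.rw r.facet = i → C.nn r = C.uu r + n → C.nn r ≤ C.vv r →
    C.OneS ψ χ r.rL (ψ (pN.symm (C.bb (rho C.toRows r))).rL k C.m) := by
  have hk := C.hk
  have hm := C.hm
  intro i
  induction i with
  | zero => intro n r h _ h0; exact absurd h0 h.2
  | succ i ihi =>
    intro n
    induction n with
    | zero =>
      intro r h ht hw hn htt
      obtain ⟨o1, o2, o3, o4⟩ := order h ht
      obtain ⟨c, hc⟩ := one_X hR h ht (by omega)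
      by_cases h1 : C.rw r.facet = 1
      · -- the foot
        have hl : Lo C.toRows r := ⟨h.1, h1⟩
        have e := hl.rho
        rw [e] at ht ⊢
        have hf := (fb_row1 hl ht).2 (by omega)
        have eb : C.bb r = r := ((fb_iff hl.rim ht).1 hf).symm
        rw [eb]
        have hu : C.EV (pN.symm r).rL C.m = true := by
          rw [EV_J (rw_J hl.rim), C.ro r hl.rim _ (by omega)]
          simp [ht, hf]
        obtain ⟨-, -, -, h3, h4⟩ := linkE hR (by omega) hu
        rw [rL_stE', stN_pN_symm] at h3 h4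
        exact hc.congr ((hc.1 0 C.m (Nat.zero_le _) (by omega) h3).symm.trans h4.symm)
      · obtain ⟨t, rfl⟩ : ∃ t : P.FSt, t.stN = r := ⟨pN.symm r, by simp⟩
        obtain ⟨g1, g2⟩ := h.S h1
        rw [pN_s] at g1 g2
        have h5 := C.le5 t.stN.facet
        have e := g1.rho_N (by omega)
        rw [e] at ht ⊢
        obtain ⟨p1, p2, p3, p4⟩ := order g1 ht
        have h6 := (row_N g1 ht (by omega)).2.1.2 (by omega)
        have h7 := ihi (C.vv t - C.uu t) t g1 ht (by omega) (by omega) (by omega)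
        have hu : C.EV t.rL C.m = true := by
          rw [EV_rL_tree g1 ht]; exact ⟨rfl, h6⟩
        have := linkE' hR (s := t.rL) (by omega) hu h7 (c' := c) (by rw [rL_stE']; exact hc)
        exact hc.congr this.symm
    | succ n ihn =>
      intro r h ht hw hn htt
      obtain ⟨o1, o2, o3, o4⟩ := order h ht
      obtain ⟨c, hc⟩ := one_X hR h ht (by omega)
      obtain ⟨t, rfl⟩ : ∃ t : P.FSt, t.stE = r := ⟨pE.symm r, by simp⟩
      have h' : CU C.toRows t := by
        have := h.W; rw [pE_s] at this; exact this.1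
      have ht' := (tr_rho_E h').1 ht
      obtain ⟨e1, e2, e3, e4, e5⟩ := row_E h' ht'
      have e7 : C.nn t + 1 = C.nn t.stE := by
        rw [e1] at hn ⊢
        split_ifs at hn ⊢
        omega
      have h7 := ihn t h' ht' (by rw [← h'.stE.2]; exact hw) (by omega) (by omega)
      have eb : C.bb (rho C.toRows t.stE) = C.bb (rho C.toRows t) := by
        rw [h'.rho_E]
        exact bb_same h'.lo_rho.rim ht' (same_E _)
      rw [eb]
      have hu : C.NV t.stE.rL C.m ≠ Ln.z := by
        rw [NV_rL_tree h ht, if_pos (by omega)]; decide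
      have := linkN' hR (s := t.stE.rL) (by omega) hu hc (c' := ψ _ k C.m)
        (by rw [rL_stN, pE_s]; exact h7)
      exact hc.congr this

/-- Value of the strand of a cut band (lower side). -/
lemma val_C1 : ∀ (n : ℕ) (r : P.FSt), Lo C.toRows r → ¬ C.tr r → C.ac r → C.na r = n →
    C.OneS ψ χ r (χ (pN.symm (C.aa r)) 0 k) := by
  have hk := C.hk
  have hm := C.hm
  intro n
  induction n with
  | zero =>
    intro r h ht hc hn
    have e := h.rho
    obtain ⟨c, h1⟩ := one_C1 hR h.CU (by rw [e]; exact ht) ⟨h.2, by rw [e]; exact hc⟩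
    have hf := (fa_cut1 h hc).1.2 hn
    have ea : C.aa r = r := ((fa_iff h.rim hc).1 hf).symm
    rw [ea]
    have hu : C.NV (pN.symm r) 0 ≠ Ln.z := by
      rw [NV_J (rw_J h.rim), C.rn r h.rim 0 (by omega), if_pos ⟨hf, rfl⟩]; decide
    obtain ⟨-, -, -, h3, h4⟩ := linkN hR (by omega) hu
    rw [stN_pN_symm] at h3 h4
    exact h1.congr ((h1.2 0 0 (by omega) (Nat.zero_le _) h3).symm.trans h4.symm)
  | succ n ihn =>
    intro r h ht hc hn
    have e := h.rho
    obtain ⟨c, h1⟩ := one_C1 hR h.CU (by rw [e]; exact ht) ⟨h.2, by rw [e]; exact hc⟩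
    obtain ⟨t, rfl⟩ : ∃ t : P.FSt, t.stE = r := ⟨pE.symm r, by simp⟩
    have h' : Lo C.toRows t := h.same (by
      have := (same_E t).symm
      exact this)
    have ht' : ¬ C.tr t := fun h2 => ht ((C.tr_E t h'.rim).2 h2)
    have hc' : C.ac t := (C.ac_E t h'.rim).1 hc
    have e' := h'.rho
    have hlt := na_lt h'.CU (by rw [e']; exact hc')
    have h2 := na_E h'.CU (by rw [e']; exact hc')
    have h3 : C.na t = n := by
      rw [h2] at hn
      split_ifs at hn
      omega
    have h4 : C.na t + 1 ≠ C.LL t := by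
      intro h5
      rw [if_pos h5] at h2
      omega
    have h7 := ihn t h' ht' hc' h3
    have ea : C.aa t.stE = C.aa t := aa_same h'.rim hc' (same_E _)
    rw [ea]
    have hu : C.EV t C.m = true := by
      rw [EV_r_cut h'.CU (by rw [e']; exact ht') (by omega)]
      exact ⟨rfl, Or.inl ⟨h'.2, by rw [e']; exact hc', h4⟩⟩
    exact h1.congr (linkE' hR (by omega) hu h7 h1).symm

/-- Value of the strand of a cut band (upper side). -/
lemma val_C5 : ∀ (n : ℕ) (r : P.FSt), CU C.toRows r → C.rw r.facet = 5 →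
    ¬ C.tr (rho C.toRows r) → C.ac r.r2 → C.na' r = n →
    C.OneS ψ χ r.r2 (χ (pN.symm (C.aa r.r2)) 0 k) := by
  have hk := C.hk
  have hm := C.hm
  intro n
  induction n with
  | zero =>
    intro r h h5 ht hc hn
    obtain ⟨c, h1⟩ := one_C5 hR h ht ⟨h5, by rw [far_rho5 h h5]; exact hc⟩
    have hr := rim5 h h5
    have hf := (fa_cut5 h h5 hc).1.2 hn
    have ea : C.aa r.r2 = r.r2 := ((fa_iff hr hc).1 hf).symm
    rw [ea]
    have hu : C.NV (pN.symm r.r2) 0 ≠ Ln.z := by
      rw [NV_J (rw_J hr), C.rn _ hr 0 (by omega), if_pos ⟨hf, rfl⟩]; decide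
    obtain ⟨-, -, -, h3, h4⟩ := linkN hR (by omega) hu
    rw [stN_pN_symm] at h3 h4
    exact h1.congr ((h1.2 0 0 (by omega) (Nat.zero_le _) h3).symm.trans h4.symm)
  | succ n ihn =>
    intro r h h5 ht hc hn
    obtain ⟨c, h1⟩ := one_C5 hR h ht ⟨h5, by rw [far_rho5 h h5]; exact hc⟩
    have h' := h.stE.1
    have h5' : C.rw r.stE.facet = 5 := by rw [h.stE.2]; exact h5
    have ht' : ¬ C.tr (rho C.toRows r.stE) := fun h2 => ht ((tr_rho_E h).1 h2)
    have hc1 : C.ac (Rows.far (rho C.toRows r)) := by rw [far_rho5 h h5]; exact hc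
    have hc' : C.ac r.stE.r2 := by
      have := (ac_far_E h).2 hc1
      rwa [far_rho5 h' h5'] at this
    have h2 := na'_E h hc1
    have h4 : C.na' r.stE + 1 ≠ C.LL r := by
      intro h6
      rw [if_pos h6] at h2
      omega
    have h3 : C.na' r.stE = n := by
      rw [if_neg h4] at h2
      omega
    have h7 := ihn r.stE h' h5' ht' hc' h3
    have hs : r.stE.r2.stE = r.r2 := FSt.stE_inv r
    have ea : C.aa r.r2 = C.aa r.stE.r2 := by
      rw [← hs]
      exact aa_same (rim5 h' h5') hc' (same_E _)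
    rw [ea]
    have hu : C.EV r.stE.r2 C.m = true := by
      rw [EV_r2_cut h' ht' (by omega)]
      refine ⟨rfl, Or.inr ⟨h5', by rw [far_rho5 h' h5']; exact hc', ?_⟩⟩
      rw [LL_E h]
      exact h4
    have := linkE' hR (s := r.stE.r2) (by omega) hu h7 (c' := c) (by rw [hs]; exact h1)
    exact h1.congr this.symm

end Rel

end JC

end Pool.Agent.MP42H
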